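import Mathlib

set_option autoImplicit false
set_option linter.all false

namespace Pool.Agent.W717.G

open Finset PowerSeries Filter Topology

theorem sum_conv_le (a b : ℕ → ℝ) (ha : ∀ i, 0 ≤ a i) (hb : ∀ i, 0 ≤ b i) (K : ℕ) :
    ∑ k ∈ range K, ∑ y ∈ antidiagonal k, a y.1 * b y.2 ≤ (∑ i ∈ range K, a i) * ∑ j ∈ range K, b j := by
  rw [Finset.sum_mul_sum, ← Finset.sum_product', Finset.sum_sigma']
  refine le_trans (le_of_eq ?_) (Finset.sum_le_sum_of_subset_of_nonneg
    (s := (((range K).sigma fun k => antidiagonal k).image fun x : (Σ _ : ℕ, ℕ × ℕ) => x.2)) ?_ ?_)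
  · rw [Finset.sum_image]
    rintro ⟨k, x⟩ hx ⟨k', x'⟩ hx' h
    simp only at h
    subst h
    simp only [Finset.coe_sigma, Set.mem_sigma_iff, Finset.mem_coe, Finset.HasAntidiagonal.mem_antidiagonal] at hx hx'
    obtain ⟨_, h1⟩ := hx
    obtain ⟨_, h2⟩ := hx'
    have : k = k' := h1.symm.trans h2
    subst this
    rfl
  · intro x hx
    rw [Finset.mem_image] at hx
    obtain ⟨⟨k, y⟩, hy, rfl⟩ := hx
    rw [Finset.mem_sigma, Finset.mem_range, Finset.HasAntidiagonal.mem_antidiagonal] at hy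
    simp only at hy
    rw [Finset.mem_product, Finset.mem_range, Finset.mem_range]
    constructor <;> simp only <;> omega
  · intro x _ _
    exact mul_nonneg (ha _) (hb _)

section cg

variable {A : Type*} [Ring A]

/-- congruence modulo `X^n` -/
def Cg (n : ℕ) (f g : PowerSeries A) : Prop := ∀ j, j < n → coeff j f = coeff j g

theorem Cg.refl (n : ℕ) (f : PowerSeries A) : Cg n f f := fun _ _ => rfl
theorem Cg.symm {n : ℕ} {f g : PowerSeries A} (h : Cg n f g) : Cg n g f := fun j hj => (h j hj).symm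
theorem Cg.trans {n : ℕ} {f g h : PowerSeries A} (h1 : Cg n f g) (h2 : Cg n g h) : Cg n f h :=
  fun j hj => (h1 j hj).trans (h2 j hj)
theorem Cg.mono {n m : ℕ} {f g : PowerSeries A} (h : Cg n f g) (hm : m ≤ n) : Cg m f g :=
  fun j hj => h j (by omega)
theorem Cg.add {n : ℕ} {f g f' g' : PowerSeries A} (h : Cg n f g) (h' : Cg n f' g') : Cg n (f + f') (g + g') := by
  intro j hj; rw [map_add, map_add, h j hj, h' j hj]
theorem Cg.sub {n : ℕ} {f g f' g' : PowerSeries A} (h : Cg n f g) (h' : Cg n f' g') : Cg n (f - f') (g - g') := by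
  intro j hj; rw [map_sub, map_sub, h j hj, h' j hj]
theorem Cg.neg {n : ℕ} {f g : PowerSeries A} (h : Cg n f g) : Cg n (-f) (-g) := by
  intro j hj; rw [map_neg, map_neg, h j hj]
theorem Cg.mul {n : ℕ} {f g f' g' : PowerSeries A} (h : Cg n f g) (h' : Cg n f' g') : Cg n (f * f') (g * g') := by
  intro j hj
  rw [coeff_mul, coeff_mul]
  apply Finset.sum_congr rfl
  intro y hy
  rw [Finset.HasAntidiagonal.mem_antidiagonal] at hy
  rw [h _ (by omega), h' _ (by omega)]

theorem Cg.inv {n : ℕ} {u v : (PowerSeries A)ˣ} (h : Cg n (u : PowerSeries A) v) :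
    Cg n ((u⁻¹ : (PowerSeries A)ˣ) : PowerSeries A) ((v⁻¹ : (PowerSeries A)ˣ) : PowerSeries A) := by
  have h3 : Cg n (u⁻¹.val * v.val * v⁻¹.val) (u⁻¹.val * u.val * v⁻¹.val) :=
    ((Cg.refl n _).mul h.symm).mul (Cg.refl n _)
  rw [mul_assoc, Units.mul_inv, mul_one, Units.inv_mul, one_mul] at h3
  exact h3

theorem unit_of_coeff0 (f : PowerSeries A) (h : coeff 0 f = 1) : ∃ u : (PowerSeries A)ˣ, (u : PowerSeries A) = f := by
  have h1 : PowerSeries.constantCoeff f = ((1 : Aˣ) : A) := by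
    rw [← coeff_zero_eq_constantCoeff_apply, h]; rfl
  exact ⟨⟨f, PowerSeries.invOfUnit f 1, PowerSeries.mul_invOfUnit f 1 h1, PowerSeries.invOfUnit_mul f 1 h1⟩, rfl⟩

theorem coeff0_mul {f g : PowerSeries A} : coeff 0 (f * g) = coeff 0 f * coeff 0 g := by
  rw [coeff_mul, Finset.Nat.antidiagonal_zero, Finset.sum_singleton]

theorem coeff0_inv {u : (PowerSeries A)ˣ} (h : coeff 0 (u : PowerSeries A) = 1) :
    coeff 0 ((u⁻¹ : (PowerSeries A)ˣ) : PowerSeries A) = 1 := by
  have h1 := congrArg (coeff 0) (Units.mul_inv u)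
  rw [coeff0_mul, h, one_mul] at h1
  rw [h1]; simp

theorem coeff_mul_of_cg {n : ℕ} {f g : PowerSeries A} (hg : Cg n g 1) (hf0 : coeff 0 f = 1) (hn : 1 ≤ n) :
    coeff n (f * g) = coeff n f + coeff n g := by
  rw [coeff_mul, Finset.Nat.sum_antidiagonal_eq_sum_range_succ_mk, Finset.sum_range_succ]
  obtain ⟨m, rfl⟩ : ∃ m, n = m + 1 := ⟨n - 1, by omega⟩
  rw [Finset.sum_range_succ']
  simp only [Nat.sub_self, Nat.sub_zero, hf0, one_mul]
  have h1 : ∑ k ∈ range m, coeff (k + 1) f * coeff (m + 1 - (k + 1)) g = 0 := by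
    apply Finset.sum_eq_zero
    intro k hk
    rw [Finset.mem_range] at hk
    rw [hg _ (by omega), coeff_one, if_neg (by omega), mul_zero]
  rw [h1, zero_add, hg 0 (by omega), coeff_one, if_pos rfl, mul_one, add_comm]

/-- membership of all coefficients in a subring -/
def Int' (O : Subring A) (f : PowerSeries A) : Prop := ∀ k, coeff k f ∈ O

theorem Int'.mul {O : Subring A} {f g : PowerSeries A} (hf : Int' O f) (hg : Int' O g) : Int' O (f * g) := by
  intro k
  rw [coeff_mul]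
  exact O.sum_mem fun y _ => O.mul_mem (hf _) (hg _)
theorem Int'.add {O : Subring A} {f g : PowerSeries A} (hf : Int' O f) (hg : Int' O g) : Int' O (f + g) := by
  intro k; rw [map_add]; exact O.add_mem (hf _) (hg _)
theorem Int'.sub {O : Subring A} {f g : PowerSeries A} (hf : Int' O f) (hg : Int' O g) : Int' O (f - g) := by
  intro k; rw [map_sub]; exact O.sub_mem (hf _) (hg _)
theorem Int'.neg {O : Subring A} {f : PowerSeries A} (hf : Int' O f) : Int' O (-f) := by
  intro k; rw [map_neg]; exact O.neg_mem (hf _)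
theorem Int'.one {O : Subring A} : Int' O (1 : PowerSeries A) := by
  intro k; rw [coeff_one]; split_ifs
  · exact O.one_mem
  · exact O.zero_mem
theorem Int'.zero {O : Subring A} : Int' O (0 : PowerSeries A) := by
  intro k; rw [map_zero]; exact O.zero_mem
theorem Int'.C {O : Subring A} {a : A} (ha : a ∈ O) : Int' O (PowerSeries.C a) := by
  intro k; rw [coeff_C]; split_ifs
  · exact ha
  · exact O.zero_mem
theorem Int'.X_pow {O : Subring A} (n : ℕ) : Int' O (X ^ n : PowerSeries A) := by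
  intro k; rw [coeff_X_pow]; split_ifs
  · exact O.one_mem
  · exact O.zero_mem

theorem Int'.inv {O : Subring A} {u : (PowerSeries A)ˣ} (hu : Int' O (u : PowerSeries A))
    (h0 : coeff 0 (u : PowerSeries A) = 1) : Int' O ((u⁻¹ : (PowerSeries A)ˣ) : PowerSeries A) := by
  intro k
  induction k using Nat.strong_induction_on with
  | _ k ih =>
    rcases Nat.eq_zero_or_pos k with hk | hk
    · subst hk; rw [coeff0_inv h0]; exact O.one_mem
    · have h1 := congrArg (coeff k) (Units.mul_inv u)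
      rw [coeff_mul, coeff_one, if_neg (by omega), Finset.Nat.sum_antidiagonal_eq_sum_range_succ_mk,
        Finset.sum_range_succ'] at h1
      simp only [Nat.sub_zero] at h1
      rw [h0, one_mul] at h1
      have h2 : coeff k ((u⁻¹ : (PowerSeries A)ˣ) : PowerSeries A) = - ∑ i ∈ range k, coeff (i + 1) (u : PowerSeries A) *
          coeff (k - (i + 1)) ((u⁻¹ : (PowerSeries A)ˣ) : PowerSeries A) := by
        rw [eq_neg_iff_add_eq_zero, add_comm]; exact h1
      rw [h2]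
      apply O.neg_mem
      apply O.sum_mem
      intro i hi
      rw [Finset.mem_range] at hi
      exact O.mul_mem (hu _) (ih _ (by omega))

end cg

section bd

variable {A : Type*} [NormedRing A]

/-- The weighted `ℓ¹` norm of `f` is at most `c`. -/
def Bd (ρ : ℝ) (f : PowerSeries A) (c : ℝ) : Prop := ∀ K, ∑ k ∈ range K, ‖coeff k f‖ * ρ ^ k ≤ c

theorem Bd.nonneg {ρ : ℝ} {f : PowerSeries A} {c : ℝ} (h : Bd ρ f c) : 0 ≤ c := by simpa using h 0

theorem Bd.le {ρ : ℝ} {f : PowerSeries A} {c c' : ℝ} (h : Bd ρ f c) (hc : c ≤ c') : Bd ρ f c' :=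
  fun K => (h K).trans hc

theorem Bd.mono {ρ ρ' : ℝ} {f : PowerSeries A} {c : ℝ} (h : Bd ρ f c) (h0 : 0 ≤ ρ') (h1 : ρ' ≤ ρ) : Bd ρ' f c := by
  intro K
  refine le_trans ?_ (h K)
  apply Finset.sum_le_sum
  intro k _
  exact mul_le_mul_of_nonneg_left (pow_le_pow_left₀ h0 h1 k) (norm_nonneg _)

theorem Bd.add {ρ : ℝ} (hρ : 0 ≤ ρ) {f g : PowerSeries A} {c d : ℝ} (hf : Bd ρ f c) (hg : Bd ρ g d) :
    Bd ρ (f + g) (c + d) := by
  intro K
  calc ∑ k ∈ range K, ‖coeff k (f + g)‖ * ρ ^ k ≤ ∑ k ∈ range K, (‖coeff k f‖ * ρ ^ k + ‖coeff k g‖ * ρ ^ k) := by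
        apply Finset.sum_le_sum
        intro k _
        rw [map_add, ← add_mul]
        exact mul_le_mul_of_nonneg_right (norm_add_le _ _) (by positivity)
    _ ≤ c + d := by rw [Finset.sum_add_distrib]; exact add_le_add (hf K) (hg K)

theorem Bd.neg {ρ : ℝ} {f : PowerSeries A} {c : ℝ} (hf : Bd ρ f c) : Bd ρ (-f) c := by
  intro K
  refine le_trans (le_of_eq ?_) (hf K)
  apply Finset.sum_congr rfl
  intro k _
  rw [map_neg, norm_neg]

theorem Bd.sub {ρ : ℝ} (hρ : 0 ≤ ρ) {f g : PowerSeries A} {c d : ℝ} (hf : Bd ρ f c) (hg : Bd ρ g d) :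
    Bd ρ (f - g) (c + d) := by
  rw [sub_eq_add_neg]
  exact hf.add hρ hg.neg

theorem Bd.mul {ρ : ℝ} (hρ : 0 ≤ ρ) {f g : PowerSeries A} {c d : ℝ} (hf : Bd ρ f c) (hg : Bd ρ g d) :
    Bd ρ (f * g) (c * d) := by
  intro K
  calc ∑ k ∈ range K, ‖coeff k (f * g)‖ * ρ ^ k
      ≤ ∑ k ∈ range K, ∑ y ∈ antidiagonal k, (‖coeff y.1 f‖ * ρ ^ y.1) * (‖coeff y.2 g‖ * ρ ^ y.2) := by
        apply Finset.sum_le_sum
        intro k _
        rw [coeff_mul]
        calc ‖∑ y ∈ antidiagonal k, coeff y.1 f * coeff y.2 g‖ * ρ ^ k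
            ≤ (∑ y ∈ antidiagonal k, ‖coeff y.1 f‖ * ‖coeff y.2 g‖) * ρ ^ k :=
              mul_le_mul_of_nonneg_right ((norm_sum_le _ _).trans
                (Finset.sum_le_sum fun _ _ => norm_mul_le _ _)) (by positivity)
          _ = _ := by
            rw [Finset.sum_mul]
            apply Finset.sum_congr rfl
            intro y hy
            rw [Finset.HasAntidiagonal.mem_antidiagonal] at hy
            rw [← hy, pow_add]
            ring
    _ ≤ (∑ i ∈ range K, ‖coeff i f‖ * ρ ^ i) * ∑ j ∈ range K, ‖coeff j g‖ * ρ ^ j :=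
        sum_conv_le (fun i => ‖coeff i f‖ * ρ ^ i) (fun j => ‖coeff j g‖ * ρ ^ j)
          (fun i => by positivity) (fun j => by positivity) K
    _ ≤ c * d := mul_le_mul (hf K) (hg K) (Finset.sum_nonneg fun j _ => by positivity) hf.nonneg

theorem Bd.zero {ρ : ℝ} : Bd ρ (0 : PowerSeries A) 0 := by
  intro K; simp

theorem Bd.C_mul_X_pow {ρ : ℝ} (hρ : 0 ≤ ρ) (a : A) (n : ℕ) : Bd ρ (C a * X ^ n : PowerSeries A) (‖a‖ * ρ ^ n) := by
  intro K
  have h1 : ∀ k ∈ range K, ‖coeff k (C a * X ^ n : PowerSeries A)‖ * ρ ^ k = if k = n then ‖a‖ * ρ ^ n else 0 := by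
    intro k _
    rw [coeff_C_mul, coeff_X_pow]
    split_ifs with h
    · rw [h, mul_one]
    · simp
  rw [Finset.sum_congr rfl h1, Finset.sum_ite_eq']
  split_ifs
  · exact le_rfl
  · positivity

theorem Bd.C {ρ : ℝ} (hρ : 0 ≤ ρ) (a : A) : Bd ρ (C a : PowerSeries A) ‖a‖ := by
  have := Bd.C_mul_X_pow hρ a 0
  simpa using this

theorem Bd.one [NormOneClass A] {ρ : ℝ} (hρ : 0 ≤ ρ) : Bd ρ (1 : PowerSeries A) 1 := by
  have := Bd.C hρ (1 : A)
  simpa using this

theorem Bd.coeff {ρ : ℝ} (hρ : 0 ≤ ρ) {f : PowerSeries A} {c : ℝ} (hf : Bd ρ f c) (k : ℕ) :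
    ‖coeff k f‖ * ρ ^ k ≤ c := by
  refine le_trans ?_ (hf (k + 1))
  exact Finset.single_le_sum (f := fun i => ‖PowerSeries.coeff i f‖ * ρ ^ i) (fun j _ => by positivity)
    (Finset.self_mem_range_succ k)

theorem Bd.sum {ρ : ℝ} (hρ : 0 ≤ ρ) {ι : Type*} (s : Finset ι) (f : ι → PowerSeries A) (c : ι → ℝ)
    (h : ∀ i ∈ s, Bd ρ (f i) (c i)) : Bd ρ (∑ i ∈ s, f i) (∑ i ∈ s, c i) := by
  classical
  induction s using Finset.induction_on with
  | empty => simpa using Bd.zero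
  | insert a s ha ih =>
    rw [Finset.sum_insert ha, Finset.sum_insert ha]
    exact (h a (Finset.mem_insert_self a s)).add hρ (ih fun i hi => h i (Finset.mem_insert_of_mem hi))

/-- the inverse of something close to one -/
theorem Bd.inv [NormOneClass A] {ρ : ℝ} (hρ : 0 ≤ ρ) {f g : PowerSeries A} {c : ℝ} (hfg : f * g = 1) (hf : Bd ρ (1 - f) c)
    (hc : c < 1) : Bd ρ g (1 / (1 - c)) := by
  have hgg : g = 1 + (1 - f) * g := by rw [sub_mul, one_mul, hfg]; abel
  have h1c : 0 < 1 - c := by linarith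
  intro K
  rw [le_div_iff₀ h1c]
  set s := ∑ k ∈ range K, ‖PowerSeries.coeff k g‖ * ρ ^ k with hs
  have h1 : s ≤ ∑ k ∈ range K, ‖PowerSeries.coeff k (1 : PowerSeries A)‖ * ρ ^ k +
      ∑ k ∈ range K, ∑ y ∈ antidiagonal k, (‖PowerSeries.coeff y.1 (1 - f)‖ * ρ ^ y.1) * (‖PowerSeries.coeff y.2 g‖ * ρ ^ y.2) := by
    rw [← Finset.sum_add_distrib, hs]
    apply Finset.sum_le_sum
    intro k _
    have h2 : PowerSeries.coeff k g = PowerSeries.coeff k (1 : PowerSeries A) + PowerSeries.coeff k ((1 - f) * g) := by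
      conv_lhs => rw [hgg]
      rw [map_add]
    rw [h2, coeff_mul]
    calc ‖PowerSeries.coeff k (1 : PowerSeries A) + ∑ y ∈ antidiagonal k, PowerSeries.coeff y.1 (1 - f) * PowerSeries.coeff y.2 g‖ * ρ ^ k
        ≤ (‖PowerSeries.coeff k (1 : PowerSeries A)‖ + ∑ y ∈ antidiagonal k, ‖PowerSeries.coeff y.1 (1 - f)‖ * ‖PowerSeries.coeff y.2 g‖) * ρ ^ k :=
          mul_le_mul_of_nonneg_right ((norm_add_le _ _).trans (add_le_add le_rfl ((norm_sum_le _ _).trans
            (Finset.sum_le_sum fun _ _ => norm_mul_le _ _)))) (by positivity)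
      _ = _ := by
        rw [add_mul]
        congr 1
        rw [Finset.sum_mul]
        apply Finset.sum_congr rfl
        intro y hy
        rw [Finset.HasAntidiagonal.mem_antidiagonal] at hy
        rw [← hy, pow_add]
        ring
  have h2 := sum_conv_le (fun i => ‖PowerSeries.coeff i (1 - f)‖ * ρ ^ i) (fun j => ‖PowerSeries.coeff j g‖ * ρ ^ j)
          (fun i => by positivity) (fun j => by positivity) K
  have h3 : (∑ i ∈ range K, ‖PowerSeries.coeff i (1 - f)‖ * ρ ^ i) * s ≤ c * s :=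
    mul_le_mul_of_nonneg_right (hf K) (Finset.sum_nonneg fun j _ => by positivity)
  have h4 := Bd.one (A := A) hρ K
  nlinarith

theorem Bd.inv_sub_one [NormOneClass A] {ρ : ℝ} (hρ : 0 ≤ ρ) {f g : PowerSeries A} {c : ℝ} (hfg : f * g = 1)
    (hf : Bd ρ (f - 1) c) (hc : c ≤ 1 / 2) : Bd ρ (g - 1) (2 * c) := by
  have hf' : Bd ρ (1 - f) c := by have := hf.neg; rwa [neg_sub] at this
  have h1 := Bd.inv hρ hfg hf' (by linarith)
  have h2 : g - 1 = (1 - f) * g := by rw [sub_mul, one_mul, hfg]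
  rw [h2]
  refine (hf'.mul hρ h1).le ?_
  have hc0 := hf.nonneg
  rw [mul_one_div, div_le_iff₀ (by linarith)]
  nlinarith

/-- coefficientwise limits -/
theorem Bd.limit {ρ : ℝ} {f : PowerSeries A} {c : ℝ} (h : ∀ K, ∃ g, Cg K f g ∧ Bd ρ g c) : Bd ρ f c := by
  intro K
  obtain ⟨g, h1, h2⟩ := h K
  refine le_trans (le_of_eq ?_) (h2 K)
  apply Finset.sum_congr rfl
  intro k hk
  rw [Finset.mem_range] at hk
  rw [h1 k hk]

theorem Bd.summable {ρ : ℝ} (hρ : 0 ≤ ρ) {f : PowerSeries A} {c : ℝ} (hf : Bd ρ f c) :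
    Summable fun k => ‖PowerSeries.coeff k f‖ * ρ ^ k :=
  summable_of_sum_range_le (fun k => by positivity) hf

end bd

end Pool.Agent.W717.G
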