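import Mathlib
import Pool.Agent.W717.G.Bn

set_option autoImplicit false
set_option linter.all false

namespace Pool.Agent.W717.G

open Finset PowerSeries Filter Topology

section eu

variable {A : Type*} [Ring A]

/-- the Euler operator -/
noncomputable def eu (f : PowerSeries A) : PowerSeries A := PowerSeries.mk fun k => k • coeff k f

theorem coeff_eu (f : PowerSeries A) (k : ℕ) : coeff k (eu f) = k • coeff k f := by
  rw [eu, coeff_mk]

theorem eu_mul (f g : PowerSeries A) : eu (f * g) = eu f * g + f * eu g := by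
  ext k
  rw [coeff_eu, map_add, coeff_mul, coeff_mul, coeff_mul, ← Finset.sum_add_distrib, Finset.smul_sum]
  apply Finset.sum_congr rfl
  intro y hy
  rw [Finset.HasAntidiagonal.mem_antidiagonal] at hy
  rw [coeff_eu, coeff_eu, smul_mul_assoc, mul_smul_comm, ← add_smul, hy]

theorem eu_one : eu (1 : PowerSeries A) = 0 := by
  ext k
  rw [coeff_eu, coeff_one, map_zero]
  split_ifs with h
  · rw [h, zero_smul]
  · rw [smul_zero]

theorem eu_add (f g : PowerSeries A) : eu (f + g) = eu f + eu g := by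
  ext k; rw [coeff_eu, map_add, map_add, coeff_eu, coeff_eu, smul_add]

theorem Cg.eu {n : ℕ} {f g : PowerSeries A} (h : Cg n f g) : Cg n (eu f) (eu g) := by
  intro j hj; rw [coeff_eu, coeff_eu, h j hj]

end eu

section D

variable {A : Type*} [Ring A] [Algebra ℝ A] {V : Type*} [AddCommGroup V] [Module ℝ V]

/-- the logarithmic derivative followed by the trace -/
noncomputable def D (κ : A →ₗ[ℝ] V) (u : (PowerSeries A)ˣ) (k : ℕ) : V := κ (coeff k (u⁻¹.val * eu u.val))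

variable {κ : A →ₗ[ℝ] V}

theorem cyc_series (hκ : ∀ a b, κ (a * b) = κ (b * a)) (f g : PowerSeries A) (k : ℕ) :
    κ (coeff k (f * g)) = κ (coeff k (g * f)) := by
  rw [coeff_mul, coeff_mul, map_sum, map_sum, ← Finset.Nat.sum_antidiagonal_swap]
  apply Finset.sum_congr rfl
  intro y _
  rw [hκ]; rfl

theorem D_mul (hκ : ∀ a b, κ (a * b) = κ (b * a)) (u v : (PowerSeries A)ˣ) (k : ℕ) :
    D κ (u * v) k = D κ u k + D κ v k := by
  unfold D
  rw [mul_inv_rev, Units.val_mul, Units.val_mul, eu_mul, mul_add, map_add, map_add]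
  congr 1
  · rw [← mul_assoc, cyc_series hκ]
    congr 2
    rw [mul_assoc v⁻¹.val, ← mul_assoc v.val, Units.mul_inv, one_mul]
  · congr 2
    rw [mul_assoc, ← mul_assoc u⁻¹.val, Units.inv_mul, one_mul]

theorem D_one (k : ℕ) : D κ (1 : (PowerSeries A)ˣ) k = 0 := by
  unfold D
  rw [Units.val_one, eu_one, mul_zero, map_zero, map_zero]

theorem D_inv (hκ : ∀ a b, κ (a * b) = κ (b * a)) (u : (PowerSeries A)ˣ) (k : ℕ) :
    D κ u⁻¹ k = - D κ u k := by
  have h := D_mul hκ u u⁻¹ k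
  rw [mul_inv_cancel, D_one] at h
  exact (neg_eq_of_add_eq_zero_right h.symm).symm

theorem D_congr {u v : (PowerSeries A)ˣ} {k : ℕ} (h : Cg (k + 1) u.val v.val) : D κ u k = D κ v k := by
  unfold D
  rw [(h.inv.mul h.eu) k (by omega)]

theorem D_lead {u : (PowerSeries A)ˣ} {k : ℕ} (hk : 1 ≤ k) (h : Cg k u.val 1) :
    D κ u k = (k : ℝ) • κ (coeff k u.val) := by
  unfold D
  have h0 : coeff 0 u.val = 1 := by rw [h 0 (by omega)]; simp
  have h1 : Cg k (eu u.val) 0 := by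
    intro j hj
    rw [coeff_eu, h j hj, coeff_one, map_zero]
    split_ifs with h'
    · rw [h', zero_smul]
    · rw [smul_zero]
  rw [coeff_mul, Finset.Nat.sum_antidiagonal_eq_sum_range_succ_mk, Finset.sum_range_succ']
  simp only [Nat.sub_zero]
  rw [Finset.sum_eq_zero, zero_add, coeff0_inv h0, one_mul, coeff_eu, ← Nat.cast_smul_eq_nsmul ℝ, map_smul]
  intro i hi
  rw [Finset.mem_range] at hi
  rw [h1 _ (by omega), map_zero, mul_zero]

theorem D_low {u : (PowerSeries A)ˣ} {k j : ℕ} (hj : j < k) (h : Cg k u.val 1) : D κ u j = 0 := by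
  rw [D_congr (v := 1) (h.mono (by omega)), D_one]

end D

section main

variable {A : Type*} [NormedRing A] [NormOneClass A] [NormedAlgebra ℝ A] {V : Type*} [AddCommGroup V] [Module ℝ V]

/-- the hypotheses of the topological `K₁` argument -/
structure Setup (ρ : ℝ) (O : Subring A) (κ : A →ₗ[ℝ] V) (Γ : Subgroup (PowerSeries A)ˣ) : Prop where
  ρ0 : 0 < ρ
  ρ1 : ρ < 1
  cyc : ∀ a b, κ (a * b) = κ (b * a)
  ΓO : ∀ u ∈ Γ, Int' O u.val
  ΓD : ∀ u ∈ Γ, ∀ k, D κ u k = 0
  Γb : ∀ u ∈ Γ, ∃ c, Bd ρ u.val c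
  gen : ∃ C : ℝ, 0 ≤ C ∧ ∀ a, κ a = 0 → ∀ n, 1 ≤ n → ∃ u : (PowerSeries A)ˣ,
     (∀ k, D κ u k = 0) ∧ Cg n u.val 1 ∧ coeff n u.val = a ∧ (a ∈ O → u ∈ Γ) ∧
     (‖a‖ * ρ ^ n ≤ 1 → Bd ρ (u.val - 1 - PowerSeries.C a * X ^ n) (C * (‖a‖ * ρ ^ n) ^ 2))
  round : ∃ C : ℝ, 0 ≤ C ∧ ∀ r, (∃ b ∈ O, κ b = κ r) → ∃ a ∈ O, κ a = κ r ∧ ‖a - r‖ ≤ C

variable {ρ : ℝ} {O : Subring A} {κ : A →ₗ[ℝ] V} {Γ : Subgroup (PowerSeries A)ˣ}

/-- formal reduction of an integral series modulo `X^k` -/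
theorem Setup.red (S : Setup ρ O κ Γ) {T : (PowerSeries A)ˣ} (hT : Int' O T.val) (h0 : coeff 0 T.val = 1) (k : ℕ)
    (hD : ∀ j, j < k → D κ T j = 0) : ∃ γ ∈ Γ, Cg k (T * γ).val 1 := by
  induction k with
  | zero => exact ⟨1, Γ.one_mem, fun j hj => by omega⟩
  | succ k ih =>
    obtain ⟨γ, hγ, hc⟩ := ih (fun j hj => hD j (by omega))
    rcases Nat.eq_zero_or_pos k with hk | hk
    · subst hk
      refine ⟨1, Γ.one_mem, fun j hj => ?_⟩
      obtain rfl : j = 0 := by omega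
      rw [mul_one, h0]; simp
    · obtain ⟨C, hC, hgen⟩ := S.gen
      set a := coeff k (T * γ).val with ha
      have haO : a ∈ O := by rw [ha, Units.val_mul]; exact hT.mul (S.ΓO γ hγ) k
      have hκa : κ a = 0 := by
        have h1 : D κ (T * γ) k = (k : ℝ) • κ a := D_lead hk hc
        rw [D_mul S.cyc, hD k (by omega), S.ΓD γ hγ, add_zero] at h1
        have hk' : (k : ℝ) ≠ 0 := by positivity
        exact (smul_eq_zero.mp h1.symm).resolve_left hk'
      obtain ⟨u, hu1, hu2, hu3, hu4, hu5⟩ := hgen (-a) (by rw [map_neg, hκa, neg_zero]) k hk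
      refine ⟨γ * u, Γ.mul_mem hγ (hu4 (O.neg_mem haO)), ?_⟩
      rw [← mul_assoc, Units.val_mul]
      intro j hj
      by_cases hjk : j < k
      · have := (hc.mul hu2) j hjk
        rwa [one_mul] at this
      · obtain rfl : j = k := by omega
        rw [coeff_mul_of_cg hu2 (by rw [hc 0 hk]; simp) hk, ← ha, hu3, coeff_one, if_neg (by omega)]
        abel

theorem Setup.kint (S : Setup ρ O κ Γ) {P : (PowerSeries A)ˣ} (h0 : coeff 0 P.val = 1) (hD : ∀ j, D κ P j = 0) {k : ℕ}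
    (hk : 1 ≤ k) (hP : ∀ j, j < k → coeff j P.val ∈ O) : ∃ b ∈ O, κ b = κ (coeff k P.val) := by
  obtain ⟨T, hT⟩ := unit_of_coeff0 (PowerSeries.mk fun j => if j < k then coeff j P.val else 0)
    (by rw [coeff_mk, if_pos (by omega), h0])
  have hTc : ∀ j, coeff j T.val = if j < k then coeff j P.val else 0 := by intro j; rw [hT, coeff_mk]
  have hTO : Int' O T.val := by
    intro j
    rw [hTc]
    split_ifs with h
    · exact hP j h
    · exact O.zero_mem
  have hT0 : coeff 0 T.val = 1 := by rw [hTc, if_pos (by omega), h0]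
  have hTP : Cg k T.val P.val := by intro j hj; rw [hTc, if_pos hj]
  have hDT : ∀ j, j < k → D κ T j = 0 := by
    intro j hj
    rw [D_congr (v := P) (hTP.mono (by omega)), hD]
  obtain ⟨γ, hγ, hc⟩ := S.red hTO hT0 k hDT
  set a := coeff k (T * γ).val with ha
  have haO : a ∈ O := by rw [ha, Units.val_mul]; exact hTO.mul (S.ΓO γ hγ) k
  have h1 : D κ (T * γ) k = (k : ℝ) • κ a := D_lead hk hc
  rw [D_mul S.cyc, S.ΓD γ hγ, add_zero] at h1
  -- `W = T⁻¹ P`
  have hW : Cg k (T⁻¹ * P).val 1 := by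
    rw [Units.val_mul]
    have := (Cg.refl k T⁻¹.val).mul hTP.symm
    rwa [Units.inv_mul] at this
  have h2 : D κ (T⁻¹ * P) k = (k : ℝ) • κ (coeff k (T⁻¹ * P).val) := D_lead hk hW
  rw [D_mul S.cyc, D_inv S.cyc, hD, add_zero, h1] at h2
  have h3 : coeff k P.val = coeff k (T⁻¹ * P).val := by
    have h4 : P = T * (T⁻¹ * P) := by rw [mul_inv_cancel_left]
    have h5 : P.val = T.val * (T⁻¹ * P).val := by
      conv_lhs => rw [h4]
      rw [Units.val_mul]
    rw [congrArg (coeff k) h5, coeff_mul_of_cg hW hT0 hk, hTc, if_neg (by omega), zero_add]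
  refine ⟨-a, O.neg_mem haO, ?_⟩
  rw [h3, map_neg]
  have hk' : (k : ℝ) ≠ 0 := by positivity
  rw [← smul_neg] at h2
  exact smul_right_injective V hk' h2

/-- multiplicative rounding -/
theorem Setup.rnd (S : Setup ρ O κ Γ) (ε : ℝ) (hε : 0 < ε) (hε1 : ε ≤ 1 / 2) : ∃ K : ℕ, 1 ≤ K ∧
    ∀ P : (PowerSeries A)ˣ, coeff 0 P.val = 1 → (∀ j, D κ P j = 0) → (∀ j, j < K → coeff j P.val ∈ O) →
      ∃ B : (PowerSeries A)ˣ, (∀ j, D κ B j = 0) ∧ Cg K B.val 1 ∧ Int' O (P * B).val ∧ Bd ρ (B.val - 1) ε ∧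
        Bd ρ (B⁻¹.val - 1) (2 * ε) := by
  have hρ0 := S.ρ0
  have hρ1 := S.ρ1
  obtain ⟨C, hC, hgen⟩ := S.gen
  obtain ⟨C0, hC0, hround⟩ := S.round
  set C1 : ℝ := C0 + C * C0 ^ 2 with hC1
  have hC10 : 0 ≤ C1 := by positivity
  have h1ρ : 0 < 1 - ρ := by linarith
  obtain ⟨K, hK⟩ : ∃ K : ℕ, 1 ≤ K ∧ C0 * ρ ^ K ≤ 1 ∧ 2 * C1 * ρ ^ K / (1 - ρ) ≤ ε := by
    have ht : Tendsto (fun K : ℕ => ρ ^ K) atTop (𝓝 0) := tendsto_pow_atTop_nhds_zero_of_lt_one hρ0.le hρ1
    have h1 : ∀ᶠ K : ℕ in atTop, C0 * ρ ^ K < 1 := by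
      have := ht.const_mul C0
      rw [mul_zero] at this
      exact this.eventually (gt_mem_nhds (by norm_num))
    have h2 : ∀ᶠ K : ℕ in atTop, 2 * C1 * ρ ^ K / (1 - ρ) < ε := by
      have := (ht.const_mul (2 * C1)).div_const (1 - ρ)
      rw [mul_zero, zero_div] at this
      exact this.eventually (gt_mem_nhds hε)
    obtain ⟨K, hK⟩ := ((h1.and h2).and (eventually_ge_atTop 1)).exists
    exact ⟨K, hK.2, hK.1.1.le, hK.1.2.le⟩
  obtain ⟨hK1, hKa, hKb⟩ := hK
  refine ⟨K, hK1, ?_⟩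
  intro P hP0 hPD hPO
  set β : ℕ → ℝ := fun k => 2 * C1 * (ρ ^ K - ρ ^ k) / (1 - ρ) with hβ
  have hβε : ∀ k, β k ≤ ε := by
    intro k
    refine le_trans ?_ hKb
    rw [hβ]
    apply div_le_div_of_nonneg_right _ h1ρ.le
    have : 0 ≤ ρ ^ k := by positivity
    nlinarith
  let good : ℕ → (PowerSeries A)ˣ → Prop := fun k B => (∀ j, D κ B j = 0) ∧ Cg K B.val 1 ∧
    (∀ j, j < k → coeff j (P * B).val ∈ O) ∧ Bd ρ (B.val - 1) (β k)
  have step : ∀ k, K ≤ k → ∀ B, good k B → ∃ u : (PowerSeries A)ˣ, Cg k u.val 1 ∧ good (k + 1) (B * u) := by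
    rintro k hk B ⟨h1, h2, h3, h4⟩
    have hPB0 : coeff 0 (P * B).val = 1 := by
      rw [Units.val_mul, coeff0_mul, hP0, h2 0 (by omega)]; simp
    have hPBD : ∀ j, D κ (P * B) j = 0 := by intro j; rw [D_mul S.cyc, hPD, h1, add_zero]
    obtain ⟨b, hb, hbκ⟩ := S.kint hPB0 hPBD (k := k) (by omega) h3
    obtain ⟨a, haO, haκ, har⟩ := hround (coeff k (P * B).val) ⟨b, hb, hbκ⟩
    set δ := a - coeff k (P * B).val with hδ
    obtain ⟨u, hu1, hu2, hu3, hu4, hu5⟩ := hgen δ (by rw [hδ, map_sub, haκ, sub_self]) k (by omega)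
    have hρk : ρ ^ k ≤ ρ ^ K := pow_le_pow_of_le_one hρ0.le hρ1.le hk
    have hρk0 : 0 < ρ ^ k := by positivity
    have hδρ : ‖δ‖ * ρ ^ k ≤ C0 * ρ ^ k := mul_le_mul_of_nonneg_right har hρk0.le
    have hδ1 : ‖δ‖ * ρ ^ k ≤ 1 := hδρ.trans ((mul_le_mul_of_nonneg_left hρk hC0).trans hKa)
    have hb1 := hu5 hδ1
    have hub : Bd ρ (u.val - 1) (C1 * ρ ^ k) := by
      have h5 : u.val - 1 = (u.val - 1 - PowerSeries.C δ * X ^ k) + PowerSeries.C δ * X ^ k := by abel
      rw [h5]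
      refine (hb1.add hρ0.le (Bd.C_mul_X_pow hρ0.le δ k)).le ?_
      have h6 : (‖δ‖ * ρ ^ k) ^ 2 ≤ C0 ^ 2 * ρ ^ k := by
        have h7 : (‖δ‖ * ρ ^ k) ^ 2 ≤ (C0 * ρ ^ k) ^ 2 := pow_le_pow_left₀ (by positivity) hδρ 2
        refine h7.trans ?_
        rw [mul_pow]
        apply mul_le_mul_of_nonneg_left _ (by positivity)
        have : ρ ^ k ≤ 1 := pow_le_one₀ hρ0.le hρ1.le
        nlinarith
      have h8 := mul_le_mul_of_nonneg_left h6 hC
      calc C * (‖δ‖ * ρ ^ k) ^ 2 + ‖δ‖ * ρ ^ k ≤ C * (C0 ^ 2 * ρ ^ k) + C0 * ρ ^ k := add_le_add h8 hδρ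
        _ = C1 * ρ ^ k := by rw [hC1]; ring
    refine ⟨u, hu2, ?_, ?_, ?_, ?_⟩
    · intro j; rw [D_mul S.cyc, h1, hu1, add_zero]
    · rw [Units.val_mul]
      have := h2.mul (hu2.mono hk)
      rwa [one_mul] at this
    · intro j hj
      rw [← mul_assoc, Units.val_mul]
      by_cases hjk : j < k
      · rw [((Cg.refl k (P * B).val).mul hu2) j hjk, mul_one]
        exact h3 j hjk
      · obtain rfl : j = k := by omega
        rw [coeff_mul_of_cg hu2 hPB0 (by omega), hu3, hδ]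
        have : coeff j (P * B).val + (a - coeff j (P * B).val) = a := by abel
        rw [this]; exact haO
    · rw [Units.val_mul]
      have h5 : B.val * u.val - 1 = (B.val - 1) + (u.val - 1) + (B.val - 1) * (u.val - 1) := by noncomm_ring
      rw [h5]
      refine ((h4.add hρ0.le hub).add hρ0.le (h4.mul hρ0.le hub)).le ?_
      have hβ1 : β k ≤ 1 := (hβε k).trans (by linarith)
      have h6 : β (k + 1) = β k + 2 * C1 * ρ ^ k := by
        rw [hβ]
        simp only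
        rw [pow_succ]
        field_simp
        ring
      rw [h6]
      have : 0 ≤ C1 * ρ ^ k := by positivity
      nlinarith
  have base : good (K + 0) 1 := by
    refine ⟨fun j => D_one j, fun j _ => by rw [Units.val_one], fun j hj => ?_, ?_⟩
    · rw [mul_one]; exact hPO j (by omega)
    · rw [Units.val_one, sub_self]
      refine Bd.zero.le ?_
      rw [hβ]
      simp
  choose! nx hnx1 hnx2 using step
  let seq : ∀ i : ℕ, (PowerSeries A)ˣ := fun i => Nat.rec 1 (fun i B => B * nx (K + i) B) i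
  have hseq0 : seq 0 = 1 := rfl
  have hseqs : ∀ i, seq (i + 1) = seq i * nx (K + i) (seq i) := fun i => rfl
  have hgood : ∀ i, good (K + i) (seq i) := by
    intro i
    induction i with
    | zero => exact base
    | succ i ih => rw [hseqs]; exact hnx2 (K + i) (by omega) _ ih
  have hstab1 : ∀ i, Cg (K + i) (seq (i + 1)).val (seq i).val := by
    intro i
    rw [hseqs, Units.val_mul]
    have := (Cg.refl (K + i) (seq i).val).mul (hnx1 (K + i) (by omega) _ (hgood i))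
    rwa [mul_one] at this
  have hstab : ∀ i d, Cg (K + i) (seq (i + d)).val (seq i).val := by
    intro i d
    induction d with
    | zero => exact Cg.refl _ _
    | succ d ih => exact ((hstab1 (i + d)).mono (by omega)).trans ih
  obtain ⟨B, hB⟩ := unit_of_coeff0 (PowerSeries.mk fun j => coeff j (seq (j + 1)).val)
    (by
      rw [coeff_mk]
      have h1 := (hgood 1).2.1 0 (by omega)
      change coeff 0 (seq 1).val = 1
      rw [h1]; simp)
  have hBs : ∀ i, Cg (K + i) B.val (seq i).val := by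
    intro i j hj
    rw [hB, coeff_mk]
    rcases le_total i (j + 1) with h | h
    · obtain ⟨d, hd⟩ := Nat.exists_eq_add_of_le h
      rw [hd]; exact hstab i d j hj
    · obtain ⟨d, hd⟩ := Nat.exists_eq_add_of_le h
      rw [hd]; exact (hstab (j + 1) d j (by omega)).symm
  have hBb : Bd ρ (B.val - 1) ε := by
    apply Bd.limit
    intro i
    exact ⟨(seq i).val - 1, ((hBs i).mono (by omega)).sub (Cg.refl _ _), (hgood i).2.2.2.le (hβε _)⟩
  refine ⟨B, ?_, ?_, ?_, hBb, ?_⟩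
  · intro j
    rw [D_congr (v := seq (j + 1)) ((hBs (j + 1)).mono (by omega))]
    exact (hgood (j + 1)).1 j
  · exact ((hBs 0).trans (by rw [hseq0, Units.val_one]; exact Cg.refl _ _)).mono (by omega)
  · intro j
    have h1 : coeff j (P * B).val = coeff j (P * seq (j + 1)).val := by
      rw [Units.val_mul, Units.val_mul]
      exact ((Cg.refl (K + (j + 1)) P.val).mul (hBs (j + 1))) j (by omega)
    rw [h1]
    exact (hgood (j + 1)).2.2.1 j (by omega)
  · exact Bd.inv_sub_one hρ0.le (Units.mul_inv B) hBb hε1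

end main

end Pool.Agent.W717.G
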