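import Mathlib
import Pool.Agent.W717.G.K1

set_option autoImplicit false
set_option linter.all false

namespace Pool.Agent.W717.G

open Finset PowerSeries Filter Topology

theorem Bd_rest {A : Type*} [NormedRing A] {ρ : ℝ} (hρ : 0 ≤ ρ) {f : PowerSeries A} {ξ : ℝ} (hf : Bd ρ f ξ) {n : ℕ}
    (h : Cg n f 0) : Bd ρ (f - C (coeff n f) * X ^ n) (ξ - ‖coeff n f‖ * ρ ^ n) := by
  intro K
  have h1 : ∀ k, ‖coeff k (f - C (coeff n f) * X ^ n)‖ * ρ ^ k = ‖coeff k f‖ * ρ ^ k - if k = n then ‖coeff n f‖ * ρ ^ n else 0 := by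
    intro k
    rw [map_sub, coeff_C_mul, coeff_X_pow]
    split_ifs with hk
    · subst hk; simp
    · simp
  simp_rw [h1]
  rw [Finset.sum_sub_distrib, Finset.sum_ite_eq']
  split_ifs with hn
  · linarith [hf K]
  · rw [Finset.mem_range, not_lt] at hn
    have h2 : ∑ k ∈ range K, ‖coeff k f‖ * ρ ^ k = 0 := by
      apply Finset.sum_eq_zero
      intro k hk
      rw [Finset.mem_range] at hk
      rw [h k (by omega), map_zero, norm_zero, zero_mul]
    rw [h2]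
    have := hf.coeff hρ n
    linarith

section main

variable {A : Type*} [NormedRing A] [NormOneClass A] [NormedAlgebra ℝ A] {V : Type*} [AddCommGroup V] [Module ℝ V]
variable {ρ : ℝ} {O : Subring A} {κ : A →ₗ[ℝ] V} {Γ : Subgroup (PowerSeries A)ˣ}

/-- local triviality -/
theorem Setup.loc (S : Setup ρ O κ Γ) : ∃ ξ0 : ℝ, 0 < ξ0 ∧ ξ0 ≤ 1 ∧ ∀ P : (PowerSeries A)ˣ, Int' O P.val → coeff 0 P.val = 1 →
    (∀ j, D κ P j = 0) → Bd ρ (P.val - 1) ξ0 → ∀ ε : ℝ, 0 < ε → ∃ γ ∈ Γ, Bd ρ ((P * γ).val - 1) ε := by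
  have hρ0 := S.ρ0
  have hρ1 := S.ρ1
  obtain ⟨C, hC, hgen⟩ := S.gen
  refine ⟨1 / (4 * (C + 1)), by positivity, ?_, ?_⟩
  · rw [div_le_one (by positivity)]; linarith
  set ξ0 : ℝ := 1 / (4 * (C + 1)) with hξ0
  have hξ0p : 0 < ξ0 := by positivity
  have hξ0C : (2 * C + 1) * ξ0 ≤ 1 / 2 := by
    rw [hξ0, mul_one_div, div_le_div_iff₀ (by positivity) (by norm_num)]
    linarith
  have hξ01 : ξ0 ≤ 1 := by nlinarith
  intro P hPO hP0 hPD hPb ε hε
  let good : ℕ → (PowerSeries A)ˣ × ℝ → Prop := fun n g => g.1 ∈ Γ ∧ Cg n (P * g.1).val 1 ∧ Bd ρ ((P * g.1).val - 1) g.2 ∧ g.2 ≤ ξ0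
  have step : ∀ n, 1 ≤ n → ∀ g, good n g → ∃ g' : (PowerSeries A)ˣ × ℝ, good (n + 1) g' ∧ g'.2 ≤ g.2 ∧
      Bd ρ ((P * g'.1).val - (P * g.1).val) (4 * (1 + C) * (g.2 - g'.2)) := by
    rintro n hn ⟨γ, ξ⟩ ⟨h1, h2, h3, h4⟩
    simp only at h1 h2 h3 h4
    set a := coeff n (P * γ).val with ha
    have haO : a ∈ O := by rw [ha, Units.val_mul]; exact hPO.mul (S.ΓO γ h1) n
    have hκa : κ a = 0 := by
      have e1 : D κ (P * γ) n = (n : ℝ) • κ a := D_lead hn h2
      rw [D_mul S.cyc, hPD, S.ΓD γ h1, add_zero] at e1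
      have hk' : (n : ℝ) ≠ 0 := by positivity
      exact (smul_eq_zero.mp e1.symm).resolve_left hk'
    set f := (P * γ).val - 1 with hf
    have hfc : Cg n f 0 := by
      have := h2.sub (Cg.refl n (1 : PowerSeries A))
      rwa [sub_self] at this
    have hfa : coeff n f = a := by rw [hf, map_sub, ← ha, coeff_one, if_neg (by omega), sub_zero]
    set α := ‖a‖ * ρ ^ n with hα
    have hα0 : 0 ≤ α := by positivity
    have hαξ : α ≤ ξ := by
      have := h3.coeff hρ0.le n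
      rwa [hfa] at this
    have hrest := Bd_rest hρ0.le h3 hfc
    rw [hfa] at hrest
    obtain ⟨u, hu1, hu2, hu3, hu4, hu5⟩ := hgen (-a) (by rw [map_neg, hκa, neg_zero]) n hn
    rw [norm_neg] at hu5
    have hy := hu5 (hαξ.trans (h4.trans hξ01))
    rw [← hα] at hy
    have hξ0' : 0 ≤ ξ := hα0.trans hαξ
    have hξ1 : ξ ≤ 1 := h4.trans hξ01
    have hα1 : α ≤ 1 := hαξ.trans hξ1
    set y := u.val - 1 - PowerSeries.C (-a) * X ^ n with hydef
    have hua : u.val = 1 - PowerSeries.C a * X ^ n + y := by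
      rw [hydef, map_neg]; noncomm_ring
    have hax := Bd.C_mul_X_pow hρ0.le a n
    rw [← hα] at hax
    refine ⟨(γ * u, ξ - α / 2), ⟨Γ.mul_mem h1 (hu4 (O.neg_mem haO)), ?_, ?_, by simp only; linarith⟩, by simp only; linarith, ?_⟩
    · simp only
      rw [← mul_assoc, Units.val_mul]
      intro j hj
      by_cases hjk : j < n
      · have := (h2.mul hu2) j hjk
        rwa [one_mul] at this
      · obtain rfl : j = n := by omega
        rw [coeff_mul_of_cg hu2 (by rw [h2 0 hn]; simp) hn, ← ha, hu3, coeff_one, if_neg (by omega)]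
        abel
    · simp only
      have e1 : (P * (γ * u)).val - 1 = (f - PowerSeries.C a * X ^ n) + y - f * (PowerSeries.C a * X ^ n) + f * y := by
        rw [← mul_assoc, Units.val_mul, hua]
        have : (P * γ).val = 1 + f := by rw [hf]; abel
        rw [this]
        noncomm_ring
      rw [e1]
      refine (((hrest.add hρ0.le hy).sub hρ0.le (h3.mul hρ0.le hax)).add hρ0.le (h3.mul hρ0.le hy)).le ?_
      have e2 : C * α ^ 2 ≤ C * ξ * α := by nlinarith [mul_nonneg hC hα0]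
      have e3 : ξ * (C * α ^ 2) ≤ C * ξ * α := by
        have : α ^ 2 ≤ α := by nlinarith
        have := mul_le_mul_of_nonneg_left this (mul_nonneg hC hξ0')
        nlinarith
      have e4 : (2 * C + 1) * ξ ≤ 1 / 2 := le_trans (mul_le_mul_of_nonneg_left h4 (by positivity)) hξ0C
      have e5 := mul_le_mul_of_nonneg_right e4 hα0
      nlinarith
    · simp only
      have e1 : (P * (γ * u)).val - (P * γ).val = (1 + f) * (y - PowerSeries.C a * X ^ n) := by
        rw [← mul_assoc, Units.val_mul, hua]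
        have : (P * γ).val = 1 + f := by rw [hf]; abel
        rw [this]
        noncomm_ring
      rw [e1]
      refine ((((Bd.one hρ0.le).add hρ0.le h3)).mul hρ0.le (hy.sub hρ0.le hax)).le ?_
      have e2 : C * α ^ 2 + α ≤ (1 + C) * α := by nlinarith [mul_nonneg hC hα0]
      calc (1 + ξ) * (C * α ^ 2 + α) ≤ 2 * ((1 + C) * α) := by
            apply mul_le_mul (by linarith) e2 (by positivity) (by norm_num)
        _ = 4 * (1 + C) * (ξ - (ξ - α / 2)) := by ring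
  have base : good (0 + 1) (1, ξ0) := by
    refine ⟨Γ.one_mem, ?_, ?_, le_rfl⟩
    · intro j hj
      obtain rfl : j = 0 := by omega
      simp only [mul_one]
      rw [hP0]; simp
    · simp only [mul_one]; exact hPb
  choose! nx hnx1 hnx2 hnx3 using step
  let seq : ℕ → (PowerSeries A)ˣ × ℝ := fun i => Nat.rec (1, ξ0) (fun i B => nx (i + 1) B) i
  have hseqs : ∀ i, seq (i + 1) = nx (i + 1) (seq i) := fun i => rfl
  have hgood : ∀ i, good (i + 1) (seq i) := by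
    intro i
    induction i with
    | zero => exact base
    | succ i ih => rw [hseqs]; exact hnx1 (i + 1) (by omega) _ ih
  have hanti : ∀ i, (seq (i + 1)).2 ≤ (seq i).2 := by
    intro i; rw [hseqs]; exact hnx2 (i + 1) (by omega) _ (hgood i)
  have hdiff : ∀ i d, Bd ρ ((P * (seq (i + d)).1).val - (P * (seq i).1).val) (4 * (1 + C) * ((seq i).2 - (seq (i + d)).2)) := by
    intro i d
    induction d with
    | zero => simp only [add_zero, sub_self]; exact Bd.zero.le (by simp)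
    | succ d ih =>
      have e1 : (P * (seq (i + (d + 1))).1).val - (P * (seq i).1).val =
          ((P * (seq (i + d + 1)).1).val - (P * (seq (i + d)).1).val) + ((P * (seq (i + d)).1).val - (P * (seq i).1).val) := by
        rw [← add_assoc i d 1]; abel
      rw [e1]
      have e2 := hnx3 (i + d + 1) (by omega) _ (hgood (i + d))
      rw [← hseqs] at e2
      refine (e2.add hρ0.le ih).le (le_of_eq ?_)
      rw [← add_assoc i d 1]; ring
  have hnn : ∀ i, 0 ≤ (seq i).2 := fun i => (hgood i).2.2.1.nonneg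
  obtain ⟨L, hL⟩ : ∃ L, Tendsto (fun i => (seq i).2) atTop (𝓝 L) :=
    ⟨_, tendsto_atTop_ciInf (antitone_nat_of_succ_le hanti) ⟨0, by rintro _ ⟨i, rfl⟩; exact hnn i⟩⟩
  have hLle : ∀ i, L ≤ (seq i).2 := fun i => (antitone_nat_of_succ_le hanti).le_of_tendsto hL i
  obtain ⟨n, hn⟩ : ∃ n, (seq n).2 < L + ε / (4 * (1 + C)) :=
    (hL.eventually (gt_mem_nhds (by have : 0 < ε / (4 * (1 + C)) := by positivity
                                    linarith))).exists
  refine ⟨(seq n).1, (hgood n).1, ?_⟩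
  apply Bd.limit
  intro K
  refine ⟨(P * (seq n).1).val - (P * (seq (n + K)).1).val, ?_, ?_⟩
  · refine Cg.sub (Cg.refl _ _) ?_
    exact ((hgood (n + K)).2.1.mono (by omega)).symm
  · have e1 := (hdiff n K).neg
    rw [neg_sub] at e1
    refine e1.le ?_
    have e2 := hLle (n + K)
    have e3 : (seq n).2 - (seq (n + K)).2 ≤ ε / (4 * (1 + C)) := by linarith
    calc 4 * (1 + C) * ((seq n).2 - (seq (n + K)).2) ≤ 4 * (1 + C) * (ε / (4 * (1 + C))) :=
          mul_le_mul_of_nonneg_left e3 (by positivity)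
      _ = ε := by field_simp

/-- approximable by elements of `Γ` -/
def InCl (ρ : ℝ) (Γ : Subgroup (PowerSeries A)ˣ) (P : (PowerSeries A)ˣ) : Prop :=
  ∀ ε : ℝ, 0 < ε → ∃ γ ∈ Γ, Bd ρ (P.val - γ.val) ε

theorem InCl.of (hρ : 0 ≤ ρ) {P : (PowerSeries A)ˣ} {b : ℝ} (hb : Bd ρ P.val b)
    (h : ∀ ε : ℝ, 0 < ε → ∃ γ ∈ Γ, Bd ρ ((P * γ).val - 1) ε) : InCl ρ Γ P := by
  intro ε hε
  have hb0 := hb.nonneg
  obtain ⟨γ, hγ, h1⟩ := h (min (1 / 2) (ε / (2 * b + 1))) (lt_min (by norm_num) (by positivity))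
  set ε' := min (1 / 2) (ε / (2 * b + 1)) with hε'
  have hε'0 : 0 < ε' := lt_min (by norm_num) (by positivity)
  have hε1 : ε' ≤ 1 / 2 := min_le_left _ _
  have hε2 : ε' ≤ ε / (2 * b + 1) := min_le_right _ _
  refine ⟨γ⁻¹, Γ.inv_mem hγ, ?_⟩
  have h2 : Bd ρ (P * γ)⁻¹.val 2 := by
    have h1' : Bd ρ (1 - (P * γ).val) ε' := by have := h1.neg; rwa [neg_sub] at this
    refine (Bd.inv hρ (Units.mul_inv (P * γ)) h1' (by linarith)).le ?_
    rw [div_le_iff₀ (by linarith)]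
    linarith
  have h3 : γ⁻¹ = (P * γ)⁻¹ * P := by rw [mul_inv_rev, mul_assoc, inv_mul_cancel, mul_one]
  have h4 : Bd ρ γ⁻¹.val (2 * b) := by
    rw [h3, Units.val_mul]; exact h2.mul hρ hb
  have h5 : P.val - γ⁻¹.val = ((P * γ).val - 1) * γ⁻¹.val := by
    rw [sub_mul, one_mul, ← Units.val_mul, mul_inv_cancel_right]
  rw [h5]
  refine (h1.mul hρ h4).le ?_
  rw [le_div_iff₀ (by positivity)] at hε2
  nlinarith

theorem InCl.mul (hρ : 0 ≤ ρ) {P Q : (PowerSeries A)ˣ} {p q : ℝ} (hp : Bd ρ P.val p) (hq : Bd ρ Q.val q)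
    (hP : InCl ρ Γ P) (hQ : InCl ρ Γ Q) : InCl ρ Γ (P * Q) := by
  intro ε hε
  have hp0 := hp.nonneg
  have hq0 := hq.nonneg
  obtain ⟨γ, hγ, h1⟩ := hP (min 1 (ε / (2 * (q + 1)))) (lt_min (by norm_num) (by positivity))
  obtain ⟨δ, hδ, h2⟩ := hQ (ε / (2 * (p + 2))) (by positivity)
  set ε1 := min 1 (ε / (2 * (q + 1))) with hε1
  have hε10 : 0 < ε1 := lt_min (by norm_num) (by positivity)
  have hε11 : ε1 ≤ 1 := min_le_left _ _
  have hε12 : ε1 ≤ ε / (2 * (q + 1)) := min_le_right _ _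
  set ε2 := ε / (2 * (p + 2)) with hε2
  have hε20 : 0 < ε2 := by positivity
  refine ⟨γ * δ, Γ.mul_mem hγ hδ, ?_⟩
  have h3 : (P * Q).val - (γ * δ).val = (P.val - γ.val) * Q.val + γ.val * (Q.val - δ.val) := by
    rw [Units.val_mul, Units.val_mul]; noncomm_ring
  have h4 : Bd ρ γ.val (p + ε1) := by
    have : γ.val = P.val - (P.val - γ.val) := by abel
    rw [this]; exact hp.sub hρ h1
  rw [h3]
  refine ((h1.mul hρ hq).add hρ (h4.mul hρ h2)).le ?_
  have e1 : ε1 * q ≤ ε / 2 := by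
    rw [le_div_iff₀ (by positivity)] at hε12
    nlinarith
  have e2 : (p + ε1) * ε2 ≤ ε / 2 := by
    have : ε2 * (2 * (p + 2)) = ε := by rw [hε2]; field_simp
    nlinarith
  linarith

/-- rescaling -/
noncomputable def rs (s : ℝ) (f : PowerSeries A) : PowerSeries A := PowerSeries.mk fun k => s ^ k • coeff k f

theorem coeff_rs (s : ℝ) (f : PowerSeries A) (k : ℕ) : coeff k (rs s f) = s ^ k • coeff k f := by rw [rs, coeff_mk]

theorem rs_mul (s : ℝ) (f g : PowerSeries A) : rs s (f * g) = rs s f * rs s g := by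
  ext k
  rw [coeff_rs, coeff_mul, coeff_mul, Finset.smul_sum]
  apply Finset.sum_congr rfl
  intro y hy
  rw [Finset.HasAntidiagonal.mem_antidiagonal] at hy
  rw [coeff_rs, coeff_rs, smul_mul_smul_comm, ← pow_add, hy]

theorem rs_one (s : ℝ) : rs s (1 : PowerSeries A) = 1 := by
  ext k
  rw [coeff_rs, coeff_one]
  split_ifs with h
  · rw [h, pow_zero, one_smul]
  · rw [smul_zero]

theorem rs_eu (s : ℝ) (f : PowerSeries A) : eu (rs s f) = rs s (eu f) := by
  ext k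
  rw [coeff_eu, coeff_rs, coeff_rs, coeff_eu, smul_comm]

/-- rescaling of units -/
noncomputable def rsU (s : ℝ) (u : (PowerSeries A)ˣ) : (PowerSeries A)ˣ :=
  ⟨rs s u.val, rs s u⁻¹.val, by rw [← rs_mul, Units.mul_inv, rs_one], by rw [← rs_mul, Units.inv_mul, rs_one]⟩

theorem rsU_val (s : ℝ) (u : (PowerSeries A)ˣ) : (rsU s u).val = rs s u.val := rfl
theorem rsU_inv (s : ℝ) (u : (PowerSeries A)ˣ) : (rsU s u)⁻¹.val = rs s u⁻¹.val := rfl

theorem D_rsU (s : ℝ) (u : (PowerSeries A)ˣ) (j : ℕ) : D κ (rsU s u) j = s ^ j • D κ u j := by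
  unfold D
  rw [rsU_inv, rsU_val, rs_eu, ← rs_mul, coeff_rs, map_smul]

theorem Bd.rs {s : ℝ} (hs0 : 0 ≤ s) (hs1 : s ≤ 1) {f : PowerSeries A} {c : ℝ} (hρ : 0 ≤ ρ) (h : Bd ρ f c) : Bd ρ (rs s f) c := by
  intro K
  refine le_trans (Finset.sum_le_sum fun k _ => ?_) (h K)
  rw [coeff_rs, norm_smul, Real.norm_of_nonneg (pow_nonneg hs0 k)]
  have : s ^ k ≤ 1 := pow_le_one₀ hs0 hs1
  have h2 : 0 ≤ ‖PowerSeries.coeff k f‖ * ρ ^ k := by positivity
  nlinarith

theorem pow_sub_le {s s' : ℝ} (hs0 : 0 ≤ s) (hs1 : s ≤ 1) (hs0' : 0 ≤ s') (hs1' : s' ≤ 1) (k : ℕ) :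
    |s ^ k - s' ^ k| ≤ k * |s - s'| := by
  induction k with
  | zero => simp
  | succ k ih =>
    have h1 : s ^ (k + 1) - s' ^ (k + 1) = s * (s ^ k - s' ^ k) + (s - s') * s' ^ k := by ring
    rw [h1]
    refine (abs_add_le _ _).trans ?_
    rw [abs_mul, abs_mul, abs_of_nonneg hs0, abs_of_nonneg (pow_nonneg hs0' k)]
    have h2 : s' ^ k ≤ 1 := pow_le_one₀ hs0' hs1'
    push_cast
    nlinarith [abs_nonneg (s ^ k - s' ^ k), abs_nonneg (s - s')]

theorem rs_close (hρ : 0 ≤ ρ) {f : PowerSeries A} {c : ℝ} (h : Bd ρ f c) (ω : ℝ) (hω : 0 < ω) :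
    ∃ J : ℕ, 1 ≤ J ∧ ∀ j, j < J → Bd ρ (rs (((j + 1 : ℕ) : ℝ) / J) f - rs ((j : ℝ) / J) f) ω := by
  have hc := h.nonneg
  have hsum := h.summable hρ
  obtain ⟨K, hK⟩ : ∃ K, ∀ K', ∑ k ∈ Ico K K', ‖coeff k f‖ * ρ ^ k ≤ ω / 2 := by
    have h1 := hsum.hasSum.tendsto_sum_nat
    obtain ⟨K, hK⟩ := (h1.eventually (lt_mem_nhds (show ∑' k, ‖coeff k f‖ * ρ ^ k - ω / 2 < _ by linarith))).exists
    refine ⟨K, fun K' => ?_⟩
    rcases le_total K K' with hKK | hKK
    · have h2 := Finset.sum_range_add_sum_Ico (fun k => ‖coeff k f‖ * ρ ^ k) hKK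
      have h3 : ∑ k ∈ range K', ‖coeff k f‖ * ρ ^ k ≤ ∑' k, ‖coeff k f‖ * ρ ^ k := hsum.sum_le_tsum _ (fun k _ => by positivity)
      linarith
    · rw [Finset.Ico_eq_empty (by omega), Finset.sum_empty]; positivity
  obtain ⟨J, hJ⟩ := exists_nat_gt (2 * (c * K) / ω)
  have hJ' : 2 * (c * K) / ω < (J + 1 : ℕ) := by push_cast; linarith
  refine ⟨J + 1, by omega, ?_⟩
  intro j hj K'
  set s : ℝ := ((j + 1 : ℕ) : ℝ) / ((J + 1 : ℕ) : ℝ) with hs
  set s' : ℝ := (j : ℝ) / ((J + 1 : ℕ) : ℝ) with hs'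
  have hJ0 : (0 : ℝ) < ((J + 1 : ℕ) : ℝ) := by positivity
  have hs0 : 0 ≤ s := by positivity
  have hs0' : 0 ≤ s' := by positivity
  have hs1 : s ≤ 1 := by rw [hs, div_le_one hJ0]; exact_mod_cast hj
  have hs1' : s' ≤ 1 := by rw [hs', div_le_one hJ0]; exact_mod_cast hj.le
  have hss : |s - s'| = 1 / ((J + 1 : ℕ) : ℝ) := by
    have : s - s' = 1 / ((J + 1 : ℕ) : ℝ) := by rw [hs, hs']; push_cast; ring
    rw [this, abs_of_nonneg (by positivity)]
  have hterm : ∀ k, ‖coeff k (rs s f - rs s' f)‖ * ρ ^ k ≤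
      (if k < K then (‖coeff k f‖ * ρ ^ k) * (K / ((J + 1 : ℕ) : ℝ)) else 0) + (if K ≤ k then ‖coeff k f‖ * ρ ^ k else 0) := by
    intro k
    rw [map_sub, coeff_rs, coeff_rs, ← sub_smul, norm_smul, Real.norm_eq_abs]
    have h0 : 0 ≤ ‖coeff k f‖ * ρ ^ k := by positivity
    by_cases hk : k < K
    · rw [if_pos hk, if_neg (by omega), add_zero]
      have h1 := pow_sub_le hs0 hs1 hs0' hs1' k
      rw [hss] at h1
      have h2 : (k : ℝ) * (1 / ((J + 1 : ℕ) : ℝ)) ≤ K / ((J + 1 : ℕ) : ℝ) := by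
        rw [mul_one_div]
        apply div_le_div_of_nonneg_right _ hJ0.le
        exact_mod_cast hk.le
      calc |s ^ k - s' ^ k| * ‖coeff k f‖ * ρ ^ k = (‖coeff k f‖ * ρ ^ k) * |s ^ k - s' ^ k| := by ring
        _ ≤ (‖coeff k f‖ * ρ ^ k) * (K / ((J + 1 : ℕ) : ℝ)) := mul_le_mul_of_nonneg_left (h1.trans h2) h0
    · rw [if_neg hk, if_pos (by omega), zero_add]
      have h1 : |s ^ k - s' ^ k| ≤ 1 := by
        rw [abs_le]
        have a1 : s ^ k ≤ 1 := pow_le_one₀ hs0 hs1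
        have a2 : s' ^ k ≤ 1 := pow_le_one₀ hs0' hs1'
        have a3 : 0 ≤ s ^ k := by positivity
        have a4 : 0 ≤ s' ^ k := by positivity
        constructor <;> linarith
      calc |s ^ k - s' ^ k| * ‖coeff k f‖ * ρ ^ k = |s ^ k - s' ^ k| * (‖coeff k f‖ * ρ ^ k) := by ring
        _ ≤ 1 * (‖coeff k f‖ * ρ ^ k) := mul_le_mul_of_nonneg_right h1 h0
        _ = _ := one_mul _
  refine (Finset.sum_le_sum fun k _ => hterm k).trans ?_
  rw [Finset.sum_add_distrib, ← Finset.sum_filter, ← Finset.sum_filter]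
  have h1 : ∑ k ∈ (range K').filter (fun k => k < K), (‖coeff k f‖ * ρ ^ k) * (K / ((J + 1 : ℕ) : ℝ)) ≤ ω / 2 := by
    rw [← Finset.sum_mul]
    have h2 : ∑ k ∈ (range K').filter (fun k => k < K), ‖coeff k f‖ * ρ ^ k ≤ c := by
      refine le_trans ?_ (h K')
      apply Finset.sum_le_sum_of_subset_of_nonneg (Finset.filter_subset _ _)
      intro k _ _; positivity
    refine (mul_le_mul_of_nonneg_right h2 (by positivity)).trans ?_
    rw [div_lt_iff₀ hω] at hJ'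
    rw [← mul_div_assoc, div_le_iff₀ hJ0]
    nlinarith
  have h2 : ∑ k ∈ (range K').filter (fun k => K ≤ k), ‖coeff k f‖ * ρ ^ k ≤ ω / 2 := by
    refine le_trans (le_of_eq ?_) (hK K')
    apply Finset.sum_congr _ (fun _ _ => rfl)
    ext k
    rw [Finset.mem_filter, Finset.mem_range, Finset.mem_Ico]
    tauto
  linarith

/-- the topological `K₁` lemma -/
theorem Setup.k1 (S : Setup ρ O κ Γ) {P : (PowerSeries A)ˣ} (hPO : Int' O P.val) (hP0 : coeff 0 P.val = 1)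
    (hPD : ∀ j, D κ P j = 0) {b b' : ℝ} (hb : Bd ρ P.val b) (hb' : Bd ρ P⁻¹.val b') : InCl ρ Γ P := by
  have hρ0 := S.ρ0.le
  obtain ⟨ξ0, hξ0, hξ01, hloc⟩ := S.loc
  set θ : ℝ := ξ0 / 16 with hθ
  have hθ0 : 0 < θ := by positivity
  have hθ1 : θ ≤ 1 / 16 := by rw [hθ]; linarith
  obtain ⟨K, hK1, hrnd⟩ := S.rnd θ hθ0 (by linarith)
  obtain ⟨γ0, hγ0, hc0⟩ := S.red hPO hP0 K (fun j _ => hPD j)
  set Q := P * γ0 with hQ
  obtain ⟨g, hg⟩ := S.Γb γ0 hγ0
  obtain ⟨g', hg'⟩ := S.Γb γ0⁻¹ (Γ.inv_mem hγ0)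
  have hQb : Bd ρ Q.val (b * g) := by rw [hQ, Units.val_mul]; exact hb.mul hρ0 hg
  have hQb' : Bd ρ Q⁻¹.val (g' * b') := by rw [hQ, mul_inv_rev, Units.val_mul]; exact hg'.mul hρ0 hb'
  set q := b * g with hq
  set q' := g' * b' with hq'
  have hq0 := hQb.nonneg
  have hq0' := hQb'.nonneg
  have hQO : Int' O Q.val := by rw [hQ, Units.val_mul]; exact hPO.mul (S.ΓO γ0 hγ0)
  have hQD : ∀ j, D κ Q j = 0 := by intro j; rw [hQ, D_mul S.cyc, hPD, S.ΓD γ0 hγ0, add_zero]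
  obtain ⟨J, hJ1, hJ⟩ := rs_close hρ0 hQb (θ / (q' + 1)) (by positivity)
  set s : ℕ → ℝ := fun j => (j : ℝ) / J with hs
  have hJ0 : (0 : ℝ) < J := by exact_mod_cast (by omega : 0 < J)
  have hrsD : ∀ j k, D κ (rsU (s j) Q) k = 0 := by intro j k; rw [D_rsU, hQD, smul_zero]
  have hrsK : ∀ j, Cg K (rsU (s j) Q).val 1 := by
    intro j k hk
    rw [rsU_val, coeff_rs, hc0 k hk, coeff_one]
    split_ifs with h
    · rw [h, pow_zero, one_smul]
    · rw [smul_zero]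
  have hB : ∀ j, ∃ B : (PowerSeries A)ˣ, (∀ k, D κ B k = 0) ∧ Cg K B.val 1 ∧ Int' O (rsU (s j) Q * B).val ∧
      Bd ρ (B.val - 1) θ ∧ Bd ρ (B⁻¹.val - 1) (2 * θ) := by
    intro j
    refine hrnd _ ?_ (hrsD j) ?_
    · rw [hrsK j 0 (by omega)]; simp
    · intro k hk
      rw [hrsK j k hk, coeff_one]
      split_ifs
      · exact O.one_mem
      · exact O.zero_mem
  choose B hB1 hB2 hB3 hB4 hB5 using hB
  set R : ℕ → (PowerSeries A)ˣ := fun j => rsU (s j) Q * B j with hR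
  have hRD : ∀ j k, D κ (R j) k = 0 := by intro j k; rw [hR]; simp only; rw [D_mul S.cyc, hrsD, hB1, add_zero]
  have hRc : ∀ j, Cg K (R j).val 1 := by
    intro j
    have := (hrsK j).mul (hB2 j)
    rwa [one_mul, ← Units.val_mul] at this
  have hR0 : ∀ j, coeff 0 (R j).val = 1 := by intro j; rw [hRc j 0 (by omega)]; simp
  have hsj : ∀ j, j ≤ J → 0 ≤ s j ∧ s j ≤ 1 := by
    intro j hj
    refine ⟨by rw [hs]; positivity, ?_⟩
    rw [hs]; simp only
    rw [div_le_one hJ0]; exact_mod_cast hj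
  have hBb : ∀ j, Bd ρ (B j).val 2 := by
    intro j
    have e1 : (B j).val = 1 + ((B j).val - 1) := by abel
    rw [e1]
    exact ((Bd.one hρ0).add hρ0 (hB4 j)).le (by linarith)
  have hRb : ∀ j, j ≤ J → Bd ρ (R j).val (q * 2) := by
    intro j hj
    rw [hR]; simp only
    rw [Units.val_mul, rsU_val]
    exact (hQb.rs (hsj j hj).1 (hsj j hj).2 hρ0).mul hρ0 (hBb j)
  -- the consecutive quotients
  have hS : ∀ j, j < J → InCl ρ Γ ((R j)⁻¹ * R (j + 1)) ∧ ∃ c, Bd ρ ((R j)⁻¹ * R (j + 1)).val c := by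
    intro j hj
    obtain ⟨h0, h1⟩ := hsj j hj.le
    have e1 : ((R j)⁻¹ * R (j + 1)).val = (B j)⁻¹.val * ((rsU (s j) Q)⁻¹.val * (rsU (s (j + 1)) Q).val) * (B (j + 1)).val := by
      rw [hR]; simp only
      rw [mul_inv_rev, Units.val_mul, Units.val_mul, Units.val_mul]
      simp only [mul_assoc]
    set y := (rsU (s j) Q)⁻¹.val * ((rsU (s (j + 1)) Q).val - (rsU (s j) Q).val) with hy
    have e2 : (rsU (s j) Q)⁻¹.val * (rsU (s (j + 1)) Q).val = 1 + y := by
      rw [hy, mul_sub, Units.inv_mul]; abel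
    have hyb : Bd ρ y θ := by
      rw [hy, rsU_inv, rsU_val, rsU_val]
      refine ((hQb'.rs h0 h1 hρ0).mul hρ0 (hJ j hj)).le ?_
      rw [← mul_div_assoc, div_le_iff₀ (by positivity)]
      nlinarith
    set x := (B j)⁻¹.val - 1 with hx
    set z := (B (j + 1)).val - 1 with hz
    have e3 : ((R j)⁻¹ * R (j + 1)).val - 1 = x + y + z + x * y + x * z + y * z + x * y * z := by
      rw [e1, e2]
      have ex : (B j)⁻¹.val = 1 + x := by rw [hx]; abel
      have ez : (B (j + 1)).val = 1 + z := by rw [hz]; abel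
      rw [ex, ez]
      noncomm_ring
    have hxb : Bd ρ x (2 * θ) := hB5 j
    have hzb : Bd ρ z θ := hB4 (j + 1)
    have hbd : Bd ρ (((R j)⁻¹ * R (j + 1)).val - 1) ξ0 := by
      rw [e3]
      refine ((((((hxb.add hρ0 hyb).add hρ0 hzb).add hρ0 (hxb.mul hρ0 hyb)).add hρ0 (hxb.mul hρ0 hzb)).add hρ0
        (hyb.mul hρ0 hzb)).add hρ0 ((hxb.mul hρ0 hyb).mul hρ0 hzb)).le ?_
      have : θ * θ ≤ θ / 16 := by nlinarith
      have : 2 * θ * θ * θ ≤ θ := by nlinarith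
      have h16 : ξ0 = 16 * θ := by rw [hθ]; ring
      rw [h16]
      nlinarith
    have hbd' : Bd ρ ((R j)⁻¹ * R (j + 1)).val 2 := by
      have e4 : ((R j)⁻¹ * R (j + 1)).val = 1 + (((R j)⁻¹ * R (j + 1)).val - 1) := by abel
      rw [e4]
      exact ((Bd.one hρ0).add hρ0 hbd).le (by linarith)
    refine ⟨InCl.of hρ0 hbd' (hloc _ ?_ ?_ ?_ hbd), 2, hbd'⟩
    · rw [Units.val_mul]
      exact (Int'.inv (hB3 j) (hR0 j)).mul (hB3 (j + 1))
    · rw [Units.val_mul, coeff0_mul, coeff0_inv (hR0 j), hR0, mul_one]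
    · intro k; rw [D_mul S.cyc, D_inv S.cyc, hRD, hRD, neg_zero, add_zero]
  have hstart : InCl ρ Γ (R 0) := by
    have e1 : R 0 = B 0 := by
      apply Units.ext
      rw [hR]; simp only
      rw [Units.val_mul, rsU_val]
      have : rs (s 0) Q.val = 1 := by
        ext k
        rw [coeff_rs, coeff_one, hs]
        simp only [Nat.cast_zero, zero_div]
        split_ifs with h
        · rw [h, pow_zero, one_smul, hc0 0 (by omega)]; simp
        · rw [zero_pow h, zero_smul]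
      rw [this, one_mul]
    refine InCl.of hρ0 (hRb 0 (by omega)) (hloc _ (hB3 0) (hR0 0) (hRD 0) ?_)
    rw [e1]
    exact (hB4 0).le (by rw [hθ]; linarith)
  have hRcl : ∀ j, j ≤ J → InCl ρ Γ (R j) := by
    intro j
    induction j with
    | zero => exact fun _ => hstart
    | succ j ih =>
      intro hj
      have e1 : R (j + 1) = R j * ((R j)⁻¹ * R (j + 1)) := by rw [mul_inv_cancel_left]
      rw [e1]
      obtain ⟨c, hc⟩ := (hS j (by omega)).2
      exact InCl.mul hρ0 (hRb j (by omega)) hc (ih (by omega)) (hS j (by omega)).1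
  have hsJ : s J = 1 := by rw [hs]; simp only; rw [div_self hJ0.ne']
  have hQJ : Q = R J * (B J)⁻¹ := by
    rw [hR]; simp only
    rw [mul_inv_cancel_right]
    apply Units.ext
    rw [rsU_val, hsJ]
    ext k
    rw [coeff_rs, one_pow, one_smul]
  have hBJO : Int' O (B J)⁻¹.val := by
    have e1 : (B J)⁻¹ = (R J)⁻¹ * Q := by rw [hQJ, inv_mul_cancel_left]
    rw [e1, Units.val_mul]
    exact (Int'.inv (hB3 J) (hR0 J)).mul hQO
  have hBJ0 : coeff 0 (B J).val = 1 := by rw [hB2 J 0 (by omega)]; simp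
  have hBJb : Bd ρ (B J)⁻¹.val 2 := by
    have e1 : (B J)⁻¹.val = 1 + ((B J)⁻¹.val - 1) := by abel
    rw [e1]
    exact ((Bd.one hρ0).add hρ0 (hB5 J)).le (by linarith)
  have hBJcl : InCl ρ Γ (B J)⁻¹ := by
    refine InCl.of hρ0 hBJb (hloc _ hBJO (coeff0_inv hBJ0) ?_ ((hB5 J).le (by rw [hθ]; linarith)))
    intro k; rw [D_inv S.cyc, hB1, neg_zero]
  have hQcl : InCl ρ Γ Q := by
    rw [hQJ]
    exact InCl.mul hρ0 (hRb J le_rfl) hBJb (hRcl J le_rfl) hBJcl
  have hP : P = Q * γ0⁻¹ := by rw [hQ, mul_inv_cancel_right]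
  rw [hP]
  refine InCl.mul hρ0 hQb hg' hQcl ?_
  intro ε hε
  exact ⟨γ0⁻¹, Γ.inv_mem hγ0, by rw [sub_self]; exact Bd.zero.le hε.le⟩

end main

end Pool.Agent.W717.G
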