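import Mathlib
import Pool.Agent.W717.G.K1b

set_option autoImplicit false
set_option linter.all false

namespace Pool.Agent.W717.G

open Finset PowerSeries Filter Topology

section fin

variable {A : Type*} [Ring A]

/-- finitely supported power series -/
def Fin' (f : PowerSeries A) : Prop := ∃ d, ∀ k, d ≤ k → coeff k f = 0

theorem Fin'.mul {f g : PowerSeries A} (hf : Fin' f) (hg : Fin' g) : Fin' (f * g) := by
  obtain ⟨d, hd⟩ := hf
  obtain ⟨e, he⟩ := hg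
  refine ⟨d + e, fun k hk => ?_⟩
  rw [coeff_mul]
  apply Finset.sum_eq_zero
  intro y hy
  rw [Finset.HasAntidiagonal.mem_antidiagonal] at hy
  rcases le_or_gt d y.1 with h | h
  · rw [hd _ h, zero_mul]
  · rw [he _ (by omega), mul_zero]

theorem Fin'.add {f g : PowerSeries A} (hf : Fin' f) (hg : Fin' g) : Fin' (f + g) := by
  obtain ⟨d, hd⟩ := hf
  obtain ⟨e, he⟩ := hg
  refine ⟨d + e, fun k hk => ?_⟩
  rw [map_add, hd _ (by omega), he _ (by omega), add_zero]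

theorem Fin'.neg {f : PowerSeries A} (hf : Fin' f) : Fin' (-f) := by
  obtain ⟨d, hd⟩ := hf
  exact ⟨d, fun k hk => by rw [map_neg, hd k hk, neg_zero]⟩

theorem Fin'.sub {f g : PowerSeries A} (hf : Fin' f) (hg : Fin' g) : Fin' (f - g) := by
  rw [sub_eq_add_neg]; exact hf.add hg.neg

theorem Fin'.mono (a : A) (n : ℕ) : Fin' (C a * X ^ n : PowerSeries A) := by
  refine ⟨n + 1, fun k hk => ?_⟩
  rw [coeff_C_mul, coeff_X_pow, if_neg (by omega), mul_zero]

theorem Fin'.one : Fin' (1 : PowerSeries A) := by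
  have := Fin'.mono (1 : A) 0
  rwa [pow_zero, mul_one, map_one] at this

theorem Fin'.zero : Fin' (0 : PowerSeries A) := ⟨0, fun k _ => by rw [map_zero]⟩

theorem Fin'.bd {A : Type*} [NormedRing A] {f : PowerSeries A} (hf : Fin' f) {ρ : ℝ} (hρ : 0 ≤ ρ) : ∃ c, Bd ρ f c := by
  obtain ⟨d, hd⟩ := hf
  refine ⟨∑ k ∈ range d, ‖coeff k f‖ * ρ ^ k, fun K => ?_⟩
  have h1 : ∑ k ∈ range K, ‖coeff k f‖ * ρ ^ k ≤ ∑ k ∈ range (max K d), ‖coeff k f‖ * ρ ^ k := by
    apply Finset.sum_le_sum_of_subset_of_nonneg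
    · exact Finset.range_mono (le_max_left _ _)
    · intro _ _ _; positivity
  refine h1.trans (le_of_eq ?_)
  symm
  apply Finset.sum_subset
  · exact Finset.range_mono (le_max_right _ _)
  · intro k _ hk
    rw [Finset.mem_range, not_lt] at hk
    rw [hd k hk, norm_zero, zero_mul]

theorem mono_mul (a b : A) (n m : ℕ) : (C a * X ^ n : PowerSeries A) * (C b * X ^ m) = C (a * b) * X ^ (n + m) := by
  rw [map_mul, pow_add, mul_assoc, ← mul_assoc (X ^ n) (PowerSeries.C b), X_pow_mul, mul_assoc, mul_assoc]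

theorem int_mono {O : Subring A} {a : A} (ha : a ∈ O) (n : ℕ) : Int' O (C a * X ^ n : PowerSeries A) :=
  (Int'.C ha).mul (Int'.X_pow n)

end fin

section Gam

variable {A : Type*} [Ring A] [Algebra ℝ A] {V : Type*} [AddCommGroup V] [Module ℝ V]

/-- the group of invertible integral polynomials with trivial logarithmic derivative -/
def Gam (O : Subring A) (κ : A →ₗ[ℝ] V) (hκ : ∀ a b, κ (a * b) = κ (b * a)) : Subgroup (PowerSeries A)ˣ where
  carrier := {u | (Int' O u.val ∧ Int' O u⁻¹.val) ∧ (Fin' u.val ∧ Fin' u⁻¹.val) ∧ ∀ k, D κ u k = 0}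
  mul_mem' := by
    rintro u v ⟨⟨h1, h2⟩, ⟨h3, h4⟩, h5⟩ ⟨⟨h1', h2'⟩, ⟨h3', h4'⟩, h5'⟩
    refine ⟨⟨?_, ?_⟩, ⟨?_, ?_⟩, ?_⟩
    · rw [Units.val_mul]; exact h1.mul h1'
    · rw [mul_inv_rev, Units.val_mul]; exact h2'.mul h2
    · rw [Units.val_mul]; exact h3.mul h3'
    · rw [mul_inv_rev, Units.val_mul]; exact h4'.mul h4
    · intro k; rw [D_mul hκ, h5, h5', add_zero]
  one_mem' := by
    refine ⟨⟨?_, ?_⟩, ⟨?_, ?_⟩, ?_⟩
    · rw [Units.val_one]; exact Int'.one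
    · rw [inv_one, Units.val_one]; exact Int'.one
    · rw [Units.val_one]; exact Fin'.one
    · rw [inv_one, Units.val_one]; exact Fin'.one
    · intro k; exact D_one k
  inv_mem' := by
    rintro u ⟨⟨h1, h2⟩, ⟨h3, h4⟩, h5⟩
    refine ⟨⟨h2, ?_⟩, ⟨h4, ?_⟩, ?_⟩
    · rw [inv_inv]; exact h1
    · rw [inv_inv]; exact h3
    · intro k; rw [D_inv hκ, h5, neg_zero]

variable {O : Subring A} {κ : A →ₗ[ℝ] V} {hκ : ∀ a b, κ (a * b) = κ (b * a)}

/-- unipotent units -/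
noncomputable def nilU (a : A) (ha : a * a = 0) (n : ℕ) : (PowerSeries A)ˣ :=
  ⟨1 + C a * X ^ n, 1 - C a * X ^ n,
    by
      have h : (C a * X ^ n : PowerSeries A) * (C a * X ^ n) = 0 := by rw [mono_mul, ha, map_zero, zero_mul]
      have : (1 + C a * X ^ n : PowerSeries A) * (1 - C a * X ^ n) = 1 - (C a * X ^ n) * (C a * X ^ n) := by noncomm_ring
      rw [this, h, sub_zero],
    by
      have h : (C a * X ^ n : PowerSeries A) * (C a * X ^ n) = 0 := by rw [mono_mul, ha, map_zero, zero_mul]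
      have : (1 - C a * X ^ n : PowerSeries A) * (1 + C a * X ^ n) = 1 - (C a * X ^ n) * (C a * X ^ n) := by noncomm_ring
      rw [this, h, sub_zero]⟩

theorem nilU_val (a : A) (ha : a * a = 0) (n : ℕ) : (nilU a ha n).val = 1 + C a * X ^ n := rfl
theorem nilU_inv (a : A) (ha : a * a = 0) (n : ℕ) : (nilU a ha n)⁻¹.val = 1 - C a * X ^ n := rfl

theorem D_nilU (a : A) (ha : a * a = 0) (h0 : κ a = 0) (n k : ℕ) : D κ (nilU a ha n) k = 0 := by
  unfold D
  rw [nilU_inv, nilU_val]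
  have h1 : eu (1 + C a * X ^ n : PowerSeries A) = C (n • a) * X ^ n := by
    ext j
    rw [coeff_eu, map_add, coeff_C_mul, coeff_C_mul, coeff_X_pow, coeff_one]
    split_ifs with h1 h2 h2
    · subst h1; subst h2; simp
    · subst h1; simp
    · subst h2; simp
    · simp
  rw [h1, sub_mul, one_mul, mono_mul, mul_smul_comm, ha, smul_zero, map_zero, zero_mul, sub_zero, coeff_C_mul, coeff_X_pow]
  split_ifs
  · rw [mul_one, map_nsmul, h0, smul_zero]
  · rw [mul_zero, map_zero]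

theorem nilU_mem (a : A) (ha : a * a = 0) (h0 : κ a = 0) (haO : a ∈ O) (n : ℕ) : nilU a ha n ∈ Gam O κ hκ := by
  refine ⟨⟨?_, ?_⟩, ⟨?_, ?_⟩, fun k => D_nilU a ha h0 n k⟩
  · rw [nilU_val]; exact Int'.one.add (int_mono haO n)
  · rw [nilU_inv]; exact Int'.one.sub (int_mono haO n)
  · rw [nilU_val]; exact Fin'.one.add (Fin'.mono a n)
  · rw [nilU_inv]; exact Fin'.one.sub (Fin'.mono a n)

end Gam

section gg

variable {A : Type*} [NormedRing A] [NormOneClass A] [NormedAlgebra ℝ A] {V : Type*} [AddCommGroup V] [Module ℝ V]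

/-- a generator of the kernel of `κ` that comes with a family of units -/
def GG (ρ : ℝ) (κ : A →ₗ[ℝ] V) (Γ : Subgroup (PowerSeries A)ˣ) (s : A) : Prop :=
  ∃ C : ℝ, 0 ≤ C ∧ ∀ c : ℝ, ∀ n, 1 ≤ n → ∃ u : (PowerSeries A)ˣ, (∀ k, D κ u k = 0) ∧ Cg n u.val 1 ∧
    coeff n u.val = c • s ∧ ((∃ z : ℤ, c = z) → u ∈ Γ) ∧
    ∀ θ : ℝ, |c| * ρ ^ n ≤ θ → θ ≤ 1 → Bd ρ (u.val - 1 - PowerSeries.C (c • s) * X ^ n) (C * θ ^ 2)

/-- the same for finite families -/
def FG (ρ : ℝ) (κ : A →ₗ[ℝ] V) (Γ : Subgroup (PowerSeries A)ˣ) {L : Type*} (s : L → A) (l : List L) : Prop :=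
  ∃ C : ℝ, 0 ≤ C ∧ ∀ c : L → ℝ, ∀ n, 1 ≤ n → ∃ u : (PowerSeries A)ˣ, (∀ k, D κ u k = 0) ∧ Cg n u.val 1 ∧
    coeff n u.val = (l.map fun i => c i • s i).sum ∧ ((∀ i, ∃ z : ℤ, c i = z) → u ∈ Γ) ∧
    ∀ θ : ℝ, (∀ i, |c i| * ρ ^ n ≤ θ) → 0 ≤ θ → θ ≤ 1 →
      Bd ρ (u.val - 1 - PowerSeries.C ((l.map fun i => c i • s i).sum) * X ^ n) (C * θ ^ 2)

variable {ρ : ℝ} {O : Subring A} {κ : A →ₗ[ℝ] V} {hκ : ∀ a b, κ (a * b) = κ (b * a)}

theorem FG.nil {Γ : Subgroup (PowerSeries A)ˣ} {L : Type*} (s : L → A) : FG ρ κ Γ s [] := by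
  refine ⟨0, le_rfl, fun c n hn => ⟨1, fun k => D_one k, ?_, ?_, fun _ => Γ.one_mem, fun θ _ _ _ => ?_⟩⟩
  · rw [Units.val_one]; exact Cg.refl _ _
  · rw [Units.val_one, List.map_nil, List.sum_nil, coeff_one, if_neg (by omega)]
  · rw [Units.val_one, List.map_nil, List.sum_nil, sub_self, map_zero, zero_mul, sub_zero]
    exact Bd.zero.le (by simp)

theorem prod_bd (hρ : 0 ≤ ρ) {x1 x2 y1 y2 : PowerSeries A} {b1 b2 C1 C2 θ : ℝ} (hθ0 : 0 ≤ θ) (hθ1 : θ ≤ 1)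
    (hx1 : Bd ρ x1 (b1 * θ)) (hx2 : Bd ρ x2 (b2 * θ)) (hy1 : Bd ρ y1 (C1 * θ ^ 2)) (hy2 : Bd ρ y2 (C2 * θ ^ 2))
    (hb1 : 0 ≤ b1) (hb2 : 0 ≤ b2) (hC1 : 0 ≤ C1) (hC2 : 0 ≤ C2) :
    Bd ρ ((1 + x1 + y1) * (1 + x2 + y2) - 1 - (x1 + x2)) ((C1 + C2 + (b1 + C1) * (b2 + C2)) * θ ^ 2) := by
  have e1 : (1 + x1 + y1) * (1 + x2 + y2) - 1 - (x1 + x2) = y1 + y2 + (x1 + y1) * (x2 + y2) := by noncomm_ring
  rw [e1]
  refine (((hy1.add hρ hy2).add hρ ((hx1.add hρ hy1).mul hρ (hx2.add hρ hy2)))).le ?_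
  have h1 : b1 * θ + C1 * θ ^ 2 ≤ (b1 + C1) * θ := by
    have : θ ^ 2 ≤ θ := by nlinarith
    nlinarith
  have h2 : b2 * θ + C2 * θ ^ 2 ≤ (b2 + C2) * θ := by
    have : θ ^ 2 ≤ θ := by nlinarith
    nlinarith
  have h3 := mul_le_mul h1 h2 (by positivity) (by positivity)
  nlinarith

theorem GG.add (hρ : 0 ≤ ρ) (hρ1 : ρ ≤ 1) {Γ : Subgroup (PowerSeries A)ˣ} (hκ : ∀ a b, κ (a * b) = κ (b * a)) {s s' : A}
    (h : GG ρ κ Γ s) (h' : GG ρ κ Γ s') : GG ρ κ Γ (s + s') := by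
  obtain ⟨C1, hC1, H1⟩ := h
  obtain ⟨C2, hC2, H2⟩ := h'
  refine ⟨C1 + C2 + (‖s‖ + C1) * (‖s'‖ + C2), by positivity, fun c n hn => ?_⟩
  obtain ⟨u, a1, a2, a3, a4, a5⟩ := H1 c n hn
  obtain ⟨v, b1, b2, b3, b4, b5⟩ := H2 c n hn
  have hu0 : coeff 0 u.val = 1 := by rw [a2 0 (by omega)]; simp
  refine ⟨u * v, ?_, ?_, ?_, ?_, ?_⟩
  · intro k; rw [D_mul hκ, a1, b1, add_zero]
  · rw [Units.val_mul]
    have := a2.mul b2
    rwa [one_mul] at this
  · rw [Units.val_mul, coeff_mul_of_cg b2 hu0 hn, a3, b3, smul_add]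
  · intro hz; exact Γ.mul_mem (a4 hz) (b4 hz)
  · intro θ hθ hθ1
    have hθ0 : 0 ≤ θ := le_trans (by positivity) hθ
    have key := prod_bd hρ hθ0 hθ1 (x1 := PowerSeries.C (c • s) * X ^ n) (x2 := PowerSeries.C (c • s') * X ^ n)
      (b1 := ‖s‖) (b2 := ‖s'‖) ?_ ?_ (a5 θ hθ hθ1) (b5 θ hθ hθ1) (norm_nonneg _) (norm_nonneg _) hC1 hC2
    · have e1 : (1 + PowerSeries.C (c • s) * X ^ n + (u.val - 1 - PowerSeries.C (c • s) * X ^ n)) = u.val := by abel
      have e2 : (1 + PowerSeries.C (c • s') * X ^ n + (v.val - 1 - PowerSeries.C (c • s') * X ^ n)) = v.val := by abel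
      rw [e1, e2] at key
      rw [Units.val_mul, smul_add, map_add, add_mul]
      exact key
    · refine (Bd.C_mul_X_pow hρ _ n).le ?_
      rw [norm_smul, Real.norm_eq_abs]
      nlinarith [norm_nonneg s]
    · refine (Bd.C_mul_X_pow hρ _ n).le ?_
      rw [norm_smul, Real.norm_eq_abs]
      nlinarith [norm_nonneg s']

theorem FG.cons (hρ : 0 ≤ ρ) {Γ : Subgroup (PowerSeries A)ˣ} (hκ : ∀ a b, κ (a * b) = κ (b * a)) {L : Type*} {s : L → A}
    {i0 : L} {l : List L} (h : GG ρ κ Γ (s i0)) (h' : FG ρ κ Γ s l) : FG ρ κ Γ s (i0 :: l) := by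
  obtain ⟨C1, hC1, H1⟩ := h
  obtain ⟨C2, hC2, H2⟩ := h'
  set b2 : ℝ := (l.map fun i => ‖s i‖).sum with hb2
  have hb20 : 0 ≤ b2 := List.sum_nonneg (by
    intro x hx
    rw [List.mem_map] at hx
    obtain ⟨i, _, rfl⟩ := hx
    exact norm_nonneg _)
  refine ⟨C1 + C2 + (‖s i0‖ + C1) * (b2 + C2), by positivity, fun c n hn => ?_⟩
  obtain ⟨u, a1, a2, a3, a4, a5⟩ := H1 (c i0) n hn
  obtain ⟨v, d1, d2, d3, d4, d5⟩ := H2 c n hn
  have hu0 : coeff 0 u.val = 1 := by rw [a2 0 (by omega)]; simp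
  refine ⟨u * v, ?_, ?_, ?_, ?_, ?_⟩
  · intro k; rw [D_mul hκ, a1, d1, add_zero]
  · rw [Units.val_mul]
    have := a2.mul d2
    rwa [one_mul] at this
  · rw [Units.val_mul, coeff_mul_of_cg d2 hu0 hn, a3, d3, List.map_cons, List.sum_cons]
  · intro hz; exact Γ.mul_mem (a4 (hz i0)) (d4 hz)
  · intro θ hθ hθ0 hθ1
    have key := prod_bd hρ hθ0 hθ1 (x1 := PowerSeries.C (c i0 • s i0) * X ^ n)
      (x2 := PowerSeries.C ((l.map fun i => c i • s i).sum) * X ^ n)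
      (b1 := ‖s i0‖) (b2 := b2) ?_ ?_ (a5 θ (hθ i0) hθ1) (d5 θ hθ hθ0 hθ1) (norm_nonneg _) hb20 hC1 hC2
    · have e1 : (1 + PowerSeries.C (c i0 • s i0) * X ^ n + (u.val - 1 - PowerSeries.C (c i0 • s i0) * X ^ n)) = u.val := by abel
      have e2 : (1 + PowerSeries.C ((l.map fun i => c i • s i).sum) * X ^ n +
        (v.val - 1 - PowerSeries.C ((l.map fun i => c i • s i).sum) * X ^ n)) = v.val := by abel
      rw [e1, e2] at key
      rw [Units.val_mul, List.map_cons, List.sum_cons, map_add, add_mul]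
      exact key
    · refine (Bd.C_mul_X_pow hρ _ n).le ?_
      rw [norm_smul, Real.norm_eq_abs]
      nlinarith [norm_nonneg (s i0), hθ i0]
    · refine (Bd.C_mul_X_pow hρ _ n).le ?_
      have h1 : ‖(l.map fun i => c i • s i).sum‖ * ρ ^ n ≤ b2 * θ := by
        rw [hb2]
        clear d3 d5 H2 hb2 hb20
        induction l with
        | nil => simp
        | cons j l ih =>
          rw [List.map_cons, List.sum_cons, List.map_cons, List.sum_cons]
          have h2 : ‖c j • s j‖ * ρ ^ n ≤ ‖s j‖ * θ := by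
            rw [norm_smul, Real.norm_eq_abs]
            nlinarith [norm_nonneg (s j), hθ j]
          have h3 := mul_le_mul_of_nonneg_right (norm_add_le (c j • s j) ((l.map fun i => c i • s i).sum))
            (show 0 ≤ ρ ^ n by positivity)
          nlinarith
      exact h1

theorem GG.nil (hρ : 0 ≤ ρ) {a : A} (ha : a * a = 0) (h0 : κ a = 0) (haO : a ∈ O) : GG ρ κ (Gam O κ hκ) a := by
  refine ⟨0, le_rfl, fun c n hn => ?_⟩
  have h1 : (c • a) * (c • a) = 0 := by rw [smul_mul_smul_comm, ha, smul_zero]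
  have h2 : κ (c • a) = 0 := by rw [map_smul, h0, smul_zero]
  refine ⟨nilU (c • a) h1 n, fun k => D_nilU _ h1 h2 n k, ?_, ?_, ?_, ?_⟩
  · rw [nilU_val]
    intro j hj
    rw [map_add, coeff_C_mul, coeff_X_pow, if_neg (by omega), mul_zero, add_zero]
  · rw [nilU_val, map_add, coeff_C_mul, coeff_X_pow, if_pos rfl, mul_one, coeff_one, if_neg (by omega), zero_add]
  · rintro ⟨z, rfl⟩
    apply nilU_mem _ h1 h2
    rw [Int.cast_smul_eq_zsmul]
    exact O.zsmul_mem haO z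
  · intro θ _ _
    rw [nilU_val, add_sub_cancel_left, sub_self]
    exact Bd.zero.le (by simp)

theorem GG.comm (hρ : 0 ≤ ρ) (hρ1 : ρ ≤ 1) {p q : A} (hp : p * p = 0) (hq : q * q = 0) (hp0 : κ p = 0) (hq0 : κ q = 0)
    (hpO : p ∈ O) (hqO : q ∈ O) : GG ρ κ (Gam O κ hκ) (p * q - q * p) := by
  set P' : ℝ := ‖p‖ with hP'
  set Q' : ℝ := ‖q‖ with hQ'
  have hP'0 : 0 ≤ P' := norm_nonneg _
  have hQ'0 : 0 ≤ Q' := norm_nonneg _
  refine ⟨P' ^ 2 * Q' ^ 2 + P' ^ 2 * Q' ^ 2 * (1 + P') ^ 2 + Q' ^ 2 * (1 + P') ^ 2 + P' ^ 2 * Q' ^ 3 * (1 + P') ^ 2,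
    by positivity, fun c n hn => ?_⟩
  have hpqp : (c • (p * q * p)) * (c • (p * q * p)) = 0 := by
    rw [smul_mul_smul_comm]
    have : p * q * p * (p * q * p) = p * q * (p * p) * q * p := by noncomm_ring
    rw [this, hp, mul_zero, zero_mul, zero_mul, smul_zero]
  have hcq : (-c • q) * (-c • q) = 0 := by rw [smul_mul_smul_comm, hq, smul_zero]
  have hcq' : (c • q) * (c • q) = 0 := by rw [smul_mul_smul_comm, hq, smul_zero]
  have hp' : (-p) * (-p) = 0 := by rw [neg_mul_neg, hp]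
  have k1 : κ (c • (p * q * p)) = 0 := by
    rw [map_smul, hκ, ← mul_assoc, hp, zero_mul, map_zero, smul_zero]
  have k2 : κ (-c • q) = 0 := by rw [map_smul, hq0, smul_zero]
  have k3 : κ (c • q) = 0 := by rw [map_smul, hq0, smul_zero]
  have k4 : κ (-p) = 0 := by rw [map_neg, hp0, neg_zero]
  set u : (PowerSeries A)ˣ := nilU _ hpqp n * nilU _ hcq n * (nilU p hp 0 * nilU _ hcq' n * nilU (-p) hp' 0) with hu
  set P : PowerSeries A := PowerSeries.C p with hP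
  set Q : PowerSeries A := PowerSeries.C (c • q) * X ^ n with hQ
  have hPQP : PowerSeries.C (c • (p * q * p)) * X ^ n = P * Q * P := by
    rw [hP, hQ]
    have : (PowerSeries.C p * (PowerSeries.C (c • q) * X ^ n) * PowerSeries.C p : PowerSeries A) =
      (PowerSeries.C p * X ^ 0) * (PowerSeries.C (c • q) * X ^ n) * (PowerSeries.C p * X ^ 0) := by simp
    rw [this, mono_mul, mono_mul, zero_add, add_zero, mul_smul_comm, smul_mul_assoc]
  have hPP : P * P = 0 := by rw [hP, ← map_mul, hp, map_zero]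
  set Dl : PowerSeries A := Q + P * Q - Q * P - P * Q * P with hDl
  set e : PowerSeries A := -(P * Q * (P * Q)) + P * Q * P * Dl - Q * Dl - P * Q * P * Q * Dl with he
  have hval : u.val = 1 + (P * Q - Q * P) + e := by
    rw [hu]
    simp only [Units.val_mul, nilU_val]
    rw [hPQP]
    have e1 : (PowerSeries.C (-c • q) * X ^ n : PowerSeries A) = -Q := by rw [neg_smul, map_neg, neg_mul]
    have e2 : (PowerSeries.C (-p) * X ^ 0 : PowerSeries A) = -P := by rw [map_neg, pow_zero, mul_one]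
    have e3 : (PowerSeries.C p * X ^ 0 : PowerSeries A) = P := by rw [pow_zero, mul_one]
    rw [e1, e2, e3]
    have e4 : (1 + P) * (1 + Q) * (1 + -P) = 1 + Dl - P * P := by rw [hDl]; noncomm_ring
    rw [e4, hPP, sub_zero, he]
    have e5 : (1 + P * Q * P) * (1 + -Q) * (1 + Dl) = 1 + (P * Q * P - Q + Dl) +
      (-(P * Q * (P * Q)) + P * Q * P * Dl - Q * Dl - P * Q * P * Q * Dl) := by noncomm_ring
    rw [e5]
    have e6 : P * Q * P - Q + Dl = P * Q - Q * P := by rw [hDl]; abel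
    rw [e6]
  have hPQ : P * Q - Q * P = PowerSeries.C (c • (p * q - q * p)) * X ^ n := by
    rw [hP, hQ]
    have a1 : (PowerSeries.C p * (PowerSeries.C (c • q) * X ^ n) : PowerSeries A) =
      (PowerSeries.C p * X ^ 0) * (PowerSeries.C (c • q) * X ^ n) := by simp
    have a2 : (PowerSeries.C (c • q) * X ^ n * PowerSeries.C p : PowerSeries A) =
      (PowerSeries.C (c • q) * X ^ n) * (PowerSeries.C p * X ^ 0) := by simp
    rw [a1, a2, mono_mul, mono_mul, zero_add, add_zero, mul_smul_comm, smul_mul_assoc, ← sub_mul, ← map_sub, smul_sub]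
  have hQc : Cg n Q 0 := by
    intro j hj
    rw [hQ, coeff_C_mul, coeff_X_pow, if_neg (by omega), mul_zero, map_zero]
  have hDlc : Cg n Dl 0 := by
    have := ((hQc.add ((Cg.refl n P).mul hQc)).sub (hQc.mul (Cg.refl n P))).sub (((Cg.refl n P).mul hQc).mul (Cg.refl n P))
    simpa using this
  -- the error term vanishes up to degree n
  have hec : Cg (n + 1) e 0 := by
    have hz : ∀ f g : PowerSeries A, Cg n f 0 → Cg n g 0 → Cg (n + 1) (f * g) 0 := by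
      intro f g hf hg j hj
      rw [coeff_mul, map_zero]
      apply Finset.sum_eq_zero
      intro y hy
      rw [Finset.HasAntidiagonal.mem_antidiagonal] at hy
      rcases lt_or_ge y.1 n with h | h
      · rw [hf _ h, map_zero, zero_mul]
      · rw [hg _ (by omega), map_zero, mul_zero]
    have hPQc : Cg n (P * Q) 0 := by simpa using (Cg.refl n P).mul hQc
    have hPQPc : Cg n (P * Q * P) 0 := by simpa using ((Cg.refl n P).mul hQc).mul (Cg.refl n P)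
    have hPQPQc : Cg n (P * Q * P * Q) 0 := by simpa using (((Cg.refl n P).mul hQc).mul (Cg.refl n P)).mul hQc
    have := ((((hz _ _ hPQc hPQc).neg).add (hz _ _ hPQPc hDlc)).sub (hz _ _ hQc hDlc)).sub (hz _ _ hPQPQc hDlc)
    simpa [he] using this
  refine ⟨u, ?_, ?_, ?_, ?_, ?_⟩
  · intro k
    rw [hu, D_mul hκ, D_mul hκ, D_mul hκ, D_mul hκ, D_nilU _ _ k1, D_nilU _ _ k2, D_nilU _ _ hp0, D_nilU _ _ k3, D_nilU _ _ k4]
    simp
  · rw [hval, hPQ]
    intro j hj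
    rw [map_add, map_add, coeff_C_mul, coeff_X_pow, if_neg (by omega), mul_zero, add_zero, hec j (by omega), map_zero, add_zero]
  · rw [hval, hPQ, map_add, map_add, coeff_C_mul, coeff_X_pow, if_pos rfl, mul_one, hec n (by omega), map_zero, add_zero,
      coeff_one, if_neg (by omega), zero_add]
  · rintro ⟨z, rfl⟩
    have hcO : ((z : ℝ) • q) ∈ O := by rw [Int.cast_smul_eq_zsmul]; exact O.zsmul_mem hqO z
    have hcO' : (-(z : ℝ) • q) ∈ O := by rw [neg_smul]; exact O.neg_mem hcO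
    have hcO'' : ((z : ℝ) • (p * q * p)) ∈ O := by
      rw [Int.cast_smul_eq_zsmul]; exact O.zsmul_mem (O.mul_mem (O.mul_mem hpO hqO) hpO) z
    exact Subgroup.mul_mem _ (Subgroup.mul_mem _ (nilU_mem _ _ k1 hcO'' n) (nilU_mem _ _ k2 hcO' n))
      (Subgroup.mul_mem _ (Subgroup.mul_mem _ (nilU_mem _ _ hp0 hpO 0) (nilU_mem _ _ k3 hcO n))
        (nilU_mem _ _ k4 (O.neg_mem hpO) 0))
  · intro θ hθ hθ1
    have hθ0 : 0 ≤ θ := le_trans (by positivity) hθ
    have hPb : Bd ρ P P' := by rw [hP]; exact Bd.C hρ p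
    have hQb : Bd ρ Q (Q' * θ) := by
      rw [hQ]
      refine (Bd.C_mul_X_pow hρ _ n).le ?_
      rw [norm_smul, Real.norm_eq_abs]
      nlinarith
    have hDb : Bd ρ Dl ((1 + P') ^ 2 * (Q' * θ)) := by
      rw [hDl]
      refine (((hQb.add hρ (hPb.mul hρ hQb)).sub hρ (hQb.mul hρ hPb)).sub hρ ((hPb.mul hρ hQb).mul hρ hPb)).le ?_
      apply le_of_eq; ring
    have h1 : u.val - 1 - PowerSeries.C (c • (p * q - q * p)) * X ^ n = e := by rw [hval, hPQ]; abel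
    rw [h1, he]
    refine ((((((hPb.mul hρ hQb).mul hρ (hPb.mul hρ hQb)).neg).add hρ (((hPb.mul hρ hQb).mul hρ hPb).mul hρ hDb)).sub hρ
      (hQb.mul hρ hDb)).sub hρ ((((hPb.mul hρ hQb).mul hρ hPb).mul hρ hQb).mul hρ hDb)).le ?_
    have e1 : P' * (Q' * θ) * P' * (Q' * θ) * ((1 + P') ^ 2 * (Q' * θ)) ≤ P' ^ 2 * Q' ^ 3 * (1 + P') ^ 2 * θ ^ 2 := by
      have : P' * (Q' * θ) * P' * (Q' * θ) * ((1 + P') ^ 2 * (Q' * θ)) = (P' ^ 2 * Q' ^ 3 * (1 + P') ^ 2 * θ ^ 2) * θ := by ring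
      rw [this]
      exact mul_le_of_le_one_right (by positivity) hθ1
    nlinarith

end gg

end Pool.Agent.W717.G
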