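import Mathlib
import Pool.Agent.W717.G.Gen

set_option autoImplicit false
set_option linter.all false

namespace Pool.Agent.W717.G

open Finset PowerSeries Filter Topology

section basics

variable {ι G : Type} [Fintype ι] [DecidableEq ι] [Group G] [Fintype G] [DecidableEq G]

theorem coeff_mul_fin {R : Type} [Semiring R] (x y : MonoidAlgebra R G) (g : G) :
    (x * y).coeff g = ∑ h, x.coeff h * y.coeff (h⁻¹ * g) := by
  rw [MonoidAlgebra.coeff_mul_apply_left, Finsupp.sum_fintype]
  intro i; rw [zero_mul]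

theorem coeff_mul_mat {R : Type} [Semiring R] (a b : Matrix ι ι (MonoidAlgebra R G)) (i k : ι) (g : G) :
    ((a * b) i k).coeff g = ∑ j, ∑ h, (a i j).coeff h * (b j k).coeff (h⁻¹ * g) := by
  rw [Matrix.mul_apply, MonoidAlgebra.coeff_sum, Finsupp.finsetSum_apply]
  apply Finset.sum_congr rfl
  intro j _
  rw [coeff_mul_fin]

/-- the regular representation -/
def reg : Matrix ι ι (MonoidAlgebra ℝ G) →ₐ[ℝ] Matrix (ι × G) (ι × G) ℝ where
  toFun a := Matrix.of fun p q => (a p.1 q.1).coeff (p.2 * q.2⁻¹)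
  map_zero' := by ext p q; simp
  map_one' := by
    ext p q
    rw [Matrix.of_apply, Matrix.one_apply, Matrix.one_apply]
    by_cases h1 : p.1 = q.1
    · rw [if_pos h1, MonoidAlgebra.one_def, MonoidAlgebra.coeff_single, Finsupp.single_apply]
      by_cases h2 : p.2 = q.2
      · rw [if_pos (by rw [h2, mul_inv_cancel]), if_pos (Prod.ext h1 h2)]
      · rw [if_neg (fun h => h2 (mul_inv_eq_one.mp h.symm)), if_neg (fun h => h2 (congrArg Prod.snd h))]
    · rw [if_neg h1, if_neg (fun h => h1 (congrArg Prod.fst h))]; simp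
  map_add' a b := by ext p q; simp
  map_mul' a b := by
    ext p q
    rw [Matrix.of_apply, coeff_mul_mat, Matrix.mul_apply, Fintype.sum_prod_type]
    apply Finset.sum_congr rfl
    intro j _
    rw [← Equiv.sum_comp ((Equiv.inv G).trans (Equiv.mulLeft p.2))]
    apply Finset.sum_congr rfl
    intro h _
    simp only [Equiv.trans_apply, Equiv.inv_apply, Equiv.coe_mulLeft, Matrix.of_apply, mul_inv_rev, inv_inv]
    congr 2
    group
  commutes' r := by
    ext p q
    rw [Matrix.of_apply, Matrix.algebraMap_matrix_apply, Matrix.algebraMap_matrix_apply]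
    by_cases h1 : p.1 = q.1
    · rw [if_pos h1, MonoidAlgebra.coe_algebraMap]
      simp only [Function.comp_apply, Algebra.algebraMap_self, RingHom.id_apply, MonoidAlgebra.coeff_single, Finsupp.single_apply]
      by_cases h2 : p.2 = q.2
      · rw [if_pos (by rw [h2, mul_inv_cancel]), if_pos (Prod.ext h1 h2)]
      · rw [if_neg (fun h => h2 (mul_inv_eq_one.mp h.symm)), if_neg (fun h => h2 (congrArg Prod.snd h))]
    · rw [if_neg h1, if_neg (fun h => h1 (congrArg Prod.fst h))]; simp

theorem reg_apply (a : Matrix ι ι (MonoidAlgebra ℝ G)) (p q : ι × G) :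
    reg a p q = (a p.1 q.1).coeff (p.2 * q.2⁻¹) := rfl

theorem reg_inj : Function.Injective (reg : Matrix ι ι (MonoidAlgebra ℝ G) →ₐ[ℝ] Matrix (ι × G) (ι × G) ℝ) := by
  intro a b h
  ext i j g
  have := congrFun (congrFun h (i, g)) (j, 1)
  simpa [reg_apply] using this

attribute [local instance] Matrix.linftyOpNormedRing Matrix.linftyOpNormedAlgebra

noncomputable scoped instance instNR : NormedRing (Matrix ι ι (MonoidAlgebra ℝ G)) :=
  NormedRing.induced (Matrix ι ι (MonoidAlgebra ℝ G)) (Matrix (ι × G) (ι × G) ℝ) reg reg_inj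

theorem norm_eq (a : Matrix ι ι (MonoidAlgebra ℝ G)) : ‖a‖ = ‖reg a‖ := rfl

scoped instance instNOC [Nonempty ι] : NormOneClass (Matrix ι ι (MonoidAlgebra ℝ G)) where
  norm_one := by rw [norm_eq, map_one, norm_one]

noncomputable scoped instance instNA : NormedAlgebra ℝ (Matrix ι ι (MonoidAlgebra ℝ G)) where
  norm_smul_le r x := by rw [norm_eq, norm_eq, map_smul]; exact norm_smul_le r (reg x)

theorem entry_le_norm (M : Matrix (ι × G) (ι × G) ℝ) (p q : ι × G) : |M p q| ≤ ‖M‖ := by
  rw [Matrix.linfty_opNorm_def]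
  have h1 : ‖M p q‖₊ ≤ ∑ j, ‖M p j‖₊ := Finset.single_le_sum (f := fun j => ‖M p j‖₊) (fun _ _ => by positivity) (Finset.mem_univ q)
  have h2 : ∑ j, ‖M p j‖₊ ≤ Finset.univ.sup fun i => ∑ j, ‖M i j‖₊ :=
    Finset.le_sup (f := fun i => ∑ j, ‖M i j‖₊) (Finset.mem_univ p)
  exact_mod_cast (h1.trans h2)

theorem coeff_le_norm (a : Matrix ι ι (MonoidAlgebra ℝ G)) (i j : ι) (g : G) : |(a i j).coeff g| ≤ ‖a‖ := by
  have := entry_le_norm (reg a) (i, g) (j, 1)
  simpa [reg_apply, norm_eq] using this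

theorem norm_le_sum (a : Matrix ι ι (MonoidAlgebra ℝ G)) : ‖a‖ ≤ ∑ i, ∑ j, ∑ g, |(a i j).coeff g| := by
  rw [norm_eq, Matrix.linfty_opNorm_def]
  have h1 : (Finset.univ.sup fun i => ∑ j, ‖reg a i j‖₊) ≤ Real.toNNReal (∑ i, ∑ j, ∑ g, |(a i j).coeff g|) := by
    apply Finset.sup_le
    intro p _
    rw [← NNReal.coe_le_coe, Real.coe_toNNReal _ (by positivity)]
    push_cast
    rw [Fintype.sum_prod_type]
    refine le_trans (le_of_eq ?_) (Finset.single_le_sum (f := fun i => ∑ j, ∑ g, |(a i j).coeff g|)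
      (fun _ _ => by positivity) (Finset.mem_univ p.1))
    apply Finset.sum_congr rfl
    intro j _
    rw [← Equiv.sum_comp ((Equiv.inv G).trans (Equiv.mulLeft p.2)) (fun g => |(a p.1 j).coeff g|)]
    apply Finset.sum_congr rfl
    intro h _
    simp only [reg_apply, Equiv.trans_apply, Equiv.inv_apply, Equiv.coe_mulLeft, Real.norm_eq_abs]
  have h2 : ((Finset.univ.sup fun i => ∑ j, ‖reg a i j‖₊ : NNReal) : ℝ) ≤
      ((Real.toNNReal (∑ i, ∑ j, ∑ g, |(a i j).coeff g|) : NNReal) : ℝ) := by exact_mod_cast h1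
  rwa [Real.coe_toNNReal _ (by positivity)] at h2

open Classical in
/-- the class-function valued trace -/
noncomputable def kap : Matrix ι ι (MonoidAlgebra ℝ G) →ₗ[ℝ] (ConjClasses G → ℝ) where
  toFun a := fun c => ∑ i, ∑ g, if ConjClasses.mk g = c then (a i i).coeff g else 0
  map_add' a b := by
    funext c
    simp only [Pi.add_apply, Matrix.add_apply, MonoidAlgebra.coeff_add, Finsupp.add_apply]
    rw [← Finset.sum_add_distrib]
    apply Finset.sum_congr rfl
    intro i _
    rw [← Finset.sum_add_distrib]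
    apply Finset.sum_congr rfl
    intro g _
    split_ifs <;> simp
  map_smul' r a := by
    funext c
    simp only [Pi.smul_apply, Matrix.smul_apply, MonoidAlgebra.coeff_smul, Finsupp.smul_apply, RingHom.id_apply]
    rw [Finset.smul_sum]
    apply Finset.sum_congr rfl
    intro i _
    rw [Finset.smul_sum]
    apply Finset.sum_congr rfl
    intro g _
    split_ifs <;> simp

open Classical in
theorem kap_apply (a : Matrix ι ι (MonoidAlgebra ℝ G)) (c : ConjClasses G) :
    kap a c = ∑ i, ∑ g, if ConjClasses.mk g = c then (a i i).coeff g else 0 := rfl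

open Classical in
theorem kap_mul (a b : Matrix ι ι (MonoidAlgebra ℝ G)) (c : ConjClasses G) :
    kap (a * b) c = ∑ i, ∑ j, ∑ x, ∑ y, if ConjClasses.mk (x * y) = c then (a i j).coeff x * (b j i).coeff y else 0 := by
  rw [kap_apply]
  apply Finset.sum_congr rfl
  intro i _
  have h1 : ∀ g, (if ConjClasses.mk g = c then ((a * b) i i).coeff g else 0) =
      ∑ j, ∑ x, if ConjClasses.mk g = c then (a i j).coeff x * (b j i).coeff (x⁻¹ * g) else 0 := by
    intro g
    rw [coeff_mul_mat]
    split_ifs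
    · rfl
    · simp
  rw [Finset.sum_congr rfl (fun g _ => h1 g), Finset.sum_comm]
  apply Finset.sum_congr rfl
  intro j _
  rw [Finset.sum_comm]
  apply Finset.sum_congr rfl
  intro x _
  rw [← Equiv.sum_comp (Equiv.mulLeft x)]
  apply Finset.sum_congr rfl
  intro y _
  simp only [Equiv.coe_mulLeft, inv_mul_cancel_left]

theorem mk_comm (x y : G) : ConjClasses.mk (x * y) = ConjClasses.mk (y * x) := by
  rw [ConjClasses.mk_eq_mk_iff_isConj, isConj_iff]
  exact ⟨x⁻¹, by group⟩

theorem kap_cyc (a b : Matrix ι ι (MonoidAlgebra ℝ G)) : kap (a * b) = kap (b * a) := by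
  classical
  funext c
  rw [kap_mul, kap_mul, Finset.sum_comm]
  apply Finset.sum_congr rfl
  intro i _
  apply Finset.sum_congr rfl
  intro j _
  rw [Finset.sum_comm]
  apply Finset.sum_congr rfl
  intro x _
  apply Finset.sum_congr rfl
  intro y _
  rw [mk_comm y x, mul_comm]

/-- matrix units -/
noncomputable def E (i j : ι) (g : G) : Matrix ι ι (MonoidAlgebra ℝ G) := Matrix.single i j (MonoidAlgebra.single g 1)

theorem E_mul_same (i j k : ι) (g h : G) : E i j g * E j k h = E i k (g * h) := by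
  unfold E
  rw [Matrix.single_mul_single_same, MonoidAlgebra.single_mul_single, mul_one]

theorem E_mul_ne (i j k l : ι) (g h : G) (hjk : j ≠ k) : E i j g * E k l h = 0 := by
  unfold E
  exact Matrix.single_mul_single_of_ne _ _ _ _ hjk _

theorem coeff_E (i j : ι) (g : G) (i' j' : ι) (g' : G) : (E i j g i' j').coeff g' = if i = i' ∧ j = j' ∧ g = g' then 1 else 0 := by
  unfold E
  rw [Matrix.single_apply]
  by_cases h : i = i' ∧ j = j'
  · rw [if_pos h, MonoidAlgebra.coeff_single, Finsupp.single_apply]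
    by_cases hg : g = g'
    · rw [if_pos hg, if_pos ⟨h.1, h.2, hg⟩]
    · rw [if_neg hg, if_neg (fun h' => hg h'.2.2)]
  · rw [if_neg h, if_neg (fun h' => h ⟨h'.1, h'.2.1⟩)]; simp

theorem eq_sum_E (a : Matrix ι ι (MonoidAlgebra ℝ G)) : a = ∑ i, ∑ j, ∑ g, (a i j).coeff g • E i j g := by
  ext i' j' g'
  simp only [Matrix.sum_apply, MonoidAlgebra.coeff_sum, Finsupp.finsetSum_apply, Matrix.smul_apply, MonoidAlgebra.coeff_smul,
    Finsupp.smul_apply, coeff_E, smul_eq_mul, mul_ite, mul_one, mul_zero]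
  rw [Finset.sum_eq_single i']
  · rw [Finset.sum_eq_single j']
    · rw [Finset.sum_eq_single g']
      · simp
      · intro g _ hg; rw [if_neg (fun h => hg h.2.2)]
      · intro h; exact absurd (Finset.mem_univ _) h
    · intro j _ hj
      apply Finset.sum_eq_zero
      intro g _
      rw [if_neg (fun h => hj h.2.1)]
    · intro h; exact absurd (Finset.mem_univ _) h
  · intro i _ hi
    apply Finset.sum_eq_zero
    intro j _
    apply Finset.sum_eq_zero
    intro g _
    rw [if_neg (fun h => hi h.1)]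
  · intro h; exact absurd (Finset.mem_univ _) h

open Classical in
theorem kap_E_ne (i j : ι) (g : G) (h : i ≠ j) : kap (E i j g) = 0 := by
  funext c
  rw [kap_apply]
  apply Finset.sum_eq_zero
  intro k _
  apply Finset.sum_eq_zero
  intro x _
  rw [coeff_E]
  have h1 : ¬ (i = k ∧ j = k ∧ g = x) := fun h' => h (h'.1.trans h'.2.1.symm)
  simp only [h1, if_false, ite_self]

theorem E_sq (i j : ι) (g : G) (h : i ≠ j) : E i j g * E i j g = (0 : Matrix ι ι (MonoidAlgebra ℝ G)) :=
  E_mul_ne _ _ _ _ _ _ h.symm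

/-- the map from integral matrices -/
noncomputable def iZ : Matrix ι ι (MonoidAlgebra ℤ G) →+* Matrix ι ι (MonoidAlgebra ℝ G) :=
  (MonoidAlgebra.mapRingHom G (Int.castRingHom ℝ)).mapMatrix

theorem coeff_iZ (a : Matrix ι ι (MonoidAlgebra ℤ G)) (i j : ι) (g : G) : (iZ a i j).coeff g = ((a i j).coeff g : ℝ) := by
  rfl

theorem iZ_inj : Function.Injective (iZ : Matrix ι ι (MonoidAlgebra ℤ G) →+* Matrix ι ι (MonoidAlgebra ℝ G)) := by
  intro a b h
  ext i j g
  have := congrArg (fun m : Matrix ι ι (MonoidAlgebra ℝ G) => (m i j).coeff g) h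
  simp only [coeff_iZ] at this
  exact_mod_cast this

/-- integral elements -/
noncomputable def OZ : Subring (Matrix ι ι (MonoidAlgebra ℝ G)) := (iZ : Matrix ι ι (MonoidAlgebra ℤ G) →+* _).range

theorem mem_OZ {a : Matrix ι ι (MonoidAlgebra ℝ G)} : a ∈ (OZ : Subring (Matrix ι ι (MonoidAlgebra ℝ G))) ↔
    ∀ i j g, ∃ z : ℤ, (a i j).coeff g = z := by
  constructor
  · rintro ⟨b, rfl⟩ i j g
    exact ⟨(b i j).coeff g, coeff_iZ b i j g⟩
  · intro h
    choose z hz using h
    refine ⟨Matrix.of fun i j => MonoidAlgebra.ofCoeff (Finsupp.equivFunOnFinite.symm (z i j)), ?_⟩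
    ext i j g
    rw [coeff_iZ, hz]
    simp

theorem E_mem (i j : ι) (g : G) : E i j g ∈ (OZ : Subring (Matrix ι ι (MonoidAlgebra ℝ G))) := by
  rw [mem_OZ]
  intro i' j' g'
  rw [coeff_E]
  split_ifs
  · exact ⟨1, by simp⟩
  · exact ⟨0, by simp⟩

end basics

end Pool.Agent.W717.G
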