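import Mathlib
import Pool.Agent.W717.G.Conc

set_option autoImplicit false
set_option linter.all false

namespace Pool.Agent.W717.G

open Finset PowerSeries Filter Topology

section FGall

variable {A : Type*} [NormedRing A] [NormOneClass A] [NormedAlgebra ℝ A] {V : Type*} [AddCommGroup V] [Module ℝ V]

theorem FG.all {ρ : ℝ} {κ : A →ₗ[ℝ] V} (hρ : 0 ≤ ρ) {Γ : Subgroup (PowerSeries A)ˣ} (hκ : ∀ a b, κ (a * b) = κ (b * a))
    {L : Type*} {s : L → A} (h : ∀ i, GG ρ κ Γ (s i)) (l : List L) : FG ρ κ Γ s l := by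
  induction l with
  | nil => exact FG.nil s
  | cons i l ih => exact FG.cons hρ hκ (h i) ih

end FGall

section inst

variable {ι G : Type} [Fintype ι] [DecidableEq ι] [Group G] [Fintype G] [DecidableEq G]

/-- class representative -/
noncomputable def crep (g : G) : G := Quotient.out (ConjClasses.mk g)

theorem crep_spec (g : G) : ∃ h : G, h * g * h⁻¹ = crep g := by
  have h1 : ConjClasses.mk g = ConjClasses.mk (crep g) := (Quotient.out_eq (ConjClasses.mk g)).symm
  rw [ConjClasses.mk_eq_mk_iff_isConj, isConj_iff] at h1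
  exact h1

/-- the generators of the kernel of the trace -/
noncomputable def sgen (i0 : ι) (l : ι × ι × G) : Matrix ι ι (MonoidAlgebra ℝ G) :=
  if l.1 = l.2.1 then E l.1 l.1 l.2.2 - E i0 i0 (crep l.2.2) else E l.1 l.2.1 l.2.2

theorem sgen_GG {ρ : ℝ} (hρ : 0 ≤ ρ) (hρ1 : ρ ≤ 1) [Nonempty ι] (i0 i1 : ι) (h01 : i0 ≠ i1) (l : ι × ι × G) :
    GG ρ (kap : Matrix ι ι (MonoidAlgebra ℝ G) →ₗ[ℝ] _) (Gam OZ kap kap_cyc) (sgen i0 l) := by
  obtain ⟨i, j, g⟩ := l
  unfold sgen
  simp only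
  split_ifs with hij
  · subst hij
    obtain ⟨h, hh⟩ := crep_spec g
    by_cases hi : i = i0
    · subst hi
      have a1 := GG.comm (hκ := kap_cyc) (O := OZ) hρ hρ1 (E_sq i i1 h⁻¹ h01) (E_sq i1 i (h * g) h01.symm) (kap_E_ne i i1 h⁻¹ h01)
        (kap_E_ne i1 i (h * g) h01.symm) (E_mem _ _ _) (E_mem _ _ _)
      have a2 := GG.comm (hκ := kap_cyc) (O := OZ) hρ hρ1 (E_sq i1 i (1 : G) h01.symm) (E_sq i i1 (crep g) h01) (kap_E_ne i1 i (1 : G) h01.symm)
        (kap_E_ne i i1 (crep g) h01) (E_mem _ _ _) (E_mem _ _ _)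
      have a3 := GG.add hρ hρ1 kap_cyc a1 a2
      rw [E_mul_same, E_mul_same, E_mul_same, E_mul_same, inv_mul_cancel_left, hh, one_mul, mul_one] at a3
      rwa [sub_add_sub_cancel] at a3
    · have a1 := GG.comm (hκ := kap_cyc) (O := OZ) hρ hρ1 (E_sq i i0 h⁻¹ hi) (E_sq i0 i (h * g) (Ne.symm hi)) (kap_E_ne i i0 h⁻¹ hi)
        (kap_E_ne i0 i (h * g) (Ne.symm hi)) (E_mem _ _ _) (E_mem _ _ _)
      rw [E_mul_same, E_mul_same, inv_mul_cancel_left, hh] at a1
      exact a1
  · exact GG.nil hρ (E_sq i j g hij) (kap_E_ne i j g hij) (E_mem i j g)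

open Classical in
theorem kap_E_diag (i : ι) (g : G) : kap (E i i g : Matrix ι ι (MonoidAlgebra ℝ G)) = fun c => if ConjClasses.mk g = c then 1 else 0 := by
  funext c
  rw [kap_apply, Finset.sum_eq_single i]
  · rw [Finset.sum_eq_single g]
    · rw [coeff_E]; simp
    · intro x _ hx
      have h1 : ¬ (g = x) := fun h' => hx h'.symm
      rw [coeff_E]
      simp only [h1, and_false, if_false, ite_self]
    · intro h; exact absurd (Finset.mem_univ _) h
  · intro k _ hk
    apply Finset.sum_eq_zero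
    intro x _
    have h1 : ¬ (i = k ∧ i = k ∧ g = x) := fun h' => hk h'.1.symm
    rw [coeff_E]
    simp only [h1, if_false, ite_self]
  · intro h; exact absurd (Finset.mem_univ _) h

theorem crep_mk (g : G) : ConjClasses.mk (crep g) = ConjClasses.mk g := Quotient.out_eq (ConjClasses.mk g)

theorem kap_sgen (i0 : ι) (l : ι × ι × G) : kap (sgen i0 l) = 0 := by
  unfold sgen
  split_ifs with hij
  · rw [map_sub, kap_E_diag, kap_E_diag]
    funext c
    simp only [Pi.sub_apply, Pi.zero_apply]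
    rw [crep_mk, sub_self]
  · exact kap_E_ne _ _ _ hij

theorem sgen_mem (i0 : ι) (l : ι × ι × G) : sgen i0 l ∈ (OZ : Subring (Matrix ι ι (MonoidAlgebra ℝ G))) := by
  unfold sgen
  split_ifs with hij
  · exact Subring.sub_mem _ (E_mem _ _ _) (E_mem _ _ _)
  · exact E_mem _ _ _

open Classical in
theorem ker_eq (i0 : ι) (a : Matrix ι ι (MonoidAlgebra ℝ G)) (ha : kap a = 0) :
    a = ∑ l : ι × ι × G, (a l.1 l.2.1).coeff l.2.2 • sgen i0 l := by
  have h1 : ∀ l : ι × ι × G, (a l.1 l.2.1).coeff l.2.2 • sgen i0 l = (a l.1 l.2.1).coeff l.2.2 • E l.1 l.2.1 l.2.2 -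
      (if l.1 = l.2.1 then (a l.1 l.2.1).coeff l.2.2 • E i0 i0 (crep l.2.2) else 0) := by
    intro l
    unfold sgen
    split_ifs with hij
    · rw [smul_sub, ← hij]
    · rw [sub_zero]
  rw [Finset.sum_congr rfl (fun l _ => h1 l), Finset.sum_sub_distrib]
  have h2 : ∑ l : ι × ι × G, (a l.1 l.2.1).coeff l.2.2 • E l.1 l.2.1 l.2.2 = a := by
    conv_rhs => rw [eq_sum_E a]
    rw [Fintype.sum_prod_type]
    apply Finset.sum_congr rfl
    intro i _
    rw [Fintype.sum_prod_type]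
  have h3 : ∑ l : ι × ι × G, (if l.1 = l.2.1 then (a l.1 l.2.1).coeff l.2.2 • E i0 i0 (crep l.2.2) else 0) =
      (0 : Matrix ι ι (MonoidAlgebra ℝ G)) := by
    rw [Fintype.sum_prod_type]
    have h4 : ∀ i : ι, ∑ x : ι × G, (if i = x.1 then (a i x.1).coeff x.2 • E i0 i0 (crep x.2) else 0) =
      ∑ g : G, (a i i).coeff g • (E i0 i0 (crep g) : Matrix ι ι (MonoidAlgebra ℝ G)) := by
      intro i
      rw [Fintype.sum_prod_type, Finset.sum_eq_single i]
      · simp
      · intro j _ hj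
        apply Finset.sum_eq_zero
        intro g _
        rw [if_neg (fun h => hj h.symm)]
      · intro h; exact absurd (Finset.mem_univ _) h
    simp only
    rw [Finset.sum_congr rfl (fun i _ => h4 i)]
    have h5 : ∀ i : ι, ∀ g : G, (a i i).coeff g • (E i0 i0 (crep g) : Matrix ι ι (MonoidAlgebra ℝ G)) =
      ∑ c : ConjClasses G, (if ConjClasses.mk g = c then (a i i).coeff g else 0) • E i0 i0 (Quotient.out c) := by
      intro i g
      rw [Finset.sum_eq_single (ConjClasses.mk g)]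
      · rw [if_pos rfl]; rfl
      · intro c _ hc
        rw [if_neg (fun h => hc h.symm), zero_smul]
      · intro h; exact absurd (Finset.mem_univ _) h
    have h6 : ∑ i : ι, ∑ g : G, (a i i).coeff g • (E i0 i0 (crep g) : Matrix ι ι (MonoidAlgebra ℝ G)) =
      ∑ c : ConjClasses G, (kap a c) • (E i0 i0 (Quotient.out c) : Matrix ι ι (MonoidAlgebra ℝ G)) := by
      rw [Finset.sum_congr rfl (fun i _ => Finset.sum_congr rfl (fun g _ => h5 i g))]
      rw [Finset.sum_congr rfl (fun i _ => Finset.sum_comm), Finset.sum_comm]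
      apply Finset.sum_congr rfl
      intro c _
      rw [kap_apply, Finset.sum_smul]
      apply Finset.sum_congr rfl
      intro i _
      rw [Finset.sum_smul]
    rw [h6, ha]
    simp
  rw [h2, h3, sub_zero]

theorem setup {ρ : ℝ} (hρ : 0 < ρ) (hρ1 : ρ < 1) [Nontrivial ι] :
    Setup ρ (OZ : Subring (Matrix ι ι (MonoidAlgebra ℝ G))) kap (Gam OZ kap kap_cyc) := by
  obtain ⟨i0, i1, h01⟩ := exists_pair_ne ι
  haveI : Nonempty ι := ⟨i0⟩
  refine ⟨hρ, hρ1, kap_cyc, fun u hu => hu.1.1, fun u hu => hu.2.2, fun u hu => hu.2.1.1.bd hρ.le, ?_, ?_⟩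
  · obtain ⟨C, hC, H⟩ := FG.all (s := sgen i0) hρ.le kap_cyc (fun l => sgen_GG (G := G) hρ.le hρ1.le i0 i1 h01 l)
      (Finset.univ.toList : List (ι × ι × G))
    refine ⟨C, hC, fun a ha n hn => ?_⟩
    obtain ⟨u, h1, h2, h3, h4, h5⟩ := H (fun l => (a l.1 l.2.1).coeff l.2.2) n hn
    have hsum : ((Finset.univ.toList : List (ι × ι × G)).map fun l => (a l.1 l.2.1).coeff l.2.2 • sgen i0 l).sum = a := by
      rw [Finset.sum_map_toList, ← ker_eq i0 a ha]
    rw [hsum] at h3 h5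
    refine ⟨u, h1, h2, h3, ?_, ?_⟩
    · intro haO
      rw [mem_OZ] at haO
      exact h4 (fun l => haO _ _ _)
    · intro hle
      refine h5 (‖a‖ * ρ ^ n) (fun l => ?_) (by positivity) hle
      exact mul_le_mul_of_nonneg_right (coeff_le_norm a _ _ _) (by positivity)
  · refine ⟨∑ l : ι × ι × G, ‖(sgen i0 l : Matrix ι ι (MonoidAlgebra ℝ G))‖, by positivity, ?_⟩
    rintro r ⟨b, hbO, hb⟩
    have hd : kap (r - b) = 0 := by rw [map_sub, hb, sub_self]
    have hd' := ker_eq i0 (r - b) hd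
    refine ⟨b + ∑ l : ι × ι × G, (⌊((r - b) l.1 l.2.1).coeff l.2.2⌋ : ℝ) • sgen i0 l, ?_, ?_, ?_⟩
    · apply Subring.add_mem _ hbO
      apply Subring.sum_mem
      intro l _
      rw [Int.cast_smul_eq_zsmul]
      exact Subring.zsmul_mem _ (sgen_mem i0 l) _
    · rw [map_add, map_sum, hb]
      simp [kap_sgen]
    · have e1 : b + ∑ l : ι × ι × G, (⌊((r - b) l.1 l.2.1).coeff l.2.2⌋ : ℝ) • sgen i0 l - r =
        - ∑ l : ι × ι × G, (Int.fract (((r - b) l.1 l.2.1).coeff l.2.2)) • sgen i0 l := by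
        have e2 : b - r = - ∑ l : ι × ι × G, ((r - b) l.1 l.2.1).coeff l.2.2 • sgen i0 l := by
          rw [← hd']; abel
        have e3 : b + ∑ l : ι × ι × G, (⌊((r - b) l.1 l.2.1).coeff l.2.2⌋ : ℝ) • sgen i0 l - r =
          (b - r) + ∑ l : ι × ι × G, (⌊((r - b) l.1 l.2.1).coeff l.2.2⌋ : ℝ) • sgen i0 l := by abel
        rw [e3, e2, neg_add_eq_sub, ← neg_sub, ← Finset.sum_sub_distrib]
        congr 1
        apply Finset.sum_congr rfl
        intro l _
        rw [← sub_smul]; rfl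
      rw [e1, norm_neg]
      refine (norm_sum_le _ _).trans (Finset.sum_le_sum fun l _ => ?_)
      rw [norm_smul, Real.norm_eq_abs, abs_of_nonneg (Int.fract_nonneg _)]
      exact mul_le_of_le_one_left (norm_nonneg _) (Int.fract_lt_one _).le

end inst

end Pool.Agent.W717.G
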