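import Mathlib
import Pool.Agent.W717.G.Bn

set_option autoImplicit false
set_option linter.all false

namespace Pool.Agent.W717.G

open Finset PowerSeries Filter Topology

section ev

variable {A : Type*} [NormedRing A] [NormedAlgebra ℝ A]

/-- evaluation at a real number -/
noncomputable def ev (y : ℝ) (f : PowerSeries A) : A := ∑' k, y ^ k • coeff k f

theorem bd_summ {ρ y : ℝ} (hy : 0 ≤ y) (hyρ : y ≤ ρ) {f : PowerSeries A} {c : ℝ} (hf : Bd ρ f c) :
    Summable fun k => ‖y ^ k • coeff k f‖ := by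
  refine (hf.summable (hy.trans hyρ)).of_nonneg_of_le (fun k => norm_nonneg _) (fun k => ?_)
  rw [norm_smul, Real.norm_eq_abs, abs_of_nonneg (by positivity), mul_comm]
  exact mul_le_mul_of_nonneg_left (pow_le_pow_left₀ hy hyρ k) (norm_nonneg _)

variable [CompleteSpace A]

theorem bd_hasSum {ρ y : ℝ} (hy : 0 ≤ y) (hyρ : y ≤ ρ) {f : PowerSeries A} {c : ℝ} (hf : Bd ρ f c) :
    HasSum (fun k => y ^ k • coeff k f) (ev y f) := (bd_summ hy hyρ hf).of_norm.hasSum

theorem ev_mul {ρ y : ℝ} (hy : 0 ≤ y) (hyρ : y ≤ ρ) {f g : PowerSeries A} {c d : ℝ} (hf : Bd ρ f c) (hg : Bd ρ g d) :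
    ev y (f * g) = ev y f * ev y g := by
  unfold ev
  rw [tsum_mul_tsum_eq_tsum_sum_antidiagonal_of_summable_norm (bd_summ hy hyρ hf) (bd_summ hy hyρ hg)]
  apply tsum_congr
  intro k
  rw [coeff_mul, Finset.smul_sum]
  apply Finset.sum_congr rfl
  intro x hx
  rw [Finset.HasAntidiagonal.mem_antidiagonal] at hx
  rw [smul_mul_smul_comm, ← pow_add, hx]

theorem ev_add {ρ y : ℝ} (hy : 0 ≤ y) (hyρ : y ≤ ρ) {f g : PowerSeries A} {c d : ℝ} (hf : Bd ρ f c) (hg : Bd ρ g d) :
    ev y (f + g) = ev y f + ev y g := by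
  have h1 := (bd_hasSum hy hyρ hf).add (bd_hasSum hy hyρ hg)
  rw [← h1.tsum_eq]
  unfold ev
  apply tsum_congr
  intro k
  rw [map_add, smul_add]

theorem ev_sub {ρ y : ℝ} (hy : 0 ≤ y) (hyρ : y ≤ ρ) {f g : PowerSeries A} {c d : ℝ} (hf : Bd ρ f c) (hg : Bd ρ g d) :
    ev y (f - g) = ev y f - ev y g := by
  have h1 := (bd_hasSum hy hyρ hf).sub (bd_hasSum hy hyρ hg)
  rw [← h1.tsum_eq]
  unfold ev
  apply tsum_congr
  intro k
  rw [map_sub, smul_sub]

omit [CompleteSpace A] in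
theorem ev_C_mul_X_pow (y : ℝ) (a : A) (n : ℕ) : ev y (C a * X ^ n : PowerSeries A) = y ^ n • a := by
  unfold ev
  rw [tsum_eq_single n]
  · rw [coeff_C_mul, coeff_X_pow, if_pos rfl, mul_one]
  · intro k hk
    rw [coeff_C_mul, coeff_X_pow, if_neg hk, mul_zero, smul_zero]

omit [CompleteSpace A] in
theorem ev_one (y : ℝ) : ev y (1 : PowerSeries A) = 1 := by
  have := ev_C_mul_X_pow y (1 : A) 0
  simpa using this

omit [CompleteSpace A] in
theorem ev_zero (y : ℝ) : ev y (0 : PowerSeries A) = 0 := by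
  unfold ev; simp

omit [CompleteSpace A] in
theorem ev_C (y : ℝ) (a : A) : ev y (C a : PowerSeries A) = a := by
  have := ev_C_mul_X_pow y a 0
  simpa using this

/-- `1 - lam X` -/
noncomputable def lX (lam : ℝ) : PowerSeries A := 1 - C (algebraMap ℝ A lam) * X

omit [CompleteSpace A] in
theorem coeff_lX_mul_zero (lam : ℝ) (f : PowerSeries A) : coeff 0 (lX lam * f) = coeff 0 f := by
  unfold lX
  rw [sub_mul, one_mul, mul_assoc, map_sub, coeff_C_mul, coeff_zero_X_mul, mul_zero, sub_zero]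

omit [CompleteSpace A] in
theorem coeff_lX_mul_succ (lam : ℝ) (f : PowerSeries A) (k : ℕ) :
    coeff (k + 1) (lX lam * f) = coeff (k + 1) f - lam • coeff k f := by
  unfold lX
  rw [sub_mul, one_mul, mul_assoc, map_sub, coeff_C_mul, coeff_succ_X_mul, ← Algebra.smul_def]

omit [CompleteSpace A] in
theorem lX_comm (lam : ℝ) (f : PowerSeries A) : lX lam * f = f * lX lam := by
  unfold lX
  rw [sub_mul, mul_sub, one_mul, mul_one]
  congr 1
  ext k
  cases k with
  | zero => rw [mul_assoc, coeff_C_mul, coeff_zero_X_mul, mul_zero, ← mul_assoc, coeff_zero_mul_X]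
  | succ k =>
    rw [mul_assoc, coeff_C_mul, coeff_succ_X_mul, ← mul_assoc, coeff_succ_mul_X, coeff_mul_C, Algebra.commutes]

omit [CompleteSpace A] in
theorem lX_psum {lam : ℝ} (hlam : lam ≠ 0) (f : PowerSeries A) (k : ℕ) :
    ∑ j ∈ range (k + 1), (lam⁻¹) ^ j • coeff j (lX lam * f) = (lam⁻¹) ^ k • coeff k f := by
  induction k with
  | zero => simp [coeff_lX_mul_zero, -coeff_zero_eq_constantCoeff]
  | succ k ih =>
    rw [Finset.sum_range_succ, ih, coeff_lX_mul_succ, smul_sub, smul_smul, pow_succ, mul_assoc, inv_mul_cancel₀ hlam, mul_one]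
    abel

theorem lX_tendsto {lam ρ : ℝ} (hlam : 0 < lam) (hρ : lam⁻¹ ≤ ρ) {f : PowerSeries A} {c : ℝ} (h : Bd ρ (lX lam * f) c) :
    Tendsto (fun k => (lam⁻¹) ^ k • coeff k f) atTop (𝓝 (ev (lam⁻¹) (lX lam * f))) := by
  have h1 := (bd_hasSum (by positivity) hρ h).tendsto_sum_nat
  have h2 := h1.comp (tendsto_add_atTop_nat 1)
  refine h2.congr (fun k => ?_)
  simp only [Function.comp_apply]
  exact lX_psum hlam.ne' f k

/-- division by `1 - lam X` -/
theorem bd_div {lam ρ : ℝ} (hlam : 0 < lam) (hρ : 1 < lam * ρ) {P : PowerSeries A} {c : ℝ} (h : Bd ρ (lX lam * P) c)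
    (h0 : ev (lam⁻¹) (lX lam * P) = 0) : Bd ρ P (c / (lam * ρ - 1)) := by
  have hρ0 : 0 < ρ := by
    by_contra hcon
    push Not at hcon
    nlinarith
  have hlρ : lam⁻¹ ≤ ρ := by
    rw [inv_le_iff_one_le_mul₀ hlam]; linarith
  have htend := lX_tendsto hlam hlρ h
  rw [h0] at htend
  have h1 : 0 < lam * ρ - 1 := by linarith
  intro K
  set CK : ℝ := ∑ k ∈ range K, (lam * ρ) ^ k with hCK
  -- the main estimate
  have key : ∀ N, K ≤ N → ∑ k ∈ range K, ‖coeff k P‖ * ρ ^ k ≤ CK * ‖(lam⁻¹) ^ N • coeff N P‖ + c / (lam * ρ - 1) := by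
    intro N hN
    have a1 : ∀ k ∈ range K, ‖coeff k P‖ * ρ ^ k ≤ (lam * ρ) ^ k * ‖(lam⁻¹) ^ N • coeff N P‖ +
        ∑ j ∈ range (N + 1), if k < j then (lam * ρ) ^ k * ((lam⁻¹) ^ j * ‖coeff j (lX lam * P)‖) else 0 := by
      intro k hk
      rw [Finset.mem_range] at hk
      have b1 := lX_psum hlam.ne' P N
      have b2 := lX_psum hlam.ne' P k
      have b3 : ∑ j ∈ range (N + 1), (lam⁻¹) ^ j • coeff j (lX lam * P) = (lam⁻¹) ^ k • coeff k P +
          ∑ j ∈ range (N + 1), if k < j then (lam⁻¹) ^ j • coeff j (lX lam * P) else 0 := by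
        rw [← b2, ← Finset.sum_filter_add_sum_filter_not (range (N + 1)) (fun j => k < j), add_comm]
        congr 1
        · apply Finset.sum_congr
          · ext j; simp only [Finset.mem_filter, Finset.mem_range]; omega
          · intros; rfl
        · rw [Finset.sum_filter]
      have b4 : (lam⁻¹) ^ k • coeff k P = (lam⁻¹) ^ N • coeff N P -
          ∑ j ∈ range (N + 1), if k < j then (lam⁻¹) ^ j • coeff j (lX lam * P) else 0 := by
        rw [← b1, b3]; abel
      have b5 : ‖(lam⁻¹) ^ k • coeff k P‖ ≤ ‖(lam⁻¹) ^ N • coeff N P‖ +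
          ∑ j ∈ range (N + 1), if k < j then ((lam⁻¹) ^ j * ‖coeff j (lX lam * P)‖) else 0 := by
        rw [b4]
        refine (norm_sub_le _ _).trans (add_le_add le_rfl ((norm_sum_le _ _).trans (Finset.sum_le_sum fun j _ => ?_)))
        split_ifs
        · rw [norm_smul, Real.norm_eq_abs, abs_of_nonneg (by positivity)]
        · rw [norm_zero]
      have b6 : ‖coeff k P‖ * ρ ^ k = (lam * ρ) ^ k * ‖(lam⁻¹) ^ k • coeff k P‖ := by
        rw [norm_smul, Real.norm_eq_abs, abs_of_nonneg (by positivity), mul_pow, inv_pow]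
        field_simp
      rw [b6]
      refine (mul_le_mul_of_nonneg_left b5 (by positivity)).trans (le_of_eq ?_)
      rw [mul_add, Finset.mul_sum]
      congr 1
      apply Finset.sum_congr rfl
      intro j _
      split_ifs <;> ring
    refine (Finset.sum_le_sum a1).trans ?_
    rw [Finset.sum_add_distrib, ← Finset.sum_mul]
    refine add_le_add le_rfl ?_
    rw [Finset.sum_comm]
    have a2 : ∀ j ∈ range (N + 1), ∑ k ∈ range K, (if k < j then (lam * ρ) ^ k * ((lam⁻¹) ^ j * ‖coeff j (lX lam * P)‖) else 0) ≤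
        (‖coeff j (lX lam * P)‖ * ρ ^ j) / (lam * ρ - 1) := by
      intro j _
      have c1 : ∑ k ∈ range K, (if k < j then (lam * ρ) ^ k * ((lam⁻¹) ^ j * ‖coeff j (lX lam * P)‖) else 0) ≤
          ∑ k ∈ range j, (lam * ρ) ^ k * ((lam⁻¹) ^ j * ‖coeff j (lX lam * P)‖) := by
        rw [← Finset.sum_filter]
        apply Finset.sum_le_sum_of_subset_of_nonneg
        · intro k hk
          rw [Finset.mem_filter] at hk
          rw [Finset.mem_range]; exact hk.2
        · intro k _ _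
          positivity
      refine c1.trans ?_
      rw [← Finset.sum_mul, geom_sum_eq (by linarith), div_mul_eq_mul_div]
      apply div_le_div_of_nonneg_right _ h1.le
      have c2 : (lam * ρ) ^ j * ((lam⁻¹) ^ j * ‖coeff j (lX lam * P)‖) = ‖coeff j (lX lam * P)‖ * ρ ^ j := by
        rw [mul_pow, inv_pow]; field_simp
      rw [sub_mul, c2]
      have c3 : 0 ≤ (lam⁻¹) ^ j * ‖coeff j (lX lam * P)‖ := by positivity
      linarith
    refine (Finset.sum_le_sum a2).trans ?_
    rw [← Finset.sum_div]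
    exact div_le_div_of_nonneg_right (h (N + 1)) h1.le
  have h2 : Tendsto (fun N => CK * ‖(lam⁻¹) ^ N • coeff N P‖ + c / (lam * ρ - 1)) atTop (𝓝 (CK * ‖(0 : A)‖ + c / (lam * ρ - 1))) :=
    (htend.norm.const_mul CK).add_const _
  rw [norm_zero, mul_zero, zero_add] at h2
  exact ge_of_tendsto h2 (eventually_atTop.2 ⟨K, fun N hN => key N hN⟩)

/-- geometrically controlled coefficients -/
theorem bd_geom {ρ τ b : ℝ} (hρ : 0 ≤ ρ) (hb : 0 ≤ b) (hτ : 0 ≤ τ) (hτρ : τ * ρ < 1) {f : PowerSeries A}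
    (h : ∀ k, ‖coeff k f‖ ≤ b * τ ^ k) : Bd ρ f (b / (1 - τ * ρ)) := by
  intro K
  have h1 : 0 < 1 - τ * ρ := by linarith
  calc ∑ k ∈ range K, ‖coeff k f‖ * ρ ^ k ≤ ∑ k ∈ range K, b * (τ * ρ) ^ k := by
        apply Finset.sum_le_sum
        intro k _
        rw [mul_pow, ← mul_assoc]
        exact mul_le_mul_of_nonneg_right (h k) (by positivity)
    _ = b * ∑ k ∈ range K, (τ * ρ) ^ k := by rw [Finset.mul_sum]
    _ ≤ b * (1 - τ * ρ)⁻¹ := by
        apply mul_le_mul_of_nonneg_left _ hb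
        have h2 := Summable.sum_le_tsum (f := fun k => (τ * ρ) ^ k) (range K) (fun k _ => by positivity)
          (summable_geometric_of_lt_one (by positivity) hτρ)
        rwa [tsum_geometric_of_lt_one (by positivity) hτρ] at h2
    _ = b / (1 - τ * ρ) := by rw [div_eq_mul_inv]

/-- series with exponentially convergent coefficients -/
theorem lim_series {lam ρ θ b : ℝ} (hlam : 0 < lam) (hρ : lam⁻¹ ≤ ρ) (hθ : 0 < θ) (hb : 0 ≤ b) (hθρ : lam * θ * ρ < 1)
    {f : PowerSeries A} {a : A} (h : ∀ k, ‖(lam⁻¹) ^ k • coeff k f - a‖ ≤ b * θ ^ k) :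
    (∃ c, Bd ρ (lX lam * f) c) ∧ ev (lam⁻¹) (lX lam * f) = a := by
  have hρ0 : 0 ≤ ρ := le_trans (by positivity) hρ
  have hθ1 : θ < 1 := by
    have h1 : 1 ≤ lam * ρ := by rw [inv_le_iff_one_le_mul₀ hlam] at hρ; linarith
    nlinarith
  have hbd : Bd ρ (lX lam * f) ((‖coeff 0 f‖ + b * (1 + θ⁻¹)) / (1 - lam * θ * ρ)) := by
    apply bd_geom hρ0 (by positivity) (by positivity) hθρ
    intro k
    cases k with
    | zero =>
      rw [coeff_lX_mul_zero, pow_zero, mul_one]
      have : 0 ≤ b * (1 + θ⁻¹) := by positivity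
      linarith
    | succ k =>
      rw [coeff_lX_mul_succ]
      have e1 : coeff (k + 1) f - lam • coeff k f = lam ^ (k + 1) • (((lam⁻¹) ^ (k + 1) • coeff (k + 1) f - a) -
          ((lam⁻¹) ^ k • coeff k f - a)) := by
        rw [sub_sub_sub_cancel_right, smul_sub, smul_smul, smul_smul, ← mul_pow, mul_inv_cancel₀ hlam.ne', one_pow, one_smul,
          pow_succ' lam k, mul_assoc, ← mul_pow, mul_inv_cancel₀ hlam.ne', one_pow, mul_one]
      rw [e1, norm_smul, Real.norm_eq_abs, abs_of_nonneg (by positivity)]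
      have e2 : ‖((lam⁻¹) ^ (k + 1) • coeff (k + 1) f - a) - ((lam⁻¹) ^ k • coeff k f - a)‖ ≤ b * (1 + θ⁻¹) * θ ^ (k + 1) := by
        refine (norm_sub_le _ _).trans ((add_le_add (h _) (h _)).trans (le_of_eq ?_))
        rw [pow_succ]; field_simp
      calc lam ^ (k + 1) * ‖((lam⁻¹) ^ (k + 1) • coeff (k + 1) f - a) - ((lam⁻¹) ^ k • coeff k f - a)‖
          ≤ lam ^ (k + 1) * (b * (1 + θ⁻¹) * θ ^ (k + 1)) := mul_le_mul_of_nonneg_left e2 (by positivity)
        _ = b * (1 + θ⁻¹) * (lam * θ) ^ (k + 1) := by rw [mul_pow]; ring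
        _ ≤ (‖coeff 0 f‖ + b * (1 + θ⁻¹)) * (lam * θ) ^ (k + 1) := by
          apply mul_le_mul_of_nonneg_right _ (by positivity)
          have := norm_nonneg (coeff 0 f)
          linarith
  refine ⟨⟨_, hbd⟩, ?_⟩
  have h1 := lX_tendsto hlam hρ hbd
  have h2 : Tendsto (fun k => (lam⁻¹) ^ k • coeff k f) atTop (𝓝 a) := by
    rw [tendsto_iff_norm_sub_tendsto_zero]
    refine squeeze_zero (fun k => norm_nonneg _) h ?_
    have := (tendsto_pow_atTop_nhds_zero_of_lt_one hθ.le hθ1).const_mul b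
    rwa [mul_zero] at this
  exact tendsto_nhds_unique h1 h2

end ev

end Pool.Agent.W717.G
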