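import Mathlib
import Pool.Agent.W717.G.K1
import Pool.Agent.W717.G.Ev

set_option autoImplicit false
set_option linter.all false

namespace Pool.Agent.W717.G

open Finset

section jac

variable {Ω : Type*} [Fintype Ω] [DecidableEq Ω]

open Polynomial in
/-- Jacobi's formula -/
theorem jacobi (N : Matrix Ω Ω ℝ[X]) : derivative N.det = (N.adjugate * N.map derivative).trace := by
  have h1 : ∀ j, (N.adjugate * N.map derivative) j j = (N.updateCol j (fun x => derivative (N x j))).det := by
    intro j
    rw [← Matrix.cramer_apply, Matrix.cramer_eq_adjugate_mulVec]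
    rfl
  rw [Matrix.trace]
  simp only [Matrix.diag_apply, h1]
  rw [Matrix.det_apply, derivative_sum]
  simp only [Matrix.det_apply]
  rw [Finset.sum_comm]
  apply Finset.sum_congr rfl
  intro σ _
  rw [← Finset.smul_sum]
  have h2 : derivative (∏ i, N (σ i) i) = ∑ j, ∏ i, (N.updateCol j (fun x => derivative (N x j))) (σ i) i := by
    rw [derivative_prod_finset]
    apply Finset.sum_congr rfl
    intro j _
    rw [← Finset.prod_erase_mul _ _ (Finset.mem_univ j)]
    congr 1
    · apply Finset.prod_congr rfl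
      intro i hi
      rw [Finset.mem_erase] at hi
      rw [Matrix.updateCol_ne hi.1]
    · rw [Matrix.updateCol_self]
  rw [← h2, Units.smul_def, Units.smul_def, zsmul_eq_mul, zsmul_eq_mul]
  rw [Polynomial.derivative_mul, Polynomial.derivative_intCast, zero_mul, zero_add]

open Polynomial in
theorem det_series (M : Matrix Ω Ω ℝ) : ∃ (F : ℕ → ℝ) (Ad : ℕ → Matrix Ω Ω ℝ), F 0 = 1 ∧ (∃ d, ∀ k, d ≤ k → Ad k = 0) ∧
    (∀ k, Ad k = ∑ j ∈ range (k + 1), F j • M ^ (k - j)) ∧
    ∀ k : ℕ, (k : ℝ) * F k = - ∑ j ∈ range k, F j * (M ^ (k - j)).trace := by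
  set N : Matrix Ω Ω ℝ[X] := 1 - (X : ℝ[X]) • M.map C with hN
  have hF0 : N.det.coeff 0 = 1 := by
    have := Matrix.eval_charpolyRev (M := M)
    rw [Matrix.charpolyRev] at this
    rw [Polynomial.coeff_zero_eq_eval_zero]; exact this
  have hadj := Matrix.mul_adjugate N
  have hAd0 : (N.adjugate).map (fun p => p.coeff 0) = N.det.coeff 0 • (1 : Matrix Ω Ω ℝ) := by
    have h1 := congrArg (fun m : Matrix Ω Ω ℝ[X] => m.map (fun p => p.coeff 0)) hadj
    ext x y
    have h2 := congrFun (congrFun h1 x) y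
    rw [hN, sub_mul, one_mul] at h2
    simp only [Matrix.map_apply, Matrix.sub_apply, Matrix.smul_mul, Matrix.smul_apply, smul_eq_mul, Polynomial.coeff_sub,
      Polynomial.mul_coeff_zero, Polynomial.coeff_X_zero, zero_mul, sub_zero] at h2
    rw [← hN] at h2
    rw [Matrix.map_apply, Matrix.smul_apply, h2, smul_eq_mul]
    congr 1
    rw [Matrix.one_apply, Matrix.one_apply]
    split_ifs <;> simp
  have hAdS : ∀ k, (N.adjugate).map (fun p => p.coeff (k + 1)) = N.det.coeff (k + 1) • (1 : Matrix Ω Ω ℝ) +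
      M * (N.adjugate).map (fun p => p.coeff k) := by
    intro k
    have h1 := congrArg (fun m : Matrix Ω Ω ℝ[X] => m.map (fun p => p.coeff (k + 1))) hadj
    ext x y
    have h2 := congrFun (congrFun h1 x) y
    rw [hN, sub_mul, one_mul] at h2
    simp only [Matrix.map_apply, Matrix.sub_apply, Matrix.smul_mul, Matrix.smul_apply, smul_eq_mul, Polynomial.coeff_sub,
      Polynomial.coeff_X_mul, Matrix.mul_apply, Polynomial.finset_sum_coeff, Polynomial.coeff_C_mul] at h2
    rw [← hN] at h2
    rw [Matrix.map_apply, Matrix.add_apply, Matrix.smul_apply, Matrix.mul_apply]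
    simp only [Matrix.map_apply]
    have h3 : (N.det * (1 : Matrix Ω Ω ℝ[X]) x y).coeff (k + 1) = N.det.coeff (k + 1) • (1 : Matrix Ω Ω ℝ) x y := by
      rw [Matrix.one_apply, Matrix.one_apply]
      split_ifs <;> simp
    rw [h3] at h2
    linarith
  have hAd : ∀ k, (N.adjugate).map (fun p => p.coeff k) = ∑ j ∈ range (k + 1), N.det.coeff j • M ^ (k - j) := by
    intro k
    induction k with
    | zero => rw [hAd0]; simp
    | succ k ih =>
      rw [hAdS, ih, Finset.sum_range_succ _ (k + 1), Nat.sub_self, pow_zero, add_comm]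
      congr 1
      rw [Finset.mul_sum]
      apply Finset.sum_congr rfl
      intro j hj
      rw [Finset.mem_range] at hj
      rw [Matrix.mul_smul, ← pow_succ']
      congr 2
      omega
  refine ⟨fun k => N.det.coeff k, fun k => (N.adjugate).map (fun p => p.coeff k), hF0, ?_, hAd, ?_⟩
  · refine ⟨(Finset.univ.sup fun x : Ω × Ω => (N.adjugate x.1 x.2).natDegree) + 1, fun k hk => ?_⟩
    ext x y
    show (N.adjugate x y).coeff k = 0
    apply Polynomial.coeff_eq_zero_of_natDegree_lt
    have := Finset.le_sup (f := fun x : Ω × Ω => (N.adjugate x.1 x.2).natDegree) (Finset.mem_univ (x, y))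
    simp only at this
    omega
  · intro k
    cases k with
    | zero => simp
    | succ k =>
      have h1 := congrArg (fun p => p.coeff k) (jacobi N)
      simp only [Polynomial.coeff_derivative] at h1
      have h2 : N.map derivative = - M.map C := by
        ext1 x y
        rw [Matrix.map_apply, hN, Matrix.sub_apply, Matrix.smul_apply, Matrix.map_apply, Matrix.neg_apply, Matrix.map_apply,
          Polynomial.derivative_sub, smul_eq_mul, Polynomial.derivative_mul, Polynomial.derivative_X, Polynomial.derivative_C,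
          one_mul, mul_zero, add_zero, Matrix.one_apply]
        split_ifs <;> simp
      rw [h2, Matrix.mul_neg, Matrix.trace_neg, Polynomial.coeff_neg] at h1
      have h3 : ((N.adjugate * M.map C).trace).coeff k = ((N.adjugate).map (fun p => p.coeff k) * M).trace := by
        simp only [Matrix.trace, Matrix.diag_apply, Polynomial.finset_sum_coeff, Matrix.mul_apply, Matrix.map_apply,
          Polynomial.coeff_mul_C]
      rw [h3, hAd, Finset.sum_mul, Matrix.trace_sum] at h1
      have h4 : ∀ j ∈ range (k + 1), (N.det.coeff j • M ^ (k - j) * M).trace = N.det.coeff j * (M ^ (k + 1 - j)).trace := by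
        intro j hj
        rw [Finset.mem_range] at hj
        rw [Matrix.smul_mul, Matrix.trace_smul, smul_eq_mul, ← pow_succ]
        congr 3
        omega
      rw [Finset.sum_congr rfl h4] at h1
      push_cast
      rw [← h1]; ring

open PowerSeries

/-- boundedness for `eu E = E g` -/
theorem eu_bound {ρ b q : ℝ} (hρ : 0 ≤ ρ) (hb : 0 ≤ b) (hq : 0 ≤ q) (hq1 : q < 1) (E g : ℕ → ℝ)
    (h : ∀ k : ℕ, (k : ℝ) * E k = ∑ j ∈ range k, E j * g (k - j)) (hg : ∀ k, 1 ≤ k → |g k| * ρ ^ k ≤ b * q ^ k) :
    ∃ C, 0 ≤ C ∧ ∀ k, |E k| * ρ ^ k ≤ C := by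
  obtain ⟨N, hN⟩ := exists_nat_ge (b / (1 - q))
  have h1q : 0 < 1 - q := by linarith
  set C : ℝ := ∑ j ∈ range (N + 1), |E j| * ρ ^ j with hC
  have hC0 : 0 ≤ C := Finset.sum_nonneg fun j _ => by positivity
  refine ⟨C, hC0, fun k => ?_⟩
  induction k using Nat.strong_induction_on with
  | _ k ih =>
    rcases Nat.lt_or_ge k (N + 1) with hk | hk
    · exact Finset.single_le_sum (f := fun j => |E j| * ρ ^ j) (fun j _ => by positivity) (Finset.mem_range.mpr hk)
    · have hk0 : (0 : ℝ) < k := by exact_mod_cast (by omega : 0 < k)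
      have h1 : (k : ℝ) * (|E k| * ρ ^ k) ≤ C * (b / (1 - q)) := by
        calc (k : ℝ) * (|E k| * ρ ^ k) = |(k : ℝ) * E k| * ρ ^ k := by rw [abs_mul, Nat.abs_cast]; ring
          _ = |∑ j ∈ range k, E j * g (k - j)| * ρ ^ k := by rw [h]
          _ ≤ (∑ j ∈ range k, |E j * g (k - j)|) * ρ ^ k :=
            mul_le_mul_of_nonneg_right (Finset.abs_sum_le_sum_abs _ _) (by positivity)
          _ ≤ ∑ j ∈ range k, C * (b * q ^ (k - j)) := by
            rw [Finset.sum_mul]
            apply Finset.sum_le_sum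
            intro j hj
            rw [Finset.mem_range] at hj
            have e1 : |E j * g (k - j)| * ρ ^ k = (|E j| * ρ ^ j) * (|g (k - j)| * ρ ^ (k - j)) := by
              rw [abs_mul]
              have : ρ ^ k = ρ ^ j * ρ ^ (k - j) := by rw [← pow_add]; congr 1; omega
              rw [this]; ring
            rw [e1]
            exact mul_le_mul (ih j hj) (hg _ (by omega)) (by positivity) hC0
          _ = C * b * ∑ j ∈ range k, q ^ (k - j) := by rw [Finset.mul_sum]; apply Finset.sum_congr rfl; intros; ring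
          _ ≤ C * b * (1 - q)⁻¹ := by
            apply mul_le_mul_of_nonneg_left _ (by positivity)
            have e2 : ∑ j ∈ range k, q ^ (k - j) ≤ ∑ j ∈ range (k + 1), q ^ j := by
              rw [← Finset.sum_range_reflect (fun j => q ^ j) (k + 1), Finset.sum_range_succ]
              have : ∀ j ∈ range k, q ^ (k - j) = q ^ (k + 1 - 1 - j) := by
                intro j hj
                congr 1
              rw [Finset.sum_congr rfl this]
              have : 0 ≤ q ^ (k + 1 - 1 - k) := by positivity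
              linarith
            refine e2.trans ?_
            have h2 := Summable.sum_le_tsum (f := fun k => q ^ k) (range (k + 1)) (fun k _ => by positivity)
              (summable_geometric_of_lt_one hq hq1)
            rwa [tsum_geometric_of_lt_one hq hq1] at h2
          _ = C * (b / (1 - q)) := by rw [div_eq_mul_inv]; ring
      have h2 : C * (b / (1 - q)) ≤ C * k := by
        apply mul_le_mul_of_nonneg_left _ hC0
        refine hN.trans ?_
        exact_mod_cast (by omega : N ≤ k)
      have h3 : (k : ℝ) * (|E k| * ρ ^ k) ≤ k * C := by linarith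
      exact le_of_mul_le_mul_left h3 hk0

attribute [local instance] Matrix.linftyOpNormedRing Matrix.linftyOpNormedAlgebra

/-- if the traces are `lam ^ k + O((lam θ)^k)`, then `(1 - lam X) (1 - M X)⁻¹` has a larger radius of convergence -/
theorem res_bound [Nonempty Ω] (M : Matrix Ω Ω ℝ) {lam θ b ρ : ℝ} (hlam : 0 < lam) (hθ : 0 < θ) (hb : 0 ≤ b)
    (hρ : 0 < ρ) (hθρ : lam * θ * ρ < 1)
    (ht : ∀ k, 1 ≤ k → |(M ^ k).trace - lam ^ k| ≤ b * (lam * θ) ^ k) :
    ∃ C, 0 ≤ C ∧ ∀ k, ‖coeff k (lX lam * PowerSeries.mk fun k => M ^ k)‖ * ρ ^ k ≤ C := by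
  obtain ⟨F, Ad, hF0, ⟨d, hd⟩, hAd, hF⟩ := det_series M
  -- power series over ℝ
  set f : PowerSeries ℝ := PowerSeries.mk F with hf
  have hf0 : constantCoeff f ≠ 0 := by
    rw [← coeff_zero_eq_constantCoeff_apply, hf, coeff_mk, hF0]; exact one_ne_zero
  have hff : f * f⁻¹ = 1 := PowerSeries.mul_inv_cancel f hf0
  set τ : PowerSeries ℝ := PowerSeries.mk fun k => if k = 0 then 0 else (M ^ k).trace with hτ
  set Λ : PowerSeries ℝ := PowerSeries.mk fun k => if k = 0 then 0 else lam ^ k with hΛ
  have hsum : ∀ (a : PowerSeries ℝ) (c : ℕ → ℝ) (k : ℕ), coeff k (a * PowerSeries.mk fun k => if k = 0 then 0 else c k) =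
      ∑ j ∈ range k, coeff j a * c (k - j) := by
    intro a c k
    rw [coeff_mul, Finset.Nat.sum_antidiagonal_eq_sum_range_succ_mk, Finset.sum_range_succ]
    simp only [coeff_mk, Nat.sub_self, if_true, mul_zero, add_zero]
    apply Finset.sum_congr rfl
    intro j hj
    rw [Finset.mem_range] at hj
    rw [if_neg (by omega)]
  have heuf : eu f = - (f * τ) := by
    ext k
    rw [coeff_eu, map_neg, hτ, hsum, nsmul_eq_mul, hf, coeff_mk, hF]
    simp only [coeff_mk]
  have heuf' : eu f⁻¹ = f⁻¹ * τ := by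
    have h1 := eu_mul f f⁻¹
    rw [hff, eu_one, heuf] at h1
    have h2 : f * (eu f⁻¹ - f⁻¹ * τ) = 0 := by
      have : f * (eu f⁻¹ - f⁻¹ * τ) = -(f * τ) * f⁻¹ + f * eu f⁻¹ := by ring
      rw [this]; exact h1.symm
    have h3 : f⁻¹ * (f * (eu f⁻¹ - f⁻¹ * τ)) = 0 := by rw [h2, mul_zero]
    rw [← mul_assoc, mul_comm f⁻¹ f, hff, one_mul] at h3
    exact sub_eq_zero.mp h3
  have hlXΛ : eu (lX lam : PowerSeries ℝ) = - (lX lam * Λ) := by
    ext k
    rw [coeff_eu, map_neg]
    rcases k with _ | k
    · rw [coeff_lX_mul_zero, hΛ, coeff_mk]; simp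
    · rw [coeff_lX_mul_succ, hΛ, coeff_mk, coeff_mk, if_neg (by omega), lX, map_sub, coeff_one, if_neg (by omega), coeff_succ_mul_X,
        coeff_C]
      rcases k with _ | k
      · simp
      · rw [if_neg (by omega), if_neg (by omega), pow_succ lam (k + 1)]
        simp [mul_comm]
  set E : PowerSeries ℝ := lX lam * f⁻¹ with hE
  have heuE : eu E = E * (τ - Λ) := by
    rw [hE, eu_mul, hlXΛ, heuf']; ring
  have hτΛ : τ - Λ = PowerSeries.mk fun k => if k = 0 then 0 else ((M ^ k).trace - lam ^ k) := by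
    ext k
    rw [map_sub, hτ, hΛ, coeff_mk, coeff_mk, coeff_mk]
    split_ifs <;> simp
  obtain ⟨C1, hC1, hEb⟩ := eu_bound hρ.le hb (q := lam * θ * ρ) (by positivity) hθρ (fun k => coeff k E)
    (fun k => (M ^ k).trace - lam ^ k) (by
      intro k
      have := congrArg (coeff k) heuE
      rw [coeff_eu, hτΛ, hsum, nsmul_eq_mul] at this
      exact this) (by
      intro k hk
      calc |(M ^ k).trace - lam ^ k| * ρ ^ k ≤ b * (lam * θ) ^ k * ρ ^ k := mul_le_mul_of_nonneg_right (ht k hk) (by positivity)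
        _ = b * (lam * θ * ρ) ^ k := by rw [mul_pow _ ρ]; ring)
  -- the matrix valued identity
  set φ : PowerSeries ℝ →+* PowerSeries (Matrix Ω Ω ℝ) := PowerSeries.map (algebraMap ℝ (Matrix Ω Ω ℝ)) with hφ
  have hlX : φ (lX lam) = lX lam := by
    rw [hφ, lX, lX, map_sub, map_one, map_mul, map_C, map_X]; rfl
  have hAdT : (PowerSeries.mk Ad) = (PowerSeries.mk fun k => M ^ k) * φ f := by
    ext1 k
    rw [coeff_mk, hAd, coeff_mul, Finset.Nat.sum_antidiagonal_eq_sum_range_succ_mk,
      ← Finset.sum_range_reflect]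
    apply Finset.sum_congr rfl
    intro j hj
    rw [Finset.mem_range] at hj
    simp only [coeff_mk, hφ, PowerSeries.coeff_map, hf]
    rw [← Algebra.commutes, ← Algebra.smul_def]
    have e1 : k - (k + 1 - 1 - j) = j := by omega
    have e2 : k + 1 - 1 - j = k - j := by omega
    rw [e1, e2]
  have hmain : (lX lam * PowerSeries.mk fun k => M ^ k) = PowerSeries.mk Ad * φ E := by
    rw [hE, map_mul, hlX, hAdT, lX_comm, mul_assoc]
    congr 1
    rw [lX_comm lam (φ f⁻¹), ← mul_assoc (φ f), ← map_mul, hff, map_one, one_mul]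
  have hAdb : ∀ k, ‖Ad k‖ * ρ ^ k ≤ ∑ k ∈ range d, ‖Ad k‖ * ρ ^ k := by
    intro k
    rcases Nat.lt_or_ge k d with h | h
    · exact Finset.single_le_sum (f := fun k => ‖Ad k‖ * ρ ^ k) (fun j _ => by positivity) (Finset.mem_range.mpr h)
    · rw [hd k h, norm_zero, zero_mul]
      exact Finset.sum_nonneg fun j _ => by positivity
  refine ⟨(∑ k ∈ range d, ‖Ad k‖ * ρ ^ k) * C1, mul_nonneg (Finset.sum_nonneg fun j _ => by positivity) hC1, fun k => ?_⟩
  rw [hmain, coeff_mul, Finset.Nat.sum_antidiagonal_eq_sum_range_succ_mk]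
  simp only [coeff_mk, hφ, PowerSeries.coeff_map]
  calc ‖∑ j ∈ range (k + 1), Ad j * (algebraMap ℝ (Matrix Ω Ω ℝ)) (coeff (k - j) E)‖ * ρ ^ k
      ≤ (∑ j ∈ range (k + 1), ‖Ad j‖ * |coeff (k - j) E|) * ρ ^ k := by
        apply mul_le_mul_of_nonneg_right _ (by positivity)
        refine (norm_sum_le _ _).trans (Finset.sum_le_sum fun j _ => ?_)
        refine (norm_mul_le _ _).trans (le_of_eq ?_)
        rw [norm_algebraMap', Real.norm_eq_abs]
    _ = ∑ j ∈ range (k + 1), (‖Ad j‖ * ρ ^ j) * (|coeff (k - j) E| * ρ ^ (k - j)) := by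
        rw [Finset.sum_mul]
        apply Finset.sum_congr rfl
        intro j hj
        rw [Finset.mem_range] at hj
        have : ρ ^ k = ρ ^ j * ρ ^ (k - j) := by rw [← pow_add]; congr 1; omega
        rw [this]; ring
    _ ≤ ∑ j ∈ range (k + 1), (‖Ad j‖ * ρ ^ j) * C1 :=
        Finset.sum_le_sum fun j _ => mul_le_mul_of_nonneg_left (hEb _) (by positivity)
    _ = (∑ j ∈ range (k + 1), ‖Ad j‖ * ρ ^ j) * C1 := by rw [Finset.sum_mul]
    _ ≤ _ := by
        apply mul_le_mul_of_nonneg_right _ hC1
        have h1 : ∑ k ∈ range (k + 1), ‖Ad k‖ * ρ ^ k ≤ ∑ k ∈ range (max (k + 1) d), ‖Ad k‖ * ρ ^ k := by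
          apply Finset.sum_le_sum_of_subset_of_nonneg
          · exact Finset.range_mono (le_max_left _ _)
          · intro _ _ _; positivity
        refine h1.trans (le_of_eq ?_)
        symm
        apply Finset.sum_subset
        · exact Finset.range_mono (le_max_right _ _)
        · intro j _ hj
          rw [Finset.mem_range, not_lt] at hj
          rw [hd j hj, norm_zero, zero_mul]

end jac

end Pool.Agent.W717.G
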