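import Mathlib
import Pool.Agent.W717.G.Conc2
import Pool.Agent.W717.G.Jac

set_option autoImplicit false
set_option linter.all false

namespace Pool.Agent.W717.G

open Finset PowerSeries Filter Topology

section aug

variable {ι G : Type} [Fintype ι] [DecidableEq ι] [Group G] [Fintype G] [DecidableEq G]

/-- augmentation -/
noncomputable def aug : MonoidAlgebra ℝ G →+* ℝ where
  toFun x := ∑ g, x.coeff g
  map_zero' := by simp
  map_one' := by
    rw [MonoidAlgebra.one_def, Finset.sum_eq_single (1 : G)]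
    · rw [MonoidAlgebra.coeff_single, Finsupp.single_apply, if_pos rfl]
    · intro g _ hg
      rw [MonoidAlgebra.coeff_single, Finsupp.single_apply, if_neg (Ne.symm hg)]
    · intro h; exact absurd (Finset.mem_univ _) h
  map_add' x y := by simp [Finset.sum_add_distrib]
  map_mul' x y := by
    simp only [coeff_mul_fin]
    rw [Finset.sum_comm, Finset.sum_mul]
    apply Finset.sum_congr rfl
    intro h _
    rw [← Finset.mul_sum]
    congr 1
    exact Equiv.sum_comp (Equiv.mulLeft h⁻¹) (fun g => y.coeff g)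

theorem aug_apply (x : MonoidAlgebra ℝ G) : aug x = ∑ g, x.coeff g := rfl

theorem aug_smul (c : ℝ) (x : MonoidAlgebra ℝ G) : aug (c • x) = c * aug x := by
  rw [aug_apply, aug_apply, Finset.mul_sum]; rfl

/-- augmentation of matrices -/
noncomputable def augM : Matrix ι ι (MonoidAlgebra ℝ G) →+* Matrix ι ι ℝ := (aug : MonoidAlgebra ℝ G →+* ℝ).mapMatrix

theorem augM_apply (a : Matrix ι ι (MonoidAlgebra ℝ G)) (i j : ι) : augM a i j = aug (a i j) := rfl

/-- the averaging idempotent -/
noncomputable def sg : MonoidAlgebra ℝ G := (Fintype.card G : ℝ)⁻¹ • ∑ g : G, MonoidAlgebra.single g 1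

theorem coeff_sg (g : G) : (sg : MonoidAlgebra ℝ G).coeff g = (Fintype.card G : ℝ)⁻¹ := by
  unfold sg
  rw [MonoidAlgebra.coeff_smul, Finsupp.smul_apply, MonoidAlgebra.coeff_sum, Finsupp.finsetSum_apply, Finset.sum_eq_single g]
  · rw [MonoidAlgebra.coeff_single, Finsupp.single_apply, if_pos rfl]; simp
  · intro h _ hg
    rw [MonoidAlgebra.coeff_single, Finsupp.single_apply, if_neg hg]
  · intro h; exact absurd (Finset.mem_univ _) h

theorem card_pos' : (0 : ℝ) < Fintype.card G := by
  exact_mod_cast Fintype.card_pos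

theorem mul_sg (x : MonoidAlgebra ℝ G) : x * sg = aug x • sg := by
  ext g
  rw [coeff_mul_fin, MonoidAlgebra.coeff_smul, Finsupp.smul_apply, coeff_sg, aug_apply, smul_eq_mul, Finset.sum_mul]
  apply Finset.sum_congr rfl
  intro h _
  rw [coeff_sg]

theorem sg_mul (x : MonoidAlgebra ℝ G) : sg * x = aug x • sg := by
  ext g
  rw [coeff_mul_fin, MonoidAlgebra.coeff_smul, Finsupp.smul_apply, coeff_sg, aug_apply, smul_eq_mul, Finset.sum_mul]
  rw [← Equiv.sum_comp ((Equiv.inv G).trans (Equiv.mulLeft g))]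
  apply Finset.sum_congr rfl
  intro h _
  rw [coeff_sg]
  simp [mul_comm]

theorem aug_sg : aug (sg : MonoidAlgebra ℝ G) = 1 := by
  rw [aug_apply]
  simp only [coeff_sg, Finset.sum_const, Finset.card_univ, nsmul_eq_mul]
  exact mul_inv_cancel₀ card_pos'.ne'

theorem sg_sg : (sg : MonoidAlgebra ℝ G) * sg = sg := by rw [mul_sg, aug_sg, one_smul]

theorem sg_ne_zero : (sg : MonoidAlgebra ℝ G) ≠ 0 := by
  intro h
  have := aug_sg (G := G)
  rw [h, map_zero] at this
  exact zero_ne_one this

/-- trace at the identity -/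
noncomputable def tr1 (a : Matrix ι ι (MonoidAlgebra ℝ G)) : ℝ := ∑ i, (a i i).coeff 1

/-- trace of the augmentation -/
noncomputable def augt (a : Matrix ι ι (MonoidAlgebra ℝ G)) : ℝ := ∑ i, aug (a i i)

theorem trace_reg (a : Matrix ι ι (MonoidAlgebra ℝ G)) : (reg a).trace = Fintype.card G * tr1 a := by
  rw [Matrix.trace, Fintype.sum_prod_type, tr1, Finset.mul_sum]
  apply Finset.sum_congr rfl
  intro i _
  simp [reg_apply]

theorem trace_augM (a : Matrix ι ι (MonoidAlgebra ℝ G)) : (augM a).trace = augt a := rfl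

open Classical in
theorem tr1_kap (a : Matrix ι ι (MonoidAlgebra ℝ G)) : tr1 a = kap a (ConjClasses.mk 1) := by
  rw [kap_apply, tr1]
  apply Finset.sum_congr rfl
  intro i _
  rw [Finset.sum_eq_single (1 : G)]
  · rw [if_pos rfl]
  · intro g _ hg
    rw [if_neg]
    intro h
    rw [ConjClasses.mk_eq_mk_iff_isConj, isConj_one_left] at h
    exact hg h
  · intro h; exact absurd (Finset.mem_univ _) h

open Classical in
theorem augt_kap (a : Matrix ι ι (MonoidAlgebra ℝ G)) : augt a = ∑ c, kap a c := by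
  simp only [kap_apply, augt, aug_apply]
  rw [Finset.sum_comm (s := (Finset.univ : Finset (ConjClasses G)))]
  apply Finset.sum_congr rfl
  intro i _
  rw [Finset.sum_comm]
  apply Finset.sum_congr rfl
  intro g _
  rw [Finset.sum_ite_eq, if_pos (Finset.mem_univ _)]

theorem tr1_congr {a b : Matrix ι ι (MonoidAlgebra ℝ G)} (h : kap a = kap b) : tr1 a = tr1 b := by
  rw [tr1_kap, tr1_kap, h]

theorem augt_congr {a b : Matrix ι ι (MonoidAlgebra ℝ G)} (h : kap a = kap b) : augt a = augt b := by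
  classical
  rw [augt_kap, augt_kap, h]

theorem tr1_sub (a b : Matrix ι ι (MonoidAlgebra ℝ G)) : tr1 (a - b) = tr1 a - tr1 b := by
  unfold tr1
  rw [← Finset.sum_sub_distrib]
  apply Finset.sum_congr rfl
  intro i _
  simp [MonoidAlgebra.coeff_sub]

theorem tr1_smul (c : ℝ) (a : Matrix ι ι (MonoidAlgebra ℝ G)) : tr1 (c • a) = c * tr1 a := by
  unfold tr1
  rw [Finset.mul_sum]
  rfl

theorem augt_sub (a b : Matrix ι ι (MonoidAlgebra ℝ G)) : augt (a - b) = augt a - augt b := by
  unfold augt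
  rw [← Finset.sum_sub_distrib]
  apply Finset.sum_congr rfl
  intro i _
  rw [Matrix.sub_apply, map_sub]

theorem augt_smul (c : ℝ) (a : Matrix ι ι (MonoidAlgebra ℝ G)) : augt (c • a) = c * augt a := by
  unfold augt
  rw [Finset.mul_sum]
  apply Finset.sum_congr rfl
  intro i _
  rw [Matrix.smul_apply, aug_smul]

theorem abs_tr1_le (a : Matrix ι ι (MonoidAlgebra ℝ G)) : |tr1 a| ≤ Fintype.card ι * ‖a‖ := by
  unfold tr1
  refine (Finset.abs_sum_le_sum_abs _ _).trans ((Finset.sum_le_sum fun i _ => coeff_le_norm a i i 1).trans (le_of_eq ?_))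
  rw [Finset.sum_const, Finset.card_univ, nsmul_eq_mul]

theorem abs_augt_le (a : Matrix ι ι (MonoidAlgebra ℝ G)) : |augt a| ≤ Fintype.card ι * (Fintype.card G * ‖a‖) := by
  unfold augt
  refine (Finset.abs_sum_le_sum_abs _ _).trans ((Finset.sum_le_sum (g := fun _ => Fintype.card G * ‖a‖) fun i _ => ?_).trans (le_of_eq ?_))
  · rw [aug_apply]
    refine (Finset.abs_sum_le_sum_abs _ _).trans ((Finset.sum_le_sum fun g _ => coeff_le_norm a i i g).trans (le_of_eq ?_))
    rw [Finset.sum_const, Finset.card_univ, nsmul_eq_mul]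
  · rw [Finset.sum_const, Finset.card_univ, nsmul_eq_mul]

instance instFD : FiniteDimensional ℝ (Matrix ι ι (MonoidAlgebra ℝ G)) :=
  FiniteDimensional.of_injective (reg : Matrix ι ι (MonoidAlgebra ℝ G) →ₐ[ℝ] Matrix (ι × G) (ι × G) ℝ).toLinearMap reg_inj

scoped instance instCS [Nonempty ι] : CompleteSpace (Matrix ι ι (MonoidAlgebra ℝ G)) := FiniteDimensional.complete ℝ _

/-- a real idempotent matrix of trace zero vanishes -/
theorem idem_zero {Ω : Type*} [Fintype Ω] [DecidableEq Ω] (p : Matrix Ω Ω ℝ) (hp : p * p = p) (h0 : p.trace = 0) : p = 0 := by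
  have h1 : IsIdempotentElem (Matrix.toLin' p) := by
    unfold IsIdempotentElem
    rw [Module.End.mul_eq_comp, ← Matrix.toLin'_mul, hp]
  have h2 := (LinearMap.IsIdempotentElem.trace_eq_zero_iff h1).mp (by rw [Matrix.trace_toLin'_eq]; exact h0)
  exact (Matrix.toLin' : Matrix Ω Ω ℝ ≃ₗ[ℝ] _).injective (by rw [h2, map_zero])

end aug

end Pool.Agent.W717.G
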