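import Mathlib

set_option autoImplicit false
set_option linter.all false

namespace Pool.Agent.W717.G

open Finset Filter Topology

theorem theta_exists (p : ℕ) (hp : 0 < p) (κ : ℝ) (h0 : 0 ≤ κ) (h1 : κ < 1) :
    ∃ θ C : ℝ, 0 < θ ∧ θ < 1 ∧ 0 < C ∧ ∀ k, κ ^ (k / p) ≤ C * θ ^ k := by
  set δ : ℝ := (1 - κ) / 2 with hδ
  have hδ0 : 0 < δ := by rw [hδ]; linarith
  have hδ1 : δ ≤ 1 / 2 := by rw [hδ]; linarith
  have hp' : (1 : ℝ) ≤ p := by exact_mod_cast hp
  have hdp : δ / p ≤ 1 / 2 := by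
    rw [div_le_iff₀ (by linarith)]; nlinarith
  have hdp0 : 0 < δ / p := by positivity
  have hθ0 : 0 < 1 - δ / p := by linarith
  have hB : 1 - δ ≤ (1 - δ / p) ^ p := by
    have := one_add_mul_le_pow (a := -(δ / p)) (by linarith) p
    have e : 1 + (p : ℝ) * -(δ / p) = 1 - δ := by field_simp; ring
    rw [e] at this
    have e2 : 1 + -(δ / p) = 1 - δ / p := by ring
    rwa [e2] at this
  have hκ : κ ≤ (1 - δ / p) ^ p := le_trans (by rw [hδ]; linarith) hB
  refine ⟨1 - δ / p, ((1 - δ / p) ^ p)⁻¹, hθ0, by linarith, by positivity, fun k => ?_⟩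
  have e1 : κ ^ (k / p) ≤ ((1 - δ / p) ^ p) ^ (k / p) := pow_le_pow_left₀ h0 hκ _
  rw [← pow_mul] at e1
  refine e1.trans ?_
  rw [inv_mul_eq_div, le_div_iff₀ (by positivity), ← pow_add]
  apply pow_le_pow_of_le_one hθ0.le (by linarith)
  have := Nat.div_add_mod k p
  have h2 := Nat.mod_lt k hp
  omega

section doeblin

variable {Ω : Type*} [Fintype Ω] [DecidableEq Ω]

theorem pow_nonneg_entry (M : Matrix Ω Ω ℝ) (hM : ∀ x y, 0 ≤ M x y) (k : ℕ) (x y : Ω) : 0 ≤ (M ^ k) x y := by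
  induction k generalizing x y with
  | zero => rw [pow_zero, Matrix.one_apply]; split_ifs <;> norm_num
  | succ k ih =>
    rw [pow_succ, Matrix.mul_apply]
    exact Finset.sum_nonneg fun z _ => mul_nonneg (ih _ _) (hM _ _)

theorem pow_eig (M : Matrix Ω Ω ℝ) (v : Ω → ℝ) (lam : ℝ) (hMv : ∀ x, ∑ y, M x y * v y = lam * v x) (k : ℕ) (x : Ω) :
    ∑ y, (M ^ k) x y * v y = lam ^ k * v x := by
  induction k generalizing x with
  | zero =>
    rw [pow_zero, pow_zero, one_mul, Finset.sum_eq_single x]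
    · rw [Matrix.one_apply_eq, one_mul]
    · intro y _ hy; rw [Matrix.one_apply_ne hy.symm, zero_mul]
    · intro h; exact absurd (Finset.mem_univ _) h
  | succ k ih =>
    rw [pow_succ']
    have h1 : ∑ y, (M * M ^ k) x y * v y = ∑ z, M x z * ∑ y, (M ^ k) z y * v y := by
      simp only [Matrix.mul_apply, Finset.sum_mul, Finset.mul_sum]
      rw [Finset.sum_comm]
      apply Finset.sum_congr rfl
      intro z _
      apply Finset.sum_congr rfl
      intro y _
      ring
    rw [h1, Finset.sum_congr rfl (fun z _ => by rw [ih z])]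
    have h2 : ∑ z, M x z * (lam ^ k * v z) = lam ^ k * ∑ z, M x z * v z := by
      rw [Finset.mul_sum]
      apply Finset.sum_congr rfl
      intro z _
      ring
    rw [h2, hMv, pow_succ]; ring

/-- the oscillation contraction -/
theorem osc_contract (a b : Ω → ℝ) (φ : Ω → ℝ) (δ c : ℝ) (hδ : 0 ≤ δ) (hc : 0 ≤ c) (ha : ∀ z, δ ≤ a z) (hb : ∀ z, 0 ≤ b z)
    (ha1 : ∑ z, a z = 1) (hb1 : ∑ z, b z = 1) (hφ : ∀ x y, φ x - φ y ≤ c) [Nonempty Ω] :
    ∑ z, a z * φ z - ∑ z, b z * φ z ≤ (1 - δ) * c := by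
  obtain ⟨y0, hy0⟩ := Finite.exists_min φ
  have h1 : ∑ z, a z * φ z - ∑ z, b z * φ z = ∑ z, a z * (φ z - φ y0) - ∑ z, b z * (φ z - φ y0) := by
    simp only [mul_sub, Finset.sum_sub_distrib, ← Finset.sum_mul]
    rw [ha1, hb1]; ring
  rw [h1]
  have h2 : 0 ≤ ∑ z, b z * (φ z - φ y0) := Finset.sum_nonneg fun z _ => mul_nonneg (hb z) (by linarith [hy0 z])
  have h3 : ∑ z, a z * (φ z - φ y0) ≤ (1 - δ) * c := by
    rw [← Finset.add_sum_erase _ _ (Finset.mem_univ y0), sub_self, mul_zero, zero_add]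
    have h4 : ∑ z ∈ Finset.univ.erase y0, a z * (φ z - φ y0) ≤ ∑ z ∈ Finset.univ.erase y0, a z * c :=
      Finset.sum_le_sum fun z _ => mul_le_mul_of_nonneg_left (hφ z y0) (hδ.trans (ha z))
    refine h4.trans ?_
    rw [← Finset.sum_mul]
    apply mul_le_mul_of_nonneg_right _ hc
    have h5 := Finset.add_sum_erase Finset.univ a (Finset.mem_univ y0)
    rw [ha1] at h5
    linarith [ha y0]
  linarith

theorem doeblin [Nonempty Ω] (M : Matrix Ω Ω ℝ) (v : Ω → ℝ) (lam : ℝ) (hM : ∀ x y, 0 ≤ M x y) (hv : ∀ x, 0 < v x)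
    (hlam : 0 < lam) (hMv : ∀ x, ∑ y, M x y * v y = lam * v x) (p : ℕ) (hp : 0 < p) (hMp : ∀ x y, 0 < (M ^ p) x y) :
    ∃ (l : Ω → ℝ) (C θ : ℝ), (∀ y, 0 < l y) ∧ 0 ≤ C ∧ 0 < θ ∧ θ < 1 ∧ (∑ y, v y * l y = 1) ∧
      ∀ k x y, |(lam⁻¹) ^ k * (M ^ k) x y - v x * l y| ≤ C * θ ^ k := by
  set S : ℕ → Ω → Ω → ℝ := fun j x z => (lam⁻¹) ^ j * (M ^ j) x z * v z / v x with hS
  set φ : ℕ → Ω → Ω → ℝ := fun k x y => (lam⁻¹) ^ k * (M ^ k) x y / v x with hφ
  have hS0 : ∀ j x z, 0 ≤ S j x z := fun j x z => by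
    have := pow_nonneg_entry M hM j x z
    have := hv x
    have := hv z
    simp only [hS]; positivity
  have hS1 : ∀ j x, ∑ z, S j x z = 1 := by
    intro j x
    simp only [hS]
    rw [← Finset.sum_div, div_eq_one_iff_eq (hv x).ne']
    have := pow_eig M v lam hMv j x
    simp only [mul_assoc]
    rw [← Finset.mul_sum, this, ← mul_assoc, ← mul_pow, inv_mul_cancel₀ hlam.ne', one_pow, one_mul]
  have hφ0 : ∀ k x y, 0 ≤ φ k x y := fun k x y => by
    have := pow_nonneg_entry M hM k x y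
    have := hv x
    simp only [hφ]; positivity
  have hSφ : ∀ j k x y, φ (j + k) x y = ∑ z, S j x z * φ k z y := by
    intro j k x y
    simp only [hS, hφ]
    rw [pow_add M, Matrix.mul_apply, Finset.mul_sum, Finset.sum_div]
    apply Finset.sum_congr rfl
    intro z _
    have := (hv z).ne'
    rw [pow_add]
    field_simp
  -- minimal entries
  obtain ⟨q0, hq0⟩ := Finite.exists_min (fun q : Ω × Ω => S p q.1 q.2)
  set δ : ℝ := S p q0.1 q0.2 with hδ
  have hδ0 : 0 < δ := by
    rw [hδ]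
    have := hMp q0.1 q0.2
    have := hv q0.1
    have := hv q0.2
    simp only [hS]; positivity
  have hδS : ∀ x z, δ ≤ S p x z := fun x z => hq0 (x, z)
  have hδ1 : δ ≤ 1 := by
    have h1 := hS1 p q0.1
    rw [← h1]
    exact Finset.single_le_sum (f := fun z => S p q0.1 z) (fun z _ => hS0 _ _ _) (Finset.mem_univ q0.2)
  obtain ⟨θ, C, hθ0, hθ1, hC, hθC⟩ := theta_exists p hp (1 - δ) (by linarith) (by linarith)
  set c0 : ℝ := ∑ x, (v x)⁻¹ with hc0
  have hc00 : 0 ≤ c0 := Finset.sum_nonneg fun x _ => (inv_pos.mpr (hv x)).le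
  have hosc0 : ∀ x x' y, φ 0 x y - φ 0 x' y ≤ c0 := by
    intro x x' y
    have h1 : φ 0 x y ≤ (v x)⁻¹ := by
      simp only [hφ, pow_zero, one_mul]
      rw [Matrix.one_apply, inv_eq_one_div]
      have := hv x
      apply div_le_div_of_nonneg_right _ this.le
      split_ifs <;> norm_num
    have h2 : (v x)⁻¹ ≤ c0 := Finset.single_le_sum (f := fun x => (v x)⁻¹) (fun x _ => (inv_pos.mpr (hv x)).le) (Finset.mem_univ x)
    linarith [hφ0 0 x' y]
  have hosc1 : ∀ b x x' y, φ b x y - φ b x' y ≤ c0 := by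
    intro b x x' y
    have h1 := hSφ b 0 x y
    have h2 := hSφ b 0 x' y
    rw [add_zero] at h1 h2
    rw [h1, h2]
    have := osc_contract (S b x) (S b x') (fun z => φ 0 z y) 0 c0 le_rfl hc00 (hS0 b x) (hS0 b x') (hS1 b x) (hS1 b x')
      (fun x y' => hosc0 x y' y)
    simpa using this
  have hosc2 : ∀ a b x x' y, φ (p * a + b) x y - φ (p * a + b) x' y ≤ (1 - δ) ^ a * c0 := by
    intro a
    induction a with
    | zero => intro b x x' y; simpa using hosc1 b x x' y
    | succ a ih =>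
      intro b x x' y
      have e : p * (a + 1) + b = p + (p * a + b) := by ring
      rw [e, hSφ, hSφ]
      have := osc_contract (S p x) (S p x') (fun z => φ (p * a + b) z y) δ ((1 - δ) ^ a * c0) hδ0.le
        (mul_nonneg (pow_nonneg (by linarith) _) hc00) (hδS x) (hS0 p x') (hS1 p x) (hS1 p x') (fun x y' => ih b x y' y)
      refine this.trans (le_of_eq ?_)
      rw [pow_succ]; ring
  have hosc : ∀ k x x' y, φ k x y - φ k x' y ≤ C * c0 * θ ^ k := by
    intro k x x' y
    have h1 := hosc2 (k / p) (k % p) x x' y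
    rw [Nat.div_add_mod] at h1
    refine h1.trans ?_
    have := mul_le_mul_of_nonneg_right (hθC k) hc00
    linarith
  have hstep : ∀ k x y, dist (φ k x y) (φ (k + 1) x y) ≤ C * c0 * θ ^ k := by
    intro k x y
    rw [dist_comm, Real.dist_eq, add_comm k 1, hSφ]
    have h1 : ∑ z, S 1 x z * φ k z y - φ k x y = ∑ z, S 1 x z * (φ k z y - φ k x y) := by
      simp only [mul_sub, Finset.sum_sub_distrib, ← Finset.sum_mul]
      rw [hS1, one_mul]
    rw [h1]
    calc |∑ z, S 1 x z * (φ k z y - φ k x y)| ≤ ∑ z, |S 1 x z * (φ k z y - φ k x y)| := Finset.abs_sum_le_sum_abs _ _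
      _ ≤ ∑ z, S 1 x z * (C * c0 * θ ^ k) := by
        apply Finset.sum_le_sum
        intro z _
        rw [abs_mul, abs_of_nonneg (hS0 1 x z)]
        apply mul_le_mul_of_nonneg_left _ (hS0 1 x z)
        rw [abs_le]
        constructor
        · linarith [hosc k x z y]
        · exact hosc k z x y
      _ = C * c0 * θ ^ k := by rw [← Finset.sum_mul, hS1, one_mul]
  have hcau : ∀ x y, CauchySeq (fun k => φ k x y) := fun x y => cauchySeq_of_le_geometric θ (C * c0) hθ1 (fun k => hstep k x y)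
  have hlim : ∀ x y, ∃ L, Tendsto (fun k => φ k x y) atTop (𝓝 L) := fun x y => cauchySeq_tendsto_of_complete (hcau x y)
  choose L hL using hlim
  have hLeq : ∀ x x' y, L x y = L x' y := by
    intro x x' y
    have h1 : Tendsto (fun k => φ k x y - φ k x' y) atTop (𝓝 (L x y - L x' y)) := (hL x y).sub (hL x' y)
    have h2 : Tendsto (fun k => φ k x y - φ k x' y) atTop (𝓝 0) := by
      have h3 : Tendsto (fun k => C * c0 * θ ^ k) atTop (𝓝 0) := by
        have := (tendsto_pow_atTop_nhds_zero_of_lt_one hθ0.le hθ1).const_mul (C * c0)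
        rwa [mul_zero] at this
      have h4 : Tendsto (fun k => -(C * c0 * θ ^ k)) atTop (𝓝 0) := by
        have := h3.neg; rwa [neg_zero] at this
      exact tendsto_of_tendsto_of_tendsto_of_le_of_le h4 h3 (fun k => by simp only; linarith [hosc k x' x y]) (fun k => hosc k x x' y)
    have := tendsto_nhds_unique h1 h2
    linarith
  have x0 : Ω := Classical.arbitrary Ω
  refine ⟨fun y => L x0 y, (∑ x, v x) * (C * c0 / (1 - θ)), θ, ?_, ?_, hθ0, hθ1, ?_, ?_⟩
  · -- positivity
    intro y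
    obtain ⟨z0, hz0⟩ := Finite.exists_min (fun z => φ p z y)
    have hz1 : 0 < φ p z0 y := by
      have := hMp z0 y
      have := hv z0
      simp only [hφ]; positivity
    have h1 : ∀ k, φ p z0 y ≤ φ (k + p) x0 y := by
      intro k
      rw [hSφ]
      calc φ p z0 y = ∑ z, S k x0 z * φ p z0 y := by rw [← Finset.sum_mul, hS1, one_mul]
        _ ≤ _ := Finset.sum_le_sum fun z _ => mul_le_mul_of_nonneg_left (hz0 z) (hS0 _ _ _)
    have h2 := (hL x0 y).comp (tendsto_add_atTop_nat p)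
    have h3 : φ p z0 y ≤ L x0 y := ge_of_tendsto h2 (Filter.Eventually.of_forall fun k => h1 k)
    linarith
  · have h1 : 0 ≤ ∑ x, v x := Finset.sum_nonneg fun x _ => (hv x).le
    have h2 : 0 < 1 - θ := by linarith
    positivity
  · have h1 : ∀ k, ∑ y, v y * φ k x0 y = 1 := by
      intro k
      rw [← hS1 k x0]
      apply Finset.sum_congr rfl
      intro y _
      simp only [hS, hφ]; ring
    have h2 : Tendsto (fun k => ∑ y, v y * φ k x0 y) atTop (𝓝 (∑ y, v y * L x0 y)) :=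
      tendsto_finsetSum _ fun y _ => (hL x0 y).const_mul (v y)
    have h3 : Tendsto (fun k => ∑ y, v y * φ k x0 y) atTop (𝓝 1) := by
      simp only [h1]; exact tendsto_const_nhds
    exact tendsto_nhds_unique h2 h3
  · intro k x y
    have h1 := dist_le_of_le_geometric_of_tendsto θ (C * c0) hθ1 (fun k => hstep k x y) (hL x y) k
    rw [Real.dist_eq] at h1
    have h2 : (lam⁻¹) ^ k * (M ^ k) x y - v x * L x0 y = v x * (φ k x y - L x y) := by
      rw [hLeq x x0 y]
      simp only [hφ]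
      have := (hv x).ne'
      field_simp
    simp only
    rw [h2, abs_mul, abs_of_pos (hv x)]
    have h3 : v x ≤ ∑ x, v x := Finset.single_le_sum (f := v) (fun x _ => (hv x).le) (Finset.mem_univ x)
    calc v x * |φ k x y - L x y| ≤ (∑ x, v x) * (C * c0 * θ ^ k / (1 - θ)) :=
          mul_le_mul h3 h1 (abs_nonneg _) (Finset.sum_nonneg fun x _ => (hv x).le)
      _ = _ := by ring

theorem pow_le_entry (M H : Matrix Ω Ω ℝ) (hH : ∀ x y, 0 ≤ H x y) (hHM : ∀ x y, H x y ≤ M x y) (k : ℕ) (x y : Ω) :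
    (H ^ k) x y ≤ (M ^ k) x y := by
  induction k generalizing x y with
  | zero => rw [pow_zero, pow_zero]
  | succ k ih =>
    rw [pow_succ, pow_succ, Matrix.mul_apply, Matrix.mul_apply]
    exact Finset.sum_le_sum fun z _ => mul_le_mul (ih _ _) (hHM _ _) (hH _ _)
      (pow_nonneg_entry M (fun x y => (hH x y).trans (hHM x y)) k x z)

/-- growth of a matrix with a removed state -/
theorem removed [Nonempty Ω] (M H : Matrix Ω Ω ℝ) (v : Ω → ℝ) (lam : ℝ) (hH : ∀ x y, 0 ≤ H x y) (hHM : ∀ x y, H x y ≤ M x y)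
    (hv : ∀ x, 0 < v x)
    (hlam : 0 < lam) (hMv : ∀ x, ∑ y, M x y * v y = lam * v x) (p : ℕ) (hp : 0 < p) (hMp : ∀ x y, 0 < (M ^ p) x y)
    (s : Ω) (hs : ∀ x, H x s = 0) :
    ∃ (C θ : ℝ), 0 ≤ C ∧ 0 < θ ∧ θ < 1 ∧ ∀ k x y, (H ^ k) x y ≤ C * (lam * θ) ^ k := by
  have hM : ∀ x y, 0 ≤ M x y := fun x y => (hH x y).trans (hHM x y)
  obtain ⟨x0, hx0⟩ := Finite.exists_min (fun x => (lam⁻¹) ^ p * (M ^ p) x s * v s / v x)
  set δ : ℝ := (lam⁻¹) ^ p * (M ^ p) x0 s * v s / v x0 with hδ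
  have hδ0 : 0 < δ := by
    have := hMp x0 s
    have := hv x0
    have := hv s
    rw [hδ]; positivity
  have hpow : lam ^ p * (lam⁻¹) ^ p = 1 := by rw [← mul_pow, mul_inv_cancel₀ hlam.ne', one_pow]
  have hHs : ∀ x, (H ^ p) x s = 0 := by
    intro x
    obtain ⟨q, rfl⟩ : ∃ q, p = q + 1 := ⟨p - 1, by omega⟩
    rw [pow_succ, Matrix.mul_apply]
    exact Finset.sum_eq_zero fun z _ => by rw [hs, mul_zero]
  have hone : ∀ x, ∑ y, (H ^ p) x y * v y ≤ lam ^ p * (1 - δ) * v x := by
    intro x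
    have h1 := pow_eig M v lam hMv p x
    have h2 : ∑ y, (H ^ p) x y * v y + (M ^ p) x s * v s ≤ ∑ y, (M ^ p) x y * v y := by
      rw [← Finset.add_sum_erase _ _ (Finset.mem_univ s), ← Finset.add_sum_erase _ (fun y => (M ^ p) x y * v y) (Finset.mem_univ s),
        hHs, zero_mul, zero_add, add_comm]
      apply add_le_add le_rfl
      exact Finset.sum_le_sum fun z _ => mul_le_mul_of_nonneg_right (pow_le_entry M H hH hHM p x z) (hv z).le
    have h3 := hx0 x
    rw [le_div_iff₀ (hv x)] at h3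
    have h4 : lam ^ p * (δ * v x) ≤ (M ^ p) x s * v s := by
      calc lam ^ p * (δ * v x) ≤ lam ^ p * ((lam⁻¹) ^ p * (M ^ p) x s * v s) := mul_le_mul_of_nonneg_left h3 (by positivity)
        _ = _ := by rw [← mul_assoc, ← mul_assoc, hpow, one_mul]
    linarith
  have hδ1 : δ ≤ 1 := by
    by_contra hcon
    push Not at hcon
    have h1 := hone x0
    have h2 : 0 ≤ ∑ y, (H ^ p) x0 y * v y := Finset.sum_nonneg fun y _ => mul_nonneg (pow_nonneg_entry H hH p x0 y) (hv y).le
    have h3 : lam ^ p * (1 - δ) * v x0 < 0 := by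
      have := hv x0
      have : 0 < lam ^ p * (δ - 1) * v x0 := by
        have : 0 < δ - 1 := by linarith
        positivity
      linarith
    linarith
  obtain ⟨θ, C, hθ0, hθ1, hC, hθC⟩ := theta_exists p hp (1 - δ) (by linarith) (by linarith)
  have hgen : ∀ a b x, ∑ y, (H ^ (p * a + b)) x y * v y ≤ lam ^ (p * a + b) * (1 - δ) ^ a * v x := by
    intro a
    induction a with
    | zero =>
      intro b x
      rw [mul_zero, zero_add, pow_zero, mul_one, ← pow_eig M v lam hMv b x]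
      exact Finset.sum_le_sum fun y _ => mul_le_mul_of_nonneg_right (pow_le_entry M H hH hHM b x y) (hv y).le
    | succ a ih =>
      intro b x
      have e : p * (a + 1) + b = p + (p * a + b) := by ring
      rw [e, pow_add H]
      have h1 : ∑ y, (H ^ p * H ^ (p * a + b)) x y * v y = ∑ z, (H ^ p) x z * ∑ y, (H ^ (p * a + b)) z y * v y := by
        simp only [Matrix.mul_apply, Finset.sum_mul, Finset.mul_sum]
        rw [Finset.sum_comm]
        apply Finset.sum_congr rfl
        intro z _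
        apply Finset.sum_congr rfl
        intro y _
        ring
      rw [h1]
      calc ∑ z, (H ^ p) x z * ∑ y, (H ^ (p * a + b)) z y * v y
          ≤ ∑ z, (H ^ p) x z * (lam ^ (p * a + b) * (1 - δ) ^ a * v z) :=
            Finset.sum_le_sum fun z _ => mul_le_mul_of_nonneg_left (ih b z) (pow_nonneg_entry H hH p x z)
        _ = lam ^ (p * a + b) * (1 - δ) ^ a * ∑ z, (H ^ p) x z * v z := by
            rw [Finset.mul_sum]
            apply Finset.sum_congr rfl
            intro z _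
            ring
        _ ≤ lam ^ (p * a + b) * (1 - δ) ^ a * (lam ^ p * (1 - δ) * v x) := by
            apply mul_le_mul_of_nonneg_left (hone x)
            exact mul_nonneg (by positivity) (pow_nonneg (by linarith) _)
        _ = _ := by rw [pow_add, pow_succ]; ring
  set cv : ℝ := (∑ x, v x) * ∑ y, (v y)⁻¹ with hcv
  have hcv0 : 0 ≤ cv := mul_nonneg (Finset.sum_nonneg fun x _ => (hv x).le) (Finset.sum_nonneg fun x _ => (inv_pos.mpr (hv x)).le)
  refine ⟨C * cv, θ, by positivity, hθ0, hθ1, fun k x y => ?_⟩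
  have h1 := hgen (k / p) (k % p) x
  rw [Nat.div_add_mod] at h1
  have h2 : (H ^ k) x y * v y ≤ lam ^ k * (1 - δ) ^ (k / p) * v x :=
    (Finset.single_le_sum (f := fun y => (H ^ k) x y * v y) (fun y _ => mul_nonneg (pow_nonneg_entry H hH k x y) (hv y).le)
      (Finset.mem_univ y)).trans h1
  have h3 : (H ^ k) x y ≤ lam ^ k * (1 - δ) ^ (k / p) * v x * (v y)⁻¹ := by
    rw [← div_eq_mul_inv, le_div_iff₀ (hv y)]; exact h2
  have h4 : v x * (v y)⁻¹ ≤ cv := by
    apply mul_le_mul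
    · exact Finset.single_le_sum (f := v) (fun x _ => (hv x).le) (Finset.mem_univ x)
    · exact Finset.single_le_sum (f := fun y => (v y)⁻¹) (fun x _ => (inv_pos.mpr (hv x)).le) (Finset.mem_univ y)
    · exact (inv_pos.mpr (hv y)).le
    · exact Finset.sum_nonneg fun x _ => (hv x).le
  calc (H ^ k) x y ≤ lam ^ k * (1 - δ) ^ (k / p) * v x * (v y)⁻¹ := h3
    _ = lam ^ k * (1 - δ) ^ (k / p) * (v x * (v y)⁻¹) := by ring
    _ ≤ lam ^ k * (C * θ ^ k) * cv := by
      apply mul_le_mul (mul_le_mul_of_nonneg_left (hθC k) (by positivity)) h4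
      · have := hv x
        have := hv y
        positivity
      · positivity
    _ = _ := by rw [mul_pow]; ring

end doeblin

end Pool.Agent.W717.G
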