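import Mathlib
import Pool.Agent.W717.G.BSide
import Pool.Agent.W717.G.PF
import Pool.Agent.H906R3.CY.PF

set_option autoImplicit false
set_option linter.all false

namespace Pool.Agent.W717.G

open Finset PowerSeries Filter Topology

section aside

variable {I G : Type} [Fintype I] [DecidableEq I] [Nonempty I] [Group G] [Fintype G] [DecidableEq G]

theorem coeff_iZ_pow (A : Matrix I I (MonoidAlgebra ℤ G)) (k : ℕ) (i j : I) (g : G) :
    (((iZ A) ^ k) i j).coeff g = (((A ^ k) i j).coeff g : ℝ) := by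
  rw [← map_pow, coeff_iZ]

theorem reg_sum (a : Matrix I I (MonoidAlgebra ℝ G)) (r : I → ℝ) (x : I × G) :
    ∑ y, reg a x y * r y.1 = ∑ j, aug (a x.1 j) * r j := by
  rw [Fintype.sum_prod_type]
  apply Finset.sum_congr rfl
  intro j _
  simp only [reg_apply]
  rw [← Finset.sum_mul]
  congr 1
  rw [aug_apply, ← Equiv.sum_comp ((Equiv.inv G).trans (Equiv.mulLeft x.2)) (fun g => (a x.1 j).coeff g)]
  rfl

theorem a_side (A H : Matrix I I (MonoidAlgebra ℤ G)) (hA0 : ∀ i j g, 0 ≤ (A i j).coeff g) (p : ℕ) (hp : 0 < p)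
    (hAp : ∀ i j g, 1 ≤ ((A ^ p) i j).coeff g)
    (s : I) (hH0 : ∀ i j g, 0 ≤ (H i j).coeff g) (hHA : ∀ i j g, (H i j).coeff g ≤ (A i j).coeff g) (hHs : ∀ i, H i s = 0) :
    ∃ (lam θ C : ℝ) (r l : I → ℝ), 0 < lam ∧ 0 < θ ∧ θ < 1 ∧ 0 ≤ C ∧ (∀ i, 0 < r i) ∧ (∀ i, 0 < l i) ∧
      (Fintype.card G : ℝ) * ∑ i, r i * l i = 1 ∧
      (∀ k i j g, |(lam⁻¹) ^ k * (((A ^ k) i j).coeff g : ℝ) - r i * l j| ≤ C * θ ^ k) ∧
      (∀ k i j g, (((H ^ k) i j).coeff g : ℝ) ≤ C * (lam * θ) ^ k) := by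
  set a : Matrix I I ℝ := augM (iZ A) with ha
  have ha0 : ∀ i j, 0 ≤ a i j := by
    intro i j
    rw [ha, augM_apply, aug_apply]
    apply Finset.sum_nonneg
    intro g _
    rw [coeff_iZ]
    exact_mod_cast hA0 i j g
  have hap : ∀ i j, 0 < (a ^ p) i j := by
    intro i j
    rw [ha, ← map_pow, augM_apply, aug_apply]
    apply Finset.sum_pos
    · intro g _
      rw [coeff_iZ_pow]
      exact_mod_cast (by have := hAp i j g; omega : 0 < ((A ^ p) i j).coeff g)
    · exact Finset.univ_nonempty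
  have hsum : ∀ i j, 0 < (∑ l ∈ Finset.range (p + 1), a ^ l) i j := by
    intro i j
    rw [Finset.sum_range_succ, Matrix.add_apply, Matrix.sum_apply]
    have : 0 ≤ ∑ l ∈ Finset.range p, (a ^ l) i j := Finset.sum_nonneg fun l _ => pow_nonneg_entry a ha0 l i j
    have := hap i j
    linarith
  have hex : ∃ i j, 0 < a i j := by
    by_contra hcon
    push Not at hcon
    have h1 : a = 0 := by
      ext i j
      exact le_antisymm (hcon i j) (ha0 i j)
    have i0 : I := Classical.arbitrary I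
    have := hap i0 i0
    rw [h1, zero_pow hp.ne'] at this
    simp at this
  obtain ⟨r, lam, hr, _, hlam, hav, _⟩ := H906C.perron a ha0 (p + 1) hsum hex
  have hav' : ∀ i, ∑ j, a i j * r j = lam * r i := fun i => congrFun hav i
  set M : Matrix (I × G) (I × G) ℝ := reg (iZ A) with hM
  set H' : Matrix (I × G) (I × G) ℝ := reg (iZ H) with hH'
  have hM0 : ∀ x y, 0 ≤ M x y := by
    intro x y
    rw [hM, reg_apply, coeff_iZ]
    exact_mod_cast hA0 _ _ _
  have hH'0 : ∀ x y, 0 ≤ H' x y := by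
    intro x y
    rw [hH', reg_apply, coeff_iZ]
    exact_mod_cast hH0 _ _ _
  have hH'M : ∀ x y, H' x y ≤ M x y := by
    intro x y
    rw [hH', hM, reg_apply, reg_apply, coeff_iZ, coeff_iZ]
    exact_mod_cast hHA _ _ _
  have hMp : ∀ x y, 0 < (M ^ p) x y := by
    intro x y
    rw [hM, ← map_pow, reg_apply, coeff_iZ_pow]
    exact_mod_cast (by have := hAp x.1 y.1 (x.2 * y.2⁻¹); omega : 0 < ((A ^ p) x.1 y.1).coeff (x.2 * y.2⁻¹))
  have hMv : ∀ x : I × G, ∑ y, M x y * r y.1 = lam * r x.1 := by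
    intro x
    rw [hM, reg_sum]
    exact hav' x.1
  obtain ⟨l', C1, θ1, hl', hC1, hθ1, hθ11, hsum1, hlim⟩ := doeblin M (fun x => r x.1) lam hM0 (fun x => hr x.1) hlam hMv p hp hMp
  obtain ⟨C2, θ2, hC2, hθ2, hθ21, hrem⟩ := removed M H' (fun x => r x.1) lam hH'0 hH'M (fun x => hr x.1) hlam hMv p hp hMp
    (s, 1) (by
      intro x
      rw [hH', reg_apply, coeff_iZ]
      simp only [hHs]; simp)
  have hentry : ∀ k i j g h, (M ^ k) (i, g) (j, h) = (((A ^ k) i j).coeff (g * h⁻¹) : ℝ) := by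
    intro k i j g h
    rw [hM, ← map_pow, reg_apply, coeff_iZ_pow]
  have hentryH : ∀ k i j g, (H' ^ k) (i, g) (j, 1) = (((H ^ k) i j).coeff g : ℝ) := by
    intro k i j g
    rw [hH', ← map_pow, reg_apply, coeff_iZ_pow]; simp
  have i0 : I := Classical.arbitrary I
  have hlinv : ∀ j h, l' (j, h) = l' (j, 1) := by
    intro j h
    have h1 : ∀ k, |r i0 * l' (j, h) - r i0 * l' (j, 1)| ≤ 2 * C1 * θ1 ^ k := by
      intro k
      have e1 := hlim k (i0, h) (j, h)
      have e2 := hlim k (i0, 1) (j, 1)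
      rw [hentry] at e1 e2
      rw [mul_inv_cancel] at e1
      simp only [inv_one, mul_one] at e2
      rw [abs_le] at e1 e2 ⊢
      constructor
      · linarith [e1.1, e1.2, e2.1, e2.2]
      · linarith [e1.1, e1.2, e2.1, e2.2]
    have h2 : Tendsto (fun k => 2 * C1 * θ1 ^ k) atTop (𝓝 0) := by
      have := (tendsto_pow_atTop_nhds_zero_of_lt_one hθ1.le hθ11).const_mul (2 * C1)
      rwa [mul_zero] at this
    have h3 : |r i0 * l' (j, h) - r i0 * l' (j, 1)| ≤ 0 := ge_of_tendsto h2 (Filter.Eventually.of_forall h1)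
    have h4 : r i0 * l' (j, h) - r i0 * l' (j, 1) = 0 := abs_eq_zero.mp (le_antisymm h3 (abs_nonneg _))
    have h5 : r i0 * (l' (j, h) - l' (j, 1)) = 0 := by rw [mul_sub]; exact h4
    rcases mul_eq_zero.mp h5 with h6 | h6
    · exact absurd h6 (hr i0).ne'
    · linarith
  refine ⟨lam, max θ1 θ2, max C1 C2, r, fun j => l' (j, 1), hlam, lt_max_of_lt_left hθ1, max_lt hθ11 hθ21,
    le_max_of_le_left hC1, hr, fun j => hl' _, ?_, ?_, ?_⟩
  · rw [← hsum1, Fintype.sum_prod_type, Finset.mul_sum]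
    apply Finset.sum_congr rfl
    intro j _
    simp only [hlinv j]
    rw [Finset.sum_const, Finset.card_univ, nsmul_eq_mul]
  · intro k i j g
    have e1 := hlim k (i, g) (j, 1)
    rw [hentry] at e1
    simp only [inv_one, mul_one] at e1
    refine e1.trans ?_
    apply mul_le_mul (le_max_left _ _) (pow_le_pow_left₀ hθ1.le (le_max_left _ _) k) (by positivity) (le_max_of_le_left hC1)
  · intro k i j g
    have e1 := hrem k (i, g) (j, 1)
    rw [hentryH] at e1
    refine e1.trans ?_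
    apply mul_le_mul (le_max_right _ _) (pow_le_pow_left₀ (by positivity)
      (mul_le_mul_of_nonneg_left (le_max_right _ _) hlam.le) k) (by positivity) (le_max_of_le_right hC2)

end aside

end Pool.Agent.W717.G
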