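import Mathlib
import Pool.Agent.W717.G.BSide

set_option autoImplicit false
set_option linter.all false

namespace Pool.Agent.W717.G

open Finset PowerSeries Filter Topology

section cf

variable {G : Type} [Group G] [Fintype G] [DecidableEq G]

/-- coefficients of series over the group ring -/
noncomputable def cf (f : PowerSeries (MonoidAlgebra ℤ G)) (k : ℕ) (g : G) : ℤ := (coeff k f).coeff g

theorem cf_ext {f h : PowerSeries (MonoidAlgebra ℤ G)} (H : ∀ k g, cf f k g = cf h k g) : f = h := by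
  ext k g; exact H k g

theorem cf_zero (k : ℕ) (g : G) : cf (0 : PowerSeries (MonoidAlgebra ℤ G)) k g = 0 := by simp [cf]

theorem cf_add (f h : PowerSeries (MonoidAlgebra ℤ G)) (k : ℕ) (g : G) : cf (f + h) k g = cf f k g + cf h k g := by
  simp [cf, MonoidAlgebra.coeff_add]

theorem cf_sub (f h : PowerSeries (MonoidAlgebra ℤ G)) (k : ℕ) (g : G) : cf (f - h) k g = cf f k g - cf h k g := by
  simp [cf, MonoidAlgebra.coeff_sub]

theorem cf_sum {α : Type*} (s : Finset α) (f : α → PowerSeries (MonoidAlgebra ℤ G)) (k : ℕ) (g : G) :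
    cf (∑ i ∈ s, f i) k g = ∑ i ∈ s, cf (f i) k g := by
  simp [cf, MonoidAlgebra.coeff_sum]

theorem cf_one (k : ℕ) (g : G) : cf (1 : PowerSeries (MonoidAlgebra ℤ G)) k g = if k = 0 ∧ g = 1 then 1 else 0 := by
  unfold cf
  rw [coeff_one]
  by_cases hk : k = 0
  · rw [if_pos hk, MonoidAlgebra.one_def, MonoidAlgebra.coeff_single, Finsupp.single_apply]
    by_cases hg : g = 1
    · rw [if_pos hg.symm, if_pos ⟨hk, hg⟩]
    · rw [if_neg (Ne.symm hg), if_neg (fun h => hg h.2)]
  · rw [if_neg hk, if_neg (fun h => hk h.1)]; simp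

theorem cf_mul (f h : PowerSeries (MonoidAlgebra ℤ G)) (k : ℕ) (g : G) :
    cf (f * h) k g = ∑ y ∈ antidiagonal k, ∑ x, cf f y.1 x * cf h y.2 (x⁻¹ * g) := by
  unfold cf
  rw [coeff_mul, MonoidAlgebra.coeff_sum, Finsupp.finsetSum_apply]
  apply Finset.sum_congr rfl
  intro y _
  rw [coeff_mul_fin]

/-- monomials -/
noncomputable def mo (k : ℕ) (g : G) : PowerSeries (MonoidAlgebra ℤ G) := C (MonoidAlgebra.single g 1) * X ^ k

theorem cf_mo (k : ℕ) (g : G) (k' : ℕ) (g' : G) : cf (mo k g) k' g' = if k' = k ∧ g' = g then 1 else 0 := by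
  unfold cf mo
  rw [coeff_C_mul, coeff_X_pow]
  by_cases hk : k' = k
  · rw [if_pos hk, mul_one, MonoidAlgebra.coeff_single, Finsupp.single_apply]
    by_cases hg : g' = g
    · rw [if_pos hg.symm, if_pos ⟨hk, hg⟩]
    · rw [if_neg (Ne.symm hg), if_neg (fun h => hg h.2)]
  · rw [if_neg hk, if_neg (fun h => hk h.1)]; simp

theorem mo_mul (k l : ℕ) (g h : G) : mo k g * mo l h = mo (k + l) (g * h) := by
  unfold mo
  have e1 : (C (MonoidAlgebra.single g (1 : ℤ)) * X ^ k : PowerSeries (MonoidAlgebra ℤ G)) * (C (MonoidAlgebra.single h 1) * X ^ l) =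
     C (MonoidAlgebra.single g (1 : ℤ) * MonoidAlgebra.single h 1) * X ^ (k + l) := by
    rw [map_mul, pow_add, mul_assoc, ← mul_assoc (X ^ k) (PowerSeries.C _), X_pow_mul, mul_assoc, mul_assoc]
  rw [e1, MonoidAlgebra.single_mul_single, mul_one]

theorem mo_zero_one : (mo 0 1 : PowerSeries (MonoidAlgebra ℤ G)) = 1 := by
  unfold mo; rw [pow_zero, mul_one, ← MonoidAlgebra.one_def, map_one]

theorem mo_pow (k : ℕ) (g : G) (n : ℕ) : (mo k g) ^ n = mo (k * n) (g ^ n) := by
  induction n with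
  | zero => rw [pow_zero, mul_zero, pow_zero, mo_zero_one]
  | succ n ih => rw [pow_succ, ih, mo_mul, pow_succ, mul_add, mul_one]

/-- nonnegative series -/
def Nn (f : PowerSeries (MonoidAlgebra ℤ G)) : Prop := ∀ k g, 0 ≤ cf f k g

theorem Nn.zero : Nn (0 : PowerSeries (MonoidAlgebra ℤ G)) := fun k g => by rw [cf_zero]
theorem Nn.one : Nn (1 : PowerSeries (MonoidAlgebra ℤ G)) := fun k g => by rw [cf_one]; split_ifs <;> norm_num
theorem Nn.mo (k : ℕ) (g : G) : Nn (mo k g) := fun k g => by rw [cf_mo]; split_ifs <;> norm_num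
theorem Nn.add {f h : PowerSeries (MonoidAlgebra ℤ G)} (hf : Nn f) (hh : Nn h) : Nn (f + h) := fun k g => by
  rw [cf_add]; exact add_nonneg (hf k g) (hh k g)
theorem Nn.sum {α : Type*} {s : Finset α} {f : α → PowerSeries (MonoidAlgebra ℤ G)} (h : ∀ i ∈ s, Nn (f i)) : Nn (∑ i ∈ s, f i) :=
  fun k g => by rw [cf_sum]; exact Finset.sum_nonneg fun i hi => h i hi k g
theorem Nn.mul {f h : PowerSeries (MonoidAlgebra ℤ G)} (hf : Nn f) (hh : Nn h) : Nn (f * h) := fun k g => by
  rw [cf_mul]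
  exact Finset.sum_nonneg fun y _ => Finset.sum_nonneg fun x _ => mul_nonneg (hf _ _) (hh _ _)

theorem single_le_anti (F : ℕ × ℕ → ℤ) (hF : ∀ z, 0 ≤ F z) (i j : ℕ) : F (i, j) ≤ ∑ z ∈ antidiagonal (i + j), F z :=
  Finset.single_le_sum (fun z _ => hF z) (Finset.HasAntidiagonal.mem_antidiagonal.mpr rfl)

theorem cf_mul_ge {f h : PowerSeries (MonoidAlgebra ℤ G)} (hf : Nn f) (hh : Nn h) (i j : ℕ) (x y : G) :
    cf f i x * cf h j y ≤ cf (f * h) (i + j) (x * y) := by
  rw [cf_mul]
  have h1 : cf f i x * cf h j y ≤ ∑ t, cf f i t * cf h j (t⁻¹ * (x * y)) := by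
    have h2 : cf f i x * cf h j (x⁻¹ * (x * y)) ≤ ∑ t, cf f i t * cf h j (t⁻¹ * (x * y)) :=
      Finset.single_le_sum (f := fun t => cf f i t * cf h j (t⁻¹ * (x * y))) (fun t _ => mul_nonneg (hf _ _) (hh _ _)) (Finset.mem_univ x)
    rwa [inv_mul_cancel_left] at h2
  exact h1.trans (single_le_anti (fun z => ∑ t, cf f z.1 t * cf h z.2 (t⁻¹ * (x * y)))
    (fun z => Finset.sum_nonneg fun t _ => mul_nonneg (hf _ _) (hh _ _)) i j)

/-- a useful form -/
theorem cf_mul_ge' {f h : PowerSeries (MonoidAlgebra ℤ G)} (hf : Nn f) (hh : Nn h) {i k : ℕ} (hik : i ≤ k) (x g : G) :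
    cf f i x * cf h (k - i) (x⁻¹ * g) ≤ cf (f * h) k g := by
  have := cf_mul_ge hf hh i (k - i) x (x⁻¹ * g)
  rwa [Nat.add_sub_cancel' hik, mul_inv_cancel_left] at this

theorem cf_mul_ge'' {f h : PowerSeries (MonoidAlgebra ℤ G)} (hf : Nn f) (hh : Nn h) {j k : ℕ} (hjk : j ≤ k) (y g : G) :
    cf f (k - j) (g * y⁻¹) * cf h j y ≤ cf (f * h) k g := by
  have := cf_mul_ge hf hh (k - j) j (g * y⁻¹) y
  rwa [Nat.sub_add_cancel hjk, inv_mul_cancel_right] at this

/-- the recursion for `q * u` with `q 0 = 0` -/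
theorem cf_mul_range {q u : PowerSeries (MonoidAlgebra ℤ G)} (hq : coeff 0 q = 0) (k : ℕ) (g : G) :
    cf (q * u) k g = ∑ j ∈ range k, ∑ t, cf q (j + 1) t * cf u (k - (j + 1)) (t⁻¹ * g) := by
  rw [cf_mul, Finset.Nat.sum_antidiagonal_eq_sum_range_succ_mk, Finset.sum_range_succ']
  have h0 : ∑ x, cf q 0 x * cf u (k - 0) (x⁻¹ * g) = 0 := by
    apply Finset.sum_eq_zero
    intro x _
    have : cf q 0 x = 0 := by unfold cf; rw [hq]; simp
    rw [this, zero_mul]
  simp only [h0, add_zero]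

/-- augmentation over ℤ -/
noncomputable def augZ : MonoidAlgebra ℤ G →+* ℝ := (aug : MonoidAlgebra ℝ G →+* ℝ).comp (MonoidAlgebra.mapRingHom G (Int.castRingHom ℝ))

theorem augZ_apply (x : MonoidAlgebra ℤ G) : augZ x = ∑ g, (x.coeff g : ℝ) := rfl

/-- augmentation of series -/
noncomputable def au : PowerSeries (MonoidAlgebra ℤ G) →+* PowerSeries ℝ := PowerSeries.map augZ

theorem coeff_au (f : PowerSeries (MonoidAlgebra ℤ G)) (k : ℕ) : coeff k (au f) = ∑ g, (cf f k g : ℝ) := by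
  unfold au
  rw [PowerSeries.coeff_map, augZ_apply]; rfl

theorem au_nonneg {f : PowerSeries (MonoidAlgebra ℤ G)} (hf : Nn f) (k : ℕ) : 0 ≤ coeff k (au f) := by
  rw [coeff_au]
  exact Finset.sum_nonneg fun g _ => by exact_mod_cast hf k g

theorem cf_le_au {f : PowerSeries (MonoidAlgebra ℤ G)} (hf : Nn f) (k : ℕ) (g : G) : (cf f k g : ℝ) ≤ coeff k (au f) := by
  rw [coeff_au]
  exact Finset.single_le_sum (f := fun g => (cf f k g : ℝ)) (fun g _ => by exact_mod_cast hf k g) (Finset.mem_univ g)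

theorem au_mo (k : ℕ) (g : G) : au (mo k g) = X ^ k := by
  ext j
  rw [coeff_au, coeff_X_pow]
  simp only [cf_mo]
  by_cases hj : j = k
  · simp [hj]
  · simp [hj]

/-- truncation -/
noncomputable def tru (L : ℕ) (f : PowerSeries (MonoidAlgebra ℤ G)) : PowerSeries (MonoidAlgebra ℤ G) :=
  PowerSeries.mk fun k => if k < L then coeff k f else 0

theorem cf_tru (L : ℕ) (f : PowerSeries (MonoidAlgebra ℤ G)) (k : ℕ) (g : G) : cf (tru L f) k g = if k < L then cf f k g else 0 := by
  unfold cf tru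
  rw [coeff_mk]
  split_ifs
  · rfl
  · simp

section inv

variable {q u : PowerSeries (MonoidAlgebra ℤ G)} (hq : Nn q) (hq0 : coeff 0 q = 0) (hqu : (1 - q) * u = 1)

include hqu in
theorem inv_eq : u = 1 + q * u := by
  rw [sub_mul, one_mul] at hqu
  rw [← hqu]; abel

include hq0 hqu in
theorem inv_rec (k : ℕ) (g : G) : cf u k g = (if k = 0 ∧ g = 1 then 1 else 0) +
    ∑ j ∈ range k, ∑ t, cf q (j + 1) t * cf u (k - (j + 1)) (t⁻¹ * g) := by
  conv_lhs => rw [inv_eq hqu]
  rw [cf_add, cf_one, cf_mul_range hq0]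

include hq hq0 hqu in
theorem inv_Nn : Nn u := by
  intro k
  induction k using Nat.strong_induction_on with
  | _ k ih =>
    intro g
    rw [inv_rec hq0 hqu]
    apply add_nonneg
    · split_ifs <;> norm_num
    · apply Finset.sum_nonneg
      intro j hj
      rw [Finset.mem_range] at hj
      apply Finset.sum_nonneg
      intro t _
      exact mul_nonneg (hq _ _) (ih _ (by omega) _)

include hq hq0 hqu in
theorem inv_super (m n : ℕ) (x y : G) : cf u m x * cf u n y ≤ cf u (m + n) (x * y) := by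
  have hu := inv_Nn hq hq0 hqu
  induction m using Nat.strong_induction_on generalizing x with
  | _ m ih =>
    rcases Nat.eq_zero_or_pos m with hm | hm
    · subst hm
      rw [inv_rec hq0 hqu 0 x, Finset.sum_range_zero, add_zero, zero_add]
      by_cases hx : x = 1
      · subst hx; simp
      · rw [if_neg (fun h => hx h.2), zero_mul]; exact hu _ _
    · rw [inv_rec hq0 hqu m x, if_neg (by omega), zero_add, inv_rec hq0 hqu (m + n) (x * y), if_neg (by omega), zero_add,
        Finset.sum_mul]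
      have h1 : ∑ j ∈ range m, ∑ t, cf q (j + 1) t * cf u (m + n - (j + 1)) (t⁻¹ * (x * y)) ≤
          ∑ j ∈ range (m + n), ∑ t, cf q (j + 1) t * cf u (m + n - (j + 1)) (t⁻¹ * (x * y)) := by
        apply Finset.sum_le_sum_of_subset_of_nonneg
        · exact Finset.range_mono (by omega)
        · intro j _ _
          exact Finset.sum_nonneg fun t _ => mul_nonneg (hq _ _) (hu _ _)
      refine le_trans ?_ h1
      apply Finset.sum_le_sum
      intro j hj
      rw [Finset.mem_range] at hj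
      rw [Finset.sum_mul]
      apply Finset.sum_le_sum
      intro t _
      rw [mul_assoc]
      apply mul_le_mul_of_nonneg_left _ (hq _ _)
      have := ih (m - (j + 1)) (by omega) (t⁻¹ * x)
      have e : m - (j + 1) + n = m + n - (j + 1) := by omega
      rwa [e, mul_assoc] at this

end inv

end cf

end Pool.Agent.W717.G
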