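import Mathlib
import Pool.Agent.W717.G.Bn

set_option autoImplicit false
set_option linter.all false

namespace Pool.Agent.W717.G

open Finset PowerSeries

section cm

variable {R : Type} [Ring R] {ι κ μ : Type} [Fintype ι] [DecidableEq ι] [Fintype κ] [DecidableEq κ] [Fintype μ] [DecidableEq μ]

/-- coefficient matrices -/
noncomputable def cm (k : ℕ) (M : Matrix κ ι (PowerSeries R)) : Matrix κ ι R := Matrix.of fun i j => coeff k (M i j)

theorem cm_apply (k : ℕ) (M : Matrix κ ι (PowerSeries R)) (i : κ) (j : ι) : cm k M i j = coeff k (M i j) := rfl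

theorem cm_ext {M N : Matrix κ ι (PowerSeries R)} (h : ∀ k, cm k M = cm k N) : M = N := by
  ext1 i j
  ext k
  exact congrFun (congrFun (h k) i) j

theorem cm_add (k : ℕ) (M N : Matrix κ ι (PowerSeries R)) : cm k (M + N) = cm k M + cm k N := by
  ext i j; simp [cm]
theorem cm_sub (k : ℕ) (M N : Matrix κ ι (PowerSeries R)) : cm k (M - N) = cm k M - cm k N := by
  ext i j; simp [cm]
theorem cm_zero (k : ℕ) : cm k (0 : Matrix κ ι (PowerSeries R)) = 0 := by
  ext i j; simp [cm]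
theorem cm_one (k : ℕ) : cm k (1 : Matrix ι ι (PowerSeries R)) = if k = 0 then 1 else 0 := by
  ext i j
  rw [cm_apply, Matrix.one_apply]
  by_cases hk : k = 0
  · rw [if_pos hk, Matrix.one_apply]
    split_ifs
    · rw [coeff_one, if_pos hk]
    · rw [map_zero]
  · rw [if_neg hk, Matrix.zero_apply]
    split_ifs
    · rw [coeff_one, if_neg hk]
    · rw [map_zero]

theorem cm_mul (k : ℕ) (M : Matrix κ ι (PowerSeries R)) (N : Matrix ι μ (PowerSeries R)) :
    cm k (M * N) = ∑ y ∈ antidiagonal k, cm y.1 M * cm y.2 N := by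
  ext i j
  rw [cm_apply, Matrix.mul_apply, map_sum, Matrix.sum_apply]
  simp only [coeff_mul, Matrix.mul_apply, cm_apply]
  rw [Finset.sum_comm]

/-- the linear polynomial `1 - B X` -/
noncomputable def lin (B : Matrix ι ι R) : Matrix ι ι (PowerSeries R) := 1 - Matrix.of fun i j => C (B i j) * X

theorem cm_lin (B : Matrix ι ι R) (k : ℕ) : cm k (lin B) = (if k = 0 then 1 else 0) - if k = 1 then B else 0 := by
  unfold lin
  rw [cm_sub, cm_one]
  congr 1
  ext i j
  rw [cm_apply, Matrix.of_apply]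
  rcases k with _ | k
  · rw [coeff_zero_mul_X]; simp
  · rw [coeff_succ_mul_X, coeff_C]
    rcases k with _ | k
    · simp
    · simp

theorem cm_lin_mul (B : Matrix ι ι R) (M : Matrix ι κ (PowerSeries R)) (k : ℕ) :
    cm (k + 1) (lin B * M) = cm (k + 1) M - B * cm k M := by
  rw [cm_mul, Finset.Nat.sum_antidiagonal_eq_sum_range_succ_mk, Finset.sum_range_succ']
  rw [Finset.sum_eq_single 0]
  · simp only [cm_lin]
    simp [sub_eq_add_neg, add_comm]
  · intro i _ hi
    simp only [cm_lin]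
    rw [if_neg (by omega), if_neg (by omega), sub_zero, Matrix.zero_mul]
  · intro h; exact absurd (Finset.mem_range.mpr (by omega)) h

theorem cm_lin_mul_zero (B : Matrix ι ι R) (M : Matrix ι κ (PowerSeries R)) : cm 0 (lin B * M) = cm 0 M := by
  rw [cm_mul, Finset.Nat.antidiagonal_zero, Finset.sum_singleton, cm_lin]
  simp

theorem cm_mul_lin (B : Matrix ι ι R) (M : Matrix κ ι (PowerSeries R)) (k : ℕ) :
    cm (k + 1) (M * lin B) = cm (k + 1) M - cm k M * B := by
  rw [cm_mul, ← Finset.Nat.sum_antidiagonal_swap, Finset.Nat.sum_antidiagonal_eq_sum_range_succ_mk, Finset.sum_range_succ']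
  rw [Finset.sum_eq_single 0]
  · simp only [cm_lin, Prod.swap]
    simp [sub_eq_add_neg, add_comm]
  · intro i _ hi
    simp only [cm_lin, Prod.swap]
    rw [if_neg (by omega), if_neg (by omega), sub_zero, Matrix.mul_zero]
  · intro h; exact absurd (Finset.mem_range.mpr (by omega)) h

/-- the geometric series -/
noncomputable def geoM (B : Matrix ι ι R) : Matrix ι ι (PowerSeries R) := Matrix.of fun i j => PowerSeries.mk fun k => (B ^ k) i j

theorem cm_geoM (B : Matrix ι ι R) (k : ℕ) : cm k (geoM B) = B ^ k := by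
  ext i j
  rw [cm_apply, geoM, Matrix.of_apply, coeff_mk]

theorem lin_geoM (B : Matrix ι ι R) : lin B * geoM B = 1 := by
  apply cm_ext
  intro k
  rcases k with _ | k
  · rw [cm_lin_mul_zero, cm_geoM, cm_one]; simp
  · rw [cm_lin_mul, cm_geoM, cm_geoM, cm_one, if_neg (by omega), ← pow_succ', sub_self]

theorem geoM_lin (B : Matrix ι ι R) : geoM B * lin B = 1 := by
  apply cm_ext
  intro k
  rcases k with _ | k
  · rw [cm_mul, Finset.Nat.antidiagonal_zero, Finset.sum_singleton, cm_lin, cm_geoM, cm_one]; simp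
  · rw [cm_mul_lin, cm_geoM, cm_geoM, cm_one, if_neg (by omega), ← pow_succ, sub_self]

/-- finite support -/
def FM (M : Matrix κ ι (PowerSeries R)) : Prop := ∃ d, ∀ k, d ≤ k → cm k M = 0

theorem FM.mul {M : Matrix κ ι (PowerSeries R)} {N : Matrix ι μ (PowerSeries R)} (hM : FM M) (hN : FM N) : FM (M * N) := by
  obtain ⟨d, hd⟩ := hM
  obtain ⟨e, he⟩ := hN
  refine ⟨d + e, fun k hk => ?_⟩
  rw [cm_mul]
  apply Finset.sum_eq_zero
  intro y hy
  rw [Finset.HasAntidiagonal.mem_antidiagonal] at hy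
  rcases le_or_gt d y.1 with h | h
  · rw [hd _ h, Matrix.zero_mul]
  · rw [he _ (by omega), Matrix.mul_zero]

theorem FM.add {M N : Matrix κ ι (PowerSeries R)} (hM : FM M) (hN : FM N) : FM (M + N) := by
  obtain ⟨d, hd⟩ := hM
  obtain ⟨e, he⟩ := hN
  refine ⟨d + e, fun k hk => ?_⟩
  rw [cm_add, hd _ (by omega), he _ (by omega), add_zero]

theorem FM.sub {M N : Matrix κ ι (PowerSeries R)} (hM : FM M) (hN : FM N) : FM (M - N) := by
  obtain ⟨d, hd⟩ := hM
  obtain ⟨e, he⟩ := hN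
  refine ⟨d + e, fun k hk => ?_⟩
  rw [cm_sub, hd _ (by omega), he _ (by omega), sub_zero]

theorem FM_zero : FM (0 : Matrix κ ι (PowerSeries R)) := ⟨0, fun k _ => cm_zero k⟩

theorem FM_one : FM (1 : Matrix ι ι (PowerSeries R)) := ⟨1, fun k hk => by rw [cm_one, if_neg (by omega)]⟩

/-- equivalence of cokernels -/
def CE (M : Matrix ι ι (PowerSeries R)) (N : Matrix κ κ (PowerSeries R)) : Prop :=
  ∃ (Y Y' : Matrix κ ι (PowerSeries R)) (W W' : Matrix ι κ (PowerSeries R)) (Z1 : Matrix ι ι (PowerSeries R))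
    (Z2 : Matrix κ κ (PowerSeries R)), (FM Y ∧ FM Y' ∧ FM W ∧ FM W' ∧ FM Z1 ∧ FM Z2) ∧
    Y * M = N * Y' ∧ W * N = M * W' ∧ W * Y = 1 + M * Z1 ∧ Y * W = 1 + N * Z2

theorem CE.trans {M : Matrix ι ι (PowerSeries R)} {N : Matrix κ κ (PowerSeries R)} {P : Matrix μ μ (PowerSeries R)}
    (h1 : CE M N) (h2 : CE N P) : CE M P := by
  obtain ⟨Y, Y', W, W', Z1, Z2, ⟨f1, f2, f3, f4, f5, f6⟩, e1, e2, e3, e4⟩ := h1
  obtain ⟨y, y', w, w', z1, z2, ⟨g1, g2, g3, g4, g5, g6⟩, c1, c2, c3, c4⟩ := h2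
  refine ⟨y * Y, y' * Y', W * w, W' * w', Z1 + W' * (z1 * Y), z2 + y' * (Z2 * w), ⟨g1.mul f1, g2.mul f2, f3.mul g3, f4.mul g4,
    f5.add (f4.mul (g5.mul f1)), g6.add (g2.mul (f6.mul g3))⟩, ?_, ?_, ?_, ?_⟩
  · rw [Matrix.mul_assoc, e1, ← Matrix.mul_assoc, c1, Matrix.mul_assoc]
  · rw [Matrix.mul_assoc, c2, ← Matrix.mul_assoc, e2, Matrix.mul_assoc]
  · rw [Matrix.mul_assoc, ← Matrix.mul_assoc w y Y, c3, Matrix.add_mul, Matrix.one_mul, Matrix.mul_add, e3, Matrix.mul_assoc N,
      ← Matrix.mul_assoc W N, e2, Matrix.mul_assoc, Matrix.mul_add, add_assoc]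
  · rw [Matrix.mul_assoc, ← Matrix.mul_assoc Y W w, e4, Matrix.add_mul, Matrix.one_mul, Matrix.mul_add, c4, Matrix.mul_assoc N,
      ← Matrix.mul_assoc y N, c1, Matrix.mul_assoc, Matrix.mul_add, add_assoc]

/-- from equivalence of cokernels to shift equivalence -/
theorem CE.se {B : Matrix ι ι R} {K : Matrix κ κ R} (h : CE (lin B) (lin K)) :
    ∃ (l : ℕ) (P : Matrix ι κ R) (Q : Matrix κ ι R), B * P = P * K ∧ Q * B = K * Q ∧ P * Q = B ^ l ∧ Q * P = K ^ l := by
  obtain ⟨Y, Y', W, W', Z1, Z2, ⟨⟨d1, f1⟩, ⟨d2, f2⟩, ⟨d3, f3⟩, ⟨d4, f4⟩, ⟨d5, f5⟩, ⟨d6, f6⟩⟩, e1, e2, e3, e4⟩ := h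
  set D := d1 + d2 + d3 + d4 + d5 + d6 with hD
  have key : ∀ {α β : Type} [Fintype α] [DecidableEq α] [Fintype β] [DecidableEq β] (b : Matrix α α R) (c : Matrix β β R)
      (w w' : Matrix α β (PowerSeries R)) (y y' : Matrix β α (PowerSeries R)) (z : Matrix α α (PowerSeries R))
      (hy : ∀ k, D ≤ k → cm k y = 0) (hw : ∀ k, D ≤ k → cm k w = 0)
      (hw' : ∀ k, D ≤ k → cm k w' = 0) (hz : ∀ k, D ≤ k → cm k z = 0) (h1 : w * lin c = lin b * w') (h2 : w * y = 1 + lin b * z),
      b * cm D (geoM b * w) = cm D (geoM b * w) * c ∧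
      cm D (geoM b * w) * cm D (geoM c * y) = b ^ (D + D) := by
    intro α β _ _ _ _ b c w w' y y' z hy hw hw' hz h1 h2
    set p := geoM b * w with hp
    have p1 : lin b * p = w := by rw [hp, ← Matrix.mul_assoc, lin_geoM, Matrix.one_mul]
    have p2 : p * lin c = w' := by
      rw [hp, Matrix.mul_assoc, h1, ← Matrix.mul_assoc, geoM_lin, Matrix.one_mul]
    have r1 : ∀ k, D ≤ k → cm (k + 1) p = b * cm k p := by
      intro k hk
      have := congrArg (cm (k + 1)) p1
      rw [cm_lin_mul, hw _ (by omega)] at this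
      exact sub_eq_zero.mp this
    have r2 : ∀ k, D ≤ k → cm (k + 1) p = cm k p * c := by
      intro k hk
      have := congrArg (cm (k + 1)) p2
      rw [cm_mul_lin, hw' _ (by omega)] at this
      exact sub_eq_zero.mp this
    have r3 : ∀ t, cm (D + t) p = cm D p * c ^ t := by
      intro t
      induction t with
      | zero => rw [add_zero, pow_zero, Matrix.mul_one]
      | succ t ih => rw [← add_assoc, r2 _ (by omega), ih, pow_succ, Matrix.mul_assoc]
    refine ⟨by rw [← r1 D le_rfl, r2 D le_rfl], ?_⟩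
    have s1 : p * y = geoM b + z := by
      rw [hp, Matrix.mul_assoc, h2, Matrix.mul_add, Matrix.mul_one, ← Matrix.mul_assoc, geoM_lin, Matrix.one_mul]
    have s2 : cm (D + D) (p * y) = b ^ (D + D) := by
      rw [s1, cm_add, cm_geoM, hz _ (by omega), add_zero]
    clear_value p
    rw [← s2, cm_mul (D + D) p y, cm_mul D (geoM c) y, ← Finset.Nat.sum_antidiagonal_swap (n := D + D), ← Finset.Nat.sum_antidiagonal_swap (n := D),
      Finset.Nat.sum_antidiagonal_eq_sum_range_succ_mk, Finset.Nat.sum_antidiagonal_eq_sum_range_succ_mk, Matrix.mul_sum]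
    simp only [Prod.swap]
    have s3 : ∑ i ∈ range (D + D + 1), cm (D + D - i) p * cm i y = ∑ i ∈ range (D + 1), cm (D + D - i) p * cm i y := by
      symm
      apply Finset.sum_subset (Finset.range_mono (by omega))
      intro i _ hi
      rw [Finset.mem_range, not_lt] at hi
      rw [hy i (by omega), Matrix.mul_zero]
    rw [s3]
    apply Finset.sum_congr rfl
    intro i hi
    rw [Finset.mem_range] at hi
    have e5 : D + D - i = D + (D - i) := by omega
    rw [e5, r3, cm_geoM, Matrix.mul_assoc]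
  obtain ⟨k1, k2⟩ := key B K W W' Y Y' Z1 (fun k hk => f1 k (by omega)) (fun k hk => f3 k (by omega)) (fun k hk => f4 k (by omega))
    (fun k hk => f5 k (by omega)) e2 e3
  obtain ⟨k3, k4⟩ := key K B Y Y' W W' Z2 (fun k hk => f3 k (by omega)) (fun k hk => f1 k (by omega)) (fun k hk => f2 k (by omega))
    (fun k hk => f6 k (by omega)) e1 e4
  exact ⟨D + D, cm D (geoM B * W), cm D (geoM K * Y), k1, k3.symm, k2, k4⟩

end cm

end Pool.Agent.W717.G
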