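import Mathlib
import Pool.Agent.W717.G.CEq

set_option autoImplicit false
set_option linter.all false

namespace Pool.Agent.W717.G

open Finset PowerSeries

section FMs

variable {R : Type} [Ring R] {ι κ μ ν : Type} [Fintype ι] [Fintype κ] [Fintype μ] [Fintype ν]

theorem FM_of_entries {M : Matrix κ ι (PowerSeries R)} (h : ∀ i j, ∃ d, ∀ k, d ≤ k → coeff k (M i j) = 0) : FM M := by
  choose d hd using h
  refine ⟨∑ i, ∑ j, d i j, fun k hk => ?_⟩
  ext1 i j
  apply hd i j k
  refine le_trans ?_ hk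
  exact le_trans (Finset.single_le_sum (f := fun j => d i j) (fun _ _ => Nat.zero_le _) (Finset.mem_univ j))
    (Finset.single_le_sum (f := fun i => ∑ j, d i j) (fun _ _ => Nat.zero_le _) (Finset.mem_univ i))

theorem FM.entry {M : Matrix κ ι (PowerSeries R)} (h : FM M) (i : κ) (j : ι) : ∃ d, ∀ k, d ≤ k → coeff k (M i j) = 0 := by
  obtain ⟨d, hd⟩ := h
  exact ⟨d, fun k hk => congrFun (congrFun (hd k hk) i) j⟩

theorem FM_fromRows {M : Matrix κ ι (PowerSeries R)} {N : Matrix μ ι (PowerSeries R)} (hM : FM M) (hN : FM N) :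
    FM (Matrix.fromRows M N) := by
  apply FM_of_entries
  rintro (i | i) j
  · exact hM.entry i j
  · exact hN.entry i j

theorem FM_fromCols {M : Matrix κ ι (PowerSeries R)} {N : Matrix κ μ (PowerSeries R)} (hM : FM M) (hN : FM N) :
    FM (Matrix.fromCols M N) := by
  apply FM_of_entries
  rintro i (j | j)
  · exact hM.entry i j
  · exact hN.entry i j

theorem FM_fromBlocks {A : Matrix κ ι (PowerSeries R)} {B : Matrix κ μ (PowerSeries R)} {C : Matrix ν ι (PowerSeries R)}
    {D : Matrix ν μ (PowerSeries R)} (hA : FM A) (hB : FM B) (hC : FM C) (hD : FM D) :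
    FM (Matrix.fromBlocks A B C D) := by
  apply FM_of_entries
  rintro (i | i) (j | j)
  · exact hA.entry i j
  · exact hB.entry i j
  · exact hC.entry i j
  · exact hD.entry i j

theorem FM.neg {M : Matrix κ ι (PowerSeries R)} (hM : FM M) : FM (-M) := by
  apply FM_of_entries
  intro i j
  obtain ⟨d, hd⟩ := hM.entry i j
  exact ⟨d, fun k hk => by rw [Matrix.neg_apply, map_neg, hd k hk, neg_zero]⟩

end FMs

section blk

variable {R : Type} [Ring R] {ι : Type} [Fintype ι] [DecidableEq ι]

theorem one_sub_fromBlocks {S : Type} [Ring S] (A B C D : Matrix ι ι S) :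
    1 - Matrix.fromBlocks A B C D = Matrix.fromBlocks (1 - A) (-B) (-C) (1 - D) := by
  rw [← Matrix.fromBlocks_one, sub_eq_add_neg, Matrix.fromBlocks_neg, Matrix.fromBlocks_add, zero_add, zero_add,
    ← sub_eq_add_neg, ← sub_eq_add_neg]

theorem CE_blk (N g Q : Matrix ι ι (PowerSeries R)) (hN : FM N) (hg : FM g) (hQ : FM Q) :
    CE ((1 - N) * (1 - Q) - g) (1 - Matrix.fromBlocks N g N (g + Q)) := by
  refine ⟨Matrix.fromRows 1 1, Matrix.fromRows (1 - Q) 1, Matrix.fromCols N (1 - N), Matrix.fromCols 0 1, 0,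
    Matrix.fromBlocks (-1) 1 0 0,
    ⟨FM_fromRows FM_one FM_one, FM_fromRows (FM_one.sub hQ) FM_one, FM_fromCols hN (FM_one.sub hN), FM_fromCols FM_zero FM_one,
      FM_zero, FM_fromBlocks FM_one.neg FM_one FM_zero FM_zero⟩, ?_, ?_, ?_, ?_⟩
  · rw [one_sub_fromBlocks, Matrix.fromRows_mul, Matrix.fromBlocks_mul_fromRows]
    congr 1
    · noncomm_ring
    · noncomm_ring
  · rw [one_sub_fromBlocks, Matrix.fromCols_mul_fromBlocks, Matrix.mul_fromCols]
    congr 1
    · noncomm_ring
    · noncomm_ring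
  · rw [Matrix.fromCols_mul_fromRows]
    noncomm_ring
  · rw [one_sub_fromBlocks, Matrix.fromRows_mul_fromCols, Matrix.fromBlocks_multiply, ← Matrix.fromBlocks_one, Matrix.fromBlocks_add]
    congr 1
    · noncomm_ring
    · noncomm_ring
    · noncomm_ring
    · noncomm_ring

end blk

section comp

variable {R : Type} [Ring R] {P : Type} [Fintype P] [DecidableEq P]

/-- companion matrix of a polynomial matrix -/
noncomputable def compn (d : ℕ) (T : Matrix P P (PowerSeries R)) : Matrix (Fin d × P) (Fin d × P) R :=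
  Matrix.of fun x y => (if y.1.val = 0 then coeff (x.1.val + 1) (T x.2 y.2) else 0) + if y.1.val = x.1.val + 1 ∧ x.2 = y.2 then 1 else 0

theorem compn_apply (d : ℕ) (T : Matrix P P (PowerSeries R)) (x y : Fin d × P) :
    compn d T x y = (if y.1.val = 0 then coeff (x.1.val + 1) (T x.2 y.2) else 0) +
      if y.1.val = x.1.val + 1 ∧ x.2 = y.2 then 1 else 0 := rfl

/-- abstract form of the equivalence -/
theorem CE_abs {Ω : Type} [Fintype Ω] [DecidableEq Ω] (T : Matrix P P (PowerSeries R)) (L : Matrix Ω Ω (PowerSeries R))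
    (E : Matrix Ω P (PowerSeries R)) (E' : Matrix P Ω (PowerSeries R)) (n V : Matrix Ω Ω (PowerSeries R))
    (TT : Matrix Ω P (PowerSeries R)) (fT : FM T) (fE : FM E) (fE' : FM E') (fV : FM V) (fTT : FM TT)
    (h1 : (1 - n) * V = 1) (h2 : V * (1 - n) = 1) (h3 : n * E = 0) (h4 : E' * E = 1) (h5 : L = 1 - n - TT * E')
    (h6 : T = E' * (V * TT)) : CE (1 - T) L := by
  have h7 : V * E = E := by
    have : (1 - n) * E = E := by rw [Matrix.sub_mul, Matrix.one_mul, h3, sub_zero]
    conv_lhs => rw [← this]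
    rw [← Matrix.mul_assoc, h2, Matrix.one_mul]
  have h8 : L * V = 1 - TT * (E' * V) := by
    rw [h5, Matrix.sub_mul, h1, Matrix.mul_assoc]
  refine ⟨E, E + V * (TT - E * T), E' * V, E', 0, V * (E * (E' * V) - 1), ⟨fE, fE.add (fV.mul (fTT.sub (fE.mul fT))),
    fE'.mul fV, fE', FM_zero, fV.mul ((fE.mul (fE'.mul fV)).sub FM_one)⟩, ?_, ?_, ?_, ?_⟩
  · rw [Matrix.mul_add, ← Matrix.mul_assoc L V, h8, Matrix.sub_mul, Matrix.one_mul, Matrix.mul_sub (TT * (E' * V))]
    have e1 : TT * (E' * V) * TT = TT * T := by rw [h6, Matrix.mul_assoc, Matrix.mul_assoc]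
    have e2 : TT * (E' * V) * (E * T) = TT * T := by
      rw [Matrix.mul_assoc, Matrix.mul_assoc E' V, ← Matrix.mul_assoc V E, h7, ← Matrix.mul_assoc E' E, h4, Matrix.one_mul]
    have e3 : L * E = E - TT := by
      rw [h5, Matrix.sub_mul, Matrix.sub_mul, Matrix.one_mul, h3, sub_zero, Matrix.mul_assoc, h4, Matrix.mul_one]
    rw [e1, e2, e3, Matrix.mul_sub, Matrix.mul_one]
    abel
  · rw [h5, Matrix.mul_sub, Matrix.mul_assoc E' V, h2, Matrix.mul_one, Matrix.sub_mul, Matrix.one_mul]
    congr 1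
    conv_rhs => rw [h6]
    simp only [Matrix.mul_assoc]
  · rw [Matrix.mul_assoc, h7, h4, Matrix.mul_zero, add_zero]
  · rw [← Matrix.mul_assoc L V, h8, Matrix.sub_mul, Matrix.one_mul]
    have e1 : TT * (E' * V) * (E * (E' * V) - 1) = 0 := by
      rw [Matrix.mul_sub, Matrix.mul_one, sub_eq_zero, Matrix.mul_assoc, Matrix.mul_assoc E' V (E * _), ← Matrix.mul_assoc V E,
        h7, ← Matrix.mul_assoc E' E, h4, Matrix.one_mul]
    rw [e1, sub_zero]; abel


/-- the constant inclusion -/
noncomputable def cE (d : ℕ) (P : Type) [DecidableEq P] (R : Type) [Ring R] : Matrix (Fin d × P) P (PowerSeries R) :=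
  Matrix.of fun x p => if x.1.val = 0 ∧ x.2 = p then 1 else 0

noncomputable def cE' (d : ℕ) (P : Type) [DecidableEq P] (R : Type) [Ring R] : Matrix P (Fin d × P) (PowerSeries R) :=
  Matrix.of fun p x => if x.1.val = 0 ∧ x.2 = p then 1 else 0

noncomputable def cn (d : ℕ) (P : Type) [DecidableEq P] (R : Type) [Ring R] : Matrix (Fin d × P) (Fin d × P) (PowerSeries R) :=
  Matrix.of fun x y => if y.1.val = x.1.val + 1 ∧ x.2 = y.2 then X else 0

noncomputable def cV (d : ℕ) (P : Type) [DecidableEq P] (R : Type) [Ring R] : Matrix (Fin d × P) (Fin d × P) (PowerSeries R) :=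
  Matrix.of fun x y => if x.1.val ≤ y.1.val ∧ x.2 = y.2 then X ^ (y.1.val - x.1.val) else 0

noncomputable def cT (d : ℕ) (T : Matrix P P (PowerSeries R)) : Matrix (Fin d × P) P (PowerSeries R) :=
  Matrix.of fun x q => C (coeff (x.1.val + 1) (T x.2 q)) * X

theorem cn_mul {μ : Type} [Fintype μ] (d : ℕ) (M : Matrix (Fin d × P) μ (PowerSeries R)) (x : Fin d × P) (y : μ) :
    (cn d P R * M) x y = if h : x.1.val + 1 < d then X * M (⟨x.1.val + 1, h⟩, x.2) y else 0 := by
  rw [Matrix.mul_apply]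
  by_cases h : x.1.val + 1 < d
  · rw [dif_pos h, Finset.sum_eq_single (⟨x.1.val + 1, h⟩, x.2)]
    · rw [cn, Matrix.of_apply, if_pos ⟨rfl, rfl⟩]
    · rintro ⟨a, b⟩ _ hab
      rw [cn, Matrix.of_apply, if_neg, zero_mul]
      rintro ⟨h1, h2⟩
      apply hab
      ext
      · exact h1
      · exact h2.symm
    · intro h'; exact absurd (Finset.mem_univ _) h'
  · rw [dif_neg h]
    apply Finset.sum_eq_zero
    rintro ⟨a, b⟩ _
    rw [cn, Matrix.of_apply, if_neg, zero_mul]
    rintro ⟨h1, h2⟩
    have := a.2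
    simp only at h1
    omega

theorem cV_mul {μ : Type} [Fintype μ] (d : ℕ) (M : Matrix (Fin d × P) μ (PowerSeries R)) (x : Fin d × P) (y : μ) :
    (cV d P R * M) x y = ∑ a : Fin d, if x.1.val ≤ a.val then X ^ (a.val - x.1.val) * M (a, x.2) y else 0 := by
  rw [Matrix.mul_apply, Fintype.sum_prod_type]
  apply Finset.sum_congr rfl
  intro a _
  rw [Finset.sum_eq_single x.2]
  · rw [cV, Matrix.of_apply]
    by_cases h : x.1.val ≤ a.val
    · rw [if_pos ⟨h, rfl⟩, if_pos h]
    · rw [if_neg (fun h' => h h'.1), if_neg h, zero_mul]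
  · intro b _ hb
    rw [cV, Matrix.of_apply, if_neg (fun h' => hb h'.2.symm), zero_mul]
  · intro h'; exact absurd (Finset.mem_univ _) h'

theorem pr_eq {d : ℕ} {x y : Fin d × P} : x = y ↔ x.1.val = y.1.val ∧ x.2 = y.2 := by
  constructor
  · intro h; rw [h]; exact ⟨rfl, rfl⟩
  · intro h
    ext
    · exact h.1
    · exact h.2

theorem c_h1 (d : ℕ) : (1 - cn d P R) * cV d P R = 1 := by
  ext1 x y
  rw [Matrix.sub_mul, Matrix.one_mul, Matrix.sub_apply, cn_mul, Matrix.one_apply]
  simp only [cV, Matrix.of_apply]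
  by_cases h2 : x.2 = y.2
  · have hy := y.1.2
    rcases lt_trichotomy x.1.val y.1.val with h | h | h
    · have h3 : x.1.val + 1 < d := by omega
      have h4 : ¬ (x = y) := fun h' => by rw [h'] at h; omega
      have h5 : x.1.val + 1 ≤ y.1.val := h
      have h6 : y.1.val - x.1.val = (y.1.val - (x.1.val + 1)) + 1 := by omega
      rw [if_pos ⟨h.le, h2⟩, dif_pos h3, if_pos ⟨h5, h2⟩, if_neg h4, ← pow_succ', ← h6, sub_self]
    · have h3 : x = y := pr_eq.mpr ⟨h, h2⟩
      have h4 : y.1.val - x.1.val = 0 := by omega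
      have h5 : ¬ (x.1.val + 1 ≤ y.1.val) := by omega
      rw [if_pos ⟨h.le, h2⟩, if_pos h3, h4, pow_zero]
      by_cases h6 : x.1.val + 1 < d
      · rw [dif_pos h6, if_neg (fun h' => h5 h'.1), mul_zero, sub_zero]
      · rw [dif_neg h6, sub_zero]
    · have h4 : ¬ (x = y) := fun h' => by rw [h'] at h; omega
      have h5 : ¬ (x.1.val ≤ y.1.val) := by omega
      have h7 : ¬ (x.1.val + 1 ≤ y.1.val) := by omega
      rw [if_neg (fun h' => h5 h'.1), if_neg h4]
      by_cases h6 : x.1.val + 1 < d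
      · rw [dif_pos h6, if_neg (fun h' => h7 h'.1), mul_zero, sub_zero]
      · rw [dif_neg h6, sub_zero]
  · have h4 : ¬ (x = y) := fun h' => h2 (by rw [h'])
    rw [if_neg (fun h' => h2 h'.2), if_neg h4]
    by_cases h6 : x.1.val + 1 < d
    · rw [dif_pos h6, if_neg (fun h' => h2 h'.2), mul_zero, sub_zero]
    · rw [dif_neg h6, sub_zero]

theorem c_h2 (d : ℕ) : cV d P R * (1 - cn d P R) = 1 := by
  ext1 x y
  rw [cV_mul, Matrix.one_apply]
  have hy := y.1.2
  have e1 : ∀ a : Fin d, (1 - cn d P R) (a, x.2) y = (if a.val = y.1.val ∧ x.2 = y.2 then 1 else 0) -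
      if a.val + 1 = y.1.val ∧ x.2 = y.2 then X else 0 := by
    intro a
    rw [Matrix.sub_apply, Matrix.one_apply, cn, Matrix.of_apply]
    congr 1
    · congr 1
      rw [pr_eq]
    · congr 1
      exact propext ⟨fun h => ⟨h.1.symm, h.2⟩, fun h => ⟨h.1.symm, h.2⟩⟩
  simp only [e1]
  by_cases h2 : x.2 = y.2
  · simp only [h2, and_true]
    have e2 : ∀ a : Fin d, (if x.1.val ≤ a.val then X ^ (a.val - x.1.val) * ((if a.val = y.1.val then (1 : PowerSeries R) else 0) -
        if a.val + 1 = y.1.val then X else 0) else 0) = (if a = y.1 then (if x.1.val ≤ y.1.val then (X : PowerSeries R) ^ (y.1.val - x.1.val) else 0) else 0) -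
        (if a.val + 1 = y.1.val then (if x.1.val < y.1.val then X ^ (y.1.val - x.1.val) else 0) else 0) := by
      intro a
      by_cases h3 : a.val = y.1.val
      · have h4 : a = y.1 := Fin.ext h3
        have h9 : ¬ (a.val + 1 = y.1.val) := by omega
        rw [if_pos h3, if_neg h9, sub_zero, mul_one, if_pos h4, if_neg h9, sub_zero, h3]
      · have h4 : ¬ (a = y.1) := fun h => h3 (by rw [h])
        rw [if_neg h4, if_neg h3]
        by_cases h5 : a.val + 1 = y.1.val
        · rw [if_pos h5, if_pos h5]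
          by_cases h6 : x.1.val ≤ a.val
          · have h7 : y.1.val - x.1.val = (a.val - x.1.val) + 1 := by omega
            rw [if_pos h6, if_pos (by omega), h7, pow_succ]; noncomm_ring
          · rw [if_neg h6, if_neg (by omega), sub_zero]
        · rw [if_neg h5, if_neg h5, sub_zero, mul_zero, ite_self]
    rw [Finset.sum_congr rfl (fun a _ => e2 a), Finset.sum_sub_distrib, Finset.sum_ite_eq', if_pos (Finset.mem_univ _)]
    by_cases h3 : x = y
    · rw [if_pos h3, if_pos (by rw [h3])]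
      have h4 : y.1.val - x.1.val = 0 := by rw [h3]; omega
      have h5 : ¬ (x.1.val < y.1.val) := by rw [h3]; omega
      simp only [if_neg h5, ite_self, Finset.sum_const_zero, sub_zero, h4, pow_zero]
    · have h3' : x.1.val ≠ y.1.val := fun h => h3 (pr_eq.mpr ⟨h, h2⟩)
      rw [if_neg h3]
      by_cases h4 : x.1.val < y.1.val
      · rw [if_pos h4.le]
        simp only [if_pos h4]
        rw [Finset.sum_eq_single (⟨y.1.val - 1, by omega⟩ : Fin d)]
        · rw [if_pos (by simp only; omega), sub_self]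
        · intro a _ ha
          rw [if_neg]
          intro h
          apply ha
          apply Fin.ext
          simp only; omega
        · intro h; exact absurd (Finset.mem_univ _) h
      · rw [if_neg (by omega)]
        simp only [if_neg h4, ite_self, Finset.sum_const_zero, sub_zero]
  · have h3 : x ≠ y := fun h => h2 (by rw [h])
    simp only [h2, and_false, if_false, if_neg h3, sub_self, mul_zero, ite_self, Finset.sum_const_zero]

theorem c_h3 (d : ℕ) : cn d P R * cE d P R = 0 := by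
  ext1 x y
  rw [cn_mul, Matrix.zero_apply]
  split_ifs
  · rw [cE, Matrix.of_apply, if_neg (fun h => by simp at h), mul_zero]
  · rfl

theorem c_h4 (d : ℕ) (hd : 0 < d) : cE' d P R * cE d P R = 1 := by
  ext1 p q
  rw [Matrix.mul_apply, Fintype.sum_prod_type, Finset.sum_eq_single (⟨0, hd⟩ : Fin d), Finset.sum_eq_single p]
  · rw [cE, cE', Matrix.of_apply, Matrix.of_apply, if_pos ⟨rfl, rfl⟩, one_mul, Matrix.one_apply]
    simp
  · intro b _ hb
    rw [cE', Matrix.of_apply, if_neg (fun h => hb h.2), zero_mul]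
  · intro h; exact absurd (Finset.mem_univ _) h
  · intro a _ ha
    apply Finset.sum_eq_zero
    intro b _
    rw [cE', Matrix.of_apply, if_neg, zero_mul]
    rintro ⟨h, _⟩
    exact ha (Fin.ext h)
  · intro h; exact absurd (Finset.mem_univ _) h

theorem c_h5 (d : ℕ) (T : Matrix P P (PowerSeries R)) : lin (compn d T) = 1 - cn d P R - cT d T * cE' d P R := by
  unfold lin
  rw [sub_sub]
  congr 1
  ext1 x y
  rw [Matrix.of_apply, Matrix.add_apply, Matrix.mul_apply, compn_apply, map_add, add_mul, add_comm]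
  congr 1
  · rw [cn, Matrix.of_apply]
    split_ifs
    · rw [map_one, one_mul]
    · rw [map_zero, zero_mul]
  · rw [Finset.sum_eq_single y.2]
    · rw [cT, cE', Matrix.of_apply, Matrix.of_apply]
      by_cases h : y.1.val = 0
      · rw [if_pos h, if_pos ⟨h, rfl⟩, mul_one]
      · rw [if_neg h, if_neg (fun h' => h h'.1), mul_zero, map_zero, zero_mul]
    · intro b _ hb
      rw [cE', Matrix.of_apply, if_neg (fun h => hb h.2.symm), mul_zero]
    · intro h; exact absurd (Finset.mem_univ _) h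

theorem c_h6 (d : ℕ) (hd : 0 < d) (T : Matrix P P (PowerSeries R)) (h0 : ∀ i j, coeff 0 (T i j) = 0)
    (hT : ∀ i j k, d < k → coeff k (T i j) = 0) : T = cE' d P R * (cV d P R * cT d T) := by
  ext1 p q
  rw [Matrix.mul_apply, Fintype.sum_prod_type, Finset.sum_eq_single (⟨0, hd⟩ : Fin d), Finset.sum_eq_single p]
  · rw [cE', Matrix.of_apply, if_pos ⟨rfl, rfl⟩, one_mul, cV_mul]
    ext k
    rw [map_sum]
    have e1 : ∀ a : Fin d, coeff k (if (0 : ℕ) ≤ a.val then (X : PowerSeries R) ^ (a.val - 0) * cT d T (a, p) q else 0) =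
        if k = a.val + 1 then coeff k (T p q) else 0 := by
      intro a
      rw [if_pos (Nat.zero_le _), Nat.sub_zero, cT, Matrix.of_apply, coeff_X_pow_mul']
      by_cases h : k = a.val + 1
      · rw [if_pos h, if_pos (by omega)]
        have : k - a.val = 0 + 1 := by omega
        rw [this, coeff_succ_mul_X, coeff_C, if_pos rfl, ← h]
      · rw [if_neg h]
        split_ifs with h1
        · by_cases h2 : k - a.val = 0
          · rw [h2, coeff_zero_mul_X]
          · obtain ⟨t, ht⟩ : ∃ t, k - a.val = (t + 1) + 1 := ⟨k - a.val - 2, by omega⟩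
            rw [ht, coeff_succ_mul_X, coeff_C, if_neg (by omega)]
        · rfl
    refine Eq.trans ?_ (Finset.sum_congr rfl (fun a _ => (e1 a).symm))
    rcases Nat.eq_zero_or_pos k with hk | hk
    · subst hk
      rw [h0, Finset.sum_eq_zero]
      intro a _
      rw [if_neg (by omega)]
    · rcases le_or_gt k d with hk' | hk'
      · rw [Finset.sum_eq_single (⟨k - 1, by omega⟩ : Fin d)]
        · rw [if_pos (by simp only; omega)]
        · intro a _ ha
          rw [if_neg]
          intro h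
          apply ha
          apply Fin.ext
          simp only; omega
        · intro h; exact absurd (Finset.mem_univ _) h
      · rw [hT _ _ _ hk', ]
        symm
        apply Finset.sum_eq_zero
        intro a _
        rw [ite_self]
  · intro b _ hb
    rw [cE', Matrix.of_apply, if_neg (fun h => hb h.2), zero_mul]
  · intro h; exact absurd (Finset.mem_univ _) h
  · intro a _ ha
    apply Finset.sum_eq_zero
    intro b _
    rw [cE', Matrix.of_apply, if_neg, zero_mul]
    rintro ⟨h, _⟩
    exact ha (Fin.ext h)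
  · intro h; exact absurd (Finset.mem_univ _) h

theorem fin_ite {c : Prop} [Decidable c] {f g : PowerSeries R} (hf : ∃ d, ∀ k, d ≤ k → coeff k f = 0)
    (hg : ∃ d, ∀ k, d ≤ k → coeff k g = 0) : ∃ d, ∀ k, d ≤ k → coeff k (if c then f else g) = 0 := by
  split_ifs
  · exact hf
  · exact hg

theorem fin_Xpow (n : ℕ) : ∃ d, ∀ k, d ≤ k → coeff k ((X : PowerSeries R) ^ n) = 0 :=
  ⟨n + 1, fun k hk => by rw [coeff_X_pow, if_neg (by omega)]⟩

theorem fin_zero : ∃ d, ∀ k, d ≤ k → coeff k (0 : PowerSeries R) = 0 := ⟨0, fun k hk => by rw [map_zero]⟩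

theorem fin_one : ∃ d, ∀ k, d ≤ k → coeff k (1 : PowerSeries R) = 0 := ⟨1, fun k hk => by rw [coeff_one, if_neg (by omega)]⟩

/-- the companion realisation -/
theorem CE_comp (d : ℕ) (hd : 0 < d) (T : Matrix P P (PowerSeries R)) (h0 : ∀ i j, coeff 0 (T i j) = 0)
    (hT : ∀ i j k, d < k → coeff k (T i j) = 0) : CE (1 - T) (lin (compn d T)) := by
  refine CE_abs T _ (cE d P R) (cE' d P R) (cn d P R) (cV d P R) (cT d T) ?_ ?_ ?_ ?_ ?_ (c_h1 d) (c_h2 d) (c_h3 d) (c_h4 d hd)
    (c_h5 d T) (c_h6 d hd T h0 hT)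
  · exact FM_of_entries fun i j => ⟨d + 1, fun k hk => hT i j k hk⟩
  · exact FM_of_entries fun i j => fin_ite fin_one fin_zero
  · exact FM_of_entries fun i j => fin_ite fin_one fin_zero
  · exact FM_of_entries fun i j => fin_ite (fin_Xpow _) fin_zero
  · refine FM_of_entries fun i j => ⟨2, fun k hk => ?_⟩
    obtain ⟨t, rfl⟩ : ∃ t, k = (t + 1) + 1 := ⟨k - 2, by omega⟩
    rw [cT, Matrix.of_apply, coeff_succ_mul_X, coeff_C, if_neg (by omega)]

end comp

end Pool.Agent.W717.G
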