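import Mathlib
import Pool.Agent.W717.G.Real
import Pool.Agent.W717.G.Cf

set_option autoImplicit false
set_option linter.all false

namespace Pool.Agent.W717.G

open Finset PowerSeries

section prim

variable {G : Type} [Group G] [Fintype G] [DecidableEq G]

theorem cmul_nonneg {a b : MonoidAlgebra ℤ G} (ha : ∀ g, 0 ≤ a.coeff g) (hb : ∀ g, 0 ≤ b.coeff g) : ∀ g, 0 ≤ (a * b).coeff g := by
  intro g
  rw [coeff_mul_fin]
  exact Finset.sum_nonneg fun x _ => mul_nonneg (ha _) (hb _)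

theorem cmul_ge {a b : MonoidAlgebra ℤ G} (ha : ∀ g, 0 ≤ a.coeff g) (hb : ∀ g, 0 ≤ b.coeff g) (x y : G) :
    a.coeff x * b.coeff y ≤ (a * b).coeff (x * y) := by
  rw [coeff_mul_fin]
  have h := Finset.single_le_sum (f := fun t => a.coeff t * b.coeff (t⁻¹ * (x * y))) (fun t _ => mul_nonneg (ha _) (hb _)) (Finset.mem_univ x)
  simp only [inv_mul_cancel_left] at h
  exact h

variable {Ω : Type} [Fintype Ω] [DecidableEq Ω]

/-- all entries nonnegative -/
def Nm (M : Matrix Ω Ω (MonoidAlgebra ℤ G)) : Prop := ∀ x y g, 0 ≤ (M x y).coeff g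

theorem Nm.mul {M N : Matrix Ω Ω (MonoidAlgebra ℤ G)} (hM : Nm M) (hN : Nm N) : Nm (M * N) := by
  intro x y g
  rw [Matrix.mul_apply, MonoidAlgebra.coeff_sum, Finsupp.finsetSum_apply]
  exact Finset.sum_nonneg fun z _ => cmul_nonneg (hM _ _) (hN _ _) _

theorem Nm.one : Nm (1 : Matrix Ω Ω (MonoidAlgebra ℤ G)) := by
  intro x y g
  rw [Matrix.one_apply]
  split_ifs
  · rw [MonoidAlgebra.one_def, MonoidAlgebra.coeff_single, Finsupp.single_apply]
    split_ifs <;> norm_num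
  · simp

theorem Nm.pow {M : Matrix Ω Ω (MonoidAlgebra ℤ G)} (hM : Nm M) (k : ℕ) : Nm (M ^ k) := by
  induction k with
  | zero => rw [pow_zero]; exact Nm.one
  | succ k ih => rw [pow_succ]; exact ih.mul hM

theorem mm_ge {M N : Matrix Ω Ω (MonoidAlgebra ℤ G)} (hM : Nm M) (hN : Nm N) (x y z : Ω) (g h : G) :
    (M x y).coeff g * (N y z).coeff h ≤ ((M * N) x z).coeff (g * h) := by
  rw [Matrix.mul_apply, MonoidAlgebra.coeff_sum, Finsupp.finsetSum_apply]
  refine (cmul_ge (hM x y) (hN y z) g h).trans ?_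
  exact Finset.single_le_sum (f := fun y => (M x y * N y z).coeff (g * h)) (fun t _ => cmul_nonneg (hM _ _) (hN _ _) _) (Finset.mem_univ y)

/-- full connection in `k` steps -/
def Rf (M : Matrix Ω Ω (MonoidAlgebra ℤ G)) (k : ℕ) (x y : Ω) : Prop := ∀ g, 1 ≤ ((M ^ k) x y).coeff g
/-- some connection in `k` steps -/
def Rs (M : Matrix Ω Ω (MonoidAlgebra ℤ G)) (k : ℕ) (x y : Ω) : Prop := ∃ g, 1 ≤ ((M ^ k) x y).coeff g

theorem Rf.s {M : Matrix Ω Ω (MonoidAlgebra ℤ G)} {k : ℕ} {x y : Ω} (h : Rf M k x y) : Rs M k x y := ⟨1, h 1⟩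

theorem Rf.trans {M : Matrix Ω Ω (MonoidAlgebra ℤ G)} (hM : Nm M) {k l : ℕ} {x y z : Ω} (h : Rf M k x y) (h' : Rs M l y z) :
    Rf M (k + l) x z := by
  intro g
  obtain ⟨t, ht⟩ := h'
  have h1 := mm_ge (hM.pow k) (hM.pow l) x y z (g * t⁻¹) t
  rw [← pow_add, inv_mul_cancel_right] at h1
  have h2 := h (g * t⁻¹)
  nlinarith

theorem Rs.transf {M : Matrix Ω Ω (MonoidAlgebra ℤ G)} (hM : Nm M) {k l : ℕ} {x y z : Ω} (h : Rs M k x y) (h' : Rf M l y z) :
    Rf M (k + l) x z := by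
  intro g
  obtain ⟨t, ht⟩ := h
  have h1 := mm_ge (hM.pow k) (hM.pow l) x y z t (t⁻¹ * g)
  rw [← pow_add, mul_inv_cancel_left] at h1
  have h2 := h' (t⁻¹ * g)
  nlinarith

theorem Rs.trans {M : Matrix Ω Ω (MonoidAlgebra ℤ G)} (hM : Nm M) {k l : ℕ} {x y z : Ω} (h : Rs M k x y) (h' : Rs M l y z) :
    Rs M (k + l) x z := by
  obtain ⟨s, hs⟩ := h
  obtain ⟨t, ht⟩ := h'
  have h1 := mm_ge (hM.pow k) (hM.pow l) x y z s t
  rw [← pow_add] at h1
  exact ⟨s * t, by nlinarith⟩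

variable {ι : Type} [Fintype ι] [DecidableEq ι]

theorem compn_Nm (d : ℕ) (T : Matrix ι ι (PowerSeries (MonoidAlgebra ℤ G))) (hT : ∀ x y, Nn (T x y)) : Nm (compn d T) := by
  intro x y g
  rw [compn_apply, MonoidAlgebra.coeff_add, Finsupp.add_apply]
  apply add_nonneg
  · split_ifs
    · exact hT _ _ _ _
    · simp
  · split_ifs
    · rw [MonoidAlgebra.one_def, MonoidAlgebra.coeff_single, Finsupp.single_apply]
      split_ifs <;> norm_num
    · simp

theorem one_coeff_one : (1 : MonoidAlgebra ℤ G).coeff 1 = 1 := by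
  rw [MonoidAlgebra.one_def, MonoidAlgebra.coeff_single, Finsupp.single_eq_same]

theorem compn_up (d : ℕ) (T : Matrix ι ι (PowerSeries (MonoidAlgebra ℤ G))) (hT : ∀ x y, Nn (T x y)) (t : ℕ) :
    ∀ (x y : Fin d × ι), x.2 = y.2 → y.1.val = x.1.val + t → Rs (compn d T) t x y := by
  induction t with
  | zero =>
    intro x y h2 h1
    have : x = y := pr_eq.mpr ⟨by omega, h2⟩
    subst this
    refine ⟨1, ?_⟩
    rw [pow_zero, Matrix.one_apply_eq, one_coeff_one]
  | succ t ih =>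
    intro x y h2 h1
    have hy := y.1.2
    have hlt : x.1.val + t < d := by omega
    apply (ih x (⟨x.1.val + t, hlt⟩, x.2) rfl rfl).trans (compn_Nm d T hT)
    refine ⟨1, ?_⟩
    rw [pow_one, compn_apply, if_neg (show ¬ (y.1.val = 0) by omega), if_pos ⟨by simp only; omega, h2⟩, zero_add, one_coeff_one]

/-- from level `a` to level `0` -/
theorem compn_down (d : ℕ) (T : Matrix ι ι (PowerSeries (MonoidAlgebra ℤ G))) (hT : ∀ x y, Nn (T x y)) (x y : Fin d × ι) (k : ℕ)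
    (hy : y.1.val = 0) (hak : x.1.val < k) (hkd : k ≤ d) (h : ∀ g, 1 ≤ cf (T x.2 y.2) k g) :
    Rf (compn d T) (k - x.1.val) x y := by
  have e1 : k - x.1.val = (k - 1 - x.1.val) + 1 := by omega
  rw [e1]
  have hlt : k - 1 < d := by omega
  have h1 := compn_up d T hT (k - 1 - x.1.val) x (⟨k - 1, hlt⟩, x.2) rfl (by simp only; omega)
  apply h1.transf (compn_Nm d T hT)
  intro g
  rw [pow_one, compn_apply, if_pos hy, if_neg (fun h' => by have := h'.1; omega), add_zero]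
  have e2 : k - 1 + 1 = k := by omega
  simp only [e2]
  exact h g

theorem compn_prim [Nonempty ι] (d K n1 : ℕ) (hK : 1 ≤ K) (hKn : 2 * K ≤ n1) (hnd : n1 < d)
    (T : Matrix (ι ⊕ ι) (ι ⊕ ι) (PowerSeries (MonoidAlgebra ℤ G))) (hT : ∀ x y, Nn (T x y))
    (h1 : ∀ x j k g, K ≤ k → k ≤ n1 → 1 ≤ cf (T x (Sum.inl j)) k g)
    (h2 : ∀ x j k g, n1 < k → k ≤ d → 1 ≤ cf (T x (Sum.inr j)) k g) (x y : Fin d × (ι ⊕ ι)) :
    Rf (compn d T) (K + 3 * d) x y := by
  obtain ⟨j0⟩ := (inferInstance : Nonempty ι)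
  have hN := compn_Nm d T hT
  have hd : 0 < d := by omega
  -- from level zero to inl
  have c1 : ∀ N, ∀ t, t ≤ N → K ≤ t → ∀ p j, Rf (compn d T) t (⟨0, hd⟩, p) (⟨0, hd⟩, Sum.inl j) := by
    intro N
    induction N with
    | zero => intro t h3 h4; omega
    | succ N ih =>
      intro t h3 h4 p j
      rcases le_or_gt t n1 with h5 | h5
      · exact compn_down d T hT (⟨0, hd⟩, p) (⟨0, hd⟩, Sum.inl j) t rfl (show 0 < t by omega) (by omega) (fun g => h1 p j t g h4 h5)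
      · have h6 := ih (t - K) (by omega) (by omega) p j
        have h7 : Rf (compn d T) K (⟨0, hd⟩, Sum.inl j) (⟨0, hd⟩, Sum.inl j) :=
          compn_down d T hT (⟨0, hd⟩, Sum.inl j) (⟨0, hd⟩, Sum.inl j) K rfl (show 0 < K by omega) (by omega)
            (fun g => h1 _ j K g le_rfl (by omega))
        have h8 := h6.trans hN h7.s
        have e1 : t - K + K = t := by omega
        rw [e1] at h8
        exact h8
  have c2 : ∀ t, K + d ≤ t → ∀ p q, Rf (compn d T) t (⟨0, hd⟩, p) (⟨0, hd⟩, q) := by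
    intro t ht p q
    rcases q with j | j
    · exact c1 t t le_rfl (by omega) p j
    · have h3 := c1 (t - d) (t - d) le_rfl (by omega) p j0
      have h4 : Rf (compn d T) d (⟨0, hd⟩, Sum.inl j0) (⟨0, hd⟩, Sum.inr j) :=
        compn_down d T hT (⟨0, hd⟩, Sum.inl j0) (⟨0, hd⟩, Sum.inr j) d rfl hd le_rfl (fun g => h2 _ j d g hnd le_rfl)
      have h5 := h3.trans hN h4.s
      have e1 : t - d + d = t := by omega
      rw [e1] at h5
      exact h5
  have hx := x.1.2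
  have hy := y.1.2
  have s1 := compn_down d T hT x (⟨0, hd⟩, Sum.inr j0) d rfl hx le_rfl (fun g => h2 _ j0 d g hnd le_rfl)
  have s2 := c2 (K + 3 * d - (d - x.1.val) - y.1.val) (by omega) (Sum.inr j0) y.2
  have s3 := compn_up d T hT y.1.val (⟨0, hd⟩, y.2) y rfl (show y.1.val = 0 + y.1.val by omega)
  have s4 := (s1.trans hN s2.s).trans hN s3
  have e1 : d - x.1.val + (K + 3 * d - (d - x.1.val) - y.1.val) + y.1.val = K + 3 * d := by omega
  rw [e1] at s4
  exact s4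

end prim

end Pool.Agent.W717.G
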