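import Mathlib

set_option autoImplicit false
set_option linter.all false

namespace Pool.Agent.W717.G

section abs

variable {R : Type*} [Ring R]

/-- the first return decomposition -/
theorem abs_fr (e a T h a11 b c F : R) (he : e * e = e) (ha11 : a11 = e * a * e) (hb : b = e * a * (1 - e))
    (hc : c = (1 - e) * a * e) (hh : h = (1 - e) * a * (1 - e)) (hT1 : T * (1 - h) = 1) (hT2 : (1 - h) * T = 1)
    (hF : F = a11 + b * T * c) :
    T * e = e ∧ e * T = e ∧ e * F = F ∧ F * e = F ∧ e * h = 0 ∧ h * e = 0 ∧ e * b = b ∧ b * e = 0 ∧ e * c = 0 ∧ c * e = c ∧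
    (1 - b * T) * (1 - F - h) * (1 - T * c) = 1 - a := by
  have e1 : e * (1 - e) = 0 := by rw [mul_sub, mul_one, he, sub_self]
  have e2 : (1 - e) * e = 0 := by rw [sub_mul, one_mul, he, sub_self]
  have eh : e * h = 0 := by rw [hh, ← mul_assoc, ← mul_assoc, e1, zero_mul, zero_mul]
  have he' : h * e = 0 := by rw [hh, mul_assoc, e2, mul_zero]
  have Te : T * e = e := by
    have : T * (1 - h) * e = e := by rw [hT1, one_mul]
    rwa [mul_assoc, sub_mul, one_mul, he', sub_zero] at this
  have eT : e * T = e := by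
    have : e * ((1 - h) * T) = e := by rw [hT2, mul_one]
    rwa [← mul_assoc, mul_sub, mul_one, eh, sub_zero] at this
  have eb : e * b = b := by rw [hb, ← mul_assoc, ← mul_assoc, he]
  have be : b * e = 0 := by rw [hb, mul_assoc, e2, mul_zero]
  have ec : e * c = 0 := by rw [hc, ← mul_assoc, ← mul_assoc, e1, zero_mul, zero_mul]
  have ce : c * e = c := by rw [hc, mul_assoc, he]
  have ea : e * a11 = a11 := by rw [ha11, ← mul_assoc, ← mul_assoc, he]
  have ae : a11 * e = a11 := by rw [ha11, mul_assoc, he]
  have eF : e * F = F := by rw [hF, mul_add, ea, ← mul_assoc, ← mul_assoc, eb]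
  have Fe : F * e = F := by rw [hF, add_mul, ae, mul_assoc, ce]
  refine ⟨Te, eT, eF, Fe, eh, he', eb, be, ec, ce, ?_⟩
  have hTh : T * h = T - 1 := by
    rw [mul_sub, mul_one] at hT1; rw [← hT1]; abel
  have hhT : h * T = T - 1 := by
    rw [sub_mul, one_mul] at hT2; rw [← hT2]; abel
  have bTF : b * T * F = 0 := by
    rw [← eF, ← mul_assoc, mul_assoc b T e, Te, be, zero_mul]
  have hLD : (1 - b * T) * (1 - F - h) = 1 - F - h - b := by
    rw [sub_mul, one_mul, mul_sub, mul_sub, mul_one, bTF, sub_zero, mul_assoc b T h, hTh, mul_sub, mul_one]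
    abel
  have FTc : F * (T * c) = 0 := by
    have : F * (T * c) = F * (e * T) * c := by rw [← mul_assoc F e T, Fe, mul_assoc]
    rw [this, eT, Fe, ← Fe, mul_assoc, ec, mul_zero]
  have hTc : h * (T * c) = T * c - c := by rw [← mul_assoc, hhT, sub_mul, one_mul]
  rw [hLD, mul_sub, mul_one, sub_mul, sub_mul, sub_mul, one_mul, FTc, hTc]
  have ha : a = a11 + b + c + h := by
    rw [ha11, hb, hc, hh]
    noncomm_ring
  rw [ha, hF, ← mul_assoc]
  abel

/-- the inverse of the block diagonal matrix -/
theorem abs_inv (e a T h a11 b c F S : R) (he : e * e = e) (ha11 : a11 = e * a * e) (hb : b = e * a * (1 - e))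
    (hc : c = (1 - e) * a * e) (hh : h = (1 - e) * a * (1 - e)) (hT1 : T * (1 - h) = 1) (hT2 : (1 - h) * T = 1)
    (hF : F = a11 + b * T * c) (hS : (1 - a) * S = 1) :
    (e - F) * (e * S * e) = e ∧ (1 - F - h) * (e * S * e + (1 - e) * T) = 1 := by
  obtain ⟨Te, eT, eF, Fe, eh, he', eb, be, ec, ce, -⟩ := abs_fr e a T h a11 b c F he ha11 hb hc hh hT1 hT2 hF
  have e2 : (1 - e) * e = 0 := by rw [sub_mul, one_mul, he, sub_self]
  have he1 : (1 - e) * (1 - e) = 1 - e := by rw [mul_sub, mul_one, e2, sub_zero]
  -- the column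
  have hS' : S = 1 + a * S := by rw [sub_mul, one_mul] at hS; rw [← hS]; abel
  set x := e * S * e with hx
  set y := (1 - e) * S * e with hy
  have hxy : x + y = S * e := by rw [hx, hy, ← add_mul, ← add_mul, add_sub_cancel, one_mul]
  have hy1 : y = c * x + h * y := by
    have h1 : y = (1 - e) * (1 + a * S) * e := by rw [hy]; conv_lhs => rw [hS']
    have h2 : c * x + h * y = (1 - e) * a * ((e * e) * S * e + ((1 - e) * (1 - e)) * S * e) := by
      rw [hc, hh, hx, hy]; simp only [mul_add, mul_assoc]
    have h3 : e * S * e + (1 - e) * S * e = S * e := by rw [← add_mul, ← add_mul, add_sub_cancel, one_mul]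
    have h4 : (1 - e) * (1 + a * S) * e = (1 - e) * (a * S) * e := by rw [mul_add, mul_one, add_mul, e2, zero_add]
    rw [he, he1, h3] at h2
    rw [h2, h1, h4]; simp only [mul_assoc]
  have hy2 : y = T * c * x := by
    have h1 : (1 - h) * y = c * x := by rw [sub_mul, one_mul, sub_eq_iff_eq_add]; exact hy1
    calc y = T * (1 - h) * y := by rw [hT1, one_mul]
      _ = T * c * x := by rw [mul_assoc, h1, mul_assoc]
  have hx1 : x = e + a11 * x + b * y := by
    have h1 : x = e * (1 + a * S) * e := by rw [hx]; conv_lhs => rw [hS']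
    have h2 : a11 * x + b * y = e * a * ((e * e) * S * e + ((1 - e) * (1 - e)) * S * e) := by
      rw [ha11, hb, hx, hy]; simp only [mul_add, mul_assoc]
    have h3 : e * S * e + (1 - e) * S * e = S * e := by rw [← add_mul, ← add_mul, add_sub_cancel, one_mul]
    have h4 : e * (1 + a * S) * e = e + e * (a * S) * e := by rw [mul_add, mul_one, add_mul, he]
    rw [he, he1, h3] at h2
    rw [add_assoc, h2]
    conv_lhs => rw [h1, h4]
    simp only [mul_assoc]
  have ex : e * x = x := by rw [hx, ← mul_assoc, ← mul_assoc, he]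
  have hFx : (e - F) * x = e := by
    rw [sub_mul, ex, hF, add_mul]
    have : b * T * c * x = b * y := by rw [hy2]; simp only [mul_assoc]
    rw [this]
    conv_lhs => enter [1]; rw [hx1]
    abel
  refine ⟨hFx, ?_⟩
  have h1 : (1 - F - h) * x = e := by
    have : (1 - F - h) * x = (e - F) * x + ((1 - e) * x - h * (e * x)) := by rw [ex]; noncomm_ring
    rw [this, hFx, ← mul_assoc h, he', zero_mul, sub_zero, sub_mul, one_mul, ex, sub_self, add_zero]
  have h2 : (1 - F - h) * ((1 - e) * T) = 1 - e := by
    have h3 : F * (1 - e) = 0 := by rw [mul_sub, mul_one, Fe, sub_self]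
    have h4 : h * (1 - e) = h := by rw [mul_sub, mul_one, he', sub_zero]
    have h5 : (1 - F - h) * (1 - e) = (1 - e) * (1 - h) := by
      rw [sub_mul, sub_mul, one_mul, h3, h4, sub_zero, mul_sub, mul_one, sub_mul, one_mul, eh, sub_zero]
    rw [← mul_assoc, h5, mul_assoc, hT2, mul_one]
  rw [mul_add, h1, h2, add_sub_cancel]

/-- the shape of the target -/
theorem abs_target (e T h F q u z r c : R) (he : e * e = e) (hT1 : T * (1 - h) = 1) (hT2 : (1 - h) * T = 1)
    (eh : e * h = 0) (h_e : h * e = 0) (eF : e * F = F) (Fe : F * e = F) (eq : e * q = q) (qe : q * e = q) (eu : e * u = u)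
    (ue : u * e = u) (er : e * r = r) (re : r * e = 0) (ec : e * c = 0) (ce : c * e = c) (hqu : (e - q) * u = e)
    (huq : u * (e - q) = e) (hFu : (e - F) * u = e - z) :
    (1 - q * r * T) * (1 - F - h) * (1 - T * c) = 1 - F - h - q * r - c + q * r * T * c ∧
    (1 - ((z - q * r * T * c * u) * (e + q * r) + h + c * u * (e + q * r))) * (1 - q * (e + r)) =
      1 - F - h - q * r - c + q * r * T * c ∧
    (1 - q * (e + r)) * (1 + u * q * (e + r)) = 1 := by
  have Te : T * e = e := by
    have : T * (1 - h) * e = e := by rw [hT1, one_mul]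
    rwa [mul_assoc, sub_mul, one_mul, h_e, sub_zero] at this
  have eT : e * T = e := by
    have : e * ((1 - h) * T) = e := by rw [hT2, mul_one]
    rwa [← mul_assoc, mul_sub, mul_one, eh, sub_zero] at this
  have hTh : T * h = T - 1 := by
    rw [mul_sub, mul_one] at hT1; rw [← hT1]; abel
  have hhT : h * T = T - 1 := by
    rw [sub_mul, one_mul] at hT2; rw [← hT2]; abel
  have rTF : r * T * F = 0 := by
    rw [← eF, ← mul_assoc, mul_assoc r T e, Te, re, zero_mul]
  have hU : (1 - q * r * T) * (1 - F - h) = 1 - F - h - q * r := by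
    have h1 : q * r * T * F = 0 := by rw [mul_assoc q r T, mul_assoc q (r * T) F, rTF, mul_zero]
    rw [sub_mul, one_mul, mul_sub, mul_sub, mul_one, h1, sub_zero, mul_assoc (q * r) T h, hTh, mul_sub, mul_one]
    abel
  have FTc : F * (T * c) = 0 := by
    have : F * (T * c) = F * (e * T) * c := by rw [← mul_assoc F e T, Fe, mul_assoc]
    rw [this, eT, Fe, ← Fe, mul_assoc, ec, mul_zero]
  have hTc : h * (T * c) = T * c - c := by rw [← mul_assoc, hhT, sub_mul, one_mul]
  refine ⟨?_, ?_, ?_⟩
  · rw [hU, mul_sub, mul_one, sub_mul, sub_mul, sub_mul, one_mul, FTc, hTc]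
    simp only [mul_assoc]
    abel
  · set ζ := q * r * T * c with hζ
    have ζe : ζ * e = ζ := by rw [hζ, mul_assoc, ce]
    have ze : z * e = z := by
      have : z = e - (e - F) * u := by rw [hFu]; abel
      rw [this, sub_mul, he, mul_assoc, ue]
    have rq : r * q = 0 := by rw [← eq, ← mul_assoc, re, zero_mul]
    have h1 : (e + q * r) * (1 - q * (e + r)) = e - q := by
      have : (e + q * r) * (1 - q * (e + r)) = e + q * r - (e * q) * e - (e * q) * r - q * (r * q) * e - q * (r * q) * r := by
        noncomm_ring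
      rw [this, eq, qe, rq, mul_zero, zero_mul, zero_mul, sub_zero, sub_zero]
      abel
    have h2 : h * (1 - q * (e + r)) = h := by
      have : h * (1 - q * (e + r)) = h - h * q * (e + r) := by noncomm_ring
      have h3 : h * q = 0 := by rw [← eq, ← mul_assoc, h_e, zero_mul]
      rw [this, h3, zero_mul, sub_zero]
    have h4 : F = q + z - z * q := by
      have h5 : (e - F) * u * (e - q) = (e - z) * (e - q) := by rw [hFu]
      rw [mul_assoc, huq, sub_mul, he, Fe] at h5
      have h6 : (e - z) * (e - q) = e - q - z + z * q := by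
        rw [sub_mul, mul_sub, mul_sub, he, eq, ze]; abel
      rw [h6] at h5
      have : F = e - (e - q - z + z * q) := by rw [← h5]; abel
      rw [this]; abel
    have h7 : (1 - ((z - ζ * u) * (e + q * r) + h + c * u * (e + q * r))) * (1 - q * (e + r)) =
        (1 - q * (e + r)) - ((z - ζ * u) * ((e + q * r) * (1 - q * (e + r))) + h * (1 - q * (e + r)) +
          c * u * ((e + q * r) * (1 - q * (e + r)))) := by noncomm_ring
    rw [h7, h1, h2, mul_assoc c u, huq, ce, sub_mul z, mul_assoc ζ u, huq, ζe, mul_sub z, ze, mul_add q, qe]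
    rw [h4]
    abel
  · have r1 : (e + r) * u = u := by
      have : r * u = 0 := by rw [← eu, ← mul_assoc, re, zero_mul]
      rw [add_mul, eu, this, add_zero]
    have h1 : (1 - q * (e + r)) * (1 + u * q * (e + r)) = 1 + (- (e * q) + (e * u) * q - q * ((e + r) * u) * q) * (e + r) +
      (e * q - q) * (e + r) + (u - e * u) * q * (e + r) := by noncomm_ring
    rw [h1, r1, eq, sub_self, zero_mul, add_zero]
    have h2 : - q + (e * u) * q - q * u * q = 0 := by
      have : - q + (e * u) * q - q * u * q = - q + ((e - q) * u) * q := by noncomm_ring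
      rw [this, hqu, eq]; abel
    rw [h2, zero_mul, add_zero, eu, sub_self, zero_mul, zero_mul, add_zero]

end abs

end Pool.Agent.W717.G
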