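import Mathlib
import Pool.Agent.W717.G.K1
import Pool.Agent.W717.G.Ev

set_option autoImplicit false
set_option linter.all false

namespace Pool.Agent.W717.G

open Finset PowerSeries Filter Topology

section geo

variable {A : Type*} [Ring A]

theorem geo_inv (a : A) : (1 - C a * X : PowerSeries A) * PowerSeries.mk (fun k => a ^ k) = 1 ∧
    PowerSeries.mk (fun k => a ^ k) * (1 - C a * X : PowerSeries A) = 1 := by
  constructor
  · ext1 k
    rw [sub_mul, one_mul, map_sub, mul_assoc, coeff_C_mul, coeff_one]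
    rcases k with _ | k
    · rw [coeff_zero_X_mul, mul_zero, sub_zero, coeff_mk, pow_zero, if_pos rfl]
    · rw [coeff_succ_X_mul, coeff_mk, coeff_mk, ← pow_succ', sub_self, if_neg (by omega)]
  · ext1 k
    rw [mul_sub, mul_one, map_sub, ← mul_assoc, coeff_one]
    rcases k with _ | k
    · rw [coeff_zero_mul_X, sub_zero, coeff_mk, pow_zero, if_pos rfl]
    · rw [coeff_succ_mul_X, coeff_mul_C, coeff_mk, coeff_mk, ← pow_succ, sub_self, if_neg (by omega)]

/-- the unit `1 - a X` -/
noncomputable def geoU (a : A) : (PowerSeries A)ˣ :=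
  ⟨1 - C a * X, PowerSeries.mk fun k => a ^ k, (geo_inv a).1, (geo_inv a).2⟩

theorem geoU_val (a : A) : (geoU a).val = 1 - C a * X := rfl
theorem geoU_inv (a : A) : (geoU a)⁻¹.val = PowerSeries.mk fun k => a ^ k := rfl

end geo

section nil0

variable {A : Type*} [Ring A]

/-- units `1 + ν` with `ν = e ν`, `ν e = 0` -/
noncomputable def nilV (e : A) (ν : PowerSeries A) (h1 : C e * ν = ν) (h2 : ν * C e = 0) : (PowerSeries A)ˣ :=
  ⟨1 + ν, 1 - ν,
    by
      have h : ν * ν = 0 := by
        have : ν * ν = (ν * C e) * ν := by rw [mul_assoc, h1]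
        rw [this, h2, zero_mul]
      have : (1 + ν) * (1 - ν) = 1 - ν * ν := by noncomm_ring
      rw [this, h, sub_zero],
    by
      have h : ν * ν = 0 := by
        have : ν * ν = (ν * C e) * ν := by rw [mul_assoc, h1]
        rw [this, h2, zero_mul]
      have : (1 - ν) * (1 + ν) = 1 - ν * ν := by noncomm_ring
      rw [this, h, sub_zero]⟩

theorem nilV_val (e : A) (ν : PowerSeries A) (h1 : C e * ν = ν) (h2 : ν * C e = 0) : (nilV e ν h1 h2).val = 1 + ν := rfl
theorem nilV_inv (e : A) (ν : PowerSeries A) (h1 : C e * ν = ν) (h2 : ν * C e = 0) : (nilV e ν h1 h2)⁻¹.val = 1 - ν := rfl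

end nil0

section nil

variable {A : Type*} [Ring A] [Algebra ℝ A] {V : Type*} [AddCommGroup V] [Module ℝ V] {κ : A →ₗ[ℝ] V}

theorem D_geoU (a : A) (k : ℕ) : D κ (geoU a) k = if k = 0 then 0 else - κ (a ^ k) := by
  unfold D
  rw [geoU_inv, geoU_val]
  have h1 : eu (1 - C a * X : PowerSeries A) = - (C a * X) := by
    ext1 k
    rw [coeff_eu, map_sub, map_neg, coeff_one]
    rcases k with _ | k
    · rw [coeff_zero_mul_X, zero_smul, neg_zero]
    · rw [coeff_succ_mul_X, coeff_C]
      rcases k with _ | k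
      · simp
      · simp
  rw [h1, mul_neg, map_neg, ← mul_assoc]
  rcases k with _ | k
  · rw [coeff_zero_mul_X, neg_zero, map_zero, if_pos rfl]
  · rw [coeff_succ_mul_X, coeff_mul_C, coeff_mk, ← pow_succ, if_neg (by omega), map_neg]

theorem D_nilV (hκ : ∀ a b, κ (a * b) = κ (b * a)) (e : A) (ν : PowerSeries A) (h1 : C e * ν = ν) (h2 : ν * C e = 0) (k : ℕ) :
    D κ (nilV e ν h1 h2) k = 0 := by
  unfold D
  rw [nilV_inv, nilV_val, eu_add, eu_one, zero_add, sub_mul, one_mul]
  have h3 : ∀ j, e * coeff j ν = coeff j ν := fun j => by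
    rw [← coeff_C_mul, h1]
  have h4 : ∀ j, coeff j ν * e = 0 := fun j => by
    rw [← coeff_mul_C, h2, map_zero]
  have h5 : C e * eu ν = eu ν := by
    ext1 j
    rw [coeff_C_mul, coeff_eu, mul_smul_comm, h3]
  have h6 : ν * eu ν = 0 := by rw [← h5, ← mul_assoc, h2, zero_mul]
  rw [h6, sub_zero, coeff_eu, map_nsmul, ← h3, hκ, h4, map_zero, smul_zero]

end nil

section mat

variable {ι R : Type} [Fintype ι] [DecidableEq ι] [Ring R]

/-- entries of a matrix valued series -/
noncomputable def en (M : PowerSeries (Matrix ι ι R)) (i j : ι) : PowerSeries R := PowerSeries.mk fun k => (coeff k M) i j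

theorem coeff_en (M : PowerSeries (Matrix ι ι R)) (i j : ι) (k : ℕ) : coeff k (en M i j) = (coeff k M) i j := by
  rw [en, coeff_mk]

theorem en_ext {M N : PowerSeries (Matrix ι ι R)} (h : ∀ i j, en M i j = en N i j) : M = N := by
  ext1 k
  ext1 i j
  rw [← coeff_en, ← coeff_en, h]

theorem en_zero (i j : ι) : en (0 : PowerSeries (Matrix ι ι R)) i j = 0 := by
  ext1 k; rw [coeff_en, map_zero, map_zero, Matrix.zero_apply]

theorem en_add (M N : PowerSeries (Matrix ι ι R)) (i j : ι) : en (M + N) i j = en M i j + en N i j := by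
  ext1 k; rw [coeff_en, map_add, map_add, coeff_en, coeff_en, Matrix.add_apply]

theorem en_sub (M N : PowerSeries (Matrix ι ι R)) (i j : ι) : en (M - N) i j = en M i j - en N i j := by
  ext1 k; rw [coeff_en, map_sub, map_sub, coeff_en, coeff_en, Matrix.sub_apply]

theorem en_one (i j : ι) : en (1 : PowerSeries (Matrix ι ι R)) i j = if i = j then 1 else 0 := by
  ext1 k
  rw [coeff_en, coeff_one]
  by_cases hk : k = 0
  · rw [if_pos hk, Matrix.one_apply]
    split_ifs
    · rw [coeff_one, if_pos hk]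
    · rw [map_zero]
  · rw [if_neg hk, Matrix.zero_apply]
    split_ifs
    · rw [coeff_one, if_neg hk]
    · rw [map_zero]

theorem en_mul (M N : PowerSeries (Matrix ι ι R)) (i k : ι) : en (M * N) i k = ∑ j, en M i j * en N j k := by
  ext1 n
  rw [coeff_en, coeff_mul, Matrix.sum_apply, map_sum]
  simp only [coeff_mul, coeff_en]
  rw [Finset.sum_comm]
  apply Finset.sum_congr rfl
  intro y _
  rw [Matrix.mul_apply]

theorem en_C (a : Matrix ι ι R) (i j : ι) : en (C a) i j = C (a i j) := by
  ext1 k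
  rw [coeff_en, coeff_C, coeff_C]
  split_ifs <;> simp

theorem en_X_pow_mul (m : ℕ) (M : PowerSeries (Matrix ι ι R)) (i j : ι) : en (X ^ m * M) i j = X ^ m * en M i j := by
  ext1 k
  rw [coeff_en, coeff_X_pow_mul', coeff_X_pow_mul']
  split_ifs
  · rw [coeff_en]
  · rfl

theorem en_mul_X (M : PowerSeries (Matrix ι ι R)) (i j : ι) : en (M * X) i j = en M i j * X := by
  ext1 k
  rw [coeff_en]
  rcases k with _ | k
  · rw [coeff_zero_mul_X, coeff_zero_mul_X]; rfl
  · rw [coeff_succ_mul_X, coeff_succ_mul_X, coeff_en]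

/-- scalars at a diagonal place -/
noncomputable def sc (s : ι) (f : PowerSeries R) : PowerSeries (Matrix ι ι R) := PowerSeries.mk fun k => Matrix.single s s (coeff k f)

theorem en_sc (s : ι) (f : PowerSeries R) (i j : ι) : en (sc s f) i j = if i = s ∧ j = s then f else 0 := by
  ext1 k
  rw [coeff_en, sc, coeff_mk, Matrix.single_apply]
  by_cases h : i = s ∧ j = s
  · rw [if_pos h, if_pos ⟨h.1.symm, h.2.symm⟩]
  · rw [if_neg h, if_neg (fun h' => h ⟨h'.1.symm, h'.2.symm⟩), map_zero]

theorem sc_mul (s : ι) (f g : PowerSeries R) : sc s f * sc s g = sc s (f * g) := by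
  apply en_ext
  intro i j
  rw [en_mul, en_sc]
  simp only [en_sc]
  rw [Finset.sum_eq_single s]
  · by_cases hi : i = s
    · by_cases hj : j = s
      · simp [hi, hj]
      · simp [hi, hj]
    · simp [hi]
  · intro k _ hk
    simp [hk]
  · intro h; exact absurd (Finset.mem_univ _) h

theorem sc_sub (s : ι) (f g : PowerSeries R) : sc s f - sc s g = sc s (f - g) := by
  apply en_ext
  intro i j
  rw [en_sub, en_sc, en_sc, en_sc]
  split_ifs <;> simp

theorem sc_one (s : ι) : sc s (1 : PowerSeries R) = C (Matrix.single s s 1) := by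
  ext1 k
  rw [sc, coeff_mk, coeff_one, coeff_C]
  split_ifs
  · rfl
  · simp

theorem sc_e (s : ι) : sc s (1 : PowerSeries R) * sc s 1 = sc s 1 := by rw [sc_mul, one_mul]

theorem eq_sc (s : ι) {M : PowerSeries (Matrix ι ι R)} (h1 : sc s 1 * M = M) (h2 : M * sc s 1 = M) : M = sc s (en M s s) := by
  have h3 : M = sc s 1 * M * sc s 1 := by rw [h1, h2]
  apply en_ext
  intro i j
  conv_lhs => rw [h3]
  rw [en_mul, Finset.sum_eq_single s]
  · rw [en_mul, Finset.sum_eq_single s]
    · rw [en_sc, en_sc, en_sc]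
      by_cases hi : i = s
      · by_cases hj : j = s
        · simp [hi, hj]
        · simp [hi, hj]
      · simp [hi]
    · intro k _ hk
      rw [en_sc, if_neg (fun h => hk h.2), zero_mul]
    · intro h; exact absurd (Finset.mem_univ _) h
  · intro k _ hk
    rw [en_sc s 1 k, if_neg (fun h => hk h.1), mul_zero]
  · intro h; exact absurd (Finset.mem_univ _) h

/-- left multiplication by the idempotent -/
theorem en_e_mul (s : ι) (M : PowerSeries (Matrix ι ι R)) (i j : ι) : en (sc s 1 * M) i j = if i = s then en M s j else 0 := by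
  rw [en_mul, Finset.sum_eq_single s]
  · rw [en_sc]
    by_cases hi : i = s
    · simp [hi]
    · simp [hi]
  · intro k _ hk
    rw [en_sc, if_neg (fun h => hk h.2), zero_mul]
  · intro h; exact absurd (Finset.mem_univ _) h

theorem en_mul_e (s : ι) (M : PowerSeries (Matrix ι ι R)) (i j : ι) : en (M * sc s 1) i j = if j = s then en M i s else 0 := by
  rw [en_mul, Finset.sum_eq_single s]
  · rw [en_sc]
    by_cases hj : j = s
    · simp [hj]
    · simp [hj]
  · intro k _ hk
    rw [en_sc, if_neg (fun h => hk h.1), mul_zero]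
  · intro h; exact absurd (Finset.mem_univ _) h

end mat

end Pool.Agent.W717.G
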