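import Mathlib
import Pool.Agent.W717.G.Cf

set_option autoImplicit false
set_option linter.all false

namespace Pool.Agent.W717.G

open Finset PowerSeries Filter Topology

/-- the renewal lemma -/
theorem renewal (p W : ℕ → ℝ) (d : ℕ) (hp : ∀ j, 0 ≤ p j) (hp0 : p 0 = 0) (hpd : ∀ j, d ≤ j → p j = 0)
    (hp1 : ∑ j ∈ range d, p j = 1) (hW : ∀ j, 0 ≤ W j) (h : (1 - PowerSeries.mk p) * PowerSeries.mk W = 1) :
    (∀ k, W k ≤ 1) ∧ ∀ k, ∃ i, i < d ∧ i ≤ k ∧ 1 / (d : ℝ) ≤ W (k - i) := by
  have hd : 0 < d := by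
    rcases Nat.eq_zero_or_pos d with h0 | h0
    · subst h0; simp at hp1
    · exact h0
  have hsum : ∀ n, ∑ j ∈ range n, p j ≤ 1 := by
    intro n
    rw [← hp1]
    have h1 : ∑ j ∈ range n, p j ≤ ∑ j ∈ range (max n d), p j :=
      Finset.sum_le_sum_of_subset_of_nonneg (Finset.range_mono (le_max_left _ _)) (fun j _ _ => hp j)
    refine h1.trans (le_of_eq ?_)
    symm
    apply Finset.sum_subset (Finset.range_mono (le_max_right _ _))
    intro j _ hj
    rw [Finset.mem_range, not_lt] at hj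
    exact hpd j hj
  have hrec : ∀ k, W k = (if k = 0 then 1 else 0) + ∑ j ∈ range (k + 1), p j * W (k - j) := by
    intro k
    have h1 := congrArg (coeff k) h
    rw [sub_mul, one_mul, map_sub, coeff_mk, coeff_mul, Finset.Nat.sum_antidiagonal_eq_sum_range_succ_mk, coeff_one] at h1
    simp only [coeff_mk] at h1
    linarith
  constructor
  · intro k
    induction k using Nat.strong_induction_on with
    | _ k ih =>
      rcases Nat.eq_zero_or_pos k with hk | hk
      · subst hk
        rw [hrec]; simp [hp0]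
      · rw [hrec, if_neg (by omega), zero_add, Finset.sum_range_succ', hp0, zero_mul, add_zero]
        calc ∑ j ∈ range k, p (j + 1) * W (k - (j + 1)) ≤ ∑ j ∈ range k, p (j + 1) := by
              apply Finset.sum_le_sum
              intro j hj
              rw [Finset.mem_range] at hj
              exact mul_le_of_le_one_right (hp _) (ih _ (by omega))
          _ = ∑ j ∈ range (k + 1), p j := by rw [Finset.sum_range_succ', hp0, add_zero]
          _ ≤ 1 := hsum _
  · intro k
    set P : ℕ → ℝ := fun i => 1 - ∑ j ∈ range (i + 1), p j with hP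
    have hP0 : ∀ i, 0 ≤ P i := fun i => by simp only [hP]; linarith [hsum (i + 1)]
    have hP1 : ∀ i, P i ≤ 1 := fun i => by
      simp only [hP]
      have : 0 ≤ ∑ j ∈ range (i + 1), p j := Finset.sum_nonneg fun j _ => hp j
      linarith
    have hPd : ∀ i, d ≤ i → P i = 0 := by
      intro i hi
      simp only [hP]
      have : ∑ j ∈ range (i + 1), p j = 1 := by
        rw [← hp1]
        symm
        apply Finset.sum_subset (Finset.range_mono (by omega))
        intro j _ hj
        rw [Finset.mem_range, not_lt] at hj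
        exact hpd j hj
      rw [this, sub_self]
    have e1 : (1 - X : PowerSeries ℝ) * PowerSeries.mk P = 1 - PowerSeries.mk p := by
      ext i
      rw [sub_mul, one_mul, map_sub, map_sub, coeff_mk, coeff_mk, coeff_one]
      rcases i with _ | i
      · rw [coeff_zero_X_mul]; simp [hP]
      · rw [coeff_succ_X_mul, coeff_mk, if_neg (by omega)]
        simp only [hP]
        rw [Finset.sum_range_succ _ (i + 1)]; ring
    have e2 : (1 - X : PowerSeries ℝ) * (PowerSeries.mk P * PowerSeries.mk W) = 1 := by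
      rw [← mul_assoc, e1, h]
    have e3 : PowerSeries.mk P * PowerSeries.mk W = PowerSeries.mk fun _ => 1 := by
      have e4 : (PowerSeries.mk fun _ => (1 : ℝ)) * (1 - X) = 1 := by
        have := PowerSeries.mk_one_mul_one_sub_eq_one ℝ
        exact this
      calc PowerSeries.mk P * PowerSeries.mk W = ((PowerSeries.mk fun _ => (1 : ℝ)) * (1 - X)) * (PowerSeries.mk P * PowerSeries.mk W) := by
            rw [e4, one_mul]
        _ = _ := by rw [mul_assoc, e2, mul_one]
    have e5 : ∑ i ∈ range (k + 1), P i * W (k - i) = 1 := by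
      have := congrArg (coeff k) e3
      rw [coeff_mul, Finset.Nat.sum_antidiagonal_eq_sum_range_succ_mk, coeff_mk] at this
      simpa only [coeff_mk] using this
    by_contra hcon
    push Not at hcon
    have e6 : ∑ i ∈ range (k + 1), P i * W (k - i) = ∑ i ∈ (range (k + 1)).filter (fun i => i < d), P i * W (k - i) := by
      rw [Finset.sum_filter]
      apply Finset.sum_congr rfl
      intro i _
      split_ifs with hi
      · rfl
      · rw [hPd i (by omega), zero_mul]
    have e7 : ∑ i ∈ (range (k + 1)).filter (fun i => i < d), P i * W (k - i) <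
        ∑ i ∈ (range (k + 1)).filter (fun i => i < d), 1 / (d : ℝ) := by
      apply Finset.sum_lt_sum_of_nonempty
      · exact ⟨0, by rw [Finset.mem_filter, Finset.mem_range]; exact ⟨by omega, hd⟩⟩
      · intro i hi
        rw [Finset.mem_filter, Finset.mem_range] at hi
        have := hcon i hi.2 (by omega)
        have h3 : P i * W (k - i) ≤ W (k - i) := mul_le_of_le_one_left (hW _) (hP1 i)
        linarith
    rw [Finset.sum_const, nsmul_eq_mul] at e7
    have e8 : ((((range (k + 1)).filter (fun i => i < d)).card : ℕ) : ℝ) ≤ d := by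
      have : ((range (k + 1)).filter (fun i => i < d)).card ≤ (range d).card := by
        apply Finset.card_le_card
        intro i hi
        rw [Finset.mem_filter] at hi
        rw [Finset.mem_range]; exact hi.2
      rw [Finset.card_range] at this
      exact_mod_cast this
    have hd' : (0 : ℝ) < d := by exact_mod_cast hd
    have e9 : ((((range (k + 1)).filter (fun i => i < d)).card : ℕ) : ℝ) * (1 / (d : ℝ)) ≤ 1 := by
      rw [mul_one_div, div_le_one hd']; exact e8
    rw [← e6, e5] at e7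
    linarith

section tgt

variable {G : Type} [Group G] [Fintype G] [DecidableEq G]

theorem cf_mo_mul (k : ℕ) (x : G) (f : PowerSeries (MonoidAlgebra ℤ G)) (j : ℕ) (g : G) :
    cf (mo k x * f) j g = if k ≤ j then cf f (j - k) (x⁻¹ * g) else 0 := by
  rw [cf_mul]
  split_ifs with h
  · rw [Finset.sum_eq_single (k, j - k)]
    · simp only
      rw [Finset.sum_eq_single x]
      · rw [cf_mo, if_pos ⟨rfl, rfl⟩, one_mul]
      · intro t _ ht
        rw [cf_mo, if_neg (fun h => ht h.2), zero_mul]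
      · intro h; exact absurd (Finset.mem_univ _) h
    · rintro ⟨a, b⟩ hab hne
      rw [Finset.HasAntidiagonal.mem_antidiagonal] at hab
      simp only at hab ⊢
      apply Finset.sum_eq_zero
      intro t _
      rw [cf_mo, if_neg, zero_mul]
      rintro ⟨h1, _⟩
      subst h1
      apply hne
      rw [Prod.mk.injEq]
      exact ⟨rfl, by omega⟩
    · intro h2
      exfalso
      apply h2
      rw [Finset.HasAntidiagonal.mem_antidiagonal]
      simp only
      omega
  · apply Finset.sum_eq_zero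
    rintro ⟨a, b⟩ hab
    rw [Finset.HasAntidiagonal.mem_antidiagonal] at hab
    simp only at hab ⊢
    apply Finset.sum_eq_zero
    intro t _
    rw [cf_mo, if_neg, zero_mul]
    rintro ⟨h1, _⟩
    omega

theorem au_inv_rescale (ρ : ℝ) {q u : PowerSeries (MonoidAlgebra ℤ G)} (h : (1 - q) * u = 1) :
    (1 - PowerSeries.mk (fun j => coeff j (au q) * ρ ^ j)) * PowerSeries.mk (fun j => coeff j (au u) * ρ ^ j) = 1 := by
  have h1 : PowerSeries.mk (fun j => coeff j (au q) * ρ ^ j) = rescale ρ (au q) := by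
    ext j; rw [coeff_mk, coeff_rescale, mul_comm]
  have h2 : PowerSeries.mk (fun j => coeff j (au u) * ρ ^ j) = rescale ρ (au u) := by
    ext j; rw [coeff_mk, coeff_rescale, mul_comm]
  have h3 : (1 - rescale ρ (au q)) * rescale ρ (au u) = rescale ρ (au ((1 - q) * u)) := by
    rw [map_mul, map_mul, map_sub, map_sub, map_one, map_one]
  rw [h1, h2, h3, h, map_one, map_one]

theorem Nn.pow {f : PowerSeries (MonoidAlgebra ℤ G)} (hf : Nn f) (n : ℕ) : Nn (f ^ n) := by
  induction n with
  | zero => rw [pow_zero]; exact Nn.one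
  | succ n ih => rw [pow_succ]; exact ih.mul hf

/-- the analytic choice of the truncation level -/
theorem choose_level (e : ℕ → ℝ) (he : ∀ k, 0 ≤ e k) (a : ℕ) (ha : 1 ≤ a) {y ρm : ℝ} (hy0 : 0 < y) (hyρ : y < ρm) (hρm : ρm < 1)
    (hs : HasSum (fun k => e k * y ^ k) (1 - y ^ a)) (N : ℕ) :
    ∃ L, N ≤ L ∧ ∃ ρ, y < ρ ∧ ρ < ρm ∧ (∑ k ∈ range L, ρ ^ (a * k)) * (∑ k ∈ range L, e k * ρ ^ k) = 1 := by
  obtain ⟨y1, hy1, hy1ρ⟩ : ∃ y1, y < y1 ∧ y1 < ρm := ⟨(y + ρm) / 2, by linarith, by linarith⟩
  have hy10 : 0 < y1 := hy0.trans hy1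
  have hy11 : y1 < 1 := hy1ρ.trans hρm
  have hpow : y ^ a < y1 ^ a := pow_lt_pow_left₀ hy1 hy0.le (by omega)
  have hy1a : y1 ^ a < 1 := pow_lt_one₀ hy10.le hy11 (by omega)
  have hya : y ^ a < 1 := hpow.trans hy1a
  -- partial sums
  have ht := hs.tendsto_sum_nat
  have h1 : ∀ᶠ n in atTop, 1 - y1 ^ a < ∑ k ∈ range n, e k * y ^ k := ht.eventually_const_lt (by linarith)
  obtain ⟨N0, hN0⟩ := (eventually_atTop.mp h1)
  set s0 : ℝ := ∑ k ∈ range N0, e k * y ^ k with hs0
  have hs01 : 1 - y1 ^ a < s0 := hN0 N0 le_rfl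
  have hs0p : 0 < s0 := by linarith
  have h2 : Tendsto (fun L : ℕ => (1 - (y1 ^ a) ^ L) * s0) atTop (𝓝 ((1 - 0) * s0)) :=
    ((tendsto_pow_atTop_nhds_zero_of_lt_one (by positivity) hy1a).const_sub 1).mul_const s0
  rw [sub_zero, one_mul] at h2
  obtain ⟨N1, hN1⟩ := eventually_atTop.mp (h2.eventually_const_lt hs01)
  set L : ℕ := max N (max N0 N1) + 1 with hL
  refine ⟨L, by omega, ?_⟩
  set Q : ℝ → ℝ := fun x => (∑ k ∈ range L, x ^ (a * k)) * (∑ k ∈ range L, e k * x ^ k) with hQ
  have hcont : Continuous Q := by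
    apply Continuous.mul
    · exact continuous_finset_sum _ fun k _ => continuous_pow _
    · exact continuous_finset_sum _ fun k _ => continuous_const.mul (continuous_pow _)
  have hgeo : ∀ x : ℝ, (1 - x ^ a) * ∑ k ∈ range L, x ^ (a * k) = 1 - (x ^ a) ^ L := by
    intro x
    have := mul_neg_geom_sum (x ^ a) L
    rw [← this]
    congr 1
    apply Finset.sum_congr rfl
    intro k _
    rw [← pow_mul]
  have hQy : Q y < 1 := by
    have hb : ∑ k ∈ range L, e k * y ^ k ≤ 1 - y ^ a := sum_le_hasSum (range L) (fun k _ => mul_nonneg (he k) (by positivity)) hs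
    have hg0 : 0 ≤ ∑ k ∈ range L, y ^ (a * k) := Finset.sum_nonneg fun k _ => by positivity
    calc Q y ≤ (∑ k ∈ range L, y ^ (a * k)) * (1 - y ^ a) := mul_le_mul_of_nonneg_left hb hg0
      _ = 1 - (y ^ a) ^ L := by rw [mul_comm, hgeo]
      _ < 1 := by have : 0 < (y ^ a) ^ L := by positivity
                  linarith
  have hQy1 : 1 < Q y1 := by
    have hb : s0 ≤ ∑ k ∈ range L, e k * y1 ^ k := by
      calc s0 ≤ ∑ k ∈ range L, e k * y ^ k :=
            Finset.sum_le_sum_of_subset_of_nonneg (Finset.range_mono (by omega)) (fun k _ _ => mul_nonneg (he k) (by positivity))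
        _ ≤ _ := Finset.sum_le_sum fun k _ => mul_le_mul_of_nonneg_left (pow_le_pow_left₀ hy0.le hy1.le k) (he k)
    have hg0 : 0 ≤ ∑ k ∈ range L, y1 ^ (a * k) := Finset.sum_nonneg fun k _ => by positivity
    have h3 : (∑ k ∈ range L, y1 ^ (a * k)) * s0 ≤ Q y1 := mul_le_mul_of_nonneg_left hb hg0
    have h4 : 1 - y1 ^ a < (1 - (y1 ^ a) ^ L) * s0 := hN1 L (by omega)
    have h5 : 1 - y1 ^ a < (1 - y1 ^ a) * ((∑ k ∈ range L, y1 ^ (a * k)) * s0) := by
      rw [← mul_assoc, hgeo]; exact h4
    have h6 : 0 < 1 - y1 ^ a := by linarith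
    have h7 : 1 < (∑ k ∈ range L, y1 ^ (a * k)) * s0 := by
      by_contra hcon
      push Not at hcon
      nlinarith
    linarith
  have hivt := intermediate_value_Ioo hy1.le hcont.continuousOn
  obtain ⟨ρ, ⟨hρ1, hρ2⟩, hρ3⟩ := hivt ⟨hQy, hQy1⟩
  exact ⟨ρ, hρ1, hρ2.trans hy1ρ, hρ3⟩

theorem scalar_target (f Gs : PowerSeries (MonoidAlgebra ℤ G)) (hf : Nn f) (hf0 : coeff 0 f = 0)
   (hG1 : (1 - f) * Gs = 1) (hG2 : Gs * (1 - f) = 1) (Kf : ℕ) (hKf : ∀ k g, Kf ≤ k → 1 ≤ cf Gs k g)
   {y ρm : ℝ} (hy0 : 0 < y) (hyρ : y < ρm) (hρm : ρm < 1)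
   (hfs : HasSum (fun k => coeff k (au f) * y ^ k) 1) :
   ∃ (q u z : PowerSeries (MonoidAlgebra ℤ G)) (ρ κ : ℝ) (k₀ d : ℕ),
     Nn q ∧ coeff 0 q = 0 ∧ (∀ k, d ≤ k → coeff k q = 0) ∧ (∃ j h, 1 ≤ cf q j h) ∧
     (1 - q) * u = 1 ∧ u * (1 - q) = 1 ∧ Nn u ∧ Nn z ∧ (1 - f) * u = 1 - z ∧ y < ρ ∧ ρ < ρm ∧ 0 < κ ∧
     (∀ k, coeff k (au u) * ρ ^ k ≤ 1) ∧ ∀ k g, k₀ ≤ k → κ ≤ cf u k g * ρ ^ k ∧ κ ≤ cf z k g * ρ ^ k := by
  have hy1 : y < 1 := hyρ.trans hρm
  -- a first monomial
  have hcf0 : ∀ g, cf f 0 g = 0 := fun g => by unfold cf; rw [hf0]; simp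
  obtain ⟨a, g0, hag⟩ : ∃ a g0, 1 ≤ cf f a g0 := by
    by_contra hcon
    push Not at hcon
    have h1 : f = 0 := cf_ext fun k g => by rw [cf_zero]; have := hcon k g; have := hf k g; omega
    have h2 : HasSum (fun k => coeff k (au f) * y ^ k) 0 := by
      rw [h1, map_zero]; simp [hasSum_zero]
    have := hfs.unique h2
    exact one_ne_zero this
  have ha : 1 ≤ a := by
    rcases Nat.eq_zero_or_pos a with h | h
    · subst h; rw [hcf0] at hag; omega
    · exact h
  set c := mo a g0 with hc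
  set c' := f - c with hc'
  have hcc' : Nn c' := by
    intro k g
    rw [hc', cf_sub, hc, cf_mo]
    split_ifs with h
    · rw [h.1, h.2]; omega
    · have := hf k g; omega
  have hfc : f = c + c' := by rw [hc']; abel
  have haue : au c' = au f - X ^ a := by rw [hc', map_sub, hc, au_mo]
  set e : ℕ → ℝ := fun k => coeff k (au c') with he
  have he0 : ∀ k, 0 ≤ e k := au_nonneg hcc'
  have hes : HasSum (fun k => e k * y ^ k) (1 - y ^ a) := by
    have h1 : HasSum (fun k => (coeff k (X ^ a : PowerSeries ℝ)) * y ^ k) (y ^ a) := by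
      have := hasSum_ite_eq a (y ^ a)
      convert this using 2 with k
      rw [coeff_X_pow]
      split_ifs with h
      · rw [h, one_mul]
      · rw [zero_mul]
    have h2 := hfs.sub h1
    have h3 : (fun k => e k * y ^ k) = fun k => coeff k (au f) * y ^ k - coeff k (X ^ a : PowerSeries ℝ) * y ^ k := by
      funext k
      show coeff k (au c') * y ^ k = _
      rw [haue, map_sub, sub_mul]
    rw [h3]; exact h2
  obtain ⟨b, h0, hbh⟩ : ∃ b h0, 1 ≤ cf c' b h0 := by
    by_contra hcon
    push Not at hcon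
    have h1 : c' = 0 := cf_ext fun k g => by rw [cf_zero]; have := hcon k g; have := hcc' k g; omega
    have h2 : HasSum (fun k => coeff k (au c') * y ^ k) 0 := by
      rw [h1, map_zero]; simp [hasSum_zero]
    have := hes.unique h2
    have h3 : y ^ a < 1 := pow_lt_one₀ hy0.le hy1 (by omega)
    linarith
  have hcf0' : ∀ g, cf c' 0 g = 0 := by
    intro g
    rw [hc', cf_sub, hcf0, hc, cf_mo, if_neg (fun h => by omega), sub_zero]
  have hb : 1 ≤ b := by
    rcases Nat.eq_zero_or_pos b with h | h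
    · subst h; rw [hcf0'] at hbh; omega
    · exact h
  set K1 : ℕ := Kf + b with hK1
  obtain ⟨L, hL, ρ, hyρ', hρρm, hρ1⟩ := choose_level e he0 a ha hy0 hyρ hρm hes (2 * K1 + 2)
  have hρ0 : 0 < ρ := hy0.trans hyρ'
  have hρlt : ρ < 1 := hρρm.trans hρm
  set c1 := tru L c' with hc1
  set c2 := c' - c1 with hc2
  have hc1N : Nn c1 := by
    intro k g; rw [hc1, cf_tru]; split_ifs
    · exact hcc' k g
    · exact le_rfl
  have hc2N : Nn c2 := by
    intro k g; rw [hc2, cf_sub, hc1, cf_tru]; split_ifs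
    · rw [sub_self]
    · rw [sub_zero]; exact hcc' k g
  have hcN : Nn c := Nn.mo a g0
  set q := (∑ k ∈ range L, c ^ k) * c1 with hq
  have hqN : Nn q := (Nn.sum fun k _ => hcN.pow k).mul hc1N
  have hc10 : coeff 0 c1 = 0 := by
    ext g
    have : cf c1 0 g = 0 := by rw [hc1, cf_tru, hcf0', ite_self]
    exact this
  have hq0 : coeff 0 q = 0 := by rw [hq, coeff0_mul, hc10, mul_zero]
  have hgeo : (1 - c) * q = (1 - c ^ L) * c1 := by
    rw [hq, ← mul_assoc, mul_neg_geom_sum]
  have hf2 : 1 - f = (1 - c) * (1 - q) - (c ^ L * c1 + c2) := by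
    have : (1 - c) * (1 - q) = (1 - c) - (1 - c) * q := by rw [mul_sub, mul_one]
    rw [this, hgeo, hfc, sub_mul, one_mul, hc2]; abel
  obtain ⟨uu, huu⟩ := unit_of_coeff0 (1 - q) (by rw [map_sub, hq0, sub_zero, coeff_one, if_pos rfl])
  set u : PowerSeries (MonoidAlgebra ℤ G) := uu⁻¹.val with hu
  have hqu : (1 - q) * u = 1 := by rw [hu, ← huu]; exact uu.mul_inv
  have huq : u * (1 - q) = 1 := by rw [hu, ← huu]; exact uu.inv_mul
  have huN : Nn u := inv_Nn hqN hq0 hqu
  set E := c ^ L * c1 + c2 with hE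
  have hEN : Nn E := ((hcN.pow L).mul hc1N).add hc2N
  set z := c + E * u with hz
  have hzN : Nn z := hcN.add (hEN.mul huN)
  have hfz : (1 - f) * u = 1 - z := by
    rw [hf2, sub_mul, mul_assoc, hqu, mul_one, hz]; abel
  have hGN : Nn Gs := inv_Nn hf hf0 hG1
  -- E is divisible by X ^ L
  have hcL : c ^ L = mo (a * L) (g0 ^ L) := by rw [hc, mo_pow]
  have hELz : ∀ k g, k < L → cf E k g = 0 := by
    intro k g hk
    have haL : ¬ (a * L ≤ k) := by
      have : L ≤ a * L := Nat.le_mul_of_pos_left L ha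
      omega
    rw [hE, cf_add, hcL, cf_mo_mul, if_neg haL, hc2, cf_sub, hc1, cf_tru, if_pos hk, sub_self, add_zero]
  have hECg : Cg L E 0 := by
    intro k hk
    ext g
    rw [map_zero]
    exact hELz k g hk
  have hwin : ∀ k g, K1 ≤ k → k < L → 1 ≤ cf u k g := by
    intro k g hk1 hk2
    have e1 : Gs * (1 - c) = 1 + Gs * c' := by
      have : Gs * (1 - f) = Gs * (1 - c) - Gs * c' := by rw [← mul_sub, hfc]; congr 1; abel
      rw [hG2] at this
      exact sub_eq_iff_eq_add.mp this.symm
    have e2 : Gs * (1 - c) = u + Gs * E * u := by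
      have h1 : Gs * ((1 - c) * (1 - q)) = 1 + Gs * E := by
        have : (1 - c) * (1 - q) = (1 - f) + E := by rw [hf2]; abel
        rw [this, mul_add, hG2]
      calc Gs * (1 - c) = Gs * ((1 - c) * (1 - q)) * u := by rw [mul_assoc, mul_assoc, hqu, mul_one]
        _ = _ := by rw [h1, add_mul, one_mul]
    have e3 : cf (Gs * E * u) k g = 0 := by
      have h1 : Cg L (Gs * E * u) 0 := by
        have := ((Cg.refl L Gs).mul hECg).mul (Cg.refl L u)
        simpa using this
      unfold cf
      rw [h1 k hk2]; simp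
    have e4 : cf u k g = cf (1 : PowerSeries (MonoidAlgebra ℤ G)) k g + cf (Gs * c') k g := by
      have h1 : u = 1 + Gs * c' - Gs * E * u := by rw [← e1, e2]; abel
      conv_lhs => rw [h1]
      rw [cf_sub, cf_add, e3, sub_zero]
    rw [e4]
    have e5 := cf_mul_ge'' hGN hcc' (show b ≤ k by omega) h0 g
    have e6 := hKf (k - b) (g * h0⁻¹) (by omega)
    have e7 := Nn.one k g
    nlinarith
  have hall : ∀ k g, K1 ≤ k → 1 ≤ cf u k g := by
    intro k
    induction k using Nat.strong_induction_on with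
    | _ k ih =>
      intro g hk
      rcases Nat.lt_or_ge k L with h | h
      · exact hwin k g hk h
      · have h1 := inv_super hqN hq0 hqu K1 (k - K1) 1 g
        rw [one_mul, Nat.add_sub_cancel' hk] at h1
        have h2 := hwin K1 1 le_rfl (by omega)
        have h3 := ih (k - K1) (by omega) g (by omega)
        nlinarith
  -- the polynomial of q
  set d : ℕ := a * L + L with hd
  have hqd : ∀ k, d ≤ k → coeff k q = 0 := by
    intro k hk
    ext g
    show cf q k g = _
    rw [hq, Finset.sum_mul, cf_sum]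
    rw [Finset.sum_eq_zero]
    · simp
    · intro i hi
      rw [Finset.mem_range] at hi
      rw [hc, mo_pow, cf_mo_mul]
      split_ifs with h
      · rw [hc1, cf_tru, if_neg]
        have : a * i ≤ a * L := Nat.mul_le_mul_left a hi.le
        omega
      · rfl
  set Qp : Polynomial ℝ := (∑ k ∈ range L, Polynomial.X ^ (a * k)) * (∑ k ∈ range L, Polynomial.C (e k) * Polynomial.X ^ k) with hQp
  have hQpq : ∀ k, Qp.coeff k = coeff k (au q) := by
    intro k
    rw [← Polynomial.coeff_coe]
    congr 1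
    rw [hQp, hq, map_mul, map_sum, Polynomial.coe_mul]
    congr 1
    · rw [← Polynomial.coeToPowerSeries.ringHom_apply, map_sum]
      apply Finset.sum_congr rfl
      intro k _
      rw [hc, mo_pow, au_mo, Polynomial.coeToPowerSeries.ringHom_apply, Polynomial.coe_pow, Polynomial.coe_X]
    · ext k
      rw [← Polynomial.coeToPowerSeries.ringHom_apply, map_sum, map_sum]
      have h1 : coeff k (au c1) = if k < L then e k else 0 := by
        rw [coeff_au]
        simp only [he, coeff_au, hc1, cf_tru]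
        split_ifs <;> simp
      rw [h1]
      have h2 : ∀ j ∈ range L, coeff k (Polynomial.coeToPowerSeries.ringHom (Polynomial.C (e j) * Polynomial.X ^ j) : PowerSeries ℝ) =
          if k = j then e j else 0 := by
        intro j _
        rw [Polynomial.coeToPowerSeries.ringHom_apply, Polynomial.coeff_coe, Polynomial.coeff_C_mul, Polynomial.coeff_X_pow]
        split_ifs <;> simp
      rw [Finset.sum_congr rfl h2, Finset.sum_ite_eq]
      simp only [Finset.mem_range]
  have hQp1 : Qp.eval ρ = 1 := by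
    rw [hQp, Polynomial.eval_mul, Polynomial.eval_finset_sum, Polynomial.eval_finset_sum]
    simp only [Polynomial.eval_mul, Polynomial.eval_C, Polynomial.eval_pow, Polynomial.eval_X]
    exact hρ1
  have hsum1 : ∑ j ∈ range d, coeff j (au q) * ρ ^ j = 1 := by
    rw [← hQp1, Polynomial.eval_eq_sum_range' (n := d)]
    · apply Finset.sum_congr rfl
      intro j _
      rw [hQpq]
    · by_contra hcon
      push Not at hcon
      have h1 : Qp.coeff Qp.natDegree = 0 := by
        rw [hQpq, coeff_au]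
        apply Finset.sum_eq_zero
        intro g _
        have : cf q Qp.natDegree g = 0 := by unfold cf; rw [hqd _ hcon]; simp
        rw [this]; simp
      have h2 : Qp = 0 := Polynomial.leadingCoeff_eq_zero.mp h1
      rw [h2, Polynomial.eval_zero] at hQp1
      exact zero_ne_one hQp1
  -- renewal
  have hren := renewal (fun j => coeff j (au q) * ρ ^ j) (fun j => coeff j (au u) * ρ ^ j) d
    (fun j => mul_nonneg (au_nonneg hqN j) (by positivity))
    (by
      show coeff 0 (au q) * ρ ^ 0 = 0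
      rw [coeff_au]
      have : ∀ g, cf q 0 g = 0 := fun g => by unfold cf; rw [hq0]; simp
      rw [Finset.sum_eq_zero (fun g _ => by rw [this]; simp), zero_mul])
    (fun j hj => by
      show coeff j (au q) * ρ ^ j = 0
      rw [coeff_au]
      have : ∀ g, cf q j g = 0 := fun g => by unfold cf; rw [hqd j hj]; simp
      rw [Finset.sum_eq_zero (fun g _ => by rw [this]; simp), zero_mul]) hsum1 (fun j => mul_nonneg (au_nonneg huN j) (by positivity))
    (au_inv_rescale ρ hqu)
  obtain ⟨hW1, hW2⟩ := hren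
  have hd0 : 0 < d := by
    rw [hd]; omega
  have hcG := card_pos' (G := G)
  set κ0 : ℝ := ρ ^ (K1 + d) / (d * Fintype.card G) with hκ0
  have hκ00 : 0 < κ0 := by
    have : (0 : ℝ) < d := by exact_mod_cast hd0
    rw [hκ0]; positivity
  have hlow : ∀ k g, K1 ≤ k → κ0 ≤ cf u k g * ρ ^ k := by
    intro k g hk
    obtain ⟨i, hi1, hi2, hi3⟩ := hW2 (k - K1)
    have hd' : (0 : ℝ) < d := by exact_mod_cast hd0
    -- a group element with large coefficient
    obtain ⟨g', hg'⟩ : ∃ g', 1 / ((d : ℝ) * Fintype.card G) ≤ cf u (k - K1 - i) g' * ρ ^ (k - K1 - i) := by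
      by_contra hcon
      push Not at hcon
      have h1 : coeff (k - K1 - i) (au u) * ρ ^ (k - K1 - i) < 1 / (d : ℝ) := by
        rw [coeff_au, Finset.sum_mul]
        calc ∑ g, (cf u (k - K1 - i) g : ℝ) * ρ ^ (k - K1 - i) < ∑ g : G, 1 / ((d : ℝ) * Fintype.card G) :=
              Finset.sum_lt_sum_of_nonempty Finset.univ_nonempty (fun g _ => hcon g)
          _ = 1 / (d : ℝ) := by
            rw [Finset.sum_const, Finset.card_univ, nsmul_eq_mul]
            field_simp
      linarith
    have h1 := inv_super hqN hq0 hqu (k - K1 - i) (K1 + i) g' (g'⁻¹ * g)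
    rw [mul_inv_cancel_left] at h1
    have e1 : k - K1 - i + (K1 + i) = k := by omega
    rw [e1] at h1
    have h2 := hall (K1 + i) (g'⁻¹ * g) (by omega)
    have h3 : cf u (k - K1 - i) g' ≤ cf u k g := by
      have := huN (k - K1 - i) g'
      nlinarith
    have h3' : (cf u (k - K1 - i) g' : ℝ) ≤ cf u k g := by exact_mod_cast h3
    have e2 : ρ ^ k = ρ ^ (k - K1 - i) * ρ ^ (K1 + i) := by rw [← pow_add, e1]
    have h4 : ρ ^ (K1 + d) ≤ ρ ^ (K1 + i) := pow_le_pow_of_le_one hρ0.le hρlt.le (by omega)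
    calc κ0 = 1 / ((d : ℝ) * Fintype.card G) * ρ ^ (K1 + d) := by rw [hκ0]; ring
      _ ≤ (cf u (k - K1 - i) g' * ρ ^ (k - K1 - i)) * ρ ^ (K1 + i) := by
        apply mul_le_mul hg' h4 (by positivity)
        exact mul_nonneg (by exact_mod_cast huN _ _) (by positivity)
      _ ≤ (cf u k g * ρ ^ (k - K1 - i)) * ρ ^ (K1 + i) := by
        apply mul_le_mul_of_nonneg_right _ (by positivity)
        exact mul_le_mul_of_nonneg_right h3' (by positivity)
      _ = cf u k g * ρ ^ k := by rw [e2]; ring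
  have hbL : b < L := by omega
  -- lower bound for z
  set m : ℕ := a * L + b with hm
  have hlowz : ∀ k g, K1 + m ≤ k → κ0 * ρ ^ m ≤ cf z k g * ρ ^ k := by
    intro k g hk
    have h1 : cf u (k - m) ((g0 ^ L * h0)⁻¹ * g) ≤ cf z k g := by
      have e1 : 1 ≤ cf E m (g0 ^ L * h0) := by
        rw [hE, cf_add, hcL, cf_mo_mul, if_pos (by omega), hc1, cf_tru]
        have e2 : m - a * L = b := by omega
        rw [e2, if_pos hbL, inv_mul_cancel_left]
        have := hc2N m (g0 ^ L * h0)
        omega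
      have e3 := cf_mul_ge' hEN huN (show m ≤ k by omega) (g0 ^ L * h0) g
      have e4 : cf (E * u) k g ≤ cf z k g := by
        rw [hz, cf_add]
        have := hcN k g
        omega
      have e5 := huN (k - m) ((g0 ^ L * h0)⁻¹ * g)
      nlinarith
    have h1' : (cf u (k - m) ((g0 ^ L * h0)⁻¹ * g) : ℝ) ≤ cf z k g := by exact_mod_cast h1
    have h2 := hlow (k - m) ((g0 ^ L * h0)⁻¹ * g) (by omega)
    have e2 : ρ ^ k = ρ ^ (k - m) * ρ ^ m := by rw [← pow_add]; congr 1; omega
    calc κ0 * ρ ^ m ≤ (cf u (k - m) ((g0 ^ L * h0)⁻¹ * g) * ρ ^ (k - m)) * ρ ^ m := mul_le_mul_of_nonneg_right h2 (by positivity)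
      _ ≤ (cf z k g * ρ ^ (k - m)) * ρ ^ m := by
        apply mul_le_mul_of_nonneg_right _ (by positivity)
        exact mul_le_mul_of_nonneg_right h1' (by positivity)
      _ = cf z k g * ρ ^ k := by rw [e2]; ring
  refine ⟨q, u, z, ρ, κ0 * ρ ^ m, K1 + m, d, hqN, hq0, hqd, ⟨b, h0, ?_⟩, hqu, huq, huN, hzN, hfz, hyρ', hρρm,
    by positivity, hW1, fun k g hk => ⟨?_, hlowz k g hk⟩⟩
  · rw [hq, Finset.sum_mul, cf_sum]
    have h1 : cf (c ^ 0 * c1) b h0 ≤ ∑ i ∈ range L, cf (c ^ i * c1) b h0 :=
      Finset.single_le_sum (f := fun i => cf (c ^ i * c1) b h0) (fun i _ => ((hcN.pow i).mul hc1N) b h0)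
        (Finset.mem_range.mpr (by omega))
    rw [pow_zero, one_mul, hc1, cf_tru, if_pos hbL] at h1
    exact hbh.trans h1
  · refine le_trans ?_ (hlow k g (by omega))
    exact mul_le_of_le_one_right hκ00.le (pow_le_one₀ hρ0.le hρlt.le)

end tgt

end Pool.Agent.W717.G
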