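import Mathlib
import Pool.Agent.W717.G.Tgt1
import Pool.Agent.W717.G.Abs
import Pool.Agent.W717.G.Mat

set_option autoImplicit false
set_option linter.all false

namespace Pool.Agent.W717.G

open Finset PowerSeries Filter Topology

section bdw

variable {A : Type*} [NormedRing A]

/-- strong times weak -/
theorem bd_weak {ρ : ℝ} (hρ : 0 ≤ ρ) {f g : PowerSeries A} {c d : ℝ} (hd : 0 ≤ d) (hf : Bd ρ f c) (hg : ∀ k, ‖coeff k g‖ * ρ ^ k ≤ d) (k : ℕ) :
    ‖coeff k (f * g)‖ * ρ ^ k ≤ c * d := by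
  rw [coeff_mul, Finset.Nat.sum_antidiagonal_eq_sum_range_succ_mk]
  calc ‖∑ j ∈ range (k + 1), coeff j f * coeff (k - j) g‖ * ρ ^ k ≤ (∑ j ∈ range (k + 1), ‖coeff j f‖ * ‖coeff (k - j) g‖) * ρ ^ k := by
        apply mul_le_mul_of_nonneg_right _ (by positivity)
        exact (norm_sum_le _ _).trans (Finset.sum_le_sum fun j _ => norm_mul_le _ _)
    _ = ∑ j ∈ range (k + 1), (‖coeff j f‖ * ρ ^ j) * (‖coeff (k - j) g‖ * ρ ^ (k - j)) := by
        rw [Finset.sum_mul]
        apply Finset.sum_congr rfl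
        intro j hj
        rw [Finset.mem_range] at hj
        have : ρ ^ k = ρ ^ j * ρ ^ (k - j) := by rw [← pow_add]; congr 1; omega
        rw [this]; ring
    _ ≤ ∑ j ∈ range (k + 1), (‖coeff j f‖ * ρ ^ j) * d :=
        Finset.sum_le_sum fun j _ => mul_le_mul_of_nonneg_left (hg _) (by positivity)
    _ = (∑ j ∈ range (k + 1), ‖coeff j f‖ * ρ ^ j) * d := by rw [Finset.sum_mul]
    _ ≤ c * d := mul_le_mul_of_nonneg_right (hf _) hd

end bdw

section tgt2

variable {ι G : Type} [Fintype ι] [DecidableEq ι] [Group G] [Fintype G] [DecidableEq G]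

/-- from integral to real matrix series -/
noncomputable def Phi : PowerSeries (Matrix ι ι (MonoidAlgebra ℤ G)) →+* PowerSeries (Matrix ι ι (MonoidAlgebra ℝ G)) :=
  PowerSeries.map iZ

theorem coeff_Phi (M : PowerSeries (Matrix ι ι (MonoidAlgebra ℤ G))) (k : ℕ) : coeff k (Phi M) = iZ (coeff k M) := by
  unfold Phi; rw [PowerSeries.coeff_map]

theorem norm_iZ_le (a : Matrix ι ι (MonoidAlgebra ℤ G)) (c : ℝ) (h : ∀ i j g, |((a i j).coeff g : ℝ)| ≤ c) :
    ‖iZ a‖ ≤ Fintype.card ι * (Fintype.card ι * (Fintype.card G * c)) := by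
  refine (norm_le_sum _).trans ?_
  calc ∑ i, ∑ j, ∑ g, |((iZ a) i j).coeff g| ≤ ∑ i : ι, ∑ j : ι, ∑ g : G, c := by
        apply Finset.sum_le_sum; intro i _
        apply Finset.sum_le_sum; intro j _
        apply Finset.sum_le_sum; intro g _
        rw [coeff_iZ]; exact h i j g
    _ = _ := by simp [Finset.sum_const]

/-- nonnegative matrix series -/
def NnM (M : PowerSeries (Matrix ι ι (MonoidAlgebra ℤ G))) : Prop := ∀ i j, Nn (en M i j)

theorem NnM.add {M N : PowerSeries (Matrix ι ι (MonoidAlgebra ℤ G))} (hM : NnM M) (hN : NnM N) : NnM (M + N) := fun i j => by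
  rw [en_add]; exact (hM i j).add (hN i j)
theorem NnM.mul {M N : PowerSeries (Matrix ι ι (MonoidAlgebra ℤ G))} (hM : NnM M) (hN : NnM N) : NnM (M * N) := fun i j => by
  rw [en_mul]; exact Nn.sum fun k _ => (hM i k).mul (hN k j)
theorem NnM.one : NnM (1 : PowerSeries (Matrix ι ι (MonoidAlgebra ℤ G))) := fun i j => by
  rw [en_one]; split_ifs
  · exact Nn.one
  · exact Nn.zero
theorem NnM_sc (s : ι) {f : PowerSeries (MonoidAlgebra ℤ G)} (hf : Nn f) : NnM (sc s f) := fun i j => by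
  rw [en_sc]; split_ifs
  · exact hf
  · exact Nn.zero
theorem NnM_sub_e (s : ι) : NnM (1 - sc s 1 : PowerSeries (Matrix ι ι (MonoidAlgebra ℤ G))) := fun i j => by
  rw [en_sub, en_one, en_sc]
  by_cases hi : i = j
  · by_cases hs : i = s
    · rw [if_pos hi, if_pos ⟨hs, hi ▸ hs⟩, sub_self]; exact Nn.zero
    · rw [if_pos hi, if_neg (fun h => hs h.1), sub_zero]; exact Nn.one
  · rw [if_neg hi, if_neg (fun h => hi (h.1.trans h.2.symm)), sub_zero]; exact Nn.zero
theorem NnM_C {a : Matrix ι ι (MonoidAlgebra ℤ G)} (ha : ∀ i j g, 0 ≤ (a i j).coeff g) : NnM (PowerSeries.C a) := fun i j k g => by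
  rw [en_C]
  unfold cf
  rw [coeff_C]
  split_ifs
  · exact ha i j g
  · simp
theorem NnM_X : NnM (X : PowerSeries (Matrix ι ι (MonoidAlgebra ℤ G))) := by
  have h1 : (X : PowerSeries (Matrix ι ι (MonoidAlgebra ℤ G))) = 1 * X := by rw [one_mul]
  intro i j k g
  rw [h1, en_mul_X, en_one]
  unfold cf
  rcases k with _ | k
  · rw [coeff_zero_mul_X]; simp
  · rw [coeff_succ_mul_X]
    split_ifs
    · exact Nn.one k g
    · simp
theorem pow_nonneg_mat {a : Matrix ι ι (MonoidAlgebra ℤ G)} (ha : ∀ i j g, 0 ≤ (a i j).coeff g) (k : ℕ) (i j : ι) (g : G) :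
    0 ≤ ((a ^ k) i j).coeff g := by
  induction k generalizing i j g with
  | zero =>
    rw [pow_zero, Matrix.one_apply]
    split_ifs
    · rw [MonoidAlgebra.one_def, MonoidAlgebra.coeff_single, Finsupp.single_apply]; split_ifs <;> norm_num
    · simp
  | succ k ih =>
    rw [pow_succ, coeff_mul_mat]
    exact Finset.sum_nonneg fun l _ => Finset.sum_nonneg fun h _ => mul_nonneg (ih _ _ _) (ha _ _ _)
theorem NnM_geo {a : Matrix ι ι (MonoidAlgebra ℤ G)} (ha : ∀ i j g, 0 ≤ (a i j).coeff g) :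
    NnM (PowerSeries.mk fun k => a ^ k) := fun i j k g => by
  unfold cf
  rw [coeff_en, coeff_mk]
  exact pow_nonneg_mat ha k i j g

theorem cf_X_pow_mul (m : ℕ) (f : PowerSeries (MonoidAlgebra ℤ G)) (k : ℕ) (g : G) :
    cf (X ^ m * f) k g = if m ≤ k then cf f (k - m) g else 0 := by
  unfold cf
  rw [coeff_X_pow_mul']
  split_ifs
  · rfl
  · simp

/-- eventual lower bound -/
def LB (ρ κ : ℝ) (k₀ : ℕ) (x : PowerSeries (MonoidAlgebra ℤ G)) : Prop := ∀ k g, k₀ ≤ k → κ ≤ cf x k g * ρ ^ k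

theorem LB.mono {ρ κ κ' : ℝ} {k₀ k₁ : ℕ} {x : PowerSeries (MonoidAlgebra ℤ G)} (h : LB ρ κ k₀ x) (h1 : κ' ≤ κ) (h2 : k₀ ≤ k₁) :
    LB ρ κ' k₁ x := fun k g hk => h1.trans (h k g (h2.trans hk))

theorem LB.mul_q {ρ κ : ℝ} (hρ : 0 < ρ) {k₀ : ℕ} {x q : PowerSeries (MonoidAlgebra ℤ G)} (h : LB ρ κ k₀ x) (hx : Nn x) (hq : Nn q)
    {j : ℕ} {h0 : G} (hj : 1 ≤ cf q j h0) : LB ρ (κ * ρ ^ j) (k₀ + j) (x * q) := by
  intro k g hk
  have h1 := cf_mul_ge'' hx hq (show j ≤ k by omega) h0 g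
  have h2 : cf x (k - j) (g * h0⁻¹) ≤ cf (x * q) k g := by
    have := hx (k - j) (g * h0⁻¹)
    nlinarith
  have h2' : (cf x (k - j) (g * h0⁻¹) : ℝ) ≤ cf (x * q) k g := by exact_mod_cast h2
  have h3 := h (k - j) (g * h0⁻¹) (by omega)
  have e2 : ρ ^ k = ρ ^ (k - j) * ρ ^ j := by rw [← pow_add]; congr 1; omega
  calc κ * ρ ^ j ≤ (cf x (k - j) (g * h0⁻¹) * ρ ^ (k - j)) * ρ ^ j := mul_le_mul_of_nonneg_right h3 (by positivity)
    _ ≤ (cf (x * q) k g * ρ ^ (k - j)) * ρ ^ j := by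
      apply mul_le_mul_of_nonneg_right _ (by positivity)
      exact mul_le_mul_of_nonneg_right h2' (by positivity)
    _ = cf (x * q) k g * ρ ^ k := by rw [e2]; ring

theorem LB.X_pow {ρ κ : ℝ} (hρ : 0 < ρ) {k₀ : ℕ} {x : PowerSeries (MonoidAlgebra ℤ G)} (h : LB ρ κ k₀ x) (m : ℕ) :
    LB ρ (κ * ρ ^ m) (k₀ + m) (X ^ m * x) := by
  intro k g hk
  rw [cf_X_pow_mul, if_pos (by omega)]
  have h3 := h (k - m) g (by omega)
  have e2 : ρ ^ k = ρ ^ (k - m) * ρ ^ m := by rw [← pow_add]; congr 1; omega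
  rw [e2, ← mul_assoc]
  exact mul_le_mul_of_nonneg_right h3 (by positivity)

/-- boundedness of augmented entries -/
theorem bd_au {ρ c : ℝ} (hρ : 0 ≤ ρ) {M : PowerSeries (Matrix ι ι (MonoidAlgebra ℤ G))} (h : Bd ρ (Phi M) c) (i j : ι) :
    Bd ρ (au (en M i j)) (Fintype.card G * c) := by
  intro K
  calc ∑ k ∈ range K, ‖coeff k (au (en M i j))‖ * ρ ^ k ≤ ∑ k ∈ range K, Fintype.card G * (‖coeff k (Phi M)‖ * ρ ^ k) := by
        apply Finset.sum_le_sum
        intro k _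
        rw [← mul_assoc]
        apply mul_le_mul_of_nonneg_right _ (by positivity)
        rw [coeff_au, Real.norm_eq_abs]
        refine (Finset.abs_sum_le_sum_abs _ _).trans ?_
        calc ∑ g, |(cf (en M i j) k g : ℝ)| ≤ ∑ g : G, ‖coeff k (Phi M)‖ := by
              apply Finset.sum_le_sum
              intro g _
              have := coeff_le_norm (coeff k (Phi M)) i j g
              rw [coeff_Phi, coeff_iZ] at this
              unfold cf
              rw [coeff_en, coeff_Phi]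
              exact this
          _ = _ := by rw [Finset.sum_const, Finset.card_univ, nsmul_eq_mul]
    _ = Fintype.card G * ∑ k ∈ range K, ‖coeff k (Phi M)‖ * ρ ^ k := by rw [Finset.mul_sum]
    _ ≤ _ := mul_le_mul_of_nonneg_left (h K) (Nat.cast_nonneg _)

/-- row of ones off the diagonal -/
noncomputable def rr (s : ι) : Matrix ι ι (MonoidAlgebra ℤ G) := Matrix.of fun i j => if i = s ∧ j ≠ s then 1 else 0
/-- column of ones off the diagonal -/
noncomputable def rc (s : ι) : Matrix ι ι (MonoidAlgebra ℤ G) := Matrix.of fun i j => if i ≠ s ∧ j = s then 1 else 0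

theorem coeff_one_nonneg (g : G) : 0 ≤ ((1 : MonoidAlgebra ℤ G)).coeff g := by
  rw [MonoidAlgebra.one_def, MonoidAlgebra.coeff_single, Finsupp.single_apply]; split_ifs <;> norm_num

theorem rr_nonneg (s i j : ι) (g : G) : 0 ≤ ((rr s : Matrix ι ι (MonoidAlgebra ℤ G)) i j).coeff g := by
  unfold rr; rw [Matrix.of_apply]; split_ifs
  · exact coeff_one_nonneg g
  · simp
theorem rc_nonneg (s i j : ι) (g : G) : 0 ≤ ((rc s : Matrix ι ι (MonoidAlgebra ℤ G)) i j).coeff g := by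
  unfold rc; rw [Matrix.of_apply]; split_ifs
  · exact coeff_one_nonneg g
  · simp

theorem en_rr (s i j : ι) : en (C (rr s) : PowerSeries (Matrix ι ι (MonoidAlgebra ℤ G))) i j = if i = s ∧ j ≠ s then 1 else 0 := by
  rw [en_C]; unfold rr; rw [Matrix.of_apply]; split_ifs <;> simp
theorem en_rc (s i j : ι) : en (C (rc s) : PowerSeries (Matrix ι ι (MonoidAlgebra ℤ G))) i j = if i ≠ s ∧ j = s then 1 else 0 := by
  rw [en_C]; unfold rc; rw [Matrix.of_apply]; split_ifs <;> simp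

theorem e_rr (s : ι) : sc s 1 * C (rr s) = (C (rr s) : PowerSeries (Matrix ι ι (MonoidAlgebra ℤ G))) := by
  apply en_ext; intro i j
  rw [en_e_mul, en_rr, en_rr]
  by_cases hi : i = s
  · simp [hi]
  · simp [hi]
theorem rr_e (s : ι) : C (rr s) * sc s 1 = (0 : PowerSeries (Matrix ι ι (MonoidAlgebra ℤ G))) := by
  apply en_ext; intro i j
  rw [en_mul_e, en_rr, en_zero]
  simp
theorem e_rc (s : ι) : sc s 1 * C (rc s) = (0 : PowerSeries (Matrix ι ι (MonoidAlgebra ℤ G))) := by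
  apply en_ext; intro i j
  rw [en_e_mul, en_rc, en_zero]
  simp
theorem rc_e (s : ι) : C (rc s) * sc s 1 = (C (rc s) : PowerSeries (Matrix ι ι (MonoidAlgebra ℤ G))) := by
  apply en_ext; intro i j
  rw [en_mul_e, en_rc, en_rc]
  by_cases hj : j = s
  · simp [hj]
  · simp [hj]

theorem en_E1 (s : ι) (q : PowerSeries (MonoidAlgebra ℤ G)) (i j : ι) :
    en (sc s 1 + sc s q * C (rr s)) i j = if i = s then (if j = s then 1 else q) else 0 := by
  rw [en_add, en_mul, Finset.sum_eq_single s]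
  · rw [en_sc, en_sc, en_rr]
    by_cases hi : i = s
    · by_cases hj : j = s
      · simp [hi, hj]
      · simp [hi, hj]
    · simp [hi]
  · intro k _ hk
    rw [en_sc, if_neg (fun h => hk h.2), zero_mul]
  · intro h; exact absurd (Finset.mem_univ _) h

end tgt2

end Pool.Agent.W717.G
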