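import Mathlib
import Pool.Agent.W717.G.Prim
import Pool.Agent.W717.G.Tgt2

set_option autoImplicit false
set_option linter.all false

namespace Pool.Agent.W717.G

open Finset PowerSeries

section toM

variable {R : Type} [Ring R] {ι : Type} [Fintype ι] [DecidableEq ι]

/-- matrices of power series from power series of matrices -/
noncomputable def toM (M : PowerSeries (Matrix ι ι R)) : Matrix ι ι (PowerSeries R) := Matrix.of fun i j => en M i j

theorem toM_apply (M : PowerSeries (Matrix ι ι R)) (i j : ι) : toM M i j = en M i j := rfl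

theorem toM_mul (M N : PowerSeries (Matrix ι ι R)) : toM (M * N) = toM M * toM N := by
  ext1 i j
  rw [toM_apply, en_mul, Matrix.mul_apply]
  rfl

theorem toM_one : toM (1 : PowerSeries (Matrix ι ι R)) = 1 := by
  ext1 i j
  rw [toM_apply, en_one, Matrix.one_apply]

theorem toM_sub (M N : PowerSeries (Matrix ι ι R)) : toM (M - N) = toM M - toM N := by
  ext1 i j
  rw [toM_apply, en_sub, Matrix.sub_apply]
  rfl

theorem toM_lin (B : Matrix ι ι R) : toM (1 - C B * X) = lin B := by
  unfold lin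
  rw [toM_sub, toM_one]
  congr 1
  ext1 i j
  rw [toM_apply, en_mul_X, en_C]
  rfl

theorem cm_toM (M : PowerSeries (Matrix ι ι R)) (k : ℕ) : cm k (toM M) = coeff k M := by
  ext1 i j
  rw [cm_apply, toM_apply, coeff_en]

theorem FM_toM {M : PowerSeries (Matrix ι ι R)} (h : Fin' M) : FM (toM M) := by
  obtain ⟨d, hd⟩ := h
  exact ⟨d, fun k hk => by rw [cm_toM, hd k hk]⟩

theorem CE_units (B : Matrix ι ι R) (Y W : (PowerSeries (Matrix ι ι R))ˣ) (hY : Fin' Y.val ∧ Fin' Y⁻¹.val)
    (hW : Fin' W.val ∧ Fin' W⁻¹.val) : CE (lin B) (toM (Y.val * (1 - C B * X) * W.val)) := by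
  refine ⟨toM Y.val, toM W⁻¹.val, toM Y⁻¹.val, toM W.val, 0, 0, ⟨FM_toM hY.1, FM_toM hW.2, FM_toM hY.2, FM_toM hW.1, FM_zero, FM_zero⟩,
    ?_, ?_, ?_, ?_⟩
  · rw [← toM_lin, ← toM_mul, ← toM_mul, mul_assoc (Y.val * _), Units.mul_inv, mul_one]
  · rw [← toM_lin, ← toM_mul, ← toM_mul, mul_assoc, ← mul_assoc, Units.inv_mul, one_mul]
  · rw [← toM_mul, Units.inv_mul, toM_one, Matrix.mul_zero, add_zero]
  · rw [← toM_mul, Units.mul_inv, toM_one, Matrix.mul_zero, add_zero]

end toM

section trunc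

variable {ι G : Type} [Fintype ι] [DecidableEq ι] [Nonempty ι] [Group G] [Fintype G] [DecidableEq G]

/-- truncation -/
noncomputable def tru' (n : ℕ) (f : PowerSeries (MonoidAlgebra ℤ G)) : PowerSeries (MonoidAlgebra ℤ G) :=
  PowerSeries.mk fun k => if k ≤ n then coeff k f else 0

theorem coeff_tru' (n : ℕ) (f : PowerSeries (MonoidAlgebra ℤ G)) (k : ℕ) : coeff k (tru' n f) = if k ≤ n then coeff k f else 0 := by
  rw [tru', coeff_mk]

theorem cf_tru' (n : ℕ) (f : PowerSeries (MonoidAlgebra ℤ G)) (k : ℕ) (g : G) : cf (tru' n f) k g = if k ≤ n then cf f k g else 0 := by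
  unfold cf
  rw [coeff_tru']
  split_ifs
  · rfl
  · simp

theorem trunc_main (B : Matrix ι ι (MonoidAlgebra ℤ G)) (s : ι) (Y W : (PowerSeries (Matrix ι ι (MonoidAlgebra ℤ G)))ˣ)
    (q : PowerSeries (MonoidAlgebra ℤ G)) (dq K : ℕ) (Z : PowerSeries (Matrix ι ι (MonoidAlgebra ℤ G)))
    (hY : Fin' Y.val ∧ Fin' Y⁻¹.val) (hW : Fin' W.val ∧ Fin' W⁻¹.val) (hq : Nn q) (hq0 : coeff 0 q = 0)
    (hqd : ∀ k, dq < k → coeff k q = 0) (hqh : ∃ h, 1 ≤ cf q dq h) (hZ : NnM Z) (hZ0 : coeff 0 Z = 0)
    (hZK : ∀ k i j g, K ≤ k → 1 ≤ cf (en Z i j) k g)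
    (hM : Y.val * (1 - C B * X) * W.val = (1 - Z) * (1 - sc s q * (sc s 1 + C (rr s)))) :
    ∃ (d : ℕ) (T : Matrix (ι ⊕ ι) (ι ⊕ ι) (PowerSeries (MonoidAlgebra ℤ G))), 0 < d ∧ CE (lin B) (lin (compn d T)) ∧
      Nm (compn d T) ∧ ∃ p, 0 < p ∧ ∀ x y, Rf (compn d T) p x y := by
  obtain ⟨h0, hh0⟩ := hqh
  have hdq : 0 < dq := by
    rcases Nat.eq_zero_or_pos dq with h | h
    · exfalso
      rw [h] at hh0
      unfold cf at hh0
      rw [hq0] at hh0
      simp at hh0
    · exact h
  set Q : Matrix ι ι (PowerSeries (MonoidAlgebra ℤ G)) := Matrix.of fun i j => if i = s then q else 0 with hQ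
  have hQ1 : toM (sc s q * (sc s 1 + C (rr s))) = Q := by
    ext1 i j
    rw [toM_apply, hQ, Matrix.of_apply, en_mul, Finset.sum_eq_single s]
    · rw [en_sc, en_add, en_sc, en_rr]
      by_cases hi : i = s
      · by_cases hj : j = s
        · simp [hi, hj]
        · simp [hi, hj]
      · simp [hi]
    · intro t _ ht
      rw [en_sc, if_neg (fun h => ht h.2), zero_mul]
    · intro h; exact absurd (Finset.mem_univ _) h
  have hMf : Fin' (Y.val * (1 - C B * X) * W.val) := by
    apply (hY.1.mul _).mul hW.1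
    have := (Fin'.one (A := Matrix ι ι (MonoidAlgebra ℤ G))).sub (Fin'.mono B 1)
    rwa [pow_one] at this
  obtain ⟨D, hD⟩ := hMf
  set n1 : ℕ := 2 * (K + 1) + D + dq with hn1
  set N : Matrix ι ι (PowerSeries (MonoidAlgebra ℤ G)) := Matrix.of fun i j => tru' n1 (en Z i j) with hN
  set M' := toM (Y.val * (1 - C B * X) * W.val) with hM'
  have hM1 : M' = (1 - toM Z) * (1 - Q) := by
    rw [hM', hM, toM_mul, toM_sub, toM_sub, toM_one, hQ1]
  set g := (1 - N) * (1 - Q) - M' with hg
  have hgl : ∀ k, k ≤ n1 → cm k g = 0 := by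
    intro k hk
    have e1 : g = (toM Z - N) * (1 - Q) := by rw [hg, hM1]; noncomm_ring
    rw [e1, cm_mul]
    apply Finset.sum_eq_zero
    intro y hy
    rw [Finset.HasAntidiagonal.mem_antidiagonal] at hy
    have e2 : cm y.1 (toM Z - N) = 0 := by
      ext1 i j
      rw [cm_sub, Matrix.sub_apply, cm_apply, cm_apply, toM_apply, hN, Matrix.of_apply, coeff_tru', if_pos (by omega), sub_self,
        Matrix.zero_apply]
    rw [e2, Matrix.zero_mul]
  have hgh : ∀ k, n1 < k → cm k g = cm k (N * Q) := by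
    intro k hk
    have e1 : g = 1 - N - Q + N * Q - M' := by rw [hg]; noncomm_ring
    rw [e1, cm_sub, cm_add, cm_sub, cm_sub, cm_one, if_neg (by omega)]
    have e2 : cm k N = 0 := by
      ext1 i j
      rw [cm_apply, hN, Matrix.of_apply, coeff_tru', if_neg (by omega), Matrix.zero_apply]
    have e3 : cm k Q = 0 := by
      ext1 i j
      rw [cm_apply, hQ, Matrix.of_apply, Matrix.zero_apply]
      split_ifs
      · exact hqd k (by omega)
      · rw [map_zero]
    have e4 : cm k M' = 0 := by rw [hM', cm_toM]; exact hD k (by omega)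
    rw [e2, e3, e4, sub_zero, sub_zero, sub_zero, zero_add]
  have hNQ : ∀ i j, (N * Q) i j = N i s * q := by
    intro i j
    rw [Matrix.mul_apply, Finset.sum_eq_single s]
    · rw [hQ, Matrix.of_apply, if_pos rfl]
    · intro t _ ht
      rw [hQ, Matrix.of_apply, if_neg ht, mul_zero]
    · intro h; exact absurd (Finset.mem_univ _) h
  have hgcl : ∀ i j k x, k ≤ n1 → cf (g i j) k x = 0 := by
    intro i j k x hk
    have := congrFun (congrFun (hgl k hk) i) j
    rw [cm_apply] at this
    unfold cf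
    rw [this]; simp
  have hgch : ∀ i j k x, n1 < k → cf (g i j) k x = cf (N i s * q) k x := by
    intro i j k x hk
    have := congrFun (congrFun (hgh k hk) i) j
    rw [cm_apply, cm_apply, hNQ] at this
    unfold cf
    rw [this]
  have hNn : ∀ i j, Nn (N i j) := by
    intro i j k x
    rw [hN, Matrix.of_apply, cf_tru']
    split_ifs
    · exact hZ i j k x
    · exact le_rfl
  have hgn : ∀ i j, Nn (g i j) := by
    intro i j k x
    rcases le_or_gt k n1 with hk | hk
    · rw [hgcl i j k x hk]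
    · rw [hgch i j k x hk]
      exact (hNn i s).mul hq k x
  have hQn : ∀ i j, Nn (Q i j) := by
    intro i j
    rw [hQ, Matrix.of_apply]
    split_ifs
    · exact hq
    · exact Nn.zero
  have hN1 : ∀ i j k x, K + 1 ≤ k → k ≤ n1 → 1 ≤ cf (N i j) k x := by
    intro i j k x h1 h2
    rw [hN, Matrix.of_apply, cf_tru', if_pos h2]
    exact hZK k i j x (by omega)
  have hg1 : ∀ i j k x, n1 < k → k ≤ n1 + dq → 1 ≤ cf (g i j) k x := by
    intro i j k x h1 h2
    rw [hgch i j k x h1]
    have e1 := cf_mul_ge'' (hNn i s) hq (show dq ≤ k by omega) h0 x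
    have e2 := hN1 i s (k - dq) (x * h0⁻¹) (by omega) (by omega)
    nlinarith
  set T := Matrix.fromBlocks N g N (g + Q) with hT
  have hTn : ∀ x y, Nn (T x y) := by
    rintro (i | i) (j | j)
    · exact hNn i j
    · exact hgn i j
    · exact hNn i j
    · exact (hgn i j).add (hQn i j)
  have hN0 : ∀ i j, coeff 0 (N i j) = 0 := by
    intro i j
    rw [hN, Matrix.of_apply, coeff_tru', if_pos (Nat.zero_le _), coeff_en, hZ0]; rfl
  have hQ0 : ∀ i j, coeff 0 (Q i j) = 0 := by
    intro i j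
    rw [hQ, Matrix.of_apply]
    split_ifs
    · exact hq0
    · rw [map_zero]
  have hg0 : ∀ i j, coeff 0 (g i j) = 0 := by
    intro i j
    exact congrFun (congrFun (hgl 0 (Nat.zero_le _)) i) j
  have hT0 : ∀ x y, coeff 0 (T x y) = 0 := by
    rintro (i | i) (j | j)
    · exact hN0 i j
    · exact hg0 i j
    · exact hN0 i j
    · show coeff 0 (g i j + Q i j) = 0
      rw [map_add, hg0, hQ0, add_zero]
  have hNd : ∀ i j k, n1 < k → coeff k (N i j) = 0 := by
    intro i j k hk
    rw [hN, Matrix.of_apply, coeff_tru', if_neg (by omega)]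
  have hQd : ∀ i j k, dq < k → coeff k (Q i j) = 0 := by
    intro i j k hk
    rw [hQ, Matrix.of_apply]
    split_ifs
    · exact hqd k hk
    · rw [map_zero]
  have hgd : ∀ i j k, n1 + dq < k → coeff k (g i j) = 0 := by
    intro i j k hk
    have e1 := congrFun (congrFun (hgh k (by omega)) i) j
    rw [cm_apply, cm_apply, hNQ] at e1
    rw [e1, coeff_mul]
    apply Finset.sum_eq_zero
    intro y hy
    rw [Finset.HasAntidiagonal.mem_antidiagonal] at hy
    rcases le_or_gt y.1 n1 with h | h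
    · rw [hqd y.2 (by omega), mul_zero]
    · rw [hNd _ _ _ h, zero_mul]
  have hTd : ∀ x y k, n1 + dq < k → coeff k (T x y) = 0 := by
    rintro (i | i) (j | j) k hk
    · exact hNd i j k (by omega)
    · exact hgd i j k hk
    · exact hNd i j k (by omega)
    · show coeff k (g i j + Q i j) = 0
      rw [map_add, hgd _ _ _ hk, hQd _ _ _ (by omega), add_zero]
  have hd0 : 0 < n1 + dq := by omega
  refine ⟨n1 + dq, T, hd0, ?_, compn_Nm _ T hTn, K + 1 + 3 * (n1 + dq), by omega, ?_⟩
  · have c1 := CE_units B Y W hY hW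
    rw [← hM'] at c1
    have e1 : M' = (1 - N) * (1 - Q) - g := by rw [hg]; abel
    rw [e1] at c1
    refine c1.trans ((CE_blk N g Q ?_ ?_ ?_).trans (CE_comp _ hd0 T hT0 hTd))
    · exact FM_of_entries fun i j => ⟨n1 + 1, fun k hk => hNd i j k (by omega)⟩
    · exact FM_of_entries fun i j => ⟨n1 + dq + 1, fun k hk => hgd i j k (by omega)⟩
    · exact FM_of_entries fun i j => ⟨dq + 1, fun k hk => hQd i j k (by omega)⟩
  · intro x y
    apply compn_prim (n1 + dq) (K + 1) n1 (by omega) (by omega) (by omega) T hTn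
    · rintro (i | i) j k x h1 h2
      · exact hN1 i j k x h1 h2
      · exact hN1 i j k x h1 h2
    · rintro (i | i) j k x h1 h2
      · exact hg1 i j k x h1 h2
      · show 1 ≤ cf (g i j + Q i j) k x
        rw [cf_add]
        have := hg1 i j k x h1 h2
        have := hQn i j k x
        linarith

end trunc

end Pool.Agent.W717.G
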