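import Mathlib
import Pool.Agent.W717.G.Trunc
import Pool.Agent.W717.G.Conc

set_option autoImplicit false
set_option linter.all false

namespace Pool.Agent.W717.G

open Finset

section corner

variable {R : Type} [Ring R] {α β Ω : Type} [Fintype α] [DecidableEq α] [Fintype β] [DecidableEq β] [Fintype Ω] [DecidableEq Ω]

theorem se_corner (B : Matrix β β R) (Cm : Matrix Ω Ω R) (l : ℕ) (P : Matrix (α ⊕ β) Ω R) (Q : Matrix Ω (α ⊕ β) R)
    (h1 : (Matrix.fromBlocks 0 0 0 B : Matrix (α ⊕ β) (α ⊕ β) R) * P = P * Cm)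
    (h2 : Q * (Matrix.fromBlocks 0 0 0 B : Matrix (α ⊕ β) (α ⊕ β) R) = Cm * Q)
    (h3 : P * Q = (Matrix.fromBlocks 0 0 0 B : Matrix (α ⊕ β) (α ⊕ β) R) ^ l) (h4 : Q * P = Cm ^ l) :
    ∃ (r : Matrix β Ω R) (s : Matrix Ω β R), B * r = r * Cm ∧ s * B = Cm * s ∧ r * s = B ^ (l + 1) ∧ s * r = Cm ^ (l + 1) := by
  obtain ⟨P1, P2, rfl⟩ : ∃ P1 P2, P = Matrix.fromRows P1 P2 := ⟨P.toRows₁, P.toRows₂, (Matrix.fromRows_toRows P).symm⟩
  obtain ⟨Q1, Q2, rfl⟩ : ∃ Q1 Q2, Q = Matrix.fromCols Q1 Q2 := ⟨Q.toCols₁, Q.toCols₂, (Matrix.fromCols_toCols Q).symm⟩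
  rw [Matrix.fromBlocks_mul_fromRows, Matrix.fromRows_mul] at h1
  rw [Matrix.fromCols_mul_fromBlocks, Matrix.mul_fromCols] at h2
  rw [Matrix.fromRows_mul_fromCols, Matrix.fromBlocks_diagonal_pow] at h3
  rw [Matrix.fromCols_mul_fromRows] at h4
  obtain ⟨_, h1b⟩ := Matrix.fromRows_inj h1
  obtain ⟨h2a, h2b⟩ := Matrix.fromCols_inj h2
  obtain ⟨_, _, _, h3b⟩ := Matrix.fromBlocks_inj.mp h3
  simp only [Matrix.zero_mul, Matrix.mul_zero, zero_add, add_zero] at h1b h2a h2b
  refine ⟨P2, Q2 * B, h1b, ?_, ?_, ?_⟩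
  · rw [h2b, Matrix.mul_assoc, h2b]
  · rw [← Matrix.mul_assoc, h3b, pow_succ]
  · rw [h2b, pow_succ', ← h4, Matrix.mul_add, ← Matrix.mul_assoc, ← Matrix.mul_assoc, ← h2a, Matrix.zero_mul, zero_add]

end corner

section tr

variable {G : Type} [Group G] [Fintype G]

open Classical in
/-- class sums of coefficients -/
noncomputable def kz (x : MonoidAlgebra ℤ G) (c : ConjClasses G) : ℤ := ∑ g, if ConjClasses.mk g = c then x.coeff g else 0

theorem kz_zero (c : ConjClasses G) : kz (0 : MonoidAlgebra ℤ G) c = 0 := by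
  unfold kz; simp

theorem kz_add (x y : MonoidAlgebra ℤ G) (c : ConjClasses G) : kz (x + y) c = kz x c + kz y c := by
  unfold kz
  rw [← Finset.sum_add_distrib]
  apply Finset.sum_congr rfl
  intro g _
  split_ifs <;> simp [MonoidAlgebra.coeff_add]

theorem kz_neg (x : MonoidAlgebra ℤ G) (c : ConjClasses G) : kz (-x) c = - kz x c := by
  unfold kz
  rw [← Finset.sum_neg_distrib]
  apply Finset.sum_congr rfl
  intro g _
  split_ifs <;> simp [MonoidAlgebra.coeff_neg]

theorem kz_sub (x y : MonoidAlgebra ℤ G) (c : ConjClasses G) : kz (x - y) c = kz x c - kz y c := by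
  rw [sub_eq_add_neg, kz_add, kz_neg, sub_eq_add_neg]

theorem kz_sum {α : Type} (s : Finset α) (f : α → MonoidAlgebra ℤ G) (c : ConjClasses G) :
    kz (∑ i ∈ s, f i) c = ∑ i ∈ s, kz (f i) c := by
  classical
  induction s using Finset.induction_on with
  | empty => rw [Finset.sum_empty, Finset.sum_empty, kz_zero]
  | insert a s ha ih => rw [Finset.sum_insert ha, Finset.sum_insert ha, kz_add, ih]

open Classical in
theorem kz_single (g : G) (c : ConjClasses G) : kz (MonoidAlgebra.of ℤ G g) c = if ConjClasses.mk g = c then 1 else 0 := by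
  unfold kz
  rw [Finset.sum_eq_single g]
  · rw [MonoidAlgebra.of_apply, MonoidAlgebra.coeff_single, Finsupp.single_eq_same]
  · intro h _ hh
    rw [MonoidAlgebra.of_apply, MonoidAlgebra.coeff_single, Finsupp.single_apply, if_neg (Ne.symm hh), ite_self]
  · intro h; exact absurd (Finset.mem_univ _) h

theorem kz_of_closure {x : MonoidAlgebra ℤ G}
    (h : x ∈ AddSubgroup.closure {x : MonoidAlgebra ℤ G | ∃ g h : G, x = MonoidAlgebra.of ℤ G g - MonoidAlgebra.of ℤ G (h * g * h⁻¹)})
    (c : ConjClasses G) : kz x c = 0 := by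
  classical
  induction h using AddSubgroup.closure_induction with
  | mem x hx =>
    obtain ⟨g, h, rfl⟩ := hx
    rw [kz_sub, kz_single, kz_single]
    have : ConjClasses.mk (h * g * h⁻¹) = ConjClasses.mk g := by
      rw [ConjClasses.mk_eq_mk_iff_isConj, isConj_comm, isConj_iff]
      exact ⟨h, rfl⟩
    rw [this, sub_self]
  | zero => exact kz_zero c
  | add x y _ _ hx hy => rw [kz_add, hx, hy, add_zero]
  | neg x _ hx => rw [kz_neg, hx, neg_zero]

theorem kz_pos {x : MonoidAlgebra ℤ G} (h0 : ∀ g, 0 ≤ x.coeff g) (h1 : 1 ≤ x.coeff 1) : 1 ≤ kz x (ConjClasses.mk 1) := by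
  classical
  unfold kz
  refine le_trans ?_ (Finset.single_le_sum (f := fun g => if ConjClasses.mk g = ConjClasses.mk (1 : G) then x.coeff g else 0) (fun g _ => ?_)
    (Finset.mem_univ (1 : G)))
  · rw [if_pos rfl]; exact h1
  · split_ifs
    · exact h0 g
    · exact le_rfl

theorem kz_sub1 [Subsingleton G] (x : MonoidAlgebra ℤ G) : kz x (ConjClasses.mk 1) = x.coeff 1 := by
  classical
  unfold kz
  rw [Finset.sum_eq_single 1]
  · rw [if_pos rfl]
  · intro g _ hg; exact absurd (Subsingleton.elim g 1) hg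
  · intro h; exact absurd (Finset.mem_univ _) h

variable {ι : Type} [Fintype ι] [DecidableEq ι] [DecidableEq G]

theorem kap_iZ (M : Matrix ι ι (MonoidAlgebra ℤ G)) (c : ConjClasses G) : kap (iZ M) c = ((kz (Matrix.trace M) c : ℤ) : ℝ) := by
  classical
  rw [kap_apply, Matrix.trace, kz_sum, Int.cast_sum]
  apply Finset.sum_congr rfl
  intro i _
  unfold kz
  rw [Int.cast_sum]
  apply Finset.sum_congr rfl
  intro g _
  rw [coeff_iZ, Matrix.diag_apply]
  split_ifs <;> simp

/-- the trace hypothesis in the form used by the analytic part -/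
theorem kap_eq_of {ι' : Type} [Fintype ι'] [DecidableEq ι'] (M N : Matrix ι ι (MonoidAlgebra ℤ G))
    (h : ∀ c, kz (Matrix.trace M) c = kz (Matrix.trace N) c) : kap (iZ M) = kap (iZ N) := by
  funext c
  rw [kap_iZ, kap_iZ, h]

/-! closures -/

theorem closure_iff (x : MonoidAlgebra ℤ G) :
    x ∈ AddSubmonoid.closure (Set.range (fun g : G => MonoidAlgebra.of ℤ G g)) ↔ ∀ g, 0 ≤ x.coeff g := by
  constructor
  · intro h
    induction h using AddSubmonoid.closure_induction with
    | mem x hx =>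
      obtain ⟨g, rfl⟩ := hx
      intro h
      simp only [MonoidAlgebra.of_apply]
      rw [MonoidAlgebra.coeff_single, Finsupp.single_apply]
      split_ifs <;> norm_num
    | zero => intro g; simp
    | add x y _ _ hx hy =>
      intro g
      rw [MonoidAlgebra.coeff_add, Finsupp.add_apply]
      exact add_nonneg (hx g) (hy g)
  · intro h
    have e1 : x = ∑ g, (x.coeff g).toNat • MonoidAlgebra.of ℤ G g := by
      ext t
      rw [MonoidAlgebra.coeff_sum, Finsupp.finsetSum_apply, Finset.sum_eq_single t]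
      · rw [MonoidAlgebra.coeff_smul, Finsupp.smul_apply, MonoidAlgebra.of_apply, MonoidAlgebra.coeff_single, Finsupp.single_eq_same,
          nsmul_eq_mul, mul_one]
        exact (Int.toNat_of_nonneg (h t)).symm
      · intro g _ hg
        rw [MonoidAlgebra.coeff_smul, Finsupp.smul_apply, MonoidAlgebra.of_apply, MonoidAlgebra.coeff_single, Finsupp.single_apply,
          if_neg hg, smul_zero]
      · intro h; exact absurd (Finset.mem_univ _) h
    rw [e1]
    refine AddSubmonoid.sum_mem _ fun g _ => AddSubmonoid.nsmul_mem _ (AddSubmonoid.subset_closure ?_) _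
    exact ⟨g, rfl⟩

theorem coeff_sumof (g : G) : (∑ h : G, MonoidAlgebra.of ℤ G h).coeff g = 1 := by
  rw [MonoidAlgebra.coeff_sum, Finsupp.finsetSum_apply, Finset.sum_eq_single g]
  · rw [MonoidAlgebra.of_apply, MonoidAlgebra.coeff_single, Finsupp.single_eq_same]
  · intro h _ hh
    rw [MonoidAlgebra.of_apply, MonoidAlgebra.coeff_single, Finsupp.single_apply, if_neg hh]
  · intro h; exact absurd (Finset.mem_univ _) h

theorem closure_iff' (x : MonoidAlgebra ℤ G) :
    x - ∑ g : G, MonoidAlgebra.of ℤ G g ∈ AddSubmonoid.closure (Set.range (fun g : G => MonoidAlgebra.of ℤ G g)) ↔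
      ∀ g, 1 ≤ x.coeff g := by
  rw [closure_iff]
  constructor
  · intro h g
    have := h g
    rw [MonoidAlgebra.coeff_sub, Finsupp.sub_apply, coeff_sumof] at this
    linarith
  · intro h g
    rw [MonoidAlgebra.coeff_sub, Finsupp.sub_apply, coeff_sumof]
    have := h g
    linarith

end tr

end Pool.Agent.W717.G
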