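import Mathlib
import Pool.Agent.W717.G.BSide

set_option autoImplicit false
set_option linter.all false

namespace Pool.Agent.W717.G

open Finset PowerSeries Filter Topology

section bside

variable {ι G : Type} [Fintype ι] [DecidableEq ι] [Group G] [Fintype G] [DecidableEq G]

/-- real idempotents of trace one have rank one -/
theorem idem_rank_one {Ω : Type*} [Fintype Ω] [DecidableEq Ω] (p : Matrix Ω Ω ℝ) (hp : p * p = p) (h1 : p.trace = 1) :
    ∃ (j0 : Ω) (w : Ω → ℝ), p j0 j0 ≠ 0 ∧ ∀ i j, p i j = p i j0 * w j := by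
  have hex : ∃ j0, p j0 j0 ≠ 0 := by
    by_contra hcon
    push Not at hcon
    have : p.trace = 0 := Finset.sum_eq_zero fun i _ => hcon i
    rw [h1] at this
    exact one_ne_zero this
  obtain ⟨j0, hj0⟩ := hex
  refine ⟨j0, fun j => p j0 j / p j0 j0, hj0, ?_⟩
  have hpp : ∀ i j, ∑ l, p i l * p l j = p i j := fun i j => by
    rw [← Matrix.mul_apply, hp]
  set q : Matrix Ω Ω ℝ := Matrix.of fun i j => p i j0 * (p j0 j / p j0 j0) with hq
  have hpq : p * q = q := by
    ext i j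
    rw [Matrix.mul_apply, hq]
    simp only [Matrix.of_apply]
    rw [← hpp i j0, Finset.sum_mul]
    apply Finset.sum_congr rfl
    intro l _
    ring
  have hqp : q * p = q := by
    ext i j
    rw [Matrix.mul_apply, hq]
    simp only [Matrix.of_apply]
    conv_rhs => rw [← hpp j0 j, Finset.sum_div, Finset.mul_sum]
    apply Finset.sum_congr rfl
    intro l _
    ring
  have hqq : q * q = q := by
    ext i j
    rw [Matrix.mul_apply, hq]
    simp only [Matrix.of_apply]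
    have e1 : ∑ l, p i j0 * (p j0 l / p j0 j0) * (p l j0 * (p j0 j / p j0 j0)) =
      p i j0 * (p j0 j / p j0 j0) * ((∑ l, p j0 l * p l j0) / p j0 j0) := by
      rw [Finset.sum_div, Finset.mul_sum]
      apply Finset.sum_congr rfl
      intro l _
      ring
    rw [e1, hpp, div_self hj0, mul_one]
  have hX : (p - q) * (p - q) = p - q := by
    rw [sub_mul, mul_sub, mul_sub, hp, hpq, hqp, hqq]; abel
  have htr : (p - q).trace = 0 := by
    rw [Matrix.trace_sub, h1]
    have : q.trace = 1 := by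
      rw [Matrix.trace, hq]
      simp only [Matrix.diag_apply, Matrix.of_apply]
      have e1 : ∑ l, p l j0 * (p j0 l / p j0 j0) = (∑ l, p j0 l * p l j0) / p j0 j0 := by
        rw [Finset.sum_div]
        apply Finset.sum_congr rfl
        intro l _
        ring
      rw [e1, hpp, div_self hj0]
    rw [this, sub_self]
  have h0 := idem_zero _ hX htr
  intro i j
  have := congrFun (congrFun h0 i) j
  rw [Matrix.sub_apply, Matrix.zero_apply, hq, Matrix.of_apply] at this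
  linarith

/-- the averaging matrix -/
noncomputable def Sg : Matrix ι ι (MonoidAlgebra ℝ G) := Matrix.diagonal fun _ => sg

theorem mul_Sg_apply (a : Matrix ι ι (MonoidAlgebra ℝ G)) (i j : ι) : (a * Sg : Matrix ι ι (MonoidAlgebra ℝ G)) i j = aug (a i j) • sg := by
  unfold Sg
  rw [Matrix.mul_diagonal, mul_sg]

theorem Sg_mul_apply (a : Matrix ι ι (MonoidAlgebra ℝ G)) (i j : ι) : (Sg * a : Matrix ι ι (MonoidAlgebra ℝ G)) i j = aug (a i j) • sg := by
  unfold Sg
  rw [Matrix.diagonal_mul, sg_mul]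

theorem Sg_comm (a : Matrix ι ι (MonoidAlgebra ℝ G)) : Sg * a = a * Sg := by
  ext1 i j
  rw [mul_Sg_apply, Sg_mul_apply]

theorem Sg_Sg : (Sg : Matrix ι ι (MonoidAlgebra ℝ G)) * Sg = Sg := by
  unfold Sg
  rw [Matrix.diagonal_mul_diagonal]
  simp only [sg_sg]

theorem idem_Sg [Nonempty ι] (P : Matrix ι ι (MonoidAlgebra ℝ G)) (hP : P * P = P) (h1 : (Fintype.card G : ℝ) * tr1 P = 1)
    (h2 : augt P = 1) : ∃ (j0 : ι) (w : ι → ℝ), aug (P j0 j0) ≠ 0 ∧ ∀ i j, P i j = (aug (P i j0) * w j) • sg := by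
  have hX : (P - P * Sg) * (P - P * Sg) = P - P * Sg := by
    have e1 : P * (P * Sg) = P * Sg := by rw [← mul_assoc, hP]
    have e2 : P * Sg * P = P * Sg := by rw [mul_assoc, Sg_comm, ← mul_assoc, hP]
    have e3 : P * Sg * (P * Sg) = P * Sg := by rw [← mul_assoc, e2, mul_assoc, Sg_Sg]
    rw [sub_mul, mul_sub, mul_sub, hP, e1, e2, e3]; abel
  have htr1 : (Fintype.card G : ℝ) * tr1 (P * Sg) = 1 := by
    have : tr1 (P * Sg) = augt P * (Fintype.card G : ℝ)⁻¹ := by
      unfold tr1 augt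
      rw [Finset.sum_mul]
      apply Finset.sum_congr rfl
      intro i _
      rw [mul_Sg_apply, MonoidAlgebra.coeff_smul, Finsupp.smul_apply, coeff_sg, smul_eq_mul]
    rw [this, h2, one_mul, mul_inv_cancel₀ card_pos'.ne']
  have h0 : reg (P - P * Sg) = 0 := by
    apply idem_zero
    · rw [← map_mul, hX]
    · rw [trace_reg, tr1_sub, mul_sub, h1, htr1, sub_self]
  have h3 : P - P * Sg = 0 := reg_inj (by rw [h0, map_zero])
  have h4 : ∀ i j, P i j = aug (P i j) • sg := by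
    intro i j
    rw [← mul_Sg_apply, ← sub_eq_zero.mp h3]
  obtain ⟨j0, w, hj0, hw⟩ := idem_rank_one (augM P) (by rw [← map_mul, hP]) (by rw [trace_augM, h2])
  refine ⟨j0, w, hj0, fun i j => ?_⟩
  rw [h4 i j]
  congr 1
  exact hw i j

attribute [local instance] Matrix.linftyOpNormedRing Matrix.linftyOpNormedAlgebra

theorem tr1_tendsto {u : ℕ → Matrix ι ι (MonoidAlgebra ℝ G)} {a : Matrix ι ι (MonoidAlgebra ℝ G)}
    (h : Tendsto u atTop (𝓝 a)) : Tendsto (fun k => tr1 (u k)) atTop (𝓝 (tr1 a)) := by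
  rw [tendsto_iff_norm_sub_tendsto_zero] at h ⊢
  have h1 : Tendsto (fun k => (Fintype.card ι : ℝ) * ‖u k - a‖) atTop (𝓝 0) := by
    have := h.const_mul (Fintype.card ι : ℝ); rwa [mul_zero] at this
  refine squeeze_zero (fun k => norm_nonneg _) (fun k => ?_) h1
  rw [← tr1_sub, Real.norm_eq_abs]
  exact abs_tr1_le _

theorem augt_tendsto {u : ℕ → Matrix ι ι (MonoidAlgebra ℝ G)} {a : Matrix ι ι (MonoidAlgebra ℝ G)}
    (h : Tendsto u atTop (𝓝 a)) : Tendsto (fun k => augt (u k)) atTop (𝓝 (augt a)) := by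
  rw [tendsto_iff_norm_sub_tendsto_zero] at h ⊢
  have h1 : Tendsto (fun k => (Fintype.card ι : ℝ) * (Fintype.card G * ‖u k - a‖)) atTop (𝓝 0) := by
    have := (h.const_mul (Fintype.card G : ℝ)).const_mul (Fintype.card ι : ℝ)
    rwa [mul_zero, mul_zero] at this
  refine squeeze_zero (fun k => norm_nonneg _) (fun k => ?_) h1
  rw [← augt_sub, Real.norm_eq_abs]
  exact abs_augt_le _

theorem b_side [Nonempty ι] (A B PA : Matrix ι ι (MonoidAlgebra ℝ G)) {lam θ b ρ : ℝ} (hlam : 0 < lam) (hθ : 0 < θ)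
    (hb : 0 ≤ b) (hA : ∀ k, ‖(lam⁻¹) ^ k • A ^ k - PA‖ ≤ b * θ ^ k) (htr : (Fintype.card G : ℝ) * tr1 PA = 1)
    (hau : augt PA = 1) (hAB : ∀ k, 1 ≤ k → kap (A ^ k) = kap (B ^ k)) (hρ : lam⁻¹ ≤ ρ) (hθρ : lam * θ * ρ < 1) :
    (∃ c, Bd ρ (lX lam * PowerSeries.mk fun k => B ^ k) c) ∧ ∃ r w : ι → ℝ,
     (∀ i j, (ev (lam⁻¹) (lX lam * PowerSeries.mk fun k => B ^ k) : Matrix ι ι (MonoidAlgebra ℝ G)) i j = (r i * w j) • sg) ∧
     (∀ i, ∑ j, aug (B i j) * r j = lam * r i) ∧ ∃ i, r i ≠ 0 := by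
  have hρ0 : 0 < ρ := lt_of_lt_of_le (inv_pos.mpr hlam) hρ
  have hlθ : 0 < lam * θ := mul_pos hlam hθ
  have hbd : ∃ c, Bd ρ (lX lam * PowerSeries.mk fun k => B ^ k) c := by
    obtain ⟨ρ1, h1, h2⟩ : ∃ ρ1, ρ < ρ1 ∧ ρ1 < (lam * θ)⁻¹ := by
      apply _root_.exists_between
      rw [lt_inv_comm₀ hρ0 hlθ, lt_inv_comm₀ hlθ hρ0, ← one_div, lt_div_iff₀ hlθ, mul_comm]; exact hθρ
    have hρ1 : 0 < ρ1 := hρ0.trans h1
    have h3 : lam * θ * ρ1 < 1 := by
      have := mul_lt_mul_of_pos_left h2 hlθ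
      rwa [mul_inv_cancel₀ hlθ.ne'] at this
    obtain ⟨C, hC, hCb⟩ := res_bound (reg B) (b := Fintype.card G * (Fintype.card ι * b)) hlam hθ (by positivity) hρ1 h3 (by
      intro k hk
      rw [← map_pow, trace_reg, ← tr1_congr (hAB k hk)]
      have e1 : (Fintype.card G : ℝ) * tr1 (A ^ k) - lam ^ k = lam ^ k * (Fintype.card G * tr1 ((lam⁻¹) ^ k • A ^ k - PA)) := by
        rw [tr1_sub, tr1_smul, mul_sub, htr, mul_sub, mul_one]
        congr 1
        have : lam ^ k * (lam⁻¹) ^ k = 1 := by rw [← mul_pow, mul_inv_cancel₀ hlam.ne', one_pow]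
        calc (Fintype.card G : ℝ) * tr1 (A ^ k) = (lam ^ k * (lam⁻¹) ^ k) * (Fintype.card G * tr1 (A ^ k)) := by rw [this, one_mul]
          _ = _ := by ring
      rw [e1, abs_mul, abs_mul, abs_of_pos (pow_pos hlam k), Nat.abs_cast, mul_pow]
      have e2 := (abs_tr1_le ((lam⁻¹) ^ k • A ^ k - PA)).trans (mul_le_mul_of_nonneg_left (hA k) (Nat.cast_nonneg _))
      calc lam ^ k * (Fintype.card G * |tr1 ((lam⁻¹) ^ k • A ^ k - PA)|)
          ≤ lam ^ k * (Fintype.card G * (Fintype.card ι * (b * θ ^ k))) :=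
            mul_le_mul_of_nonneg_left (mul_le_mul_of_nonneg_left e2 (Nat.cast_nonneg _)) (by positivity)
        _ = _ := by ring)
    refine ⟨_, bd_geom (τ := ρ1⁻¹) hρ0.le hC (by positivity) (by rw [inv_mul_lt_iff₀ hρ1, mul_one]; exact h1) (fun k => ?_)⟩
    rw [inv_pow, ← div_eq_mul_inv, le_div_iff₀ (by positivity)]
    refine le_trans (le_of_eq ?_) (hCb k)
    congr 1
    rcases k with _ | k
    · rw [coeff_lX_mul_zero, coeff_lX_mul_zero, coeff_mk, coeff_mk, norm_eq, map_pow]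
    · rw [coeff_lX_mul_succ, coeff_lX_mul_succ, coeff_mk, coeff_mk, coeff_mk, coeff_mk, norm_eq, map_sub, map_smul, map_pow, map_pow]
  refine ⟨hbd, ?_⟩
  obtain ⟨c, hc⟩ := hbd
  have htend := lX_tendsto hlam hρ hc
  set P := ev (lam⁻¹) (lX lam * PowerSeries.mk fun k => B ^ k) with hP
  simp only [coeff_mk] at htend
  have hPP : P * P = P := by
    have h1 : Tendsto (fun k => ((lam⁻¹) ^ k • B ^ k) * ((lam⁻¹) ^ k • B ^ k)) atTop (𝓝 (P * P)) := htend.mul htend
    have h2 : Tendsto (fun k : ℕ => (lam⁻¹) ^ (2 * k) • B ^ (2 * k)) atTop (𝓝 P) :=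
      htend.comp (tendsto_id.const_mul_atTop' (by norm_num : (0 : ℕ) < 2))
    refine tendsto_nhds_unique h1 (h2.congr fun k => ?_)
    rw [smul_mul_smul_comm, ← pow_add, ← pow_add, two_mul]
  have hBP : B * P = lam • P := by
    have h1 : Tendsto (fun k => B * ((lam⁻¹) ^ k • B ^ k)) atTop (𝓝 (B * P)) := htend.const_mul B
    have h2 : Tendsto (fun k : ℕ => lam • ((lam⁻¹) ^ (k + 1) • B ^ (k + 1))) atTop (𝓝 (lam • P)) :=
      (htend.comp (tendsto_add_atTop_nat 1)).const_smul lam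
    refine tendsto_nhds_unique h1 (h2.congr fun k => ?_)
    rw [smul_smul, mul_smul_comm, ← pow_succ', pow_succ' (lam⁻¹), ← mul_assoc, mul_inv_cancel₀ hlam.ne', one_mul]
  have hAtend : Tendsto (fun k => (lam⁻¹) ^ k • A ^ k) atTop (𝓝 PA) := by
    have hθ1 : θ < 1 := by
      have h1 : 1 ≤ ρ * lam := by rwa [inv_le_iff_one_le_mul₀ hlam] at hρ
      nlinarith
    rw [tendsto_iff_norm_sub_tendsto_zero]
    refine squeeze_zero (fun k => norm_nonneg _) hA ?_
    have := (tendsto_pow_atTop_nhds_zero_of_lt_one hθ.le hθ1).const_mul b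
    rwa [mul_zero] at this
  have hkap : ∀ k, 1 ≤ k → kap ((lam⁻¹) ^ k • A ^ k) = kap ((lam⁻¹) ^ k • B ^ k) := by
    intro k hk; rw [map_smul, map_smul, hAB k hk]
  have htr1 : (Fintype.card G : ℝ) * tr1 P = 1 := by
    have h1 : tr1 P = tr1 PA := by
      refine tendsto_nhds_unique (tr1_tendsto htend) ((tr1_tendsto hAtend).congr' ?_)
      filter_upwards [eventually_ge_atTop 1] with k hk
      exact tr1_congr (hkap k hk)
    rw [h1, htr]
  have haut : augt P = 1 := by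
    have h1 : augt P = augt PA := by
      refine tendsto_nhds_unique (augt_tendsto htend) ((augt_tendsto hAtend).congr' ?_)
      filter_upwards [eventually_ge_atTop 1] with k hk
      exact augt_congr (hkap k hk)
    rw [h1, hau]
  obtain ⟨j0, w, hj0, hw⟩ := idem_Sg P hPP htr1 haut
  refine ⟨fun i => aug (P i j0), w, hw, fun i => ?_, j0, hj0⟩
  have h1 := congrFun (congrFun hBP i) j0
  have h2 := congrArg aug h1
  rw [Matrix.mul_apply, map_sum, Matrix.smul_apply, aug_smul] at h2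
  simpa only [map_mul] using h2

end bside

end Pool.Agent.W717.G
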