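import Mathlib
import Pool.Agent.W717.G.Ev

set_option autoImplicit false
set_option linter.all false

namespace Pool.Agent.W717.G

open Finset Filter Topology

/-- remainders of the beta expansion -/
noncomputable def brem (lam x : ℝ) : ℕ → ℝ
  | 0 => x
  | k + 1 => Int.fract (lam * brem lam x k)

/-- digits of the beta expansion -/
noncomputable def bdig (lam x : ℝ) : ℕ → ℤ
  | 0 => 0
  | k + 1 => ⌊lam * brem lam x k⌋

theorem beta_exp {lam : ℝ} (hlam : 1 < lam) (x : ℝ) : ∃ n : ℕ → ℤ, n 0 = 0 ∧ (∃ C : ℝ, ∀ k, |(n k : ℝ)| ≤ C) ∧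
    HasSum (fun k => (n k : ℝ) * (lam⁻¹) ^ k) x := by
  have hlam0 : 0 < lam := by linarith
  have hrem : ∀ k, |brem lam x k| ≤ |x| + 1 := by
    intro k
    cases k with
    | zero => simp only [brem]; linarith [abs_nonneg x]
    | succ k =>
      simp only [brem]
      rw [abs_of_nonneg (Int.fract_nonneg _)]
      linarith [abs_nonneg x, Int.fract_lt_one (lam * brem lam x k)]
  have hdig : ∀ k, |(bdig lam x k : ℝ)| ≤ lam * (|x| + 1) + 1 := by
    intro k
    cases k with
    | zero => simp only [bdig]; simp; positivity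
    | succ k =>
      simp only [bdig]
      have h1 : (⌊lam * brem lam x k⌋ : ℝ) = lam * brem lam x k - Int.fract (lam * brem lam x k) := by
        rw [Int.self_sub_fract]
      rw [h1]
      refine (abs_sub _ _).trans ?_
      rw [abs_mul, abs_of_pos hlam0, abs_of_nonneg (Int.fract_nonneg (lam * brem lam x k))]
      have := mul_le_mul_of_nonneg_left (hrem k) hlam0.le
      linarith [Int.fract_lt_one (lam * brem lam x k)]
  have hps : ∀ k, ∑ j ∈ range (k + 1), (bdig lam x j : ℝ) * (lam⁻¹) ^ j = x - brem lam x k * (lam⁻¹) ^ k := by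
    intro k
    induction k with
    | zero => simp [bdig, brem]
    | succ k ih =>
      rw [Finset.sum_range_succ, ih]
      have h1 : (bdig lam x (k + 1) : ℝ) = lam * brem lam x k - brem lam x (k + 1) := by
        simp only [bdig, brem]
        rw [Int.self_sub_fract]
      rw [h1, pow_succ]
      field_simp
      ring
  refine ⟨bdig lam x, rfl, ⟨_, hdig⟩, ?_⟩
  have hinv0 : 0 ≤ lam⁻¹ := by positivity
  have hinv1 : lam⁻¹ < 1 := inv_lt_one_of_one_lt₀ hlam
  have hsum : Summable (fun k => (bdig lam x k : ℝ) * (lam⁻¹) ^ k) := by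
    apply Summable.of_norm_bounded (g := fun k => (lam * (|x| + 1) + 1) * (lam⁻¹) ^ k)
    · exact (summable_geometric_of_lt_one hinv0 hinv1).mul_left _
    · intro k
      rw [norm_mul, Real.norm_eq_abs, Real.norm_eq_abs, abs_of_nonneg (pow_nonneg hinv0 k)]
      exact mul_le_mul_of_nonneg_right (hdig k) (pow_nonneg hinv0 k)
  have h1 := (hsum.hasSum.tendsto_sum_nat).comp (tendsto_add_atTop_nat 1)
  have h2 : Tendsto (fun k => x - brem lam x k * (lam⁻¹) ^ k) atTop (𝓝 (x - 0)) := by
    apply Tendsto.const_sub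
    have h3 : Tendsto (fun k => (|x| + 1) * (lam⁻¹) ^ k) atTop (𝓝 0) := by
      have := (tendsto_pow_atTop_nhds_zero_of_lt_one hinv0 hinv1).const_mul (|x| + 1)
      rwa [mul_zero] at this
    apply squeeze_zero_norm _ h3
    intro k
    rw [norm_mul, Real.norm_eq_abs, Real.norm_eq_abs, abs_of_nonneg (pow_nonneg hinv0 k)]
    exact mul_le_mul_of_nonneg_right (hrem k) (pow_nonneg hinv0 k)
  rw [sub_zero] at h2
  have h4 : Tendsto (fun k => x - brem lam x k * (lam⁻¹) ^ k) atTop (𝓝 (∑' k, (bdig lam x k : ℝ) * (lam⁻¹) ^ k)) := by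
    refine h1.congr (fun k => ?_)
    simp only [Function.comp_apply]
    exact hps k
  have h5 := tendsto_nhds_unique h4 h2
  have h6 := hsum.hasSum
  rwa [h5] at h6

end Pool.Agent.W717.G
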