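import Mathlib
import Pool.Agent.W717.G.Conc

set_option autoImplicit false
set_option linter.all false

namespace Pool.Agent.W717.G

section inst

variable {ι G : Type} [Fintype ι] [DecidableEq ι] [Group G] [Fintype G] [DecidableEq G]

noncomputable scoped instance (priority := 5000) instR1 : Ring (Matrix ι ι (MonoidAlgebra ℝ G)) :=
  (instNR : NormedRing (Matrix ι ι (MonoidAlgebra ℝ G))).toRing
noncomputable scoped instance (priority := 5000) instS1 : Semiring (Matrix ι ι (MonoidAlgebra ℝ G)) :=
  (instNR : NormedRing (Matrix ι ι (MonoidAlgebra ℝ G))).toRing.toSemiring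
noncomputable scoped instance (priority := 5000) instS2 : Semiring (Matrix ι ι (MonoidAlgebra ℤ G)) :=
  (Matrix.instRing : Ring (Matrix ι ι (MonoidAlgebra ℤ G))).toSemiring

end inst

end Pool.Agent.W717.G
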