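import Mathlib
import Pool.Agent.W717.G.Conc2
import Pool.Agent.W717.G.Mat
import Pool.Agent.W717.G.Inst

set_option autoImplicit false
set_option linter.all false

namespace Pool.Agent.W717.G

open Finset PowerSeries Filter Topology

section dd

variable {ι G : Type} [Fintype ι] [DecidableEq ι] [Group G] [Fintype G] [DecidableEq G]

/-- the logarithmic derivative trace -/
noncomputable def DD (u : (PowerSeries (Matrix ι ι (MonoidAlgebra ℝ G)))ˣ) (k : ℕ) : ConjClasses G → ℝ :=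
  D (A := Matrix ι ι (MonoidAlgebra ℝ G)) (V := ConjClasses G → ℝ) kap u k

theorem DD_mul (u v : (PowerSeries (Matrix ι ι (MonoidAlgebra ℝ G)))ˣ) (k : ℕ) : DD (u * v) k = DD u k + DD v k :=
  D_mul kap_cyc u v k

theorem DD_inv (u : (PowerSeries (Matrix ι ι (MonoidAlgebra ℝ G)))ˣ) (k : ℕ) : DD u⁻¹ k = - DD u k :=
  D_inv kap_cyc u k

theorem DD_nilV (e : Matrix ι ι (MonoidAlgebra ℝ G)) (ν : PowerSeries (Matrix ι ι (MonoidAlgebra ℝ G)))
    (h1 : C e * ν = ν) (h2 : ν * C e = 0) (k : ℕ) : DD (nilV e ν h1 h2) k = 0 :=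
  D_nilV kap_cyc e ν h1 h2 k

theorem DD_geoU (a : Matrix ι ι (MonoidAlgebra ℝ G)) (k : ℕ) :
    DD (geoU a) k = if k = 0 then 0 else - kap (a ^ k) := D_geoU a k

end dd

end Pool.Agent.W717.G
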