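import Mathlib
import Pool.Agent.W717.G.Tgt2

set_option autoImplicit false
set_option linter.all false

namespace Pool.Agent.W717.G

open Finset PowerSeries Filter Topology

section tgt3

variable {ι G : Type} [Fintype ι] [DecidableEq ι] [Group G] [Fintype G] [DecidableEq G]

/-- the matrix with the state `s` removed -/
noncomputable def HH (A : Matrix ι ι (MonoidAlgebra ℤ G)) (s : ι) : Matrix ι ι (MonoidAlgebra ℤ G) :=
  (1 - Matrix.single s s 1) * A * (1 - Matrix.single s s 1)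

noncomputable def TT (A : Matrix ι ι (MonoidAlgebra ℤ G)) (s : ι) : PowerSeries (Matrix ι ι (MonoidAlgebra ℤ G)) :=
  PowerSeries.mk fun k => (HH A s) ^ k

noncomputable def FF (A : Matrix ι ι (MonoidAlgebra ℤ G)) (s : ι) : PowerSeries (Matrix ι ι (MonoidAlgebra ℤ G)) :=
  sc s 1 * (C A * X) * sc s 1 + (sc s 1 * (C A * X) * (1 - sc s 1)) * TT A s * ((1 - sc s 1) * (C A * X) * sc s 1)

/-- first return series -/
noncomputable def ff (A : Matrix ι ι (MonoidAlgebra ℤ G)) (s : ι) : PowerSeries (MonoidAlgebra ℤ G) := en (FF A s) s s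

theorem HH_X (A : Matrix ι ι (MonoidAlgebra ℤ G)) (s : ι) :
    (C (HH A s) * X : PowerSeries (Matrix ι ι (MonoidAlgebra ℤ G))) = (1 - sc s 1) * (C A * X) * (1 - sc s 1) := by
  have h1 : (1 - sc s 1 : PowerSeries (Matrix ι ι (MonoidAlgebra ℤ G))) = C (1 - Matrix.single s s 1) := by
    rw [sc_one, map_sub, map_one]
  rw [h1, HH, map_mul, map_mul, mul_assoc (C (1 - Matrix.single s s 1) : PowerSeries (Matrix ι ι (MonoidAlgebra ℤ G))) (C A * X),
    mul_assoc (C A) X, X_mul, ← mul_assoc (C A), ← mul_assoc, ← mul_assoc]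

theorem fr_facts (A : Matrix ι ι (MonoidAlgebra ℤ G)) (s : ι) :
    TT A s * sc s 1 = sc s 1 ∧ sc s 1 * TT A s = sc s 1 ∧ sc s 1 * FF A s = FF A s ∧ FF A s * sc s 1 = FF A s ∧
    sc s 1 * (C (HH A s) * X) = 0 ∧ (C (HH A s) * X) * sc s 1 = 0 ∧
    sc s 1 * (sc s 1 * (C A * X) * (1 - sc s 1)) = sc s 1 * (C A * X) * (1 - sc s 1) ∧
    (sc s 1 * (C A * X) * (1 - sc s 1)) * sc s 1 = 0 ∧ sc s 1 * ((1 - sc s 1) * (C A * X) * sc s 1) = 0 ∧
    ((1 - sc s 1) * (C A * X) * sc s 1) * sc s 1 = (1 - sc s 1) * (C A * X) * sc s 1 ∧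
    (1 - (sc s 1 * (C A * X) * (1 - sc s 1)) * TT A s) * (1 - FF A s - C (HH A s) * X) *
      (1 - TT A s * ((1 - sc s 1) * (C A * X) * sc s 1)) = 1 - C A * X :=
  abs_fr (sc s 1) (C A * X) (TT A s) (C (HH A s) * X) _ _ _ (FF A s) (sc_e s) rfl rfl rfl (HH_X A s) (geo_inv (HH A s)).2
    (geo_inv (HH A s)).1 rfl

theorem fr_inv (A : Matrix ι ι (MonoidAlgebra ℤ G)) (s : ι) :
    (sc s 1 - FF A s) * (sc s 1 * PowerSeries.mk (fun k => A ^ k) * sc s 1) = sc s 1 ∧
    (1 - FF A s - C (HH A s) * X) * (sc s 1 * PowerSeries.mk (fun k => A ^ k) * sc s 1 + (1 - sc s 1) * TT A s) = 1 :=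
  abs_inv (sc s 1) (C A * X) (TT A s) (C (HH A s) * X) _ _ _ (FF A s) (PowerSeries.mk fun k => A ^ k) (sc_e s) rfl rfl rfl (HH_X A s)
    (geo_inv (HH A s)).2 (geo_inv (HH A s)).1 rfl (geo_inv A).1

theorem FF_sc (A : Matrix ι ι (MonoidAlgebra ℤ G)) (s : ι) : FF A s = sc s (ff A s) :=
  eq_sc s (fr_facts A s).2.2.1 (fr_facts A s).2.2.2.1

theorem coeff0_ff (A : Matrix ι ι (MonoidAlgebra ℤ G)) (s : ι) : coeff 0 (ff A s) = 0 := by
  have h : coeff 0 (FF A s) = 0 := by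
    rw [coeff_zero_eq_constantCoeff_apply]; simp [FF]
  rw [ff, coeff_en, h]; rfl

theorem bd_Phi_C {ρ : ℝ} (hρ : 0 ≤ ρ) (a : Matrix ι ι (MonoidAlgebra ℤ G)) : Bd ρ (Phi (C a)) ‖iZ a‖ := by
  rw [Phi, map_C]; exact Bd.C hρ _

theorem ff_inv (A : Matrix ι ι (MonoidAlgebra ℤ G)) (s : ι) :
    (1 - ff A s) * en (PowerSeries.mk fun k => A ^ k) s s = 1 ∧ en (PowerSeries.mk fun k => A ^ k) s s * (1 - ff A s) = 1 := by
  have h0 := (fr_inv A s).1
  have h1 : sc s 1 * PowerSeries.mk (fun k => A ^ k) * sc s 1 = sc s (en (PowerSeries.mk fun k => A ^ k) s s) := by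
    have h2 := eq_sc s (M := sc s 1 * PowerSeries.mk (fun k => A ^ k) * sc s 1) (by rw [← mul_assoc, ← mul_assoc, sc_e])
      (by rw [mul_assoc, sc_e])
    rw [h2, en_mul_e, if_pos rfl, en_e_mul, if_pos rfl]
  rw [h1, FF_sc, sc_sub, sc_mul] at h0
  have h2 : (1 - ff A s) * en (PowerSeries.mk fun k => A ^ k) s s = 1 := by
    have := congrArg (fun M => en M s s) h0
    simp only [en_sc] at this
    simpa using this
  refine ⟨h2, ?_⟩
  obtain ⟨uu, huu⟩ := unit_of_coeff0 (1 - ff A s) (by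
    rw [map_sub, coeff0_ff, sub_zero, coeff_one, if_pos rfl])
  rw [← huu] at h2 ⊢
  have h3 : en (PowerSeries.mk fun k => A ^ k) s s = uu⁻¹.val := by
    rw [← one_mul (en _ s s), ← uu.inv_mul, mul_assoc, h2, mul_one]
  rw [h3, uu.inv_mul]

theorem single_nonneg (s i j : ι) (g : G) : 0 ≤ ((Matrix.single s s 1 : Matrix ι ι (MonoidAlgebra ℤ G)) i j).coeff g := by
  rw [Matrix.single_apply]; split_ifs
  · exact coeff_one_nonneg g
  · simp

theorem HH_entry (A : Matrix ι ι (MonoidAlgebra ℤ G)) (s i j : ι) : HH A s i j = if i = s ∨ j = s then 0 else A i j := by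
  unfold HH
  rw [sub_mul, one_mul, mul_sub, mul_one, Matrix.sub_apply, Matrix.sub_apply, Matrix.sub_mul, Matrix.sub_apply]
  have h1 : ∀ i j, (Matrix.single s s 1 * A : Matrix ι ι (MonoidAlgebra ℤ G)) i j = if i = s then A s j else 0 := by
    intro i j
    rw [Matrix.mul_apply, Finset.sum_eq_single s]
    · rw [Matrix.single_apply]
      by_cases hi : i = s
      · rw [if_pos ⟨hi.symm, rfl⟩, one_mul, if_pos hi]
      · rw [if_neg (fun h => hi h.1.symm), zero_mul, if_neg hi]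
    · intro k _ hk
      rw [Matrix.single_apply, if_neg (fun h => hk h.2.symm), zero_mul]
    · intro h; exact absurd (Finset.mem_univ _) h
  have h2 : ∀ (B : Matrix ι ι (MonoidAlgebra ℤ G)) i j, (B * Matrix.single s s 1 : Matrix ι ι (MonoidAlgebra ℤ G)) i j = if j = s then B i s else 0 := by
    intro B i j
    rw [Matrix.mul_apply, Finset.sum_eq_single s]
    · rw [Matrix.single_apply]
      by_cases hj : j = s
      · rw [if_pos ⟨rfl, hj.symm⟩, mul_one, if_pos hj]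
      · rw [if_neg (fun h => hj h.2.symm), mul_zero, if_neg hj]
    · intro k _ hk
      rw [Matrix.single_apply, if_neg (fun h => hk h.1.symm), mul_zero]
    · intro h; exact absurd (Finset.mem_univ _) h
  rw [h1, h2, h2, h1]
  by_cases hi : i = s
  · subst hi
    by_cases hj : j = i
    · subst hj; simp
    · simp [hj]
  · by_cases hj : j = s
    · subst hj; simp [hi]
    · simp [hi, hj]

theorem HH_nonneg {A : Matrix ι ι (MonoidAlgebra ℤ G)} (hA : ∀ i j g, 0 ≤ (A i j).coeff g) (s i j : ι) (g : G) :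
    0 ≤ (HH A s i j).coeff g := by
  rw [HH_entry]; split_ifs
  · simp
  · exact hA i j g

theorem FF_NnM {A : Matrix ι ι (MonoidAlgebra ℤ G)} (hA : ∀ i j g, 0 ≤ (A i j).coeff g) (s : ι) : NnM (FF A s) := by
  have h1 : NnM (sc s 1 : PowerSeries (Matrix ι ι (MonoidAlgebra ℤ G))) := NnM_sc s Nn.one
  have h2 : NnM (C A * X : PowerSeries (Matrix ι ι (MonoidAlgebra ℤ G))) := (NnM_C hA).mul NnM_X
  have h3 := NnM_sub_e (G := G) s
  have h4 : NnM (TT A s) := NnM_geo (HH_nonneg hA s)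
  exact ((h1.mul h2).mul h1).add ((((h1.mul h2).mul h3).mul h4).mul ((h3.mul h2).mul h1))

theorem Phi_fin {M : PowerSeries (Matrix ι ι (MonoidAlgebra ℤ G))} {d : ℕ} (h : ∀ k, d ≤ k → coeff k M = 0) : Fin' (Phi M) :=
  ⟨d, fun k hk => by rw [coeff_Phi, h k hk, map_zero]⟩

theorem target (A : Matrix ι ι (MonoidAlgebra ℤ G)) (hA0 : ∀ i j g, 0 ≤ (A i j).coeff g) (s : ι) (Kf : ℕ)
    (hKf : ∀ k g, Kf ≤ k → 1 ≤ ((A ^ k) s s).coeff g) {y ρm : ℝ} (hy0 : 0 < y) (hyρ : y < ρm) (hρm : ρm < 1)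
    (hfs : HasSum (fun k => coeff k (au (ff A s)) * y ^ k) 1) {cT : ℝ} (hT : Bd ρm (Phi (TT A s)) cT) :
    ∃ (ρ κ cW : ℝ) (k₀ m dq : ℕ) (q : PowerSeries (MonoidAlgebra ℤ G)) (Z Wi : PowerSeries (Matrix ι ι (MonoidAlgebra ℤ G))),
      y < ρ ∧ ρ < ρm ∧ 0 < κ ∧ Nn q ∧ coeff 0 q = 0 ∧ (∀ k, dq < k → coeff k q = 0) ∧ (∃ h, 1 ≤ cf q dq h) ∧ 1 ≤ m ∧
      NnM Z ∧ (∀ i j, LB ρ κ k₀ (en Z i j)) ∧
      (1 - sc s q * C (rr s) * TT A s) * (1 - FF A s - C (HH A s) * X) * (1 - TT A s * (X ^ m * C (rc s))) =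
        (1 - Z) * (1 - sc s q * (sc s 1 + C (rr s))) ∧
      (1 - sc s q * (sc s 1 + C (rr s))) * Wi = 1 ∧ 0 ≤ cW ∧ (∀ k, ‖coeff k (Phi Wi)‖ * ρ ^ k ≤ cW) := by
  have hf : Nn (ff A s) := FF_NnM hA0 s s s
  obtain ⟨hG1, hG2⟩ := ff_inv A s
  obtain ⟨q, u, z, ρ, κ, k₀, d, hq, hq0, hqd, ⟨j0, h0, hj0⟩, hqu, huq, hu, hz, hfz, hyρ', hρρm, hκ, hub, hlow⟩ :=
    scalar_target (ff A s) _ hf (coeff0_ff A s) hG1 hG2 Kf (fun k g hk => by
      unfold cf; rw [coeff_en, coeff_mk]; exact hKf k g hk) hy0 hyρ hρm hfs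
  have hρ0 : 0 < ρ := hy0.trans hyρ'
  have hρ1 : ρ < 1 := hρρm.trans hρm
  have hcG := card_pos' (G := G)
  -- the top degree of q
  obtain ⟨dq, hdq, hdq'⟩ : ∃ dq, (∃ h, 1 ≤ cf q dq h) ∧ ∀ k, dq < k → coeff k q = 0 := by
    classical
    set S : Finset ℕ := (range d).filter (fun k => coeff k q ≠ 0) with hS
    have hne : S.Nonempty := by
      refine ⟨j0, ?_⟩
      rw [hS, Finset.mem_filter, Finset.mem_range]
      have h1 : coeff j0 q ≠ 0 := by
        intro h; unfold cf at hj0; rw [h] at hj0; simp at hj0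
      refine ⟨?_, h1⟩
      by_contra hcon
      exact h1 (hqd j0 (by omega))
    refine ⟨S.max' hne, ?_, ?_⟩
    · have hmem := Finset.mem_filter.mp (S.max'_mem hne)
      by_contra hcon
      push Not at hcon
      apply hmem.2
      ext g
      have h1 := hcon g
      have h2 := hq (S.max' hne) g
      unfold cf at h1 h2
      simp only [MonoidAlgebra.coeff_zero, Finsupp.coe_zero, Pi.zero_apply]
      omega
    · intro k hk
      by_contra hcon
      have hkd : k < d := by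
        by_contra h; exact hcon (hqd k (by omega))
      have hmem : k ∈ S := by rw [hS, Finset.mem_filter, Finset.mem_range]; exact ⟨hkd, hcon⟩
      have := S.le_max' k hmem
      omega
  obtain ⟨h1q, hh1q⟩ := hdq
  obtain ⟨Te, eT, eF, Fe, eh, he', -, -, -, -, -⟩ := fr_facts A s
  -- the connecting series
  have hTNn : NnM (TT A s) := NnM_geo (HH_nonneg hA0 s)
  set M0 : PowerSeries (Matrix ι ι (MonoidAlgebra ℤ G)) := sc s q * C (rr s) * TT A s * C (rc s) with hM0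
  have hM0N : NnM M0 := (((NnM_sc s hq).mul (NnM_C (rr_nonneg s))).mul hTNn).mul (NnM_C (rc_nonneg s))
  set ζ0 := en M0 s s with hζ0
  have hζ0N : Nn ζ0 := hM0N s s
  have hscq : Fin' (Phi (sc s q : PowerSeries (Matrix ι ι (MonoidAlgebra ℤ G)))) := Phi_fin (d := d) (fun k hk => by
    rw [sc, coeff_mk, hqd k hk, Matrix.single_zero])
  obtain ⟨cζ, hcζ⟩ : ∃ cζ, Bd ρ (au ζ0) cζ := by
    obtain ⟨c1, hc1⟩ := hscq.bd hρ0.le
    have h2 : Bd ρ (Phi (TT A s)) cT := hT.mono hρ0.le hρρm.le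
    have h3 := bd_Phi_C hρ0.le (rr s : Matrix ι ι (MonoidAlgebra ℤ G))
    have h4 := bd_Phi_C hρ0.le (rc s : Matrix ι ι (MonoidAlgebra ℤ G))
    have h5 := ((hc1.mul hρ0.le h3).mul hρ0.le h2).mul hρ0.le h4
    rw [← map_mul, ← map_mul, ← map_mul, ← hM0] at h5
    exact ⟨_, bd_au hρ0.le h5 s s⟩
  have hcζ0 := hcζ.nonneg
  obtain ⟨m, hm0, hm1, hmc⟩ : ∃ m : ℕ, k₀ ≤ m ∧ 1 ≤ m ∧ ρ ^ m * cζ ≤ κ / 2 := by
    have h1 : Tendsto (fun m : ℕ => ρ ^ m * cζ) atTop (𝓝 (0 * cζ)) :=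
      (tendsto_pow_atTop_nhds_zero_of_lt_one hρ0.le hρ1).mul_const cζ
    rw [zero_mul] at h1
    obtain ⟨N, hN⟩ := eventually_atTop.mp (h1.eventually_lt_const (show (0 : ℝ) < κ / 2 by linarith))
    exact ⟨max N (max k₀ 1), by omega, by omega, (hN _ (by omega)).le⟩
  set ζ := X ^ m * ζ0 with hζ
  have hζN : Nn ζ := fun k g => by rw [hζ, cf_X_pow_mul]; split_ifs; exacts [hζ0N _ _, le_rfl]
  have hζu : Nn (ζ * u) := hζN.mul hu
  have hζub : ∀ k g, (cf (ζ * u) k g : ℝ) * ρ ^ k ≤ κ / 2 := by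
    intro k g
    have h1 : Bd ρ (X ^ m : PowerSeries ℝ) (ρ ^ m) := by
      have := Bd.C_mul_X_pow hρ0.le (1 : ℝ) m
      simpa using this
    have h2 : Bd ρ (au ζ) (ρ ^ m * cζ) := by
      have h3 : au ζ = X ^ m * au ζ0 := by
        rw [hζ, map_mul, map_pow]; congr 2; unfold au; rw [map_X]
      rw [h3]; exact h1.mul hρ0.le hcζ
    have h4 := bd_weak hρ0.le (zero_le_one) h2 (g := au u) (fun k => by
      rw [Real.norm_eq_abs, abs_of_nonneg (au_nonneg hu k)]; exact hub k) k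
    rw [← map_mul, Real.norm_eq_abs, abs_of_nonneg (au_nonneg hζu k)] at h4
    calc (cf (ζ * u) k g : ℝ) * ρ ^ k ≤ coeff k (au (ζ * u)) * ρ ^ k :=
          mul_le_mul_of_nonneg_right (cf_le_au hζu k g) (by positivity)
      _ ≤ _ := by linarith
  set x := z - ζ * u with hx
  have hxlow : ∀ k g, m ≤ k → κ / 2 ≤ cf x k g * ρ ^ k := by
    intro k g hk
    have h1 := (hlow k g (hm0.trans hk)).2
    have h2 := hζub k g
    rw [hx, cf_sub]; push_cast
    rw [sub_mul]; linarith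
  have hxN : Nn x := by
    intro k g
    rcases Nat.lt_or_ge k m with h | h
    · have h1 : cf (ζ * u) k g = 0 := by
        rw [hζ, mul_assoc, cf_X_pow_mul, if_neg (by omega)]
      rw [hx, cf_sub, h1, sub_zero]; exact hz k g
    · have h1 := hxlow k g h
      have h2 : 0 < (cf x k g : ℝ) * ρ ^ k := by linarith
      have h3 : (0 : ℝ) < cf x k g := pos_of_mul_pos_left h2 (by positivity)
      have h4 : (0 : ℤ) < cf x k g := by exact_mod_cast h3
      exact h4.le
  have hxLB : LB ρ (κ / 2) m x := hxlow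
  have huLB : LB ρ κ k₀ u := fun k g hk => (hlow k g hk).1
  -- apply the abstract identity
  have hXc : ∀ M : PowerSeries (Matrix ι ι (MonoidAlgebra ℤ G)), M * X ^ m = X ^ m * M := fun M => X_pow_mul.symm
  have eec : sc s 1 * (X ^ m * C (rc s)) = (0 : PowerSeries (Matrix ι ι (MonoidAlgebra ℤ G))) := by
    rw [← mul_assoc, hXc, mul_assoc, e_rc, mul_zero]
  have ece : (X ^ m * C (rc s)) * sc s 1 = (X ^ m * C (rc s) : PowerSeries (Matrix ι ι (MonoidAlgebra ℤ G))) := by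
    rw [mul_assoc, rc_e]
  have hesc : ∀ f : PowerSeries (MonoidAlgebra ℤ G), sc s 1 * sc s f = (sc s f : PowerSeries (Matrix ι ι (MonoidAlgebra ℤ G))) :=
    fun f => by rw [sc_mul, one_mul]
  have hsce : ∀ f : PowerSeries (MonoidAlgebra ℤ G), sc s f * sc s 1 = (sc s f : PowerSeries (Matrix ι ι (MonoidAlgebra ℤ G))) :=
    fun f => by rw [sc_mul, mul_one]
  obtain ⟨t1, t2, t3⟩ := abs_target (sc s 1) (TT A s) (C (HH A s) * X) (FF A s) (sc s q) (sc s u) (sc s z) (C (rr s)) (X ^ m * C (rc s))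
    (sc_e s) (geo_inv (HH A s)).2 (geo_inv (HH A s)).1 eh he' eF Fe (hesc q) (hsce q) (hesc u) (hsce u) (e_rr s) (rr_e s) eec ece
    (by rw [sc_sub, sc_mul, hqu]) (by rw [sc_sub, sc_mul, huq]) (by rw [FF_sc, sc_sub, sc_mul, hfz, sc_sub])
  set Z := (sc s z - sc s q * C (rr s) * TT A s * (X ^ m * C (rc s)) * sc s u) * (sc s 1 + sc s q * C (rr s)) + C (HH A s) * X +
    X ^ m * C (rc s) * sc s u * (sc s 1 + sc s q * C (rr s)) with hZ
  have hζsc : sc s q * C (rr s) * TT A s * (X ^ m * C (rc s)) = sc s ζ := by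
    have h1 : sc s q * C (rr s) * TT A s * (X ^ m * C (rc s)) = X ^ m * M0 := by
      rw [← mul_assoc, hXc, mul_assoc, ← hM0]
    have h3 : sc s 1 * M0 = M0 := by rw [hM0, ← mul_assoc, ← mul_assoc, ← mul_assoc, hesc]
    have h4 : M0 * sc s 1 = M0 := by rw [hM0, mul_assoc, rc_e]
    have h2 := eq_sc s (M := X ^ m * M0) (by rw [← mul_assoc, hXc, mul_assoc, h3]) (by rw [mul_assoc, h4])
    rw [h1, h2, en_X_pow_mul]
  have hfirst : sc s z - sc s q * C (rr s) * TT A s * (X ^ m * C (rc s)) * sc s u = sc s x := by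
    rw [hζsc, sc_mul, sc_sub]
  have hen : ∀ i j, en Z i j = (if i = s then x * (if j = s then 1 else q) else X ^ m * (u * (if j = s then 1 else q))) +
      en (C (HH A s) * X) i j := by
    intro i j
    rw [hZ, hfirst, en_add, en_add]
    have a1 : en (sc s x * (sc s 1 + sc s q * C (rr s))) i j = if i = s then x * (if j = s then 1 else q) else 0 := by
      rw [en_mul, Finset.sum_eq_single s]
      · rw [en_sc, en_E1, if_pos rfl]
        by_cases hi : i = s
        · rw [if_pos ⟨hi, rfl⟩, if_pos hi]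
        · rw [if_neg (fun h => hi h.1), if_neg hi, zero_mul]
      · intro k _ hk
        rw [en_sc, if_neg (fun h => hk h.2), zero_mul]
      · intro h; exact absurd (Finset.mem_univ _) h
    have a2 : en (X ^ m * C (rc s) * sc s u * (sc s 1 + sc s q * C (rr s))) i j =
        if i = s then 0 else X ^ m * (u * (if j = s then 1 else q)) := by
      rw [mul_assoc, mul_assoc, en_X_pow_mul, en_mul, Finset.sum_eq_single s]
      · rw [en_rc, en_mul, Finset.sum_eq_single s]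
        · rw [en_sc, en_E1]
          by_cases hi : i = s
          · simp [hi]
          · simp [hi]
        · intro k _ hk
          rw [en_sc, if_neg (fun h => hk h.2), zero_mul]
        · intro h; exact absurd (Finset.mem_univ _) h
      · intro k _ hk
        rw [en_rc, if_neg (fun h => hk h.2), zero_mul]
      · intro h; exact absurd (Finset.mem_univ _) h
    rw [a1, a2]
    by_cases hi : i = s
    · simp only [if_pos hi, add_zero]
    · simp only [if_neg hi, zero_add, add_comm]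
  have hwN : ∀ j : ι, Nn (if j = s then 1 else q) := fun j => by split_ifs; exacts [Nn.one, hq]
  have hHN : NnM (C (HH A s) * X) := (NnM_C (HH_nonneg hA0 s)).mul NnM_X
  have hZN : NnM Z := by
    intro i j
    rw [hen]
    apply Nn.add _ (hHN i j)
    split_ifs
    · rw [mul_one]; exact hxN
    · exact hxN.mul hq
    · rw [mul_one]; intro k g; rw [cf_X_pow_mul]; split_ifs; exacts [hu _ _, le_rfl]
    · intro k g; rw [cf_X_pow_mul]; split_ifs; exacts [(hu.mul hq) _ _, le_rfl]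
  -- lower bounds
  set κ' : ℝ := κ / 2 * ρ ^ j0 * ρ ^ m with hκ'
  have hκ'0 : 0 < κ' := by rw [hκ']; positivity
  have hpj : ρ ^ j0 ≤ 1 := pow_le_one₀ hρ0.le hρ1.le
  have hpm : ρ ^ m ≤ 1 := pow_le_one₀ hρ0.le hρ1.le
  have hpj0 : 0 < ρ ^ j0 := by positivity
  have hpm0 : 0 < ρ ^ m := by positivity
  have hLB : ∀ i j, LB ρ κ' (k₀ + j0 + m + m) (if i = s then x * (if j = s then 1 else q) else X ^ m * (u * (if j = s then 1 else q))) := by
    intro i j
    split_ifs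
    · rw [mul_one]
      refine hxLB.mono ?_ (by omega)
      rw [hκ']
      nlinarith [mul_pos hκ hpj0, mul_pos hκ hpm0, mul_le_mul hpj hpm hpm0.le zero_le_one]
    · refine (hxLB.mul_q hρ0 hxN hq hj0).mono ?_ (by omega)
      rw [hκ']
      exact mul_le_of_le_one_right (by positivity) hpm
    · rw [mul_one]
      refine (huLB.X_pow hρ0 m).mono ?_ (by omega)
      rw [hκ']
      nlinarith [mul_pos hκ hpj0, mul_pos hκ hpm0, mul_pos hpj0 hpm0, mul_pos hκ (mul_pos hpj0 hpm0)]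
    · refine ((huLB.mul_q hρ0 hu hq hj0).X_pow hρ0 m).mono ?_ (by omega)
      rw [hκ']
      nlinarith [mul_pos hκ hpj0, mul_pos hκ hpm0, mul_pos hpj0 hpm0, mul_pos hκ (mul_pos hpj0 hpm0)]
  have hZLB : ∀ i j, LB ρ κ' (k₀ + j0 + m + m) (en Z i j) := by
    intro i j k g hk
    rw [hen, cf_add]
    have h1 := hLB i j k g hk
    have h2 := hHN i j k g
    have h2' : (0 : ℝ) ≤ cf (en (C (HH A s) * X) i j) k g := by exact_mod_cast h2
    push_cast
    rw [add_mul]
    have : 0 ≤ (cf (en (C (HH A s) * X) i j) k g : ℝ) * ρ ^ k := by positivity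
    linarith
  -- the weak bound
  refine ⟨ρ, κ', 1 + Fintype.card ι * (Fintype.card ι * (Fintype.card G * 1)), k₀ + j0 + m + m, m, dq, q, Z,
    1 + sc s u * sc s q * (sc s 1 + C (rr s)), hyρ', hρρm, hκ'0, hq, hq0, hdq', ⟨h1q, hh1q⟩, hm1, hZN, hZLB,
    t1.trans t2.symm, t3, by positivity, ?_⟩
  intro k
  haveI : Nonempty ι := ⟨s⟩
  rw [map_add, map_one, map_add]
  have h1 : ‖coeff k (1 : PowerSeries (Matrix ι ι (MonoidAlgebra ℝ G)))‖ * ρ ^ k ≤ 1 := by
    rw [coeff_one]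
    split_ifs with hk
    · rw [hk, pow_zero, mul_one, norm_one]
    · rw [norm_zero, zero_mul]; exact zero_le_one
  have huq1 : u * q = u - 1 := by rw [mul_sub, mul_one] at huq; rw [← huq]; abel
  have h2 : ‖coeff k (Phi (sc s u * sc s q * (sc s 1 + C (rr s))))‖ ≤
      Fintype.card ι * (Fintype.card ι * (Fintype.card G * (ρ ^ k)⁻¹)) := by
    rw [coeff_Phi]
    apply norm_iZ_le
    intro i j g
    rw [sc_mul, ← coeff_en]
    have h3 : en (sc s (u * q) * (sc s 1 + C (rr s))) i j = if i = s then u * q else 0 := by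
      rw [mul_add, sc_mul, mul_one, en_add, en_mul, Finset.sum_eq_single s]
      · rw [en_sc, en_sc, en_rr]
        by_cases hi : i = s
        · by_cases hj : j = s
          · simp [hi, hj]
          · simp [hi, hj]
        · simp [hi]
      · intro k _ hk
        rw [en_sc, if_neg (fun h => hk h.2), zero_mul]
      · intro h; exact absurd (Finset.mem_univ _) h
    rw [h3]
    have hpk : 0 < ρ ^ k := by positivity
    split_ifs
    · have h4 : (0 : ℤ) ≤ cf (u * q) k g := (hu.mul hq) k g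
      have h5 : cf (u * q) k g ≤ cf u k g := by
        rw [huq1, cf_sub]
        have := Nn.one k g
        omega
      have h6 : (cf u k g : ℝ) * ρ ^ k ≤ 1 :=
        (mul_le_mul_of_nonneg_right (cf_le_au hu k g) hpk.le).trans (hub k)
      show |(cf (u * q) k g : ℝ)| ≤ _
      rw [abs_of_nonneg (by exact_mod_cast h4)]
      have h7 : (cf (u * q) k g : ℝ) ≤ cf u k g := by exact_mod_cast h5
      rw [← one_div, le_div_iff₀ hpk]
      nlinarith
    · rw [map_zero]; simp; positivity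
  have hpk : 0 < ρ ^ k := by positivity
  calc ‖coeff k (1 : PowerSeries (Matrix ι ι (MonoidAlgebra ℝ G))) + coeff k (Phi (sc s u * sc s q * (sc s 1 + C (rr s))))‖ * ρ ^ k
      ≤ (‖coeff k (1 : PowerSeries (Matrix ι ι (MonoidAlgebra ℝ G)))‖ + ‖coeff k (Phi (sc s u * sc s q * (sc s 1 + C (rr s))))‖) * ρ ^ k :=
        mul_le_mul_of_nonneg_right (norm_add_le _ _) hpk.le
    _ ≤ 1 + (Fintype.card ι * (Fintype.card ι * (Fintype.card G * (ρ ^ k)⁻¹))) * ρ ^ k := by
        rw [add_mul]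
        exact add_le_add h1 (mul_le_mul_of_nonneg_right h2 hpk.le)
    _ = _ := by field_simp

end tgt3

end Pool.Agent.W717.G
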