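import Mathlib
import Pool.Agent.W717.G.Tgt3
import Pool.Agent.W717.G.Beta
import Pool.Agent.W717.G.BSide2
import Pool.Agent.W717.G.DD

set_option autoImplicit false
set_option linter.all false

namespace Pool.Agent.W717.G

open Finset PowerSeries Filter Topology

section HB

variable {A : Type*} [NormedRing A] [NormedAlgebra ℝ A]

/-- bounded for the weight `ρ` -/
def HB (ρ : ℝ) (f : PowerSeries A) : Prop := ∃ c, Bd ρ f c

theorem HB.mul {ρ : ℝ} (hρ : 0 ≤ ρ) {f g : PowerSeries A} (hf : HB ρ f) (hg : HB ρ g) : HB ρ (f * g) := by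
  obtain ⟨c, hc⟩ := hf
  obtain ⟨d, hd⟩ := hg
  exact ⟨_, hc.mul hρ hd⟩
theorem HB.add {ρ : ℝ} (hρ : 0 ≤ ρ) {f g : PowerSeries A} (hf : HB ρ f) (hg : HB ρ g) : HB ρ (f + g) := by
  obtain ⟨c, hc⟩ := hf
  obtain ⟨d, hd⟩ := hg
  exact ⟨_, hc.add hρ hd⟩
theorem HB.sub {ρ : ℝ} (hρ : 0 ≤ ρ) {f g : PowerSeries A} (hf : HB ρ f) (hg : HB ρ g) : HB ρ (f - g) := by
  obtain ⟨c, hc⟩ := hf
  obtain ⟨d, hd⟩ := hg
  exact ⟨_, hc.sub hρ hd⟩
theorem HB.neg {ρ : ℝ} {f : PowerSeries A} (hf : HB ρ f) : HB ρ (-f) := by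
  obtain ⟨c, hc⟩ := hf
  exact ⟨_, hc.neg⟩
theorem HB_C {ρ : ℝ} (hρ : 0 ≤ ρ) (a : A) : HB ρ (C a : PowerSeries A) := ⟨_, Bd.C hρ a⟩
theorem HB_one [NormOneClass A] {ρ : ℝ} (hρ : 0 ≤ ρ) : HB ρ (1 : PowerSeries A) := ⟨_, Bd.one hρ⟩
theorem HB_X {ρ : ℝ} (hρ : 0 ≤ ρ) : HB ρ (X : PowerSeries A) := by
  have := Bd.C_mul_X_pow hρ (1 : A) 1
  rw [map_one, one_mul, pow_one] at this
  exact ⟨_, this⟩
theorem HB.mono {ρ ρ' : ℝ} {f : PowerSeries A} (hf : HB ρ f) (h0 : 0 ≤ ρ') (h1 : ρ' ≤ ρ) : HB ρ' f := by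
  obtain ⟨c, hc⟩ := hf
  exact ⟨c, hc.mono h0 h1⟩
theorem HB.ev_mul [CompleteSpace A] {ρ y : ℝ} (hy : 0 ≤ y) (hyρ : y ≤ ρ) {f g : PowerSeries A} (hf : HB ρ f) (hg : HB ρ g) :
    ev y (f * g) = ev y f * ev y g := by
  obtain ⟨c, hc⟩ := hf
  obtain ⟨d, hd⟩ := hg
  exact Pool.Agent.W717.G.ev_mul hy hyρ hc hd
theorem HB.ev_add [CompleteSpace A] {ρ y : ℝ} (hy : 0 ≤ y) (hyρ : y ≤ ρ) {f g : PowerSeries A} (hf : HB ρ f) (hg : HB ρ g) :
    ev y (f + g) = ev y f + ev y g := by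
  obtain ⟨c, hc⟩ := hf
  obtain ⟨d, hd⟩ := hg
  exact Pool.Agent.W717.G.ev_add hy hyρ hc hd
theorem HB.ev_sub [CompleteSpace A] {ρ y : ℝ} (hy : 0 ≤ y) (hyρ : y ≤ ρ) {f g : PowerSeries A} (hf : HB ρ f) (hg : HB ρ g) :
    ev y (f - g) = ev y f - ev y g := by
  obtain ⟨c, hc⟩ := hf
  obtain ⟨d, hd⟩ := hg
  exact Pool.Agent.W717.G.ev_sub hy hyρ hc hd

theorem HB_lX [NormOneClass A] {ρ : ℝ} (hρ : 0 ≤ ρ) (lam : ℝ) : HB ρ (lX lam : PowerSeries A) :=
  (HB_one hρ).sub hρ ((HB_C hρ _).mul hρ (HB_X hρ))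

theorem ev_lX [NormOneClass A] [CompleteSpace A] {lam : ℝ} (hlam : 0 < lam) : ev (lam⁻¹) (lX lam : PowerSeries A) = 0 := by
  unfold lX
  have h0 : 0 ≤ lam⁻¹ := by positivity
  rw [(HB_one h0).ev_sub h0 le_rfl ((HB_C h0 _).mul h0 (HB_X h0)), ev_one]
  have := ev_C_mul_X_pow (lam⁻¹) (algebraMap ℝ A lam) 1
  rw [pow_one, pow_one] at this
  rw [this, Algebra.algebraMap_eq_smul_one, smul_smul, inv_mul_cancel₀ hlam.ne', one_smul, sub_self]

end HB

section augev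

variable {ι G : Type} [Fintype ι] [DecidableEq ι] [Group G] [Fintype G] [DecidableEq G]

/-- augmentation of an entry as a linear map -/
noncomputable def augL (i j : ι) : Matrix ι ι (MonoidAlgebra ℝ G) →ₗ[ℝ] ℝ where
  toFun a := aug (a i j)
  map_add' a b := by rw [Matrix.add_apply, map_add]
  map_smul' r a := by rw [Matrix.smul_apply, aug_smul]; rfl

theorem hasSum_augL [Nonempty ι] {ρ y : ℝ} (hy : 0 ≤ y) (hyρ : y ≤ ρ) {M : PowerSeries (Matrix ι ι (MonoidAlgebra ℝ G))}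
    (h : HB ρ M) (i j : ι) : HasSum (fun k => aug ((coeff k M) i j) * y ^ k) (aug ((ev y M) i j)) := by
  obtain ⟨c, hc⟩ := h
  have h1 := bd_hasSum hy hyρ hc
  have h2 := (LinearMap.toContinuousLinearMap (augL i j)).hasSum h1
  have h3 : (fun k => aug ((coeff k M) i j) * y ^ k) =
      fun k => (LinearMap.toContinuousLinearMap (augL i j)) (y ^ k • coeff k M) := by
    funext k
    rw [map_smul, smul_eq_mul, mul_comm]; rfl
  rw [h3]
  exact h2

theorem hasSum_au [Nonempty ι] {ρ y : ℝ} (hy : 0 ≤ y) (hyρ : y ≤ ρ) {M : PowerSeries (Matrix ι ι (MonoidAlgebra ℤ G))}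
    (h : HB ρ (Phi M)) (i j : ι) : HasSum (fun k => coeff k (au (en M i j)) * y ^ k) (aug ((ev y (Phi M)) i j)) := by
  have h1 := hasSum_augL hy hyρ h i j
  have h2 : (fun k => coeff k (au (en M i j)) * y ^ k) = fun k => aug ((coeff k (Phi M)) i j) * y ^ k := by
    funext k
    rw [coeff_Phi, coeff_au, aug_apply]
    congr 1
    apply Finset.sum_congr rfl
    intro g _
    rw [coeff_iZ]
    unfold cf
    rw [coeff_en]
  rw [h2]; exact h1

/-- rank one matrices -/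
noncomputable def Rk (x w : ι → ℝ) : Matrix ι ι (MonoidAlgebra ℝ G) := Matrix.of fun i j => (x i * w j) • sg

theorem mul_Rk (a : Matrix ι ι (MonoidAlgebra ℝ G)) (x w : ι → ℝ) : a * Rk x w = Rk (fun i => ∑ j, aug (a i j) * x j) w := by
  ext1 i k
  rw [Matrix.mul_apply]
  unfold Rk
  simp only [Matrix.of_apply]
  rw [Finset.sum_mul, Finset.sum_smul]
  apply Finset.sum_congr rfl
  intro j _
  rw [mul_smul_comm, mul_sg, smul_smul]
  congr 1; ring

theorem Rk_zero (w : ι → ℝ) : Rk (fun _ : ι => 0) w = (0 : Matrix ι ι (MonoidAlgebra ℝ G)) := by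
  ext1 i k
  unfold Rk
  simp only [Matrix.of_apply]
  rw [zero_mul, zero_smul]; rfl

theorem Phi_injective : Function.Injective (Phi : PowerSeries (Matrix ι ι (MonoidAlgebra ℤ G)) →+* _) := by
  intro a b h
  ext1 k
  apply iZ_inj
  rw [← coeff_Phi, ← coeff_Phi, h]

theorem Int_Phi (M : PowerSeries (Matrix ι ι (MonoidAlgebra ℤ G))) : Int' OZ (Phi M) := by
  intro k
  rw [coeff_Phi]
  exact ⟨_, rfl⟩

theorem exists_Phi {f : PowerSeries (Matrix ι ι (MonoidAlgebra ℝ G))} (h : Int' OZ f) : ∃ M, Phi M = f := by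
  choose a ha using h
  refine ⟨PowerSeries.mk a, ?_⟩
  ext1 k
  rw [coeff_Phi, coeff_mk]
  exact ha k

/-- map on units -/
noncomputable def PhiU : (PowerSeries (Matrix ι ι (MonoidAlgebra ℤ G)))ˣ →* (PowerSeries (Matrix ι ι (MonoidAlgebra ℝ G)))ˣ :=
  Units.map (Phi : PowerSeries (Matrix ι ι (MonoidAlgebra ℤ G)) →+* _).toMonoidHom

theorem PhiU_val (u : (PowerSeries (Matrix ι ι (MonoidAlgebra ℤ G)))ˣ) : (PhiU u).val = Phi u.val := rfl
theorem PhiU_inv (u : (PowerSeries (Matrix ι ι (MonoidAlgebra ℤ G)))ˣ) : (PhiU u)⁻¹.val = Phi u⁻¹.val := rfl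

theorem DD_PhiU_nilV (e : Matrix ι ι (MonoidAlgebra ℤ G)) (ν : PowerSeries (Matrix ι ι (MonoidAlgebra ℤ G)))
    (h1 : C e * ν = ν) (h2 : ν * C e = 0) (k : ℕ) : DD (PhiU (nilV e ν h1 h2)) k = 0 := by
  have h1' : C (iZ e) * Phi ν = Phi ν := by
    conv_rhs => rw [← h1, map_mul]
    rw [Phi, map_C]
  have h2' : Phi ν * C (iZ e) = 0 := by
    have := congrArg Phi h2
    rw [map_mul, map_zero] at this
    rw [← this, Phi, map_C]
  have h3 : PhiU (nilV e ν h1 h2) = nilV (iZ e) (Phi ν) h1' h2' := by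
    apply Units.ext
    rw [PhiU_val, nilV_val, nilV_val, map_add, map_one]
  rw [h3]
  exact DD_nilV _ _ _ _ k

theorem DD_PhiU_geoU (a : Matrix ι ι (MonoidAlgebra ℤ G)) (k : ℕ) :
    DD (PhiU (geoU a)) k = if k = 0 then 0 else - kap ((iZ a) ^ k) := by
  have h3 : PhiU (geoU a) = geoU (iZ a) := by
    apply Units.ext
    rw [PhiU_val, geoU_val, geoU_val, map_sub, map_one, map_mul]
    congr 2
    · rw [Phi, map_C]
    · rw [Phi, map_X]
  rw [h3, DD_geoU]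

/-- digit series -/
theorem dig_series [Nonempty ι] (n : ι → ι → ℕ → ℤ) (C : ℝ) (hC : ∀ i j k, |(n i j k : ℝ)| ≤ C) {y ρ : ℝ} (hy : 0 ≤ y) (hyρ : y ≤ ρ)
    (hρ1 : ρ < 1) (x : ι → ι → ℝ) (hx : ∀ i j, HasSum (fun k => (n i j k : ℝ) * y ^ k) (x i j)) :
    HB ρ (Phi (PowerSeries.mk fun k => (Matrix.of fun i j => MonoidAlgebra.single (1 : G) (n i j k) : Matrix ι ι (MonoidAlgebra ℤ G)))) ∧
    ∀ i j, aug ((ev y (Phi (PowerSeries.mk fun k =>
      (Matrix.of fun i j => MonoidAlgebra.single (1 : G) (n i j k) : Matrix ι ι (MonoidAlgebra ℤ G))))) i j) = x i j := by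
  have hρ0 : 0 ≤ ρ := hy.trans hyρ
  have hC0 : 0 ≤ C := (abs_nonneg _).trans (hC (Classical.arbitrary ι) (Classical.arbitrary ι) 0)
  have hcoef : ∀ i j k g, (MonoidAlgebra.single (1 : G) (n i j k)).coeff g = if 1 = g then n i j k else 0 := by
    intro i j k g
    rw [MonoidAlgebra.coeff_single, Finsupp.single_apply]
  have hHB : HB ρ (Phi (PowerSeries.mk fun k => (Matrix.of fun i j => MonoidAlgebra.single (1 : G) (n i j k) : Matrix ι ι (MonoidAlgebra ℤ G)))) := by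
    refine ⟨_, bd_geom (τ := 1) (b := Fintype.card ι * (Fintype.card ι * (Fintype.card G * C))) hρ0 (by positivity) zero_le_one
      (by linarith) (fun k => ?_)⟩
    rw [one_pow, mul_one, coeff_Phi, coeff_mk]
    apply norm_iZ_le
    intro i j g
    rw [Matrix.of_apply, hcoef]
    split_ifs
    · exact hC i j k
    · simp [hC0]
  refine ⟨hHB, fun i j => ?_⟩
  have h1 := hasSum_au hy hyρ hHB i j
  refine h1.unique ?_
  have h2 : (fun k => coeff k (au (en (PowerSeries.mk fun k =>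
      (Matrix.of fun i j => MonoidAlgebra.single (1 : G) (n i j k) : Matrix ι ι (MonoidAlgebra ℤ G))) i j)) * y ^ k) =
      fun k => (n i j k : ℝ) * y ^ k := by
    funext k
    congr 1
    rw [coeff_au]
    unfold cf
    rw [coeff_en, coeff_mk, Matrix.of_apply]
    simp only [hcoef]
    rw [Finset.sum_eq_single (1 : G)]
    · simp
    · intro g _ hg
      rw [if_neg (fun h => hg h.symm)]; simp
    · intro h; exact absurd (Finset.mem_univ _) h
  rw [h2]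
  exact hx i j

/-- a right inverse of a series with constant term one is a left inverse -/
theorem inv_comm0 {A : Type*} [Ring A] {x y : PowerSeries A} (h0 : coeff 0 x = 1) (h : x * y = 1) : y * x = 1 := by
  obtain ⟨u, hu⟩ := unit_of_coeff0 x h0
  have h1 : y = u⁻¹.val := by
    rw [← one_mul y, ← u.inv_mul, mul_assoc, hu, h, mul_one]
  rw [h1, ← hu, u.inv_mul]

/-- two sided approximation -/
theorem approx3 {A : Type*} [NormedRing A] [NormedAlgebra ℝ A] {ρ : ℝ} (hρ : 0 ≤ ρ) {Γ : Subgroup (PowerSeries A)ˣ} {P R : (PowerSeries A)ˣ}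
    {b : PowerSeries A} (hP : HB ρ P.val) (hb : HB ρ b) (hR : HB ρ R.val) (cP : InCl ρ Γ P) (cR : InCl ρ Γ R) (ε : ℝ) (hε : 0 < ε) :
    ∃ γ ∈ Γ, ∃ γ' ∈ Γ, Bd ρ (P.val * b * R.val - γ.val * b * γ'.val) ε := by
  obtain ⟨p, hp⟩ := hP
  obtain ⟨β, hβ⟩ := hb
  obtain ⟨r, hr⟩ := hR
  have hp0 := hp.nonneg
  have hβ0 := hβ.nonneg
  have hr0 := hr.nonneg
  set δ1 : ℝ := min 1 (ε / (2 * ((β + 1) * (r + 1)))) with hδ1
  have hδ10 : 0 < δ1 := lt_min one_pos (by positivity)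
  set δ2 : ℝ := ε / (2 * ((p + 1) * (β + 1))) with hδ2
  have hδ20 : 0 < δ2 := by positivity
  obtain ⟨γ, hγ, hγb⟩ := cP δ1 hδ10
  obtain ⟨γ', hγ', hγb'⟩ := cR δ2 hδ20
  refine ⟨γ, hγ, γ', hγ', ?_⟩
  have e1 : P.val * b * R.val - γ.val * b * γ'.val = (P.val - γ.val) * b * R.val + γ.val * b * (R.val - γ'.val) := by noncomm_ring
  have hγv : Bd ρ γ.val (p + δ1) := by
    have := hp.sub hρ hγb
    rwa [sub_sub_cancel] at this
  rw [e1]
  refine (((hγb.mul hρ hβ).mul hρ hr).add hρ ((hγv.mul hρ hβ).mul hρ hγb')).le ?_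
  have h1 : δ1 * β * r ≤ ε / 2 := by
    have h2 : δ1 ≤ ε / (2 * ((β + 1) * (r + 1))) := min_le_right _ _
    rw [le_div_iff₀ (by positivity)] at h2
    nlinarith [mul_nonneg hδ10.le hβ0, mul_nonneg hδ10.le hr0, mul_nonneg hβ0 hr0, mul_nonneg hδ10.le (mul_nonneg hβ0 hr0)]
  have h3 : (p + δ1) * β * δ2 ≤ ε / 2 := by
    have h4 : δ2 * (2 * ((p + 1) * (β + 1))) = ε := by rw [hδ2]; field_simp
    have h5 : δ1 ≤ 1 := min_le_left _ _
    have h6 : (p + δ1) * β * δ2 ≤ (p + 1) * (β + 1) * δ2 := by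
      apply mul_le_mul_of_nonneg_right _ hδ20.le
      apply mul_le_mul (by linarith) (by linarith) hβ0 (by linarith)
    linarith
  linarith

end augev

end Pool.Agent.W717.G
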