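import Mathlib
import Pool.Agent.W717.G.AugEv

set_option autoImplicit false
set_option linter.all false

namespace Pool.Agent.W717.G

open Finset PowerSeries Filter Topology

section m1a

variable {ι G : Type} [Fintype ι] [DecidableEq ι] [Group G] [Fintype G] [DecidableEq G]

theorem norm_le_of_entries (a : Matrix ι ι (MonoidAlgebra ℝ G)) (c : ℝ) (h : ∀ i j g, |(a i j).coeff g| ≤ c) :
    ‖a‖ ≤ Fintype.card ι * (Fintype.card ι * (Fintype.card G * c)) := by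
  refine (norm_le_sum _).trans ?_
  calc ∑ i, ∑ j, ∑ g, |(a i j).coeff g| ≤ ∑ i : ι, ∑ j : ι, ∑ g : G, c := by
        apply Finset.sum_le_sum; intro i _
        apply Finset.sum_le_sum; intro j _
        apply Finset.sum_le_sum; intro g _
        exact h i j g
    _ = _ := by simp [Finset.sum_const]

theorem Phi_C (a : Matrix ι ι (MonoidAlgebra ℤ G)) : Phi (C a) = C (iZ a) := by
  rw [Phi, map_C]

theorem Phi_X : Phi (X : PowerSeries (Matrix ι ι (MonoidAlgebra ℤ G))) = X := by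
  rw [Phi, map_X]

theorem Phi_mk_pow (a : Matrix ι ι (MonoidAlgebra ℤ G)) :
    Phi (PowerSeries.mk fun k => a ^ k) = PowerSeries.mk fun k => (iZ a) ^ k := by
  ext1 k
  rw [coeff_Phi, coeff_mk, coeff_mk, map_pow]

theorem HB_Phi_C {ρ : ℝ} (hρ : 0 ≤ ρ) (a : Matrix ι ι (MonoidAlgebra ℤ G)) : HB ρ (Phi (C a)) := by
  rw [Phi_C]; exact HB_C hρ _

theorem HB_Phi_X [Nonempty ι] {ρ : ℝ} (hρ : 0 ≤ ρ) : HB ρ (Phi (X : PowerSeries (Matrix ι ι (MonoidAlgebra ℤ G)))) := by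
  rw [Phi_X]; exact HB_X hρ

theorem HB_Phi_one [Nonempty ι] {ρ : ℝ} (hρ : 0 ≤ ρ) : HB ρ (Phi (1 : PowerSeries (Matrix ι ι (MonoidAlgebra ℤ G)))) := by
  rw [map_one]; exact HB_one hρ

theorem HB_Phi_e {ρ : ℝ} (hρ : 0 ≤ ρ) (s : ι) : HB ρ (Phi (sc s 1 : PowerSeries (Matrix ι ι (MonoidAlgebra ℤ G)))) := by
  rw [sc_one]; exact HB_Phi_C hρ _

theorem HB_Phi_mul {ρ : ℝ} (hρ : 0 ≤ ρ) {M N : PowerSeries (Matrix ι ι (MonoidAlgebra ℤ G))} (hM : HB ρ (Phi M)) (hN : HB ρ (Phi N)) :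
    HB ρ (Phi (M * N)) := by
  rw [map_mul]; exact hM.mul hρ hN

theorem HB_Phi_add {ρ : ℝ} (hρ : 0 ≤ ρ) {M N : PowerSeries (Matrix ι ι (MonoidAlgebra ℤ G))} (hM : HB ρ (Phi M)) (hN : HB ρ (Phi N)) :
    HB ρ (Phi (M + N)) := by
  rw [map_add]; exact hM.add hρ hN

theorem HB_Phi_sub {ρ : ℝ} (hρ : 0 ≤ ρ) {M N : PowerSeries (Matrix ι ι (MonoidAlgebra ℤ G))} (hM : HB ρ (Phi M)) (hN : HB ρ (Phi N)) :
    HB ρ (Phi (M - N)) := by
  rw [map_sub]; exact hM.sub hρ hN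

theorem HB_Phi_neg {ρ : ℝ} {M : PowerSeries (Matrix ι ι (MonoidAlgebra ℤ G))} (hM : HB ρ (Phi M)) :
    HB ρ (Phi (-M)) := by
  rw [map_neg]; exact hM.neg

theorem HB_Phi_FF [Nonempty ι] {ρ : ℝ} (hρ : 0 ≤ ρ) (A : Matrix ι ι (MonoidAlgebra ℤ G)) (s : ι) (hT : HB ρ (Phi (TT A s))) :
    HB ρ (Phi (FF A s)) := by
  unfold FF
  have e := HB_Phi_e (G := G) hρ s
  have o := HB_Phi_one (ι := ι) (G := G) hρ
  have a := HB_Phi_mul hρ (HB_Phi_C hρ A) (HB_Phi_X hρ)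
  have e' := HB_Phi_sub hρ o e
  exact HB_Phi_add hρ (HB_Phi_mul hρ (HB_Phi_mul hρ e a) e)
    (HB_Phi_mul hρ (HB_Phi_mul hρ (HB_Phi_mul hρ (HB_Phi_mul hρ e a) e') hT) (HB_Phi_mul hρ (HB_Phi_mul hρ e' a) e))

theorem HB_Phi_TT [Nonempty ι] {A : Matrix ι ι (MonoidAlgebra ℤ G)} (hA0 : ∀ i j g, 0 ≤ (A i j).coeff g) (s : ι) {ρ b τ : ℝ}
    (hρ : 0 ≤ ρ) (hb : 0 ≤ b) (hτ : 0 ≤ τ) (hτρ : τ * ρ < 1)
    (hrem : ∀ k i j g, ((((HH A s) ^ k) i j).coeff g : ℝ) ≤ b * τ ^ k) : HB ρ (Phi (TT A s)) := by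
  refine ⟨_, bd_geom (τ := τ) (b := Fintype.card ι * (Fintype.card ι * (Fintype.card G * b))) hρ (by positivity) hτ hτρ (fun k => ?_)⟩
  rw [coeff_Phi, TT, coeff_mk]
  refine (norm_iZ_le _ (b * τ ^ k) (fun i j g => ?_)).trans (le_of_eq (by ring))
  rw [abs_of_nonneg (by exact_mod_cast pow_nonneg_mat (HH_nonneg hA0 s) k i j g)]
  exact hrem k i j g

/-- the first return series takes the value one at `1/lam` -/
theorem ff_hasSum [Nonempty ι] {A : Matrix ι ι (MonoidAlgebra ℤ G)} (s : ι) {lam θ b ρ g : ℝ} (hlam : 0 < lam)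
    (hθ0 : 0 < θ) (hb : 0 ≤ b) (hρ : lam⁻¹ ≤ ρ) (hθρ : lam * θ * ρ < 1) (hg : g ≠ 0)
    (hlim : ∀ k h, |(lam⁻¹) ^ k * (((A ^ k) s s).coeff h : ℝ) - g| ≤ b * θ ^ k) (hT : HB ρ (Phi (TT A s))) :
    HasSum (fun k => coeff k (au (ff A s)) * (lam⁻¹) ^ k) 1 := by
  have hy0 : 0 ≤ lam⁻¹ := by positivity
  have hρ0 : 0 ≤ ρ := hy0.trans hρ
  have hcG := card_pos' (G := G)
  obtain ⟨cF, hcF⟩ := HB_Phi_FF hρ0 A s hT
  have hff : HB ρ (au (ff A s)) := ⟨_, bd_au hρ0 hcF s s⟩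
  set S : PowerSeries (MonoidAlgebra ℤ G) := en (PowerSeries.mk fun k => A ^ k) s s with hS
  have hSk : ∀ k, coeff k (au S) = ∑ h, (((A ^ k) s s).coeff h : ℝ) := by
    intro k
    rw [coeff_au]
    unfold cf
    rw [hS, coeff_en, coeff_mk]
  obtain ⟨hL, hev⟩ := lim_series (A := ℝ) (a := Fintype.card G * g) (f := au S) (b := Fintype.card G * b) hlam hρ hθ0 (by positivity) hθρ (by
    intro k
    rw [hSk, smul_eq_mul, Finset.mul_sum, Real.norm_eq_abs]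
    have e1 : ∑ h : G, (lam⁻¹) ^ k * (((A ^ k) s s).coeff h : ℝ) - Fintype.card G * g =
        ∑ h : G, ((lam⁻¹) ^ k * (((A ^ k) s s).coeff h : ℝ) - g) := by
      rw [Finset.sum_sub_distrib, Finset.sum_const, Finset.card_univ, nsmul_eq_mul]
    rw [e1]
    refine (Finset.abs_sum_le_sum_abs _ _).trans ((Finset.sum_le_sum fun h _ => hlim k h).trans (le_of_eq ?_))
    rw [Finset.sum_const, Finset.card_univ, nsmul_eq_mul]; ring)
  have h1 : (1 - au (ff A s)) * (lX lam * au S) = lX lam := by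
    have := (ff_inv A s).1
    have h2 := congrArg au this
    rw [map_mul, map_sub, map_one, ← hS] at h2
    rw [mul_left_comm, h2, mul_one]
  have h2 := congrArg (ev (lam⁻¹)) h1
  have hone : HB ρ (1 : PowerSeries ℝ) := HB_one hρ0
  rw [(hone.sub hρ0 hff).ev_mul hy0 hρ hL, hone.ev_sub hy0 hρ hff, ev_one, hev, ev_lX hlam] at h2
  have h3 : ev (lam⁻¹) (au (ff A s)) = 1 := by
    have h4 : (Fintype.card G : ℝ) * g ≠ 0 := mul_ne_zero hcG.ne' hg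
    have h5 := (mul_eq_zero.mp h2).resolve_right h4
    linarith
  obtain ⟨c, hc⟩ := hff
  have h6 := bd_hasSum hy0 hρ hc
  rw [h3] at h6
  have h7 : (fun k => coeff k (au (ff A s)) * (lam⁻¹) ^ k) = fun k => (lam⁻¹) ^ k • coeff k (au (ff A s)) := by
    funext k; rw [smul_eq_mul, mul_comm]
  rw [h7]; exact h6

theorem Fin_of_Phi {M : PowerSeries (Matrix ι ι (MonoidAlgebra ℤ G))} (h : Fin' (Phi M)) : Fin' M := by
  obtain ⟨d, hd⟩ := h
  refine ⟨d, fun k hk => iZ_inj ?_⟩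
  rw [← coeff_Phi, hd k hk, map_zero]

/-- pulling back elements of `Γ` -/
theorem unit_pullback {γ : (PowerSeries (Matrix ι ι (MonoidAlgebra ℝ G)))ˣ} (h1 : Int' OZ γ.val) (h2 : Int' OZ γ⁻¹.val) :
    ∃ Y : (PowerSeries (Matrix ι ι (MonoidAlgebra ℤ G)))ˣ, PhiU Y = γ := by
  obtain ⟨M, hM⟩ := exists_Phi h1
  obtain ⟨N, hN⟩ := exists_Phi h2
  have e1 : M * N = 1 := Phi_injective (by rw [map_mul, hM, hN, map_one, γ.mul_inv])
  have e2 : N * M = 1 := Phi_injective (by rw [map_mul, hM, hN, map_one, γ.inv_mul])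
  exact ⟨⟨M, N, e1, e2⟩, Units.ext hM⟩

end m1a

end Pool.Agent.W717.G
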