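import Mathlib
import Pool.Agent.W717.G.M1a

set_option autoImplicit false
set_option linter.all false

namespace Pool.Agent.W717.G

open Finset PowerSeries Filter Topology

section m1b

variable {ι G : Type} [Fintype ι] [DecidableEq ι] [Group G] [Fintype G] [DecidableEq G]

/-- the standard vector -/
def es (s : ι) : ι → ℝ := fun i => if i = s then 1 else 0

theorem mul_Rk_es (a : Matrix ι ι (MonoidAlgebra ℝ G)) (s : ι) (w : ι → ℝ) : a * Rk (es s) w = Rk (fun i => aug (a i s)) w := by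
  rw [mul_Rk]
  congr 1
  funext i
  rw [Finset.sum_eq_single s]
  · unfold es; rw [if_pos rfl, mul_one]
  · intro j _ hj
    unfold es; rw [if_neg hj, mul_zero]
  · intro h; exact absurd (Finset.mem_univ _) h

theorem align [Nonempty ι] (s i1 : ι) (hi1 : i1 ≠ s) (rB : ι → ℝ) (hr : rB i1 ≠ 0) {lam ρ : ℝ} (hlam : 1 < lam) (hρ : lam⁻¹ ≤ ρ)
    (hρ1 : ρ < 1) : ∃ ν1 ν2 : PowerSeries (Matrix ι ι (MonoidAlgebra ℤ G)), sc s 1 * ν1 = 0 ∧ ν1 * sc s 1 = ν1 ∧
      sc s 1 * ν2 = ν2 ∧ ν2 * sc s 1 = 0 ∧ coeff 0 ν1 = 0 ∧ coeff 0 ν2 = 0 ∧ HB ρ (Phi ν1) ∧ HB ρ (Phi ν2) ∧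
      ∀ w : ι → ℝ, ev (lam⁻¹) (Phi ((1 + ν2) * (1 + ν1))) * Rk (es s) w = Rk rB w := by
  have hlam0 : 0 < lam := by linarith
  have hy0 : 0 ≤ lam⁻¹ := by positivity
  have hρ0 : 0 ≤ ρ := hy0.trans hρ
  choose n hn0 hnb hns using fun i => beta_exp hlam (rB i)
  choose C hC using hnb
  obtain ⟨n', hn0', ⟨C', hC'⟩, hns'⟩ := beta_exp hlam ((rB s - 1) / rB i1)
  have hC0 : ∀ i, 0 ≤ C i := fun i => (abs_nonneg _).trans (hC i 0)
  have hC0' : 0 ≤ C' := (abs_nonneg _).trans (hC' 0)
  set N1 : ι → ι → ℕ → ℤ := fun i j k => if i ≠ s ∧ j = s then n i k else 0 with hN1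
  set N2 : ι → ι → ℕ → ℤ := fun i j k => if i = s ∧ j = i1 then n' k else 0 with hN2
  set x1 : ι → ι → ℝ := fun i j => if i ≠ s ∧ j = s then rB i else 0 with hx1
  set x2 : ι → ι → ℝ := fun i j => if i = s ∧ j = i1 then (rB s - 1) / rB i1 else 0 with hx2
  obtain ⟨hb1, he1⟩ := dig_series (G := G) N1 (∑ i, C i) (by
    intro i j k
    simp only [hN1]
    split_ifs
    · exact (hC i k).trans (Finset.single_le_sum (f := C) (fun i _ => hC0 i) (Finset.mem_univ i))
    · simp; exact Finset.sum_nonneg fun i _ => hC0 i) hy0 hρ hρ1 x1 (by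
    intro i j
    simp only [hN1, hx1]
    split_ifs
    · exact hns i
    · simp [hasSum_zero])
  obtain ⟨hb2, he2⟩ := dig_series (G := G) N2 C' (by
    intro i j k
    simp only [hN2]
    split_ifs
    · exact hC' k
    · simpa using hC0') hy0 hρ hρ1 x2 (by
    intro i j
    simp only [hN2, hx2]
    split_ifs
    · exact hns'
    · simp [hasSum_zero])
  set ν1 : PowerSeries (Matrix ι ι (MonoidAlgebra ℤ G)) := PowerSeries.mk fun k =>
    (Matrix.of fun i j => MonoidAlgebra.single (1 : G) (N1 i j k) : Matrix ι ι (MonoidAlgebra ℤ G)) with hν1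
  set ν2 : PowerSeries (Matrix ι ι (MonoidAlgebra ℤ G)) := PowerSeries.mk fun k =>
    (Matrix.of fun i j => MonoidAlgebra.single (1 : G) (N2 i j k) : Matrix ι ι (MonoidAlgebra ℤ G)) with hν2
  have hen1 : ∀ i j k, coeff k (en ν1 i j) = MonoidAlgebra.single (1 : G) (N1 i j k) := fun i j k => by
    rw [coeff_en, hν1, coeff_mk, Matrix.of_apply]
  have hen2 : ∀ i j k, coeff k (en ν2 i j) = MonoidAlgebra.single (1 : G) (N2 i j k) := fun i j k => by
    rw [coeff_en, hν2, coeff_mk, Matrix.of_apply]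
  refine ⟨ν1, ν2, ?_, ?_, ?_, ?_, ?_, ?_, hb1, hb2, ?_⟩
  · apply en_ext; intro i j
    rw [en_e_mul, en_zero]
    split_ifs
    · ext1 k
      rw [hen1, map_zero]
      simp [hN1]
    · rfl
  · apply en_ext; intro i j
    rw [en_mul_e]
    split_ifs with h
    · rw [h]
    · ext1 k
      rw [hen1, map_zero]
      simp [hN1, h]
  · apply en_ext; intro i j
    rw [en_e_mul]
    split_ifs with h
    · rw [h]
    · ext1 k
      rw [hen2, map_zero]
      simp [hN2, h]
  · apply en_ext; intro i j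
    rw [en_mul_e, en_zero]
    split_ifs
    · ext1 k
      rw [hen2, map_zero]
      simp [hN2, hi1.symm]
    · rfl
  · rw [hν1, coeff_mk]
    ext1 i j
    rw [Matrix.of_apply]
    simp [hN1, hn0]
  · rw [hν2, coeff_mk]
    ext1 i j
    rw [Matrix.of_apply]
    simp [hN2, hn0']
  · intro w
    have o := HB_Phi_one (ι := ι) (G := G) hρ0
    rw [map_mul, map_add, map_add, map_one]
    have o' : HB ρ (1 : PowerSeries (Matrix ι ι (MonoidAlgebra ℝ G))) := HB_one hρ0
    rw [(o'.add hρ0 hb2).ev_mul hy0 hρ (o'.add hρ0 hb1), o'.ev_add hy0 hρ hb2, o'.ev_add hy0 hρ hb1, ev_one, mul_assoc,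
      mul_Rk_es, mul_Rk]
    congr 1
    have haug1 : ∀ i j, aug ((1 : Matrix ι ι (MonoidAlgebra ℝ G)) i j) = if i = j then 1 else 0 := by
      intro i j
      rw [Matrix.one_apply]
      split_ifs
      · rw [map_one]
      · rw [map_zero]
    funext i
    simp only [Matrix.add_apply, map_add, haug1]
    have e1 : ∀ j, aug ((ev (lam⁻¹) (Phi ν1)) j s) = x1 j s := fun j => he1 j s
    have e2 : ∀ j, aug ((ev (lam⁻¹) (Phi ν2)) i j) = x2 i j := fun j => he2 i j
    simp only [e1, e2, add_mul, Finset.sum_add_distrib]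
    rw [Finset.sum_eq_single i]
    · rw [if_pos rfl, one_mul, Finset.sum_eq_single i1]
      · simp only [hx1, hx2]
        by_cases hi : i = s
        · subst hi
          simp [hi1]
          field_simp
          ring
        · simp [hi]
      · intro j _ hj
        simp only [hx2]
        rw [if_neg (fun h => hj h.2), zero_mul]
      · intro h; exact absurd (Finset.mem_univ _) h
    · intro j _ hj
      rw [if_neg (Ne.symm hj), zero_mul]
    · intro h; exact absurd (Finset.mem_univ _) h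

end m1b

end Pool.Agent.W717.G
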