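import Mathlib
import Pool.Agent.W717.G.M1b

set_option autoImplicit false
set_option linter.all false

namespace Pool.Agent.W717.G

open Finset PowerSeries Filter Topology

section m1c

variable {ι G : Type} [Fintype ι] [DecidableEq ι] [Group G] [Fintype G] [DecidableEq G]

theorem Ce (s : ι) : (C (Matrix.single s s 1) : PowerSeries (Matrix ι ι (MonoidAlgebra ℤ G))) = sc s 1 := (sc_one s).symm

theorem Ce' (s : ι) : (C (1 - Matrix.single s s 1) : PowerSeries (Matrix ι ι (MonoidAlgebra ℤ G))) = 1 - sc s 1 := by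
  rw [map_sub, map_one, Ce]

/-- unipotent units of the first kind -/
noncomputable def nA (s : ι) (ν : PowerSeries (Matrix ι ι (MonoidAlgebra ℤ G))) (h1 : sc s 1 * ν = ν) (h2 : ν * sc s 1 = 0) :
    (PowerSeries (Matrix ι ι (MonoidAlgebra ℤ G)))ˣ :=
  nilV (Matrix.single s s 1) ν (by rw [Ce, h1]) (by rw [Ce, h2])

/-- unipotent units of the second kind -/
noncomputable def nB (s : ι) (ν : PowerSeries (Matrix ι ι (MonoidAlgebra ℤ G))) (h1 : sc s 1 * ν = 0) (h2 : ν * sc s 1 = ν) :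
    (PowerSeries (Matrix ι ι (MonoidAlgebra ℤ G)))ˣ :=
  nilV (1 - Matrix.single s s 1) ν (by rw [Ce', sub_mul, one_mul, h1, sub_zero]) (by rw [Ce', mul_sub, mul_one, h2, sub_self])

theorem nA_val (s : ι) (ν : PowerSeries (Matrix ι ι (MonoidAlgebra ℤ G))) (h1 : sc s 1 * ν = ν) (h2 : ν * sc s 1 = 0) :
    (nA s ν h1 h2).val = 1 + ν := rfl
theorem nA_inv (s : ι) (ν : PowerSeries (Matrix ι ι (MonoidAlgebra ℤ G))) (h1 : sc s 1 * ν = ν) (h2 : ν * sc s 1 = 0) :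
    (nA s ν h1 h2)⁻¹.val = 1 - ν := rfl
theorem nB_val (s : ι) (ν : PowerSeries (Matrix ι ι (MonoidAlgebra ℤ G))) (h1 : sc s 1 * ν = 0) (h2 : ν * sc s 1 = ν) :
    (nB s ν h1 h2).val = 1 + ν := rfl
theorem nB_inv (s : ι) (ν : PowerSeries (Matrix ι ι (MonoidAlgebra ℤ G))) (h1 : sc s 1 * ν = 0) (h2 : ν * sc s 1 = ν) :
    (nB s ν h1 h2)⁻¹.val = 1 - ν := rfl
theorem DD_nA (s : ι) (ν : PowerSeries (Matrix ι ι (MonoidAlgebra ℤ G))) (h1 : sc s 1 * ν = ν) (h2 : ν * sc s 1 = 0) (k : ℕ) :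
    DD (PhiU (nA s ν h1 h2)) k = 0 := DD_PhiU_nilV _ _ _ _ k
theorem DD_nB (s : ι) (ν : PowerSeries (Matrix ι ι (MonoidAlgebra ℤ G))) (h1 : sc s 1 * ν = 0) (h2 : ν * sc s 1 = ν) (k : ℕ) :
    DD (PhiU (nB s ν h1 h2)) k = 0 := DD_PhiU_nilV _ _ _ _ k

/-- the block diagonal unit -/
noncomputable def dU (A : Matrix ι ι (MonoidAlgebra ℤ G)) (s : ι) (h : coeff 0 (1 - FF A s - C (HH A s) * X) = 1) :
    (PowerSeries (Matrix ι ι (MonoidAlgebra ℤ G)))ˣ :=
  ⟨1 - FF A s - C (HH A s) * X, sc s 1 * PowerSeries.mk (fun k => A ^ k) * sc s 1 + (1 - sc s 1) * TT A s, (fr_inv A s).2,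
    inv_comm0 h (fr_inv A s).2⟩

theorem dU_coeff (A : Matrix ι ι (MonoidAlgebra ℤ G)) (s : ι) : coeff 0 (1 - FF A s - C (HH A s) * X) = 1 := by
  have h : coeff 0 (FF A s) = 0 := by
    rw [coeff_zero_eq_constantCoeff_apply]; simp [FF]
  rw [map_sub, map_sub, h, coeff_zero_mul_X, coeff_one, if_pos rfl, sub_zero, sub_zero]

/-- the block diagonal unit has the same trace series as `1 - A X` -/
theorem DD_dU (A : Matrix ι ι (MonoidAlgebra ℤ G)) (s : ι) (k : ℕ) :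
    DD (PhiU (dU A s (dU_coeff A s))) k = DD (PhiU (geoU A)) k := by
  obtain ⟨Te, eT, eF, Fe, eh, he, eb, be, ec, ce, hLR⟩ := fr_facts A s
  have h1 : sc s 1 * (-((sc s 1 * (C A * X) * (1 - sc s 1)) * TT A s)) = -((sc s 1 * (C A * X) * (1 - sc s 1)) * TT A s) := by
    rw [mul_neg, ← mul_assoc, eb]
  have h2 : (-((sc s 1 * (C A * X) * (1 - sc s 1)) * TT A s)) * sc s 1 = 0 := by
    rw [neg_mul, mul_assoc, Te, be, neg_zero]
  have h3 : sc s 1 * (-(TT A s * ((1 - sc s 1) * (C A * X) * sc s 1))) = 0 := by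
    rw [mul_neg, ← mul_assoc, eT, ec, neg_zero]
  have h4 : (-(TT A s * ((1 - sc s 1) * (C A * X) * sc s 1))) * sc s 1 = -(TT A s * ((1 - sc s 1) * (C A * X) * sc s 1)) := by
    rw [neg_mul, mul_assoc, ce]
  have h5 : nA s _ h1 h2 * dU A s (dU_coeff A s) * nB s _ h3 h4 = geoU A := by
    apply Units.ext
    rw [Units.val_mul, Units.val_mul, nA_val, nB_val, geoU_val, ← sub_eq_add_neg, ← sub_eq_add_neg]
    exact hLR
  rw [← h5, map_mul, map_mul, DD_mul, DD_mul, DD_nA, DD_nB, zero_add, add_zero]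

end m1c

end Pool.Agent.W717.G
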