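import Mathlib
import Pool.Agent.W717.G.M1c

set_option autoImplicit false
set_option linter.all false

namespace Pool.Agent.W717.G

open Finset PowerSeries Filter Topology

section m1d

variable {ι G : Type} [Fintype ι] [DecidableEq ι] [Group G] [Fintype G] [DecidableEq G]

theorem HB_dU [Nonempty ι] {ρ : ℝ} (hρ : 0 ≤ ρ) (A : Matrix ι ι (MonoidAlgebra ℤ G)) (s : ι) (hT : HB ρ (Phi (TT A s))) :
    HB ρ (Phi (1 - FF A s - C (HH A s) * X)) :=
  HB_Phi_sub hρ (HB_Phi_sub hρ (HB_Phi_one hρ) (HB_Phi_FF hρ A s hT)) (HB_Phi_mul hρ (HB_Phi_C hρ _) (HB_Phi_X hρ))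

theorem ev_dU [Nonempty ι] {ρ y : ℝ} (hy0 : 0 ≤ y) (hρ : y ≤ ρ) (A : Matrix ι ι (MonoidAlgebra ℤ G)) (s : ι)
    (hT : HB ρ (Phi (TT A s))) (hfs : HasSum (fun k => coeff k (au (ff A s)) * y ^ k) 1) (w : ι → ℝ) :
    ev y (Phi (1 - FF A s - C (HH A s) * X)) * Rk (es s) w = 0 := by
  have hρ0 : 0 ≤ ρ := hy0.trans hρ
  rw [mul_Rk_es, ← Rk_zero w]
  congr 1
  funext i
  have h1 := hasSum_au hy0 hρ (HB_dU hρ0 A s hT) i s
  have h2 : en (1 - FF A s - C (HH A s) * X) i s = if i = s then 1 - ff A s else 0 := by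
    rw [en_sub, en_sub, en_one, FF_sc, en_sc, en_mul_X, en_C, HH_entry, if_pos (Or.inr rfl), map_zero, zero_mul, sub_zero]
    by_cases hi : i = s
    · simp [hi]
    · simp [hi]
  rw [h2] at h1
  by_cases hi : i = s
  · rw [if_pos hi] at h1
    have h3 : HasSum (fun k => coeff k (1 : PowerSeries ℝ) * y ^ k) 1 := by
      have h4 := hasSum_single (f := fun k => coeff k (1 : PowerSeries ℝ) * y ^ k) 0 (by
        intro k hk
        rw [coeff_one, if_neg hk, zero_mul])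
      rw [coeff_one, if_pos rfl, pow_zero, mul_one] at h4
      exact h4
    have h5 := h3.sub hfs
    have h6 : (fun k => coeff k (au (1 - ff A s)) * y ^ k) = fun k => coeff k (1 : PowerSeries ℝ) * y ^ k - coeff k (au (ff A s)) * y ^ k := by
      funext k
      rw [map_sub, map_one, map_sub, sub_mul]
    rw [h6] at h1
    have := h1.unique h5
    rw [this, sub_self]
  · rw [if_neg hi] at h1
    have h3 : HasSum (fun k => coeff k (au (0 : PowerSeries (MonoidAlgebra ℤ G))) * y ^ k) 0 := by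
      rw [map_zero]; simp [hasSum_zero]
    exact h1.unique h3

theorem lX_central {A : Type*} [NormedRing A] [NormedAlgebra ℝ A] (lam : ℝ) (f g : PowerSeries A) : lX lam * (f * g) = f * (lX lam * g) := by
  rw [← mul_assoc, lX_comm, mul_assoc]

theorem ev_B [Nonempty ι] {lam : ℝ} (hlam : 0 < lam) (B : Matrix ι ι (MonoidAlgebra ℤ G)) (rB w : ι → ℝ)
    (hBr : ∀ i, ∑ j, aug ((iZ B) i j) * rB j = lam * rB i) : ev (lam⁻¹) (Phi (1 - C B * X)) * Rk rB w = 0 := by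
  have hy0 : 0 ≤ lam⁻¹ := by positivity
  rw [map_sub, map_one, map_mul, Phi_C, Phi_X]
  rw [(HB_one hy0).ev_sub hy0 le_rfl ((HB_C hy0 (iZ B)).mul hy0 (HB_X hy0)), ev_one]
  have h1 := ev_C_mul_X_pow (lam⁻¹) (iZ B) 1
  rw [pow_one, pow_one] at h1
  rw [h1, sub_mul, one_mul, smul_mul_assoc, mul_Rk]
  ext1 i j
  rw [Matrix.sub_apply, Matrix.smul_apply]
  unfold Rk
  simp only [Matrix.of_apply, hBr, smul_smul]
  have : lam⁻¹ * (lam * rB i * w j) = rB i * w j := by field_simp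
  rw [this, sub_self]; rfl

theorem ev_e [Nonempty ι] (y : ℝ) (s : ι) (x w : ι → ℝ) :
    ev y (Phi (sc s 1 : PowerSeries (Matrix ι ι (MonoidAlgebra ℤ G)))) * Rk x w = Rk (es s) (fun j => x s * w j) := by
  rw [sc_one, Phi_C, ev_C, mul_Rk]
  have h1 : ∀ i j, aug ((iZ (Matrix.single s s 1 : Matrix ι ι (MonoidAlgebra ℤ G))) i j) = if i = s ∧ j = s then 1 else 0 := by
    intro i j
    have h2 : (iZ (Matrix.single s s 1 : Matrix ι ι (MonoidAlgebra ℤ G))) i j = if i = s ∧ j = s then 1 else 0 := by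
      ext g
      rw [coeff_iZ, Matrix.single_apply]
      by_cases h : i = s ∧ j = s
      · rw [if_pos ⟨h.1.symm, h.2.symm⟩, if_pos h, MonoidAlgebra.one_def, MonoidAlgebra.one_def, MonoidAlgebra.coeff_single,
          MonoidAlgebra.coeff_single, Finsupp.single_apply, Finsupp.single_apply]
        split_ifs <;> simp
      · rw [if_neg (fun h' => h ⟨h'.1.symm, h'.2.symm⟩), if_neg h]; simp
    rw [h2]
    split_ifs
    · rw [map_one]
    · rw [map_zero]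
  simp only [h1]
  ext1 i j
  unfold Rk es
  rw [Matrix.of_apply, Matrix.of_apply]
  congr 1
  by_cases hi : i = s
  · simp [hi]
  · simp [hi]

theorem P_bd [Nonempty ι] (A B : Matrix ι ι (MonoidAlgebra ℤ G)) (s : ι) (uU uQ : (PowerSeries (Matrix ι ι (MonoidAlgebra ℤ G)))ˣ)
    {lam ρ : ℝ} (hlam : 0 < lam) (hlamρ : 1 < lam * ρ) (hU : HB ρ (Phi uU.val)) (hU' : HB ρ (Phi uU⁻¹.val)) (hQ : HB ρ (Phi uQ.val))
    (hQ' : HB ρ (Phi uQ⁻¹.val)) (rB xA l w : ι → ℝ) (halign : ∀ w : ι → ℝ, ev (lam⁻¹) (Phi uQ.val) * Rk (es s) w = Rk rB w)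
    (hT : HB ρ (Phi (TT A s))) (hfs : HasSum (fun k => coeff k (au (ff A s)) * (lam⁻¹) ^ k) 1)
    (hLB : HB ρ (lX lam * PowerSeries.mk fun k => (iZ B) ^ k))
    (hPB : ev (lam⁻¹) (lX lam * PowerSeries.mk fun k => (iZ B) ^ k) = Rk rB w)
    (hBr : ∀ i, ∑ j, aug ((iZ B) i j) * rB j = lam * rB i)
    (hLA : HB ρ (lX lam * PowerSeries.mk fun k => (iZ A) ^ k))
    (hPA : ev (lam⁻¹) (lX lam * PowerSeries.mk fun k => (iZ A) ^ k) = Rk xA l) :
    HB ρ (Phi (uU * dU A s (dU_coeff A s) * uQ⁻¹ * (geoU B)⁻¹).val) ∧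
    HB ρ (Phi (uU * dU A s (dU_coeff A s) * uQ⁻¹ * (geoU B)⁻¹)⁻¹.val) := by
  have hy0 : 0 ≤ lam⁻¹ := by positivity
  have hρ0 : 0 ≤ ρ := by
    by_contra hcon
    push Not at hcon
    nlinarith
  have hyρ : lam⁻¹ ≤ ρ := by rw [inv_le_iff_one_le_mul₀ hlam]; linarith
  have hD : HB ρ (Phi (dU A s (dU_coeff A s)).val) := HB_dU hρ0 A s hT
  have hevD : ∀ w : ι → ℝ, ev (lam⁻¹) (Phi (dU A s (dU_coeff A s)).val) * Rk (es s) w = 0 := fun w => ev_dU hy0 hyρ A s hT hfs w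
  constructor
  · set N := uU * dU A s (dU_coeff A s) * uQ⁻¹ with hN
    have hNb : HB ρ (Phi N.val) := by
      rw [hN, Units.val_mul, Units.val_mul]
      exact HB_Phi_mul hρ0 (HB_Phi_mul hρ0 hU hD) hQ'
    have h1 : lX lam * Phi (N * (geoU B)⁻¹).val = Phi N.val * (lX lam * PowerSeries.mk fun k => (iZ B) ^ k) := by
      rw [Units.val_mul, map_mul, geoU_inv, Phi_mk_pow, lX_central]
    have h2 : HB ρ (lX lam * Phi (N * (geoU B)⁻¹).val) := by rw [h1]; exact hNb.mul hρ0 hLB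
    have h3 : ev (lam⁻¹) (lX lam * Phi (N * (geoU B)⁻¹).val) = 0 := by
      rw [h1, hNb.ev_mul hy0 hyρ hLB, hPB, hN, Units.val_mul, Units.val_mul, map_mul, map_mul,
        (hU.mul hρ0 hD).ev_mul hy0 hyρ hQ', hU.ev_mul hy0 hyρ hD, mul_assoc, mul_assoc]
      have h4 : ev (lam⁻¹) (Phi uQ⁻¹.val) * Rk rB w = Rk (es s) w := by
        rw [← halign, ← mul_assoc, ← hQ'.ev_mul hy0 hyρ hQ, ← map_mul, uQ.inv_mul, map_one, ev_one, one_mul]
      rw [h4, hevD, mul_zero]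
    obtain ⟨c, hc⟩ := h2
    exact ⟨_, bd_div hlam hlamρ hc h3⟩
  · have hinv : (uU * dU A s (dU_coeff A s) * uQ⁻¹ * (geoU B)⁻¹)⁻¹ = geoU B * (uQ * ((dU A s (dU_coeff A s))⁻¹ * uU⁻¹)) := by
      simp only [mul_inv_rev, inv_inv, mul_assoc]
    rw [hinv]
    set E := Phi (sc s 1 : PowerSeries (Matrix ι ι (MonoidAlgebra ℤ G))) with hE
    have hEb : HB ρ E := HB_Phi_e hρ0 s
    have o' : HB ρ (1 : PowerSeries (Matrix ι ι (MonoidAlgebra ℝ G))) := HB_one hρ0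
    have hW : lX lam * Phi (dU A s (dU_coeff A s))⁻¹.val = E * (lX lam * PowerSeries.mk fun k => (iZ A) ^ k) * E +
        lX lam * ((1 - E) * Phi (TT A s)) := by
      show lX lam * Phi (sc s 1 * PowerSeries.mk (fun k => A ^ k) * sc s 1 + (1 - sc s 1) * TT A s) = _
      rw [map_add, map_mul, map_mul, map_mul, map_sub, map_one, Phi_mk_pow, mul_add, ← hE]
      congr 1
      rw [mul_assoc, lX_central, ← mul_assoc, ← mul_assoc, ← mul_assoc]
    have hWb : HB ρ (lX lam * Phi (dU A s (dU_coeff A s))⁻¹.val) := by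
      rw [hW]
      exact ((hEb.mul hρ0 hLA).mul hρ0 hEb).add hρ0 ((HB_lX hρ0 lam).mul hρ0 ((o'.sub hρ0 hEb).mul hρ0 hT))
    have hWe : ev (lam⁻¹) (lX lam * Phi (dU A s (dU_coeff A s))⁻¹.val) = Rk (es s) (fun j => xA s * l j) * ev (lam⁻¹) E := by
      rw [hW, ((hEb.mul hρ0 hLA).mul hρ0 hEb).ev_add hy0 hyρ ((HB_lX hρ0 lam).mul hρ0 ((o'.sub hρ0 hEb).mul hρ0 hT)),
        (hEb.mul hρ0 hLA).ev_mul hy0 hyρ hEb, hEb.ev_mul hy0 hyρ hLA, (HB_lX hρ0 lam).ev_mul hy0 hyρ ((o'.sub hρ0 hEb).mul hρ0 hT),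
        ev_lX hlam, zero_mul, add_zero, hPA, hE, ev_e]
    have hBb : HB ρ (Phi (geoU B).val) := by
      rw [geoU_val]
      exact HB_Phi_sub hρ0 (HB_Phi_one hρ0) (HB_Phi_mul hρ0 (HB_Phi_C hρ0 _) (HB_Phi_X hρ0))
    have h1 : lX lam * Phi (geoU B * (uQ * ((dU A s (dU_coeff A s))⁻¹ * uU⁻¹))).val =
        Phi (geoU B).val * (Phi uQ.val * ((lX lam * Phi (dU A s (dU_coeff A s))⁻¹.val) * Phi uU⁻¹.val)) := by
      rw [Units.val_mul, Units.val_mul, Units.val_mul, map_mul, map_mul, map_mul, lX_central, lX_central, mul_assoc]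
    have h2 : HB ρ (lX lam * Phi (geoU B * (uQ * ((dU A s (dU_coeff A s))⁻¹ * uU⁻¹))).val) := by
      rw [h1]; exact hBb.mul hρ0 (hQ.mul hρ0 (hWb.mul hρ0 hU'))
    have h3 : ev (lam⁻¹) (lX lam * Phi (geoU B * (uQ * ((dU A s (dU_coeff A s))⁻¹ * uU⁻¹))).val) = 0 := by
      rw [h1, hBb.ev_mul hy0 hyρ (hQ.mul hρ0 (hWb.mul hρ0 hU')), hQ.ev_mul hy0 hyρ (hWb.mul hρ0 hU'), hWb.ev_mul hy0 hyρ hU', hWe]
      rw [mul_assoc (Rk (es s) _), ← mul_assoc (ev (lam⁻¹) (Phi uQ.val)), halign, ← mul_assoc, geoU_val, ev_B hlam B rB _ hBr, zero_mul]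
    obtain ⟨c, hc⟩ := h2
    exact ⟨_, bd_div hlam hlamρ hc h3⟩

end m1d

end Pool.Agent.W717.G
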