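import Mathlib
import Pool.Agent.W717.G.M1d

set_option autoImplicit false
set_option linter.all false

namespace Pool.Agent.W717.G

open Finset PowerSeries Filter Topology

section m1e

variable {ι G : Type} [Fintype ι] [DecidableEq ι] [Group G] [Fintype G] [DecidableEq G]

theorem rk_PA (r l : ι → ℝ) (i j : ι) (g : G) :
    ((Rk (fun i => Fintype.card G * r i) l : Matrix ι ι (MonoidAlgebra ℝ G)) i j).coeff g = r i * l j := by
  have hcG := card_pos' (G := G)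
  unfold Rk
  rw [Matrix.of_apply, MonoidAlgebra.coeff_smul, Finsupp.smul_apply, coeff_sg, smul_eq_mul]
  field_simp

/-- elements with all the needed properties are in the closure of `Γ` -/
theorem in_closure [Nontrivial ι] {ρ : ℝ} (hρ : 0 < ρ) (hρ1 : ρ < 1) (p : (PowerSeries (Matrix ι ι (MonoidAlgebra ℤ G)))ˣ)
    (h0 : coeff 0 p.val = 1) (hD : ∀ j, DD (PhiU p) j = 0) (hb : HB ρ (Phi p.val)) (hb' : HB ρ (Phi p⁻¹.val)) :
    InCl ρ (Gam OZ kap kap_cyc) (PhiU p) := by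
  haveI : Nonempty ι := inferInstance
  obtain ⟨c, hc⟩ := hb
  obtain ⟨c', hc'⟩ := hb'
  refine Setup.k1 (setup hρ hρ1) (Int_Phi _) ?_ hD hc hc'
  rw [PhiU_val, coeff_Phi, h0, map_one]

theorem approx_final [Nontrivial ι] {ρ : ℝ} (hρ : 0 < ρ) (hρ1 : ρ < 1) (p r : (PowerSeries (Matrix ι ι (MonoidAlgebra ℤ G)))ˣ)
    (B : Matrix ι ι (MonoidAlgebra ℤ G))
    (hp0 : coeff 0 p.val = 1) (hpD : ∀ j, DD (PhiU p) j = 0) (hpb : HB ρ (Phi p.val)) (hpb' : HB ρ (Phi p⁻¹.val))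
    (hr0 : coeff 0 r.val = 1) (hrD : ∀ j, DD (PhiU r) j = 0) (hrb : HB ρ (Phi r.val)) (hrb' : HB ρ (Phi r⁻¹.val)) (ε : ℝ) (hε : 0 < ε) :
    ∃ Y W : (PowerSeries (Matrix ι ι (MonoidAlgebra ℤ G)))ˣ, (Fin' Y.val ∧ Fin' Y⁻¹.val) ∧ (Fin' W.val ∧ Fin' W⁻¹.val) ∧
      Bd ρ (Phi (p.val * (1 - C B * X) * r.val - Y.val * (1 - C B * X) * W.val)) ε := by
  haveI : Nonempty ι := inferInstance
  have hb : HB ρ (Phi (1 - C B * X)) := HB_Phi_sub hρ.le (HB_Phi_one hρ.le) (HB_Phi_mul hρ.le (HB_Phi_C hρ.le _) (HB_Phi_X hρ.le))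
  obtain ⟨γ, hγ, γ', hγ', hbd⟩ := approx3 hρ.le (P := PhiU p) (R := PhiU r) hpb hb hrb (in_closure hρ hρ1 p hp0 hpD hpb hpb')
    (in_closure hρ hρ1 r hr0 hrD hrb hrb') ε hε
  obtain ⟨Y, hY⟩ := unit_pullback hγ.1.1 hγ.1.2
  obtain ⟨W, hW⟩ := unit_pullback hγ'.1.1 hγ'.1.2
  refine ⟨Y, W, ⟨Fin_of_Phi ?_, Fin_of_Phi ?_⟩, ⟨Fin_of_Phi ?_, Fin_of_Phi ?_⟩, ?_⟩
  · rw [← PhiU_val, hY]; exact hγ.2.1.1
  · rw [← PhiU_inv, hY]; exact hγ.2.1.2
  · rw [← PhiU_val, hW]; exact hγ'.2.1.1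
  · rw [← PhiU_inv, hW]; exact hγ'.2.1.2
  · rw [map_sub, map_mul, map_mul, map_mul, map_mul, ← PhiU_val Y, ← PhiU_val W, hY, hW]
    exact hbd

/-- from a target series with positivity to a polynomial with positivity -/
theorem positivity_transfer [Nonempty ι] {ρ κ cW ε : ℝ} (hρ : 0 < ρ) (hρ1 : ρ < 1) (hκ : 0 < κ) (k₀ : ℕ) (hcW : 0 ≤ cW)
    (hε1 : ε * cW ≤ κ / 2) (hε2 : ε * cW ≤ ρ ^ k₀ / 2)
    (Z Z' Wi E : PowerSeries (Matrix ι ι (MonoidAlgebra ℤ G)))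
    (hZ : NnM Z) (hLB : ∀ i j, LB ρ κ k₀ (en Z i j)) (hE : Bd ρ (Phi E) ε) (hWi : ∀ k, ‖coeff k (Phi Wi)‖ * ρ ^ k ≤ cW)
    (hd : Z' - Z = E * Wi) :
    NnM Z' ∧ (∀ k i j g, k₀ ≤ k → 1 ≤ cf (en Z' i j) k g) ∧ ∀ k, k ≤ k₀ → coeff k Z' = coeff k Z := by
  have hdiff : ∀ k i j g, |((cf (en Z' i j) k g - cf (en Z i j) k g : ℤ) : ℝ)| * ρ ^ k ≤ ε * cW := by
    intro k i j g
    have h1 := bd_weak hρ.le hcW hE hWi k
    rw [← map_mul, ← hd] at h1
    refine le_trans (mul_le_mul_of_nonneg_right ?_ (by positivity)) h1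
    have h2 := coeff_le_norm (coeff k (Phi (Z' - Z))) i j g
    rw [coeff_Phi, coeff_iZ] at h2
    rw [coeff_Phi]
    refine le_trans (le_of_eq ?_) h2
    congr 1
    rw [← cf_sub, ← en_sub]
    unfold cf
    rw [coeff_en]
  have hsmall : ∀ k i j g, k ≤ k₀ → cf (en Z' i j) k g = cf (en Z i j) k g := by
    intro k i j g hk
    have h1 := hdiff k i j g
    have h2 : ρ ^ k₀ ≤ ρ ^ k := pow_le_pow_of_le_one hρ.le hρ1.le hk
    have h3 : 0 < ρ ^ k := by positivity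
    have h4 : |((cf (en Z' i j) k g - cf (en Z i j) k g : ℤ) : ℝ)| < 1 := by
      by_contra hcon
      push Not at hcon
      nlinarith
    have h5 : |cf (en Z' i j) k g - cf (en Z i j) k g| < 1 := by exact_mod_cast h4
    rw [abs_lt] at h5
    omega
  have hlarge : ∀ k i j g, k₀ ≤ k → 1 ≤ cf (en Z' i j) k g := by
    intro k i j g hk
    have h1 := hdiff k i j g
    have h2 := hLB i j k g hk
    have h3 : 0 < ρ ^ k := by positivity
    have h4 : 0 < (cf (en Z' i j) k g : ℝ) * ρ ^ k := by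
      have h5 : (cf (en Z i j) k g : ℝ) - cf (en Z' i j) k g ≤ |((cf (en Z' i j) k g - cf (en Z i j) k g : ℤ) : ℝ)| := by
        push_cast
        rw [abs_sub_comm]
        exact le_abs_self _
      nlinarith
    have h5 : 0 < (cf (en Z' i j) k g : ℝ) := pos_of_mul_pos_left h4 h3.le
    have h6 : 0 < cf (en Z' i j) k g := by exact_mod_cast h5
    omega
  refine ⟨?_, hlarge, ?_⟩
  · intro i j k g
    rcases Nat.lt_or_ge k k₀ with h | h
    · rw [hsmall k i j g h.le]; exact hZ i j k g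
    · have := hlarge k i j g h
      omega
  · intro k hk
    ext i j g
    have := hsmall k i j g hk
    unfold cf at this
    rw [coeff_en, coeff_en] at this
    exact this

theorem main1 [Nontrivial ι] (A B : Matrix ι ι (MonoidAlgebra ℤ G)) (s : ι) (hA0 : ∀ i j g, 0 ≤ (A i j).coeff g)
    {lam θ b : ℝ} (hlam : 1 < lam) (hθ0 : 0 < θ) (hθ1 : θ < 1) (hb : 0 ≤ b) (r l : ι → ℝ) (hrs : 0 < r s * l s)
    (hsum : (Fintype.card G : ℝ) * ∑ i, r i * l i = 1)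
    (hlim : ∀ k i j g, |(lam⁻¹) ^ k * (((A ^ k) i j).coeff g : ℝ) - r i * l j| ≤ b * θ ^ k)
    (hrem : ∀ k i j g, ((((HH A s) ^ k) i j).coeff g : ℝ) ≤ b * (lam * θ) ^ k)
    (hAB : ∀ k, 1 ≤ k → kap ((iZ A) ^ k) = kap ((iZ B) ^ k)) (hBs : ∀ j, B s j = 0) :
    ∃ (Y W : (PowerSeries (Matrix ι ι (MonoidAlgebra ℤ G)))ˣ) (q : PowerSeries (MonoidAlgebra ℤ G)) (dq K : ℕ)
      (Z : PowerSeries (Matrix ι ι (MonoidAlgebra ℤ G))),
      (Fin' Y.val ∧ Fin' Y⁻¹.val) ∧ (Fin' W.val ∧ Fin' W⁻¹.val) ∧ Nn q ∧ coeff 0 q = 0 ∧ (∀ k, dq < k → coeff k q = 0) ∧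
      (∃ h, 1 ≤ cf q dq h) ∧ NnM Z ∧ coeff 0 Z = 0 ∧ (∀ k i j g, K ≤ k → 1 ≤ cf (en Z i j) k g) ∧
      Y.val * (1 - C B * X) * W.val = (1 - Z) * (1 - sc s q * (sc s 1 + C (rr s))) := by
  haveI : Nonempty ι := inferInstance
  have hlam0 : 0 < lam := by linarith
  have hlθ : 0 < lam * θ := by positivity
  have hy0 : 0 < lam⁻¹ := by positivity
  have hy1 : lam⁻¹ < 1 := inv_lt_one_of_one_lt₀ hlam
  have hcG := card_pos' (G := G)
  -- the weight
  obtain ⟨ρm, hyρm, hρm⟩ : ∃ ρm, lam⁻¹ < ρm ∧ ρm < min 1 (lam * θ)⁻¹ := by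
    apply _root_.exists_between
    apply lt_min hy1
    rw [inv_lt_inv₀ hlam0 hlθ]
    nlinarith
  have hρm1 : ρm < 1 := hρm.trans_le (min_le_left _ _)
  have hρmθ : lam * θ * ρm < 1 := by
    have := mul_lt_mul_of_pos_left (hρm.trans_le (min_le_right _ _)) hlθ
    rwa [mul_inv_cancel₀ hlθ.ne'] at this
  have hρm0 : 0 < ρm := hy0.trans hyρm
  have hlamρm : 1 < lam * ρm := by
    have := mul_lt_mul_of_pos_left hyρm hlam0
    rwa [mul_inv_cancel₀ hlam0.ne'] at this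
  -- the limit of the powers of A
  set PA : Matrix ι ι (MonoidAlgebra ℝ G) := Rk (fun i => Fintype.card G * r i) l with hPA
  set b' : ℝ := Fintype.card ι * (Fintype.card ι * (Fintype.card G * b)) with hb'
  have hb'0 : 0 ≤ b' := by positivity
  have hA : ∀ k, ‖(lam⁻¹) ^ k • (iZ A) ^ k - PA‖ ≤ b' * θ ^ k := by
    intro k
    refine (norm_le_of_entries _ (b * θ ^ k) (fun i j g => ?_)).trans (le_of_eq (by rw [hb']; ring))
    have h1 : (((lam⁻¹) ^ k • (iZ A) ^ k - PA) i j).coeff g = (lam⁻¹) ^ k * (((A ^ k) i j).coeff g : ℝ) - r i * l j := by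
      rw [Matrix.sub_apply, Matrix.smul_apply, MonoidAlgebra.coeff_sub, MonoidAlgebra.coeff_smul, Finsupp.sub_apply,
        Finsupp.smul_apply, hPA, rk_PA, ← map_pow, coeff_iZ, smul_eq_mul]
    rw [h1]; exact hlim k i j g
  have htr1 : (Fintype.card G : ℝ) * tr1 PA = 1 := by
    rw [← hsum]
    congr 1
    unfold tr1
    apply Finset.sum_congr rfl
    intro i _
    rw [hPA, rk_PA]
  have haut : augt PA = 1 := by
    rw [← hsum, Finset.mul_sum]
    unfold augt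
    apply Finset.sum_congr rfl
    intro i _
    rw [aug_apply]
    simp only [hPA, rk_PA]
    rw [Finset.sum_const, Finset.card_univ, nsmul_eq_mul]
  obtain ⟨hLB, rB, w, hPB, hBr, i2, hi2⟩ := b_side (iZ A) (iZ B) PA hlam0 hθ0 hb'0 hA htr1 haut hAB hyρm.le hρmθ
  have hPB' : ev (lam⁻¹) (lX lam * PowerSeries.mk fun k => (iZ B) ^ k) = Rk rB w := by
    ext1 i j
    rw [hPB i j]; rfl
  obtain ⟨hLA, hPA'⟩ := lim_series (A := Matrix ι ι (MonoidAlgebra ℝ G)) (f := PowerSeries.mk fun k => (iZ A) ^ k) (a := PA)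
    hlam0 hyρm.le hθ0 hb'0 hρmθ (fun k => by rw [coeff_mk]; exact hA k)
  have hT : HB ρm (Phi (TT A s)) := HB_Phi_TT hA0 s hρm0.le hb hlθ.le hρmθ hrem
  have hfs := ff_hasSum s hlam0 hθ0 hb hyρm.le hρmθ hrs.ne' (fun k h => hlim k s s h) hT
  -- the target
  obtain ⟨cT, hcT⟩ := id hT
  have hKf : ∃ Kf : ℕ, ∀ k g, Kf ≤ k → 1 ≤ ((A ^ k) s s).coeff g := by
    have h1 : Tendsto (fun k => b * θ ^ k) atTop (𝓝 (b * 0)) := (tendsto_pow_atTop_nhds_zero_of_lt_one hθ0.le hθ1).const_mul b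
    rw [mul_zero] at h1
    obtain ⟨N, hN⟩ := eventually_atTop.mp (h1.eventually_lt_const hrs)
    refine ⟨N, fun k g hk => ?_⟩
    have h2 := hlim k s s g
    have h3 := hN k hk
    have h4 : 0 < (lam⁻¹) ^ k * (((A ^ k) s s).coeff g : ℝ) := by
      have := (abs_le.mp h2).1
      linarith
    have h5 : 0 < (((A ^ k) s s).coeff g : ℝ) := pos_of_mul_pos_right h4 (by positivity)
    have h6 : 0 < ((A ^ k) s s).coeff g := by exact_mod_cast h5
    omega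
  obtain ⟨Kf, hKf⟩ := hKf
  obtain ⟨ρ, κ, cW, k₀, m, dq, q, Z, Wi, hyρ, hρρm, hκ, hq, hq0, hqd, hqh, hm, hZ, hZLB, hMT, hWi, hcW, hcWi⟩ :=
    target A hA0 s Kf hKf hy0 hyρm hρm1 hfs hcT
  have hρ0 : 0 < ρ := hy0.trans hyρ
  have hρ1 : ρ < 1 := hρρm.trans hρm1
  -- the alignment
  have hrBs : rB s = 0 := by
    have h1 := hBr s
    have h2 : ∑ j, aug ((iZ B) s j) * rB j = 0 := by
      apply Finset.sum_eq_zero
      intro j _
      have h3 : (iZ B) s j = 0 := by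
        ext g
        rw [coeff_iZ, hBs]; simp
      rw [h3, map_zero, zero_mul]
    rw [h2] at h1
    rcases mul_eq_zero.mp h1.symm with h3 | h3
    · exact absurd h3 hlam0.ne'
    · exact h3
  have hi2s : i2 ≠ s := by
    rintro rfl
    exact hi2 hrBs
  obtain ⟨ν1, ν2, a1, a2, a3, a4, a5, a6, a7, a8, halign⟩ := align (G := G) s i2 hi2s rB hi2 hlam hyρm.le hρm1
  -- units
  obtain ⟨Te, eT, eF, Fe, eh, he, -, -, -, -, -⟩ := fr_facts A s
  have hesc : sc s 1 * sc s q = (sc s q : PowerSeries (Matrix ι ι (MonoidAlgebra ℤ G))) := by rw [sc_mul, one_mul]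
  have u1 : sc s 1 * (-(sc s q * C (rr s) * TT A s)) = -(sc s q * C (rr s) * TT A s) := by
    rw [mul_neg, ← mul_assoc, ← mul_assoc, hesc]
  have u2 : (-(sc s q * C (rr s) * TT A s)) * sc s 1 = 0 := by
    rw [neg_mul, mul_assoc, Te, mul_assoc, rr_e, mul_zero, neg_zero]
  have v1 : sc s 1 * (-(TT A s * (X ^ m * C (rc s)))) = 0 := by
    rw [mul_neg, ← mul_assoc, eT, ← mul_assoc, ← X_pow_mul, mul_assoc, e_rc, mul_zero, neg_zero]
  have v2 : (-(TT A s * (X ^ m * C (rc s)))) * sc s 1 = -(TT A s * (X ^ m * C (rc s))) := by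
    rw [neg_mul, mul_assoc, mul_assoc, rc_e]
  set uU := nA s _ u1 u2 with huU
  set uV := nB s _ v1 v2 with huV
  set uQ := nA s ν2 a3 a4 * nB s ν1 a1 a2 with huQ
  set uD := dU A s (dU_coeff A s) with huD
  set p := uU * uD * uQ⁻¹ * (geoU B)⁻¹ with hp
  set r' := uQ * uV with hr'
  -- boundedness
  have hscq : HB ρm (Phi (sc s q : PowerSeries (Matrix ι ι (MonoidAlgebra ℤ G)))) :=
    (Phi_fin (d := dq + 1) (fun k hk => by rw [sc, coeff_mk, hqd k (by omega), Matrix.single_zero])).bd hρm0.le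
  have hone := HB_Phi_one (ι := ι) (G := G) hρm0.le
  have hνU := HB_Phi_mul hρm0.le (HB_Phi_mul hρm0.le hscq (HB_Phi_C hρm0.le (rr s))) hT
  have hXm : HB ρm (Phi (X ^ m : PowerSeries (Matrix ι ι (MonoidAlgebra ℤ G)))) := by
    have h1 : ∀ n : ℕ, HB ρm (Phi (X ^ n : PowerSeries (Matrix ι ι (MonoidAlgebra ℤ G)))) := by
      intro n
      induction n with
      | zero => rw [pow_zero]; exact hone
      | succ n ih => rw [pow_succ]; exact HB_Phi_mul hρm0.le ih (HB_Phi_X hρm0.le)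
    exact h1 m
  have hνV := HB_Phi_mul hρm0.le hT (HB_Phi_mul hρm0.le hXm (HB_Phi_C hρm0.le (rc s)))
  have hUb : HB ρm (Phi uU.val) := by
    rw [huU, nA_val]; exact HB_Phi_add hρm0.le hone (HB_Phi_neg hνU)
  have hUb' : HB ρm (Phi uU⁻¹.val) := by
    rw [huU, nA_inv]; exact HB_Phi_sub hρm0.le hone (HB_Phi_neg hνU)
  have hVb : HB ρm (Phi uV.val) := by
    rw [huV, nB_val]; exact HB_Phi_add hρm0.le hone (HB_Phi_neg hνV)
  have hVb' : HB ρm (Phi uV⁻¹.val) := by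
    rw [huV, nB_inv]; exact HB_Phi_sub hρm0.le hone (HB_Phi_neg hνV)
  have hQb : HB ρm (Phi uQ.val) := by
    rw [huQ, Units.val_mul, nA_val, nB_val]
    exact HB_Phi_mul hρm0.le (HB_Phi_add hρm0.le hone a8) (HB_Phi_add hρm0.le hone a7)
  have hQb' : HB ρm (Phi uQ⁻¹.val) := by
    rw [huQ, mul_inv_rev, Units.val_mul, nA_inv, nB_inv]
    exact HB_Phi_mul hρm0.le (HB_Phi_sub hρm0.le hone a7) (HB_Phi_sub hρm0.le hone a8)
  obtain ⟨hpb, hpb'⟩ := P_bd A B s uU uQ hlam0 hlamρm hUb hUb' hQb hQb' rB _ l w (by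
    intro w
    rw [huQ, Units.val_mul, nA_val, nB_val]
    exact halign w) hT hfs hLB hPB' hBr hLA hPA'
  have hrb : HB ρm (Phi r'.val) := by
    rw [hr', Units.val_mul]; exact HB_Phi_mul hρm0.le hQb hVb
  have hrb' : HB ρm (Phi r'⁻¹.val) := by
    rw [hr', mul_inv_rev, Units.val_mul]; exact HB_Phi_mul hρm0.le hVb' hQb'
  -- constant terms
  have hcq0 : coeff 0 (sc s q : PowerSeries (Matrix ι ι (MonoidAlgebra ℤ G))) = 0 := by
    rw [sc, coeff_mk, hq0, Matrix.single_zero]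
  have hU0 : coeff 0 uU.val = 1 := by
    rw [huU, nA_val, map_add, map_neg, coeff0_mul, coeff0_mul, hcq0, zero_mul, zero_mul, neg_zero, add_zero, coeff_one, if_pos rfl]
  have hV0 : coeff 0 uV.val = 1 := by
    rw [huV, nB_val, map_add, map_neg, coeff0_mul, coeff0_mul, coeff_X_pow, if_neg (by omega), zero_mul, mul_zero, neg_zero, add_zero,
      coeff_one, if_pos rfl]
  have hQ0 : coeff 0 uQ.val = 1 := by
    rw [huQ, Units.val_mul, nA_val, nB_val, coeff0_mul, map_add, map_add, a5, a6, coeff_one, if_pos rfl, add_zero, mul_one]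
  have hD0 : coeff 0 uD.val = 1 := dU_coeff A s
  have hB0 : coeff 0 (geoU B).val = 1 := by
    rw [geoU_val, map_sub, coeff_zero_mul_X, sub_zero, coeff_one, if_pos rfl]
  have hp0 : coeff 0 p.val = 1 := by
    rw [hp, Units.val_mul, Units.val_mul, Units.val_mul, coeff0_mul, coeff0_mul, coeff0_mul, hU0, hD0, coeff0_inv hQ0, coeff0_inv hB0]
    simp only [mul_one]
  have hr0 : coeff 0 r'.val = 1 := by
    rw [hr', Units.val_mul, coeff0_mul, hQ0, hV0, mul_one]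
  -- trace series
  have hpD : ∀ j, DD (PhiU p) j = 0 := by
    intro j
    rw [hp, map_mul, map_mul, map_mul, map_inv, map_inv, DD_mul, DD_mul, DD_mul, DD_inv, DD_inv, huQ, map_mul, DD_mul, huU, DD_nA, DD_nA,
      DD_nB, huD, DD_dU, DD_PhiU_geoU, DD_PhiU_geoU]
    by_cases hj : j = 0
    · simp [hj]
    · rw [if_neg hj, if_neg hj, hAB j (by omega)]
      simp
  have hrD : ∀ j, DD (PhiU r') j = 0 := by
    intro j
    rw [hr', map_mul, DD_mul, huQ, map_mul, DD_mul, huV, DD_nA, DD_nB, DD_nB]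
    simp
  -- approximation
  set ε : ℝ := min (κ / 2) (ρ ^ k₀ / 2) / (cW + 1) with hε
  have hmin : 0 < min (κ / 2) (ρ ^ k₀ / 2) := lt_min (by positivity) (by positivity)
  have hε0 : 0 < ε := by positivity
  have hεW : ε * cW ≤ min (κ / 2) (ρ ^ k₀ / 2) := by
    have h1 : ε * (cW + 1) = min (κ / 2) (ρ ^ k₀ / 2) := by rw [hε]; field_simp
    nlinarith
  obtain ⟨Y, W, hYf, hWf, hbd⟩ := approx_final hρ0 hρ1 p r' B hp0 hpD (hpb.mono hρ0.le hρρm.le) (hpb'.mono hρ0.le hρρm.le)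
    hr0 hrD (hrb.mono hρ0.le hρρm.le) (hrb'.mono hρ0.le hρρm.le) ε hε0
  have hprod : p.val * (1 - C B * X) * r'.val = uU.val * uD.val * uV.val := by
    have h1 : p * geoU B * r' = uU * uD * uV := by
      rw [hp, hr']; group
    have h2 := congrArg (fun u : (PowerSeries (Matrix ι ι (MonoidAlgebra ℤ G)))ˣ => u.val) h1
    simp only [Units.val_mul] at h2
    exact h2
  have hMT' : uU.val * uD.val * uV.val = (1 - Z) * (1 - sc s q * (sc s 1 + C (rr s))) := by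
    rw [← hMT, huU, huV, nA_val, nB_val, ← sub_eq_add_neg, ← sub_eq_add_neg]
    rfl
  -- the perturbed series
  set M' := Y.val * (1 - C B * X) * W.val with hM'
  have hWq0 : coeff 0 (1 - sc s q * (sc s 1 + C (rr s))) = (1 : Matrix ι ι (MonoidAlgebra ℤ G)) := by
    rw [map_sub, coeff0_mul, hcq0, zero_mul, sub_zero, coeff_one, if_pos rfl]
  have hWi2 : Wi * (1 - sc s q * (sc s 1 + C (rr s))) = 1 := inv_comm0 hWq0 hWi
  have hZ1 : 1 - Z = uU.val * uD.val * uV.val * Wi := by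
    rw [hMT', mul_assoc, hWi, mul_one]
  obtain ⟨t1, t2, t3⟩ := positivity_transfer hρ0 hρ1 hκ k₀ hcW (hεW.trans (min_le_left _ _)) (hεW.trans (min_le_right _ _))
    Z (1 - M' * Wi) Wi (p.val * (1 - C B * X) * r'.val - M') hZ hZLB hbd hcWi (by
      rw [hprod, sub_mul, ← hZ1]; abel)
  refine ⟨Y, W, q, dq, k₀, 1 - M' * Wi, hYf, hWf, hq, hq0, hqd, hqh, t1, ?_, t2, ?_⟩
  · rw [t3 0 (Nat.zero_le _)]
    have h1 := congrArg (coeff 0) hMT'
    rw [coeff0_mul, coeff0_mul, hU0, hD0, hV0, coeff0_mul, hWq0, mul_one, mul_one, mul_one, map_sub, coeff_one, if_pos rfl] at h1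
    have h2 : coeff 0 Z = 1 - (1 - coeff 0 Z) := by abel
    rw [h2, ← h1, sub_self]
  · rw [sub_sub_cancel, mul_assoc M', hWi2, mul_one]

end m1e

end Pool.Agent.W717.G
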