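import Mathlib
import Pool.Agent.W717.G.M1e
import Pool.Agent.W717.G.Corner

set_option autoImplicit false
set_option linter.all false

namespace Pool.Agent.W717.G

open Finset Filter Topology

section idem

theorem idem_Z_rank_one {m : ℕ} (E : Matrix (Fin m) (Fin m) ℤ) (hE : E * E = E) (ht : Matrix.trace E = 1) :
    ∃ (r : Matrix (Fin m) (Fin 1) ℤ) (s : Matrix (Fin 1) (Fin m) ℤ), r * s = E ∧ s * r = 1 := by
  set f : (Fin m → ℤ) →ₗ[ℤ] (Fin m → ℤ) := Matrix.toLin' E with hf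
  have hid : IsIdempotentElem f := by
    unfold IsIdempotentElem
    rw [hf, Module.End.mul_eq_comp, ← Matrix.toLin'_mul, hE]
  have hproj := (LinearMap.isProj_range_iff_isIdempotentElem f).mpr hid
  have htr := LinearMap.IsProj.trace hproj
  rw [hf, Matrix.trace_toLin'_eq, ht, ← hf] at htr
  have hfr : Module.finrank ℤ (LinearMap.range f) = 1 := by exact_mod_cast htr.symm
  set b := Module.finBasisOfFinrankEq ℤ (LinearMap.range f) hfr with hb
  have hv : ∀ x : LinearMap.range f, x = (b.repr x 0) • b 0 := by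
    intro x
    conv_lhs => rw [← b.sum_repr x]
    rw [Fin.sum_univ_one]
  have hrs : (Matrix.of fun (i : Fin m) (_ : Fin 1) => (b 0 : Fin m → ℤ) i) *
      (Matrix.of fun (_ : Fin 1) (j : Fin m) => b.repr ⟨f (Pi.single j 1), LinearMap.mem_range_self f _⟩ 0) = E := by
    ext i j
    rw [Matrix.mul_apply, Fin.sum_univ_one, Matrix.of_apply, Matrix.of_apply]
    have h1 := hv ⟨f (Pi.single j 1), LinearMap.mem_range_self f _⟩
    have h2 := congrArg (fun x : LinearMap.range f => (x : Fin m → ℤ) i) h1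
    simp only [Submodule.coe_smul, Pi.smul_apply, smul_eq_mul] at h2
    rw [mul_comm, ← h2, hf, Matrix.toLin'_apply, Matrix.mulVec_single_one]
    rfl
  refine ⟨_, _, hrs, ?_⟩
  set r := (Matrix.of fun (i : Fin m) (_ : Fin 1) => (b 0 : Fin m → ℤ) i) with hr
  set s := (Matrix.of fun (_ : Fin 1) (j : Fin m) => b.repr ⟨f (Pi.single j 1), LinearMap.mem_range_self f _⟩ 0) with hs
  have e1 : r * (s * r) * s = r * s := by
    rw [← Matrix.mul_assoc, Matrix.mul_assoc (r * s), hrs, hE]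
  have e2 : s * r = ((s * r) 0 0) • (1 : Matrix (Fin 1) (Fin 1) ℤ) := by
    ext i j
    have hi : i = 0 := Subsingleton.elim _ _
    have hj : j = 0 := Subsingleton.elim _ _
    rw [hi, hj]; simp
  rw [e2, Matrix.mul_smul, Matrix.mul_one, Matrix.smul_mul, hrs] at e1
  have e3 : (s * r) 0 0 = 1 := by
    have := congrArg Matrix.trace e1
    rw [Matrix.trace_smul, ht, smul_eq_mul, mul_one] at this
    exact this
  rw [e2, e3, one_smul]

theorem se_of_stable {m : ℕ} (B : Matrix (Fin m) (Fin m) ℤ) (L : ℕ) (hL : ∀ k, L ≤ k → B ^ (k + 1) = B ^ k)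
    (ht : Matrix.trace (B ^ L) = 1) :
    ∃ (r : Matrix (Fin m) (Fin 1) ℤ) (s : Matrix (Fin 1) (Fin m) ℤ), B * r = r ∧ s * B = s ∧ r * s = B ^ L ∧ s * r = 1 := by
  have h1 : ∀ t, B ^ (L + t) = B ^ L := by
    intro t
    induction t with
    | zero => rfl
    | succ t ih => rw [← add_assoc, hL _ (by omega), ih]
  obtain ⟨r, s, hrs, hsr⟩ := idem_Z_rank_one (B ^ L) (by rw [← pow_add, h1]) ht
  have hBE : B * B ^ L = B ^ L := by rw [← pow_succ', hL L le_rfl]
  have hEB : B ^ L * B = B ^ L := by rw [← pow_succ, hL L le_rfl]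
  refine ⟨r, s, ?_, ?_, hrs, hsr⟩
  · have : B * (r * s) * r = (r * s) * r := by rw [hrs, hBE]
    rwa [Matrix.mul_assoc B, Matrix.mul_assoc r, hsr, Matrix.mul_one] at this
  · have : s * (r * s * B) = s * (r * s) := by rw [hrs, hEB]
    rwa [Matrix.mul_assoc r, ← Matrix.mul_assoc s, hsr, Matrix.one_mul, ← Matrix.mul_assoc s r, hsr, Matrix.one_mul] at this

end idem

section deg

variable {G : Type} [Group G] [Fintype G] [DecidableEq G]

theorem b_side_Z {ι : Type} [Fintype ι] [DecidableEq ι] [Nonempty ι] (A B : Matrix ι ι (MonoidAlgebra ℤ G)) {lam θ b ρ : ℝ}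
    (hlam0 : 0 < lam) (hθ0 : 0 < θ) (hb : 0 ≤ b) (r l : ι → ℝ)
    (hsum : (Fintype.card G : ℝ) * ∑ i, r i * l i = 1)
    (hlim : ∀ k i j g, |(lam⁻¹) ^ k * (((A ^ k) i j).coeff g : ℝ) - r i * l j| ≤ b * θ ^ k)
    (hAB : ∀ k, 1 ≤ k → kap ((iZ A) ^ k) = kap ((iZ B) ^ k)) (hρ : lam⁻¹ ≤ ρ) (hθρ : lam * θ * ρ < 1) :
    ∃ c, Bd ρ (lX lam * PowerSeries.mk fun k => (iZ B) ^ k) c := by
  have hcG := card_pos' (G := G)
  set PA : Matrix ι ι (MonoidAlgebra ℝ G) := Rk (fun i => Fintype.card G * r i) l with hPA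
  set b' : ℝ := Fintype.card ι * (Fintype.card ι * (Fintype.card G * b)) with hb'
  have hb'0 : 0 ≤ b' := by positivity
  have hA : ∀ k, ‖(lam⁻¹) ^ k • (iZ A) ^ k - PA‖ ≤ b' * θ ^ k := by
    intro k
    refine (norm_le_of_entries _ (b * θ ^ k) (fun i j g => ?_)).trans (le_of_eq (by rw [hb']; ring))
    have h1 : (((lam⁻¹) ^ k • (iZ A) ^ k - PA) i j).coeff g = (lam⁻¹) ^ k * (((A ^ k) i j).coeff g : ℝ) - r i * l j := by
      rw [Matrix.sub_apply, Matrix.smul_apply, MonoidAlgebra.coeff_sub, MonoidAlgebra.coeff_smul, Finsupp.sub_apply,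
        Finsupp.smul_apply, hPA, rk_PA, ← map_pow, coeff_iZ, smul_eq_mul]
    rw [h1]; exact hlim k i j g
  have htr1 : (Fintype.card G : ℝ) * tr1 PA = 1 := by
    rw [← hsum]
    congr 1
    unfold tr1
    apply Finset.sum_congr rfl
    intro i _
    rw [hPA, rk_PA]
  have haut : augt PA = 1 := by
    rw [← hsum, Finset.mul_sum]
    unfold augt
    apply Finset.sum_congr rfl
    intro i _
    rw [aug_apply]
    simp only [hPA, rk_PA]
    rw [Finset.sum_const, Finset.card_univ, nsmul_eq_mul]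
  exact (b_side (iZ A) (iZ B) PA hlam0 hθ0 hb'0 hA htr1 haut hAB hρ hθρ).1

theorem stable_of_lam_one {ι : Type} [Fintype ι] [DecidableEq ι] [Nonempty ι] (A B : Matrix ι ι (MonoidAlgebra ℤ G)) {θ b : ℝ}
    (hθ0 : 0 < θ) (hθ1 : θ < 1) (hb : 0 ≤ b) (r l : ι → ℝ)
    (hsum : (Fintype.card G : ℝ) * ∑ i, r i * l i = 1)
    (hlim : ∀ k i j g, |((1 : ℝ)⁻¹) ^ k * (((A ^ k) i j).coeff g : ℝ) - r i * l j| ≤ b * θ ^ k)
    (hAB : ∀ k, 1 ≤ k → kap ((iZ A) ^ k) = kap ((iZ B) ^ k)) : ∃ L, ∀ k, L ≤ k → B ^ (k + 1) = B ^ k := by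
  obtain ⟨ρ, hρ1, hρ2⟩ : ∃ ρ : ℝ, 1 < ρ ∧ ρ < θ⁻¹ := _root_.exists_between ((one_lt_inv₀ hθ0).mpr hθ1)
  have hρ0 : 0 < ρ := by linarith
  have hθρ : 1 * θ * ρ < 1 := by
    have := mul_lt_mul_of_pos_left hρ2 hθ0
    rwa [mul_inv_cancel₀ hθ0.ne', ← one_mul θ] at this
  obtain ⟨c, hc⟩ := b_side_Z A B one_pos hθ0 hb r l hsum hlim hAB (by rw [inv_one]; exact hρ1.le) hθρ
  obtain ⟨L, hL⟩ : ∃ L : ℕ, ∀ k, L ≤ k → c < ρ ^ k := by
    have := tendsto_pow_atTop_atTop_of_one_lt hρ1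
    exact eventually_atTop.mp (this.eventually_gt_atTop c)
  refine ⟨L, fun k hk => ?_⟩
  rw [← sub_eq_zero]
  ext i j g
  have h1 : ‖PowerSeries.coeff (k + 1) (lX 1 * PowerSeries.mk fun k => (iZ B) ^ k)‖ * ρ ^ (k + 1) ≤ c := by
    refine le_trans ?_ (hc (k + 1 + 1))
    exact Finset.single_le_sum (f := fun k => ‖PowerSeries.coeff k (lX 1 * PowerSeries.mk fun k => (iZ B) ^ k)‖ * ρ ^ k)
      (fun i _ => by positivity) (Finset.mem_range.mpr (by omega))
  rw [coeff_lX_mul_succ, PowerSeries.coeff_mk, PowerSeries.coeff_mk, one_smul, ← map_pow, ← map_pow, ← map_sub] at h1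
  have h2 := coeff_le_norm (iZ (B ^ (k + 1) - B ^ k)) i j g
  rw [coeff_iZ] at h2
  have h3 := hL (k + 1) (by omega)
  have h4 : 0 < ρ ^ (k + 1) := by positivity
  have h5 : |((((B ^ (k + 1) - B ^ k) i j).coeff g : ℤ) : ℝ)| < 1 := by
    by_contra h
    rw [not_lt] at h
    have := mul_le_mul_of_nonneg_right (h.trans h2) h4.le
    linarith
  have h6 : |((B ^ (k + 1) - B ^ k) i j).coeff g| < 1 := by exact_mod_cast h5
  rw [Int.abs_lt_one_iff] at h6
  rw [h6]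
  rfl

end deg

end Pool.Agent.W717.G
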