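import Mathlib
import Pool.Agent.W717.G.Deg
import Pool.Agent.W717.G.ASide

set_option autoImplicit false
set_option linter.all false

namespace Pool.Agent.W717.G

open Finset Filter Topology

section asm

variable {G : Type} [Group G] [Fintype G] [DecidableEq G] {n m : ℕ}

theorem zero_pow_coeff (k : ℕ) (i j : Fin m) (g : G) :
    0 ≤ (((0 : Matrix (Fin m) (Fin m) (MonoidAlgebra ℤ G)) ^ k) i j).coeff g ∧
    (((0 : Matrix (Fin m) (Fin m) (MonoidAlgebra ℤ G)) ^ k) i j).coeff g ≤ if k = 0 then 1 else 0 := by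
  rcases Nat.eq_zero_or_pos k with h | h
  · subst h
    rw [pow_zero, Matrix.one_apply, if_pos rfl]
    split_ifs
    · rw [MonoidAlgebra.one_def, MonoidAlgebra.coeff_single, Finsupp.single_apply]
      split_ifs <;> norm_num
    · simp
  · rw [zero_pow h.ne', if_neg h.ne']
    simp

theorem blk_lim (A : Matrix (Fin n) (Fin n) (MonoidAlgebra ℤ G)) {x θ C : ℝ} (hθ0 : 0 < θ) (hC : 0 ≤ C) (r l : Fin n → ℝ)
    (hx : ∀ k i j g, |x ^ k * (((A ^ k) i j).coeff g : ℝ) - r i * l j| ≤ C * θ ^ k) :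
    ∀ k (i j : Fin n ⊕ Fin m) g, |x ^ k * ((((Matrix.fromBlocks A 0 0 0 : Matrix (Fin n ⊕ Fin m) (Fin n ⊕ Fin m) (MonoidAlgebra ℤ G)) ^ k) i j).coeff g : ℝ)
      - (Sum.elim r 0 i : ℝ) * (Sum.elim l 0 j : ℝ)| ≤ (C + 1) * θ ^ k := by
  intro k i j g
  have hp : 0 < θ ^ k := pow_pos hθ0 k
  rw [Matrix.fromBlocks_diagonal_pow]
  rcases i with i | i
  · rcases j with j | j
    · simp only [Matrix.fromBlocks_apply₁₁, Sum.elim_inl]
      refine (hx k i j g).trans ?_
      nlinarith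
    · simp only [Matrix.fromBlocks_apply₁₂, Sum.elim_inl, Sum.elim_inr, Pi.zero_apply, mul_zero, sub_zero, Matrix.zero_apply,
        MonoidAlgebra.coeff_zero, Finsupp.zero_apply, Int.cast_zero, abs_zero]
      positivity
  · rcases j with j | j
    · simp only [Matrix.fromBlocks_apply₂₁, Sum.elim_inl, Sum.elim_inr, Pi.zero_apply, zero_mul, mul_zero, sub_zero, Matrix.zero_apply,
        MonoidAlgebra.coeff_zero, Finsupp.zero_apply, Int.cast_zero, abs_zero]
      positivity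
    · simp only [Matrix.fromBlocks_apply₂₂, Sum.elim_inr, Pi.zero_apply, mul_zero, sub_zero]
      obtain ⟨h1, h2⟩ := zero_pow_coeff (G := G) k i j g
      rcases Nat.eq_zero_or_pos k with h | h
      · subst h
        rw [if_pos rfl] at h2
        rw [pow_zero x, pow_zero θ, one_mul, mul_one]
        have h3 : (0 : ℝ) ≤ ((((0 : Matrix (Fin m) (Fin m) (MonoidAlgebra ℤ G)) ^ 0) i j).coeff g : ℝ) := by exact_mod_cast h1
        have h4 : ((((0 : Matrix (Fin m) (Fin m) (MonoidAlgebra ℤ G)) ^ 0) i j).coeff g : ℝ) ≤ 1 := by exact_mod_cast h2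
        rw [abs_of_nonneg h3]
        linarith
      · rw [if_neg h.ne'] at h2
        have h3 : (((0 : Matrix (Fin m) (Fin m) (MonoidAlgebra ℤ G)) ^ k) i j).coeff g = 0 := le_antisymm h2 h1
        rw [h3, Int.cast_zero, mul_zero, abs_zero]
        positivity

theorem blk_le (H : Matrix (Fin n) (Fin n) (MonoidAlgebra ℤ G)) {μ C : ℝ} (hμ : 0 < μ) (hC : 0 ≤ C)
    (hx : ∀ k i j g, (((H ^ k) i j).coeff g : ℝ) ≤ C * μ ^ k) :
    ∀ k (i j : Fin n ⊕ Fin m) g, ((((Matrix.fromBlocks H 0 0 0 : Matrix (Fin n ⊕ Fin m) (Fin n ⊕ Fin m) (MonoidAlgebra ℤ G)) ^ k) i j).coeff g : ℝ)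
      ≤ (C + 1) * μ ^ k := by
  intro k i j g
  have hp : 0 < μ ^ k := pow_pos hμ k
  rw [Matrix.fromBlocks_diagonal_pow]
  rcases i with i | i
  · rcases j with j | j
    · simp only [Matrix.fromBlocks_apply₁₁]
      refine (hx k i j g).trans ?_
      nlinarith
    · simp only [Matrix.fromBlocks_apply₁₂, Matrix.zero_apply, MonoidAlgebra.coeff_zero, Finsupp.zero_apply, Int.cast_zero]
      positivity
  · rcases j with j | j
    · simp only [Matrix.fromBlocks_apply₂₁, Matrix.zero_apply, MonoidAlgebra.coeff_zero, Finsupp.zero_apply, Int.cast_zero]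
      positivity
    · simp only [Matrix.fromBlocks_apply₂₂]
      obtain ⟨h1, h2⟩ := zero_pow_coeff (G := G) k i j g
      rcases Nat.eq_zero_or_pos k with h | h
      · subst h
        rw [if_pos rfl] at h2
        have h4 : ((((0 : Matrix (Fin m) (Fin m) (MonoidAlgebra ℤ G)) ^ 0) i j).coeff g : ℝ) ≤ 1 := by exact_mod_cast h2
        rw [pow_zero μ, mul_one]
        linarith
      · rw [if_neg h.ne'] at h2
        have h3 : (((0 : Matrix (Fin m) (Fin m) (MonoidAlgebra ℤ G)) ^ k) i j).coeff g = 0 := le_antisymm h2 h1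
        rw [h3, Int.cast_zero]
        positivity

theorem HH_blk (A : Matrix (Fin n) (Fin n) (MonoidAlgebra ℤ G)) (s : Fin n) :
    HH (Matrix.fromBlocks A 0 0 0 : Matrix (Fin n ⊕ Fin m) (Fin n ⊕ Fin m) (MonoidAlgebra ℤ G)) (Sum.inl s) =
      Matrix.fromBlocks (HH A s) 0 0 0 := by
  ext1 i j
  rw [HH_entry]
  rcases i with i | i
  · rcases j with j | j
    · simp only [Matrix.fromBlocks_apply₁₁, HH_entry, Sum.inl.injEq]
    · simp only [Matrix.fromBlocks_apply₁₂, Matrix.zero_apply, ite_self]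
  · rcases j with j | j
    · simp only [Matrix.fromBlocks_apply₂₁, Matrix.zero_apply, ite_self]
    · simp only [Matrix.fromBlocks_apply₂₂, Matrix.zero_apply, ite_self]

theorem trace_blk (M : Matrix (Fin n) (Fin n) (MonoidAlgebra ℤ G)) (N : Matrix (Fin m) (Fin m) (MonoidAlgebra ℤ G)) :
    Matrix.trace (Matrix.fromBlocks M 0 0 N) = Matrix.trace M + Matrix.trace N := by
  unfold Matrix.trace
  rw [Fintype.sum_sum_type]
  rfl

theorem htr_blk (A : Matrix (Fin n) (Fin n) (MonoidAlgebra ℤ G)) (B : Matrix (Fin m) (Fin m) (MonoidAlgebra ℤ G))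
    (htr : ∀ k, 1 ≤ k → ∀ c, kz (Matrix.trace (A ^ k)) c = kz (Matrix.trace (B ^ k)) c) (k : ℕ) (hk : 1 ≤ k) :
    kap ((iZ (Matrix.fromBlocks A 0 0 0 : Matrix (Fin n ⊕ Fin m) (Fin n ⊕ Fin m) (MonoidAlgebra ℤ G))) ^ k) =
    kap ((iZ (Matrix.fromBlocks 0 0 0 B : Matrix (Fin n ⊕ Fin m) (Fin n ⊕ Fin m) (MonoidAlgebra ℤ G))) ^ k) := by
  rw [← map_pow, ← map_pow]
  funext c
  rw [kap_iZ, kap_iZ, Matrix.fromBlocks_diagonal_pow, Matrix.fromBlocks_diagonal_pow, trace_blk, trace_blk,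
    zero_pow (by omega), zero_pow (by omega), Matrix.trace_zero, Matrix.trace_zero, add_zero, zero_add, htr k hk]

theorem deg_case [Subsingleton G] (B : Matrix (Fin m) (Fin m) (MonoidAlgebra ℤ G)) (L : ℕ) (hL : ∀ k, L ≤ k → B ^ (k + 1) = B ^ k)
    (ht : (Matrix.trace (B ^ L)).coeff 1 = 1) :
    ∃ (R : Matrix (Fin m) (Fin 1) (MonoidAlgebra ℤ G)) (S : Matrix (Fin 1) (Fin m) (MonoidAlgebra ℤ G)),
      B * R = R * (1 : Matrix (Fin 1) (Fin 1) (MonoidAlgebra ℤ G)) ∧ S * B = (1 : Matrix (Fin 1) (Fin 1) (MonoidAlgebra ℤ G)) * S ∧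
        R * S = B ^ L ∧ S * R = (1 : Matrix (Fin 1) (Fin 1) (MonoidAlgebra ℤ G)) ^ L := by
  set φ : MonoidAlgebra ℤ G ≃+* ℤ := MonoidAlgebra.uniqueRingEquiv G with hφ
  have hφ1 : ∀ x, φ x = x.coeff 1 := fun x => by rw [hφ, MonoidAlgebra.uniqueRingEquiv_apply]
  have hpow : ∀ k, (φ.toRingHom.mapMatrix B) ^ k = φ.toRingHom.mapMatrix (B ^ k) := fun k => by rw [map_pow]
  obtain ⟨r, s, h1, h2, h3, h4⟩ := se_of_stable (φ.toRingHom.mapMatrix B) L (fun k hk => by rw [hpow, hpow, hL k hk]) (by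
    rw [hpow, ← ht, ← hφ1, Matrix.trace, Matrix.trace, map_sum]; rfl)
  have hback : ∀ M : Matrix (Fin m) (Fin m) (MonoidAlgebra ℤ G), (φ.toRingHom.mapMatrix M).map φ.symm.toRingHom = M := by
    intro M
    ext1 i j
    exact φ.symm_apply_apply (M i j)
  refine ⟨r.map φ.symm.toRingHom, s.map φ.symm.toRingHom, ?_, ?_, ?_, ?_⟩
  · rw [Matrix.mul_one]
    conv_lhs => rw [← hback B]
    rw [← Matrix.map_mul, h1]
  · rw [Matrix.one_mul]
    conv_lhs => rw [← hback B]
    rw [← Matrix.map_mul, h2]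
  · rw [← Matrix.map_mul, h3, hpow, hback]
  · rw [← Matrix.map_mul, h4, one_pow, Matrix.map_one _ (map_zero _) (map_one _)]

theorem asm (A : Matrix (Fin n) (Fin n) (MonoidAlgebra ℤ G)) (B : Matrix (Fin m) (Fin m) (MonoidAlgebra ℤ G)) (hn : 0 < n)
    (hA0 : ∀ i j g, 0 ≤ (A i j).coeff g) (p : ℕ) (hp : 0 < p) (hAp : ∀ i j g, 1 ≤ ((A ^ p) i j).coeff g)
    (htr : ∀ k, 1 ≤ k → ∀ c, kz (Matrix.trace (A ^ k)) c = kz (Matrix.trace (B ^ k)) c) :
    ∃ (Ω : Type) (_ : Fintype Ω) (_ : DecidableEq Ω) (_ : Nonempty Ω) (Cm : Matrix Ω Ω (MonoidAlgebra ℤ G)), Nm Cm ∧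
      (∃ p, 0 < p ∧ ∀ x y, Rf Cm p x y) ∧
      ∃ (l : ℕ) (R : Matrix (Fin m) Ω (MonoidAlgebra ℤ G)) (S : Matrix Ω (Fin m) (MonoidAlgebra ℤ G)), 0 < l ∧
        B * R = R * Cm ∧ S * B = Cm * S ∧ R * S = B ^ l ∧ S * R = Cm ^ l := by
  have hNA : Nm A := hA0
  haveI : Nonempty (Fin n) := ⟨⟨0, hn⟩⟩
  set s0 : Fin n := ⟨0, hn⟩ with hs0
  -- iterates
  have hit : ∀ t, ∀ i j, Rf A (p * (t + 1)) i j := by
    intro t
    induction t with
    | zero => intro i j g; rw [zero_add, mul_one]; exact hAp i j g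
    | succ t ih =>
      intro i j
      have h1 := (ih i j).trans hNA (Rf.s (fun g => hAp j j g) : Rs A p j j)
      rwa [← mul_add_one] at h1
  -- m > 0
  have hm : 0 < m := by
    rcases Nat.eq_zero_or_pos m with h | h
    · exfalso
      subst h
      have h1 := htr p hp (ConjClasses.mk 1)
      have h2 : Matrix.trace (B ^ p) = 0 := by unfold Matrix.trace; simp
      rw [h2, kz_zero] at h1
      have h3 : 1 ≤ kz (Matrix.trace (A ^ p)) (ConjClasses.mk 1) := by
        apply kz_pos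
        · intro g
          unfold Matrix.trace
          rw [MonoidAlgebra.coeff_sum, Finsupp.finsetSum_apply]
          exact Finset.sum_nonneg fun i _ => (hNA.pow p) i i g
        · unfold Matrix.trace
          rw [MonoidAlgebra.coeff_sum, Finsupp.finsetSum_apply]
          refine le_trans (hAp s0 s0 1) ?_
          exact Finset.single_le_sum (f := fun i => (Matrix.diag (A ^ p) i).coeff 1) (fun i _ => (hNA.pow p) i i 1) (Finset.mem_univ s0)
      omega
    · exact h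
  obtain ⟨lam, θ, C, r, l, hlam0, hθ0, hθ1, hC, hr, hl, hsum, hlim, hrem⟩ := a_side A (HH A s0) hA0 p hp hAp s0
    (fun i j g => by
      rw [HH_entry]
      split_ifs
      · simp
      · exact hA0 i j g)
    (fun i j g => by
      rw [HH_entry]
      split_ifs
      · simpa using hA0 i j g
      · exact le_rfl)
    (fun i => by rw [HH_entry, if_pos (Or.inr rfl)])
  have hcG := card_pos' (G := G)
  -- the data for the enlarged matrices
  set Ah : Matrix (Fin n ⊕ Fin m) (Fin n ⊕ Fin m) (MonoidAlgebra ℤ G) := Matrix.fromBlocks A 0 0 0 with hAh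
  set Bh : Matrix (Fin n ⊕ Fin m) (Fin n ⊕ Fin m) (MonoidAlgebra ℤ G) := Matrix.fromBlocks 0 0 0 B with hBh
  have hlimh := blk_lim (m := m) A hθ0 hC r l hlim
  have hremh := blk_le (m := m) (HH A s0) (mul_pos hlam0 hθ0) hC hrem
  rw [← HH_blk, ← hAh] at hremh
  rw [← hAh] at hlimh
  have hsumh : (Fintype.card G : ℝ) * ∑ i : Fin n ⊕ Fin m, (Sum.elim r 0 i : ℝ) * (Sum.elim l 0 i : ℝ) = 1 := by
    rw [Fintype.sum_sum_type, ← hsum]
    simp
  have hABh := fun k hk => htr_blk A B htr k hk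
  rw [← hAh, ← hBh] at hABh
  -- lam ≥ 1
  have hlam1 : 1 ≤ lam := by
    by_contra h
    rw [not_le] at h
    have h1 : 1 < lam⁻¹ := (one_lt_inv₀ hlam0).mpr h
    obtain ⟨N, hN⟩ := eventually_atTop.mp ((tendsto_pow_atTop_atTop_of_one_lt h1).eventually_gt_atTop (r s0 * l s0 + C))
    have h2 := hN (p * (N + 1)) (by nlinarith)
    have h3 := (abs_le.mp (hlim (p * (N + 1)) s0 s0 1)).2
    have h4 : (1 : ℝ) ≤ (((A ^ (p * (N + 1))) s0 s0).coeff 1 : ℝ) := by exact_mod_cast hit N s0 s0 1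
    have h5 : θ ^ (p * (N + 1)) ≤ 1 := pow_le_one₀ hθ0.le hθ1.le
    have h6 : 0 < lam⁻¹ ^ (p * (N + 1)) := by positivity
    nlinarith
  rcases hlam1.lt_or_eq with hlam | hlam
  · -- the main case
    haveI : Nontrivial (Fin n ⊕ Fin m) := ⟨Sum.inl s0, Sum.inr ⟨0, hm⟩, by simp⟩
    obtain ⟨Y, W, q, dq, K, Z, hY, hW, hq, hq0, hqd, hqh, hZ, hZ0, hZK, hM⟩ := main1 Ah Bh (Sum.inl s0)
      (by
        intro i j g
        rcases i with i | i
        · rcases j with j | j
          · exact hA0 i j g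
          · simp [hAh]
        · rcases j with j | j
          · simp [hAh]
          · simp [hAh])
      hlam hθ0 hθ1 (by linarith : 0 ≤ C + 1) (Sum.elim r 0) (Sum.elim l 0) (by simpa using mul_pos (hr s0) (hl s0)) hsumh hlimh hremh
      hABh (by
        intro j
        rcases j with j | j
        · rfl
        · rfl)
    obtain ⟨d, T, hd, hCE, hNm, p', hp', hRf⟩ := trunc_main Bh (Sum.inl s0) Y W q dq K Z hY hW hq hq0 hqd hqh hZ hZ0 hZK hM
    obtain ⟨L, P, Q, e1, e2, e3, e4⟩ := hCE.se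
    obtain ⟨R, S, c1, c2, c3, c4⟩ := se_corner B (compn d T) L P Q e1 e2 e3 e4
    haveI : Nonempty (Fin d) := ⟨⟨0, hd⟩⟩
    exact ⟨Fin d × ((Fin n ⊕ Fin m) ⊕ (Fin n ⊕ Fin m)), inferInstance, inferInstance, inferInstance, compn d T, hNm, ⟨p', hp', hRf⟩,
      L + 1, R, S, Nat.succ_pos _, c1, c2, c3, c4⟩
  · -- the degenerate case
    subst hlam
    have h1 : ∀ i, 1 ≤ r i * l i := by
      intro i
      by_contra h
      rw [not_le] at h
      have h2 : Tendsto (fun k => C * θ ^ k) atTop (𝓝 (C * 0)) := (tendsto_pow_atTop_nhds_zero_of_lt_one hθ0.le hθ1).const_mul C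
      rw [mul_zero] at h2
      obtain ⟨N, hN⟩ := eventually_atTop.mp (h2.eventually_lt_const (sub_pos.mpr h))
      have h3 := hN (p * (N + 1)) (by nlinarith)
      have h4 := (abs_le.mp (hlim (p * (N + 1)) i i 1)).2
      have h5 : (1 : ℝ) ≤ (((A ^ (p * (N + 1))) i i).coeff 1 : ℝ) := by exact_mod_cast hit N i i 1
      rw [inv_one, one_pow, one_mul] at h4
      linarith
    have h2 : (Fintype.card G : ℝ) * n ≤ 1 := by
      rw [← hsum]
      apply mul_le_mul_of_nonneg_left _ hcG.le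
      calc (n : ℝ) = ∑ i : Fin n, (1 : ℝ) := by simp
        _ ≤ _ := Finset.sum_le_sum fun i _ => h1 i
    have h3 : Fintype.card G * n ≤ 1 := by exact_mod_cast h2
    have hcGn : 0 < Fintype.card G := Fintype.card_pos
    have h4 : n = 1 := by nlinarith
    have h5 : Fintype.card G ≤ 1 := by nlinarith
    haveI : Subsingleton G := Fintype.card_le_one_iff_subsingleton.mp h5
    have h5' : Fintype.card G = 1 := by omega
    obtain ⟨L0, hL0⟩ := stable_of_lam_one Ah Bh hθ0 hθ1 (by linarith : 0 ≤ C + 1) (Sum.elim r 0) (Sum.elim l 0) hsumh hlimh hABh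
    have hBst : ∀ k, L0 ≤ k → B ^ (k + 1) = B ^ k := by
      intro k hk
      have := hL0 k hk
      rw [hBh, Matrix.fromBlocks_diagonal_pow, Matrix.fromBlocks_diagonal_pow] at this
      exact (Matrix.fromBlocks_inj.mp this).2.2.2
    subst h4
    have h6 : r s0 * l s0 = 1 := by
      rw [h5', Fin.sum_univ_one, Nat.cast_one, one_mul] at hsum
      exact hsum
    have h7 : Tendsto (fun k => C * θ ^ k) atTop (𝓝 (C * 0)) := (tendsto_pow_atTop_nhds_zero_of_lt_one hθ0.le hθ1).const_mul C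
    rw [mul_zero] at h7
    obtain ⟨N, hN⟩ := eventually_atTop.mp (h7.eventually_lt_const one_pos)
    have h8 : ∀ k, N ≤ k → ((A ^ k) s0 s0).coeff 1 = 1 := by
      intro k hk
      have h9 := (hlim k s0 s0 1).trans_lt (hN k hk)
      rw [inv_one, one_pow, one_mul, h6] at h9
      have h10 : |((A ^ k) s0 s0).coeff 1 - 1| < 1 := by exact_mod_cast h9
      rw [Int.abs_lt_one_iff] at h10
      omega
    have h9 : (Matrix.trace (B ^ (L0 + N + 1))).coeff 1 = 1 := by
      rw [← kz_sub1, ← htr _ (by omega), kz_sub1, Matrix.trace, Fin.sum_univ_one]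
      exact h8 _ (by omega)
    obtain ⟨R, S, c1, c2, c3, c4⟩ := deg_case B (L0 + N + 1) (fun k hk => hBst k (by omega)) h9
    refine ⟨Fin 1, inferInstance, inferInstance, inferInstance, 1, Nm.one, ⟨1, one_pos, ?_⟩, L0 + N + 1, R, S, by omega, c1, c2, c3, c4⟩
    intro x y g
    have hx : x = y := Subsingleton.elim _ _
    have hg : g = 1 := Subsingleton.elim _ _
    rw [hx, hg, pow_one, Matrix.one_apply_eq, one_coeff_one]

end asm

end Pool.Agent.W717.G
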