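import Mathlib
import Pool.Agent.W717.G.Asm

set_option autoImplicit false
set_option linter.all false

namespace Pool.Agent.W717.G

open Finset

theorem se_final (G : Type) [Group G] [Fintype G] (n m : ℕ)
    (A : Matrix (Fin n) (Fin n) (MonoidAlgebra ℤ G)) (B : Matrix (Fin m) (Fin m) (MonoidAlgebra ℤ G)) (hn : 0 < n)
    (hA0 : ∀ i j g, 0 ≤ (A i j).coeff g) (hAp : ∃ p, 0 < p ∧ ∀ i j g, 1 ≤ ((A ^ p) i j).coeff g)
    (htr : ∀ k, 1 ≤ k → ∀ c, kz (Matrix.trace (A ^ k)) c = kz (Matrix.trace (B ^ k)) c) :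
    ∃ (k : ℕ) (C : Matrix (Fin k) (Fin k) (MonoidAlgebra ℤ G)), 0 < k ∧ (∀ i j g, 0 ≤ (C i j).coeff g) ∧
      (∃ p, 0 < p ∧ ∀ i j g, 1 ≤ ((C ^ p) i j).coeff g) ∧
      ∃ (l : ℕ) (R : Matrix (Fin m) (Fin k) (MonoidAlgebra ℤ G)) (S : Matrix (Fin k) (Fin m) (MonoidAlgebra ℤ G)), 0 < l ∧
        B * R = R * C ∧ S * B = C * S ∧ R * S = B ^ l ∧ S * R = C ^ l := by
  classical
  obtain ⟨p, hp, hAp⟩ := hAp
  obtain ⟨Ω, _, _, _, Cm, hN, ⟨q, hq, hR⟩, l, R, S, hl, e1, e2, e3, e4⟩ := asm A B hn hA0 p hp hAp htr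
  set e : Fin (Fintype.card Ω) ≃ Ω := (Fintype.equivFin Ω).symm with he
  have hpow : ∀ k, (Cm.submatrix e e) ^ k = (Cm ^ k).submatrix e e := by
    intro k
    have := map_pow (Matrix.reindexRingEquiv (MonoidAlgebra ℤ G) e.symm) Cm k
    exact this.symm
  refine ⟨Fintype.card Ω, Cm.submatrix e e, Fintype.card_pos, fun i j g => hN _ _ g, ⟨q, hq, ?_⟩, l, R.submatrix id e,
    S.submatrix e id, hl, ?_, ?_, ?_, ?_⟩
  · intro i j g
    rw [hpow]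
    exact hR _ _ g
  · rw [Matrix.submatrix_mul_equiv, ← e1]
    rfl
  · rw [Matrix.submatrix_mul_equiv, ← e2]
    rfl
  · rw [Matrix.submatrix_mul_equiv, e3]
    rfl
  · rw [hpow, ← e4]
    rfl

theorem se_final' (G : Type) [Group G] [Fintype G] (n m : ℕ)
    (A : Matrix (Fin n) (Fin n) (MonoidAlgebra ℤ G)) (B : Matrix (Fin m) (Fin m) (MonoidAlgebra ℤ G)) (hn : 0 < n)
    (hA0 : ∀ i j, A i j ∈ AddSubmonoid.closure (Set.range (fun g : G => MonoidAlgebra.of ℤ G g)))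
    (hAp : ∃ p : ℕ, 0 < p ∧ ∀ i j, (A ^ p) i j - ∑ g : G, MonoidAlgebra.of ℤ G g ∈ AddSubmonoid.closure
            (Set.range (fun g : G => MonoidAlgebra.of ℤ G g)))
    (htr : ∀ k, 1 ≤ k → ∀ c, kz (Matrix.trace (A ^ k)) c = kz (Matrix.trace (B ^ k)) c) :
    ∃ (k : ℕ) (C : Matrix (Fin k) (Fin k) (MonoidAlgebra ℤ G)), 0 < k ∧
      (∀ i j, C i j ∈ AddSubmonoid.closure (Set.range (fun g : G => MonoidAlgebra.of ℤ G g))) ∧
      (∃ p : ℕ, 0 < p ∧ ∀ i j, (C ^ p) i j - ∑ g : G, MonoidAlgebra.of ℤ G g ∈ AddSubmonoid.closure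
            (Set.range (fun g : G => MonoidAlgebra.of ℤ G g))) ∧
      ∃ (l : ℕ) (R : Matrix (Fin m) (Fin k) (MonoidAlgebra ℤ G)) (S : Matrix (Fin k) (Fin m) (MonoidAlgebra ℤ G)), 0 < l ∧
        B * R = R * C ∧ S * B = C * S ∧ R * S = B ^ l ∧ S * R = C ^ l := by
  classical
  obtain ⟨p, hp, hAp⟩ := hAp
  obtain ⟨k, C, h1, h2, ⟨q, hq, h3⟩, h4⟩ := se_final G n m A B hn (fun i j => (closure_iff _).mp (hA0 i j))
    ⟨p, hp, fun i j => (closure_iff' _).mp (hAp i j)⟩ htr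
  exact ⟨k, C, h1, fun i j => (closure_iff _).mpr (h2 i j), ⟨q, hq, fun i j => (closure_iff' _).mpr (h3 i j)⟩, h4⟩

end Pool.Agent.W717.G
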