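import Mathlib

set_option autoImplicit false
set_option linter.all false

namespace Pool.Agent.W717.G

open Finset

section jacR

variable {R : Type*} [CommRing R] {Ω : Type*} [Fintype Ω] [DecidableEq Ω]

open Polynomial in
/-- Jacobi's formula -/
theorem jacobiR (N : Matrix Ω Ω R[X]) : derivative N.det = (N.adjugate * N.map derivative).trace := by
  have h1 : ∀ j, (N.adjugate * N.map derivative) j j = (N.updateCol j (fun x => derivative (N x j))).det := by
    intro j
    rw [← Matrix.cramer_apply, Matrix.cramer_eq_adjugate_mulVec]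
    rfl
  rw [Matrix.trace]
  simp only [Matrix.diag_apply, h1]
  rw [Matrix.det_apply, derivative_sum]
  simp only [Matrix.det_apply]
  rw [Finset.sum_comm]
  apply Finset.sum_congr rfl
  intro σ _
  rw [← Finset.smul_sum]
  have h2 : derivative (∏ i, N (σ i) i) = ∑ j, ∏ i, (N.updateCol j (fun x => derivative (N x j))) (σ i) i := by
    rw [derivative_prod_finset]
    apply Finset.sum_congr rfl
    intro j _
    rw [← Finset.prod_erase_mul _ _ (Finset.mem_univ j)]
    congr 1
    · apply Finset.prod_congr rfl
      intro i hi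
      rw [Finset.mem_erase] at hi
      rw [Matrix.updateCol_ne hi.1]
    · rw [Matrix.updateCol_self]
  rw [← h2, Units.smul_def, Units.smul_def, zsmul_eq_mul, zsmul_eq_mul]
  rw [Polynomial.derivative_mul, Polynomial.derivative_intCast, zero_mul, zero_add]

open Polynomial in
theorem det_seriesR (M : Matrix Ω Ω R) : (1 - (X : R[X]) • M.map C).det.coeff 0 = 1 ∧
    ∀ k : ℕ, (k : R) * (1 - (X : R[X]) • M.map C).det.coeff k =
      - ∑ j ∈ range k, (1 - (X : R[X]) • M.map C).det.coeff j * (M ^ (k - j)).trace := by
  set N : Matrix Ω Ω R[X] := 1 - (X : R[X]) • M.map C with hN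
  have hF0 : N.det.coeff 0 = 1 := by
    have := Matrix.eval_charpolyRev (M := M)
    rw [Matrix.charpolyRev] at this
    rw [Polynomial.coeff_zero_eq_eval_zero]; exact this
  have hadj := Matrix.mul_adjugate N
  have hAd0 : (N.adjugate).map (fun p => p.coeff 0) = N.det.coeff 0 • (1 : Matrix Ω Ω R) := by
    have h1 := congrArg (fun m : Matrix Ω Ω R[X] => m.map (fun p => p.coeff 0)) hadj
    ext x y
    have h2 := congrFun (congrFun h1 x) y
    rw [hN, sub_mul, one_mul] at h2
    simp only [Matrix.map_apply, Matrix.sub_apply, Matrix.smul_mul, Matrix.smul_apply, smul_eq_mul, Polynomial.coeff_sub,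
      Polynomial.mul_coeff_zero, Polynomial.coeff_X_zero, zero_mul, sub_zero] at h2
    rw [← hN] at h2
    rw [Matrix.map_apply, Matrix.smul_apply, h2, smul_eq_mul]
    congr 1
    rw [Matrix.one_apply, Matrix.one_apply]
    split_ifs <;> simp
  have hAdS : ∀ k, (N.adjugate).map (fun p => p.coeff (k + 1)) = N.det.coeff (k + 1) • (1 : Matrix Ω Ω R) +
      M * (N.adjugate).map (fun p => p.coeff k) := by
    intro k
    have h1 := congrArg (fun m : Matrix Ω Ω R[X] => m.map (fun p => p.coeff (k + 1))) hadj
    ext x y
    have h2 := congrFun (congrFun h1 x) y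
    rw [hN, sub_mul, one_mul] at h2
    simp only [Matrix.map_apply, Matrix.sub_apply, Matrix.smul_mul, Matrix.smul_apply, smul_eq_mul, Polynomial.coeff_sub,
      Polynomial.coeff_X_mul, Matrix.mul_apply, Polynomial.finset_sum_coeff, Polynomial.coeff_C_mul] at h2
    rw [← hN] at h2
    rw [Matrix.map_apply, Matrix.add_apply, Matrix.smul_apply, Matrix.mul_apply]
    simp only [Matrix.map_apply]
    have h3 : (N.det * (1 : Matrix Ω Ω R[X]) x y).coeff (k + 1) = N.det.coeff (k + 1) • (1 : Matrix Ω Ω R) x y := by
      rw [Matrix.one_apply, Matrix.one_apply]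
      split_ifs <;> simp
    rw [h3] at h2
    exact sub_eq_iff_eq_add.mp h2
  have hAd : ∀ k, (N.adjugate).map (fun p => p.coeff k) = ∑ j ∈ range (k + 1), N.det.coeff j • M ^ (k - j) := by
    intro k
    induction k with
    | zero => rw [hAd0]; simp
    | succ k ih =>
      rw [hAdS, ih, Finset.sum_range_succ _ (k + 1), Nat.sub_self, pow_zero, add_comm]
      congr 1
      rw [Finset.mul_sum]
      apply Finset.sum_congr rfl
      intro j hj
      rw [Finset.mem_range] at hj
      rw [Matrix.mul_smul, ← pow_succ']
      congr 2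
      omega
  refine ⟨hF0, ?_⟩
  · intro k
    cases k with
    | zero => simp
    | succ k =>
      have h1 := congrArg (fun p => p.coeff k) (jacobiR N)
      simp only [Polynomial.coeff_derivative] at h1
      have h2 : N.map derivative = - M.map C := by
        ext1 x y
        rw [Matrix.map_apply, hN, Matrix.sub_apply, Matrix.smul_apply, Matrix.map_apply, Matrix.neg_apply, Matrix.map_apply,
          Polynomial.derivative_sub, smul_eq_mul, Polynomial.derivative_mul, Polynomial.derivative_X, Polynomial.derivative_C,
          one_mul, mul_zero, add_zero, Matrix.one_apply]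
        split_ifs <;> simp
      rw [h2, Matrix.mul_neg, Matrix.trace_neg, Polynomial.coeff_neg] at h1
      have h3 : ((N.adjugate * M.map C).trace).coeff k = ((N.adjugate).map (fun p => p.coeff k) * M).trace := by
        simp only [Matrix.trace, Matrix.diag_apply, Polynomial.finset_sum_coeff, Matrix.mul_apply, Matrix.map_apply,
          Polynomial.coeff_mul_C]
      rw [h3, hAd, Finset.sum_mul, Matrix.trace_sum] at h1
      have h4 : ∀ j ∈ range (k + 1), (N.det.coeff j • M ^ (k - j) * M).trace = N.det.coeff j * (M ^ (k + 1 - j)).trace := by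
        intro j hj
        rw [Finset.mem_range] at hj
        rw [Matrix.smul_mul, Matrix.trace_smul, smul_eq_mul, ← pow_succ]
        congr 3
        omega
      rw [Finset.sum_congr rfl h4] at h1
      push_cast
      rw [← h1]; ring

/-- equal determinants give equal traces of powers -/
theorem trace_eq_of_det {Ω' : Type*} [Fintype Ω'] [DecidableEq Ω'] (M : Matrix Ω Ω R) (M' : Matrix Ω' Ω' R)
    (h : (1 - (Polynomial.X : Polynomial R) • M.map Polynomial.C).det = (1 - (Polynomial.X : Polynomial R) • M'.map Polynomial.C).det) :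
    ∀ k, 1 ≤ k → (M ^ k).trace = (M' ^ k).trace := by
  obtain ⟨h0, h1⟩ := det_seriesR M
  obtain ⟨h0', h1'⟩ := det_seriesR M'
  intro k
  induction k using Nat.strong_induction_on with
  | _ k ih =>
    intro hk
    obtain ⟨t, rfl⟩ : ∃ t, k = t + 1 := ⟨k - 1, by omega⟩
    have e1 := h1 (t + 1)
    have e2 := h1' (t + 1)
    rw [← h, e1, Finset.sum_range_succ', Finset.sum_range_succ'] at e2
    have e3 : ∀ j ∈ range t, (1 - (Polynomial.X : Polynomial R) • M.map Polynomial.C).det.coeff (j + 1) * (M ^ (t + 1 - (j + 1))).trace =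
        (1 - (Polynomial.X : Polynomial R) • M.map Polynomial.C).det.coeff (j + 1) * (M' ^ (t + 1 - (j + 1))).trace := by
      intro j hj
      rw [Finset.mem_range] at hj
      rw [ih (t + 1 - (j + 1)) (by omega) (by omega)]
    rw [Finset.sum_congr rfl e3, h0, one_mul, one_mul, neg_inj, add_right_inj] at e2
    exact e2

end jacR

end Pool.Agent.W717.G
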